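import Pool.Agent.WD.A1

/-!
# MP_827cb6_ag : towers of Artin-Schreier extensions, abstract setting

`L` is a field with an embedding `phi` into `k((t^ℚ))`, with constants `cc : k → L` and a
derivation `dd`. The valuation of `x` is the order of `phi x`.
-/

namespace Pool.Agent.WC

open Pool.Agent.WD

noncomputable section

universe u w

/-- a rational number as a value -/
abbrev qv (x : ℚ) : WithTop ℚ := (x : WithTop ℚ)

/-- a field between `k` and `k((t^ℚ))` with a derivation -/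
structure VF (k : Type u) [Field k] (L : Type w) [Field L] where
  phi : L →+* Om k
  dd : Derivation ℤ L L
  cc : k →+* L
  hcc : ∀ a, phi (cc a) = HahnSeries.C a

variable {p : ℕ} {k : Type u} [Field k] {L : Type w} [Field L]

/-- the valuation -/
def VF.v (V : VF k L) (x : L) : WithTop ℚ := (V.phi x).orderTop

/-- the subfield `M` contains `k`, and its value group is `p^{-e} ℤ` -/
def Lvl (p : ℕ) (V : VF k L) (M : Subfield L) (e : ℕ) : Prop :=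
  (∀ a, V.cc a ∈ M) ∧ (∀ x ∈ M, x ≠ 0 → ∃ z : ℤ, V.v x = qv ((z : ℚ) / (p : ℚ) ^ e)) ∧
    ∀ z : ℤ, ∃ x ∈ M, V.v x = qv ((z : ℚ) / (p : ℚ) ^ e)

/-- on `M` the derivation lowers the valuation by at most `δ`, and by exactly `δ` if the valuation
is prime to `p` -/
def Dv (p : ℕ) (V : VF k L) (M : Subfield L) (e : ℕ) (δ : ℚ) : Prop :=
  ∀ x ∈ M, ∀ z : ℤ, V.v x = qv ((z : ℚ) / (p : ℚ) ^ e) →
    qv ((z : ℚ) / (p : ℚ) ^ e - δ) ≤ V.v (V.dd x) ∧
      (¬ (p : ℤ) ∣ z → V.v (V.dd x) = qv ((z : ℚ) / (p : ℚ) ^ e - δ))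

/-- `M(y)` -/
def adj (M : Subfield L) (y : L) : Subfield L := Subfield.closure ((M : Set L) ∪ {y})

/-- filtration of the Witt vectors: `v(a_i) ≥ -x p^i` for `i < n` -/
def Fl (p : ℕ) [Fact p.Prime] (V : VF k L) (x : ℚ) (n : ℕ) (a : WittVector p L) : Prop :=
  ∀ i < n, qv (-x * (p : ℚ) ^ i) ≤ V.v (a.coeff i)

/-- the first `n` coordinates are in `M` -/
def InM (p : ℕ) [Fact p.Prime] (M : Subfield L) (n : ℕ) (a : WittVector p L) : Prop :=
  ∀ i < n, a.coeff i ∈ M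

/-- reduced Witt vectors -/
def Red (p : ℕ) [Fact p.Prime] (V : VF k L) (e n : ℕ) (g : WittVector p L) : Prop :=
  ∀ i < n, 0 ≤ V.v (g.coeff i) ∨
    ∃ l : ℤ, ¬ (p : ℤ) ∣ l ∧ V.v (g.coeff i) = qv ((l : ℚ) / (p : ℚ) ^ e)

/-- `F^s d` of the Witt vector `(a_0, ..., a_s)`: `∑_{i ≤ s} a_i^(p^(s-i) - 1) d a_i` -/
def Ds (p : ℕ) [Fact p.Prime] (V : VF k L) (s : ℕ) (a : WittVector p L) : L :=
  ∑ i ∈ Finset.range (s + 1), a.coeff i ^ (p ^ (s - i) - 1) * V.dd (a.coeff i)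

/-- `B = max_{i ≤ s} p^(s-i) (-v(g_i))` -/
def Bd (p : ℕ) [Fact p.Prime] (V : VF k L) (s : ℕ) (B : ℚ) (g : WittVector p L) : Prop :=
  (∀ i ≤ s, qv (-B * (p : ℚ) ^ i / (p : ℚ) ^ s) ≤ V.v (g.coeff i)) ∧
    ∃ i ≤ s, V.v (g.coeff i) = qv (-B * (p : ℚ) ^ i / (p : ℚ) ^ s)

/-- `Y_s = β_s / p - ∑_{i < s} (p - 1) β_i / p^(s-i+1)` -/
def Yb (p : ℕ) (β : ℕ → ℚ) (s : ℕ) : ℚ :=
  β s / p - ∑ i ∈ Finset.range s, ((p : ℚ) - 1) * β i / (p : ℚ) ^ (s - i + 1)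

/-- the data of a step of the tower -/
structure TD (p : ℕ) [Fact p.Prime] (V : VF k L) (n e : ℕ) (δ : ℚ) (M : Subfield L)
    (g z : WittVector p L) (β : ℕ → ℚ) : Prop where
  lvl : Lvl p V M e
  dv : Dv p V M e δ
  eq : ∀ i < n, (WittVector.frobenius z - z).coeff i = g.coeff i
  gM : InM p M n g
  red : Red p V e n g
  bd : ∀ s < n, Bd p V s (β s) g
  pos : 0 < n → 0 < β 0

end

end Pool.Agent.WC
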