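import Pool.Agent.WD.A1

/-!
# Artin-Schreier and Artin-Schreier-Witt equations in `k((t^ℚ))` (piece WC-W1)
-/

namespace Pool.Agent.WC

open Pool.Agent.WD

universe u

private theorem root_pwo {S : Set ℚ} {T : ℕ → Set ℚ} (hT : ∀ n, (T n).IsPWO)
    (h : ∀ q₀ ∈ S, ∃ N : ℕ, ∀ q ∈ S, q ≤ q₀ → ∃ n < N, q ∈ T n) : S.IsPWO := by
  rw [Set.isPWO_iff_isWF, Set.isWF_iff_no_descending_seq]
  intro f hf hmem
  obtain ⟨N, hN⟩ := h (f 0) (hmem 0)
  have hU : (⋃ n ∈ Finset.range N, T n).IsPWO :=
    (Finset.isPWO_bUnion _).2 fun n _ => hT n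
  rw [Set.isPWO_iff_isWF, Set.isWF_iff_no_descending_seq] at hU
  refine hU f hf fun i => ?_
  obtain ⟨n, hn, hq⟩ := hN (f i) (hmem i) (hf.antitone (Nat.zero_le i))
  exact Set.mem_biUnion (Finset.mem_coe.2 (Finset.mem_range.2 hn)) hq

private theorem root_lt_pow (p : ℕ) (hp : 1 < p) (n : ℕ) : (n : ℚ) < (p : ℚ) ^ n := by
  exact_mod_cast Nat.lt_pow_self hp

/-- If `S ⊆ ℚ_{<0}` is well ordered, so is the union of the `p^{-n} S`, `n ≥ 1`: in a decreasing
sequence `x_i ∈ p^{-n_i} S` the `n_i` are bounded, because `x_i ≤ x_0 < 0`. -/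
theorem isPWO_neg (p : ℕ) (hp : 1 < p) (S : Set ℚ) (hS : S.IsPWO) (h : ∀ q ∈ S, q < 0) :
    {q : ℚ | ∃ n : ℕ, (p : ℚ) ^ (n + 1) * q ∈ S}.IsPWO := by
  have hp0 : (0 : ℚ) < p := by exact_mod_cast (by omega : 0 < p)
  refine root_pwo (T := fun n => (fun q : ℚ => q / (p : ℚ) ^ (n + 1)) '' S) (fun n => ?_) ?_
  · refine hS.image_of_monotone fun a b hab => ?_
    show a / (p : ℚ) ^ (n + 1) ≤ b / (p : ℚ) ^ (n + 1)
    exact div_le_div_of_nonneg_right hab (pow_pos hp0 _).le
  · rintro q₀ ⟨n₀, hn₀⟩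
    have hq₀ : q₀ < 0 := by
      have h1 := h _ hn₀
      by_contra h2
      have := mul_nonneg (pow_pos hp0 (n₀ + 1)).le (not_lt.1 h2)
      linarith
    set m := hS.isWF.min ⟨_, hn₀⟩ with hm
    refine ⟨⌈m / q₀⌉₊ + 1, ?_⟩
    rintro q ⟨n, hn⟩ hq
    refine ⟨n, ?_, (p : ℚ) ^ (n + 1) * q, hn, ?_⟩
    · have h1 : m ≤ (p : ℚ) ^ (n + 1) * q := hS.isWF.min_le ⟨_, hn₀⟩ hn
      have h2 : (p : ℚ) ^ (n + 1) * q ≤ (p : ℚ) ^ (n + 1) * q₀ :=
        mul_le_mul_of_nonneg_left hq (pow_pos hp0 _).le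
      have h3 : (p : ℚ) ^ (n + 1) ≤ m / q₀ := (le_div_iff_of_neg hq₀).2 (h1.trans h2)
      have h4 := root_lt_pow p hp (n + 1)
      have h5 : m / q₀ ≤ ⌈m / q₀⌉₊ := Nat.le_ceil _
      have h6 : ((n + 1 : ℕ) : ℚ) < ⌈m / q₀⌉₊ := by linarith
      have h7 : n + 1 < ⌈m / q₀⌉₊ := by exact_mod_cast h6
      omega
    · show (p : ℚ) ^ (n + 1) * q / (p : ℚ) ^ (n + 1) = q
      rw [mul_div_cancel_left₀ _ (pow_pos hp0 _).ne']

theorem isPWO_pos (p : ℕ) (hp : 1 < p) (S : Set ℚ) (hS : S.IsPWO) (h : ∀ q ∈ S, 0 < q) :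
    {q : ℚ | ∃ n : ℕ, q / (p : ℚ) ^ n ∈ S}.IsPWO := by
  have hp0 : (0 : ℚ) < p := by exact_mod_cast (by omega : 0 < p)
  refine root_pwo (T := fun n => (fun q : ℚ => q * (p : ℚ) ^ n) '' S) (fun n => ?_) ?_
  · refine hS.image_of_monotone fun a b hab => ?_
    exact mul_le_mul_of_nonneg_right hab (pow_pos hp0 _).le
  · rintro q₀ ⟨n₀, hn₀⟩
    set m := hS.isWF.min ⟨_, hn₀⟩ with hm
    have hm0 : 0 < m := h _ (hS.isWF.min_mem ⟨_, hn₀⟩)
    refine ⟨⌈q₀ / m⌉₊ + 1, ?_⟩
    rintro q ⟨n, hn⟩ hq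
    refine ⟨n, ?_, q / (p : ℚ) ^ n, hn, ?_⟩
    · have h1 : m ≤ q / (p : ℚ) ^ n := hS.isWF.min_le ⟨_, hn₀⟩ hn
      have h2 : m * (p : ℚ) ^ n ≤ q := (le_div_iff₀ (pow_pos hp0 _)).1 h1
      have h3 : (p : ℚ) ^ n ≤ q₀ / m := by
        rw [le_div_iff₀ hm0]
        linarith
      have h4 := root_lt_pow p hp n
      have h5 : q₀ / m ≤ ⌈q₀ / m⌉₊ := Nat.le_ceil _
      have h6 : ((n : ℕ) : ℚ) < ⌈q₀ / m⌉₊ := by linarith
      have h7 : n < ⌈q₀ / m⌉₊ := by exact_mod_cast h6
      omega
    · show q / (p : ℚ) ^ n * (p : ℚ) ^ n = q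
      rw [div_mul_cancel₀ _ (pow_pos hp0 _).ne']

private theorem root_finsum_range {k : Type u} [Field k] {a : ℕ → k} {N : ℕ}
    (h : ∀ n, N ≤ n → a n = 0) : ∑ᶠ n, a n = ∑ n ∈ Finset.range N, a n := by
  refine finsum_eq_sum_of_support_subset _ fun n hn => ?_
  rw [Finset.mem_coe, Finset.mem_range]
  by_contra hlt
  exact hn (h n (not_lt.1 hlt))

private theorem root_finsum_succ {k : Type u} [Field k] {a : ℕ → k}
    (h : ∃ N, ∀ n, N ≤ n → a n = 0) : ∑ᶠ n, a n = a 0 + ∑ᶠ n, a (n + 1) := by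
  obtain ⟨N, hN⟩ := h
  rw [root_finsum_range (a := a) (N := N + 1) (fun n hn => hN n (by omega)),
    root_finsum_range (a := fun n => a (n + 1)) (N := N) (fun n hn => hN _ (by omega)),
    Finset.sum_range_succ', add_comm]

private theorem root_finsum_pow {p : ℕ} [Fact p.Prime] {k : Type u} [Field k] [CharP k p]
    {a : ℕ → k} (h : ∃ N, ∀ n, N ≤ n → a n = 0) : (∑ᶠ n, a n) ^ p = ∑ᶠ n, a n ^ p := by
  obtain ⟨N, hN⟩ := h
  have hp0 : p ≠ 0 := (Fact.out : p.Prime).ne_zero
  rw [root_finsum_range (a := a) (N := N) hN,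
    root_finsum_range (a := fun n => a n ^ p) (N := N)
      (fun n hn => by show a n ^ p = 0; rw [hN n hn, zero_pow hp0]), sum_pow_char]

private theorem root_iter_zero {k : Type u} [Field k] {r : k → k} (hr : r 0 = 0) (n : ℕ) :
    r^[n] 0 = 0 := Function.iterate_fixed hr n

/-- Negative part: `∑_{n ≥ 1} φ^{-n}(w_-)`; positive part: `-∑_{n ≥ 0} φ^n(w_+)`; the constant term:
`k` is algebraically closed. Check the coefficients with `coeff_pow_p`. -/
theorem exists_as_root {p : ℕ} [Fact p.Prime] {k : Type u} [Field k] [IsAlgClosed k] [CharP k p]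
    (w : Om k) : ∃ z : Om k, z ^ p - z = w := by
  classical
  have hp : p.Prime := Fact.out
  have hp0 : (0 : ℚ) < p := by exact_mod_cast hp.pos
  -- a root function on the constants
  have hroot : ∀ x : k, ∃ y : k, y ^ p = x := fun x => IsAlgClosed.exists_pow_nat_eq x hp.pos
  choose r hr using hroot
  have hr0 : r 0 = 0 := by
    have := hr 0
    exact pow_eq_zero_iff hp.ne_zero |>.1 this
  have hrit : ∀ (n : ℕ) (x : k), (r^[n + 1] x) ^ p = r^[n] x := by
    intro n x
    rw [Function.iterate_succ_apply', hr]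
  -- the constant term
  obtain ⟨z₀, hz₀⟩ : ∃ z₀ : k, z₀ ^ p - z₀ = w.coeff 0 := by
    have hdeg : (Polynomial.X ^ p - Polynomial.X - Polynomial.C (w.coeff 0) :
        Polynomial k).degree ≠ 0 := by
      have h1 : (Polynomial.X ^ p - Polynomial.X - Polynomial.C (w.coeff 0) :
          Polynomial k).degree = p := by
        have h2 : (Polynomial.X ^ p - Polynomial.X - Polynomial.C (w.coeff 0) :
            Polynomial k) = Polynomial.X ^ p - (Polynomial.X + Polynomial.C (w.coeff 0)) := by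
          ring
        rw [h2, Polynomial.degree_sub_eq_left_of_degree_lt, Polynomial.degree_X_pow]
        rw [Polynomial.degree_X_pow, Polynomial.degree_X_add_C]
        exact_mod_cast hp.one_lt
      rw [h1]
      exact_mod_cast hp.ne_zero
    obtain ⟨z, hz⟩ := IsAlgClosed.exists_root _ hdeg
    refine ⟨z, ?_⟩
    rw [Polynomial.IsRoot.def, Polynomial.eval_sub, Polynomial.eval_sub, Polynomial.eval_pow,
      Polynomial.eval_X, Polynomial.eval_C] at hz
    exact sub_eq_zero.1 hz
  -- bounds for the support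
  set Sn : Set ℚ := w.support ∩ Set.Iio 0 with hSn
  set Sp : Set ℚ := w.support ∩ Set.Ioi 0 with hSp
  have hSn1 : Sn.IsPWO := w.isPWO_support.mono Set.inter_subset_left
  have hSp1 : Sp.IsPWO := w.isPWO_support.mono Set.inter_subset_left
  have hn1 := isPWO_neg p hp.one_lt Sn hSn1 fun q hq => hq.2
  have hp1 := isPWO_pos p hp.one_lt Sp hSp1 fun q hq => hq.2
  have hbn : ∀ q : ℚ, q < 0 → ∃ N : ℕ, ∀ n, N ≤ n → w.coeff ((p : ℚ) ^ n * q) = 0 := by
    intro q hq
    rcases Set.eq_empty_or_nonempty Sn with he | hne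
    · refine ⟨0, fun n _ => ?_⟩
      by_contra hc
      have h1 : (p : ℚ) ^ n * q ∈ Sn :=
        ⟨HahnSeries.mem_support _ _ |>.2 hc, mul_neg_of_pos_of_neg (pow_pos hp0 _) hq⟩
      rw [he] at h1
      exact h1
    · set m := hSn1.isWF.min hne with hm
      refine ⟨⌈m / q⌉₊, fun n hn => ?_⟩
      by_contra hc
      have h1 : (p : ℚ) ^ n * q ∈ Sn :=
        ⟨HahnSeries.mem_support _ _ |>.2 hc, mul_neg_of_pos_of_neg (pow_pos hp0 _) hq⟩
      have h2 : m ≤ (p : ℚ) ^ n * q := hSn1.isWF.min_le hne h1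
      have h3 : (p : ℚ) ^ n ≤ m / q := (le_div_iff_of_neg hq).2 h2
      have h4 := root_lt_pow p hp.one_lt n
      have h5 : m / q ≤ ⌈m / q⌉₊ := Nat.le_ceil _
      have h6 : ((n : ℕ) : ℚ) < ⌈m / q⌉₊ := by linarith
      have h7 : n < ⌈m / q⌉₊ := by exact_mod_cast h6
      omega
  have hbp : ∀ q : ℚ, 0 < q → ∃ N : ℕ, ∀ n, N ≤ n → w.coeff (q / (p : ℚ) ^ n) = 0 := by
    intro q hq
    rcases Set.eq_empty_or_nonempty Sp with he | hne
    · refine ⟨0, fun n _ => ?_⟩
      by_contra hc
      have h1 : q / (p : ℚ) ^ n ∈ Sp :=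
        ⟨HahnSeries.mem_support _ _ |>.2 hc, div_pos hq (pow_pos hp0 _)⟩
      rw [he] at h1
      exact h1
    · set m := hSp1.isWF.min hne with hm
      have hm0 : 0 < m := (hSp1.isWF.min_mem hne).2
      refine ⟨⌈q / m⌉₊, fun n hn => ?_⟩
      by_contra hc
      have h1 : q / (p : ℚ) ^ n ∈ Sp :=
        ⟨HahnSeries.mem_support _ _ |>.2 hc, div_pos hq (pow_pos hp0 _)⟩
      have h2 : m ≤ q / (p : ℚ) ^ n := hSp1.isWF.min_le hne h1
      have h2' : m * (p : ℚ) ^ n ≤ q := (le_div_iff₀ (pow_pos hp0 _)).1 h2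
      have h3 : (p : ℚ) ^ n ≤ q / m := by
        rw [le_div_iff₀ hm0]
        linarith
      have h4 := root_lt_pow p hp.one_lt n
      have h5 : q / m ≤ ⌈q / m⌉₊ := Nat.le_ceil _
      have h6 : ((n : ℕ) : ℚ) < ⌈q / m⌉₊ := by linarith
      have h7 : n < ⌈q / m⌉₊ := by exact_mod_cast h6
      omega
  -- the coefficients of the root
  set zc : ℚ → k := fun q =>
    if q < 0 then ∑ᶠ n : ℕ, r^[n + 1] (w.coeff ((p : ℚ) ^ (n + 1) * q))
    else if q = 0 then z₀
    else -∑ᶠ n : ℕ, (w.coeff (q / (p : ℚ) ^ n)) ^ p ^ n with hzc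
  have hsupp : Function.support zc ⊆ {q : ℚ | ∃ n : ℕ, (p : ℚ) ^ (n + 1) * q ∈ Sn} ∪
      ({0} ∪ {q : ℚ | ∃ n : ℕ, q / (p : ℚ) ^ n ∈ Sp}) := by
    intro q hq
    rcases lt_trichotomy q 0 with h | h | h
    · left
      by_contra hcon
      refine hq ?_
      have h1 : ∀ n : ℕ, w.coeff ((p : ℚ) ^ (n + 1) * q) = 0 := by
        intro n
        by_contra hc
        exact hcon ⟨n, HahnSeries.mem_support _ _ |>.2 hc,
          mul_neg_of_pos_of_neg (pow_pos hp0 _) h⟩
      show zc q = 0
      simp only [hzc]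
      rw [if_pos h]
      have h2 : ∀ n : ℕ, r^[n + 1] (w.coeff ((p : ℚ) ^ (n + 1) * q)) = 0 := by
        intro n
        rw [h1 n]
        exact root_iter_zero hr0 _
      rw [finsum_congr h2, finsum_zero]
    · right; left; exact h
    · right; right
      by_contra hcon
      refine hq ?_
      have h1 : ∀ n : ℕ, w.coeff (q / (p : ℚ) ^ n) = 0 := by
        intro n
        by_contra hc
        exact hcon ⟨n, HahnSeries.mem_support _ _ |>.2 hc, div_pos h (pow_pos hp0 _)⟩
      show zc q = 0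
      simp only [hzc]
      rw [if_neg (not_lt.2 h.le), if_neg h.ne']
      have h2 : ∀ n : ℕ, (w.coeff (q / (p : ℚ) ^ n)) ^ p ^ n = 0 := by
        intro n
        rw [h1 n, zero_pow (pow_ne_zero _ hp.ne_zero)]
      rw [finsum_congr h2, finsum_zero, neg_zero]
  have hpwo : (Function.support zc).IsPWO :=
    (hn1.union ((Set.isPWO_singleton 0).union hp1)).mono hsupp
  refine ⟨⟨zc, hpwo⟩, ?_⟩
  ext q
  rw [HahnSeries.coeff_sub, coeff_pow_p]
  show zc (q / p) ^ p - zc q = w.coeff q
  rcases lt_trichotomy q 0 with h | h | h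
  · have h1 : q / p < 0 := div_neg_of_neg_of_pos h hp0
    simp only [hzc]
    rw [if_pos h1, if_pos h]
    obtain ⟨N, hN⟩ := hbn q h
    have e1 : ∀ n : ℕ, (p : ℚ) ^ (n + 1) * (q / p) = (p : ℚ) ^ n * q := by
      intro n
      rw [pow_succ]
      field_simp
    rw [root_finsum_pow]
    · have e2 : ∀ n : ℕ, r^[n + 1] (w.coeff ((p : ℚ) ^ (n + 1) * (q / p))) ^ p
          = r^[n] (w.coeff ((p : ℚ) ^ n * q)) := by
        intro n
        rw [e1, hrit]
      rw [finsum_congr e2, root_finsum_succ]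
      · rw [Function.iterate_zero, id, pow_zero, one_mul]
        ring
      · refine ⟨N, fun n hn => ?_⟩
        rw [hN n hn]
        exact root_iter_zero hr0 _
    · refine ⟨N, fun n hn => ?_⟩
      rw [e1, hN n hn]
      exact root_iter_zero hr0 _
  · subst h
    rw [zero_div]
    have h1 : zc 0 = z₀ := by
      show (if (0 : ℚ) < 0 then _ else _) = z₀
      rw [if_neg (lt_irrefl _), if_pos rfl]
    rw [h1]
    exact hz₀
  · have h1 : 0 < q / p := div_pos h hp0
    simp only [hzc]
    rw [if_neg (not_lt.2 h1.le), if_neg h1.ne', if_neg (not_lt.2 h.le), if_neg h.ne']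
    obtain ⟨N, hN⟩ := hbp q h
    have e1 : ∀ n : ℕ, q / p / (p : ℚ) ^ n = q / (p : ℚ) ^ (n + 1) := by
      intro n
      rw [pow_succ, div_div, mul_comm]
    have e0 : ∀ x : k, (-x) ^ p = -x ^ p := fun x => by
      have := map_neg (frobenius k p) x
      simpa only [frobenius_def] using this
    rw [e0, root_finsum_pow]
    · have e2 : ∀ n : ℕ, ((w.coeff (q / p / (p : ℚ) ^ n)) ^ p ^ n) ^ p
          = (w.coeff (q / (p : ℚ) ^ (n + 1))) ^ p ^ (n + 1) := by
        intro n
        rw [e1, ← pow_mul, ← pow_succ]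
      rw [finsum_congr e2, root_finsum_succ (a := fun n => (w.coeff (q / (p : ℚ) ^ n)) ^ p ^ n)]
      · rw [pow_zero, pow_zero, div_one, pow_one]
        ring
      · refine ⟨N, fun n hn => ?_⟩
        show (w.coeff (q / (p : ℚ) ^ n)) ^ p ^ n = 0
        rw [hN n hn, zero_pow (pow_ne_zero _ hp.ne_zero)]
    · refine ⟨N, fun n hn => ?_⟩
      rw [e1, hN (n + 1) (by omega), zero_pow (pow_ne_zero _ hp.ne_zero)]

private theorem root_charP (p : ℕ) (k : Type u) [Field k] [CharP k p] : CharP (Om k) p := by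
  have h : Function.Injective (HahnSeries.C : k →+* Om k) := HahnSeries.C_injective
  exact charP_of_injective_ringHom h p

private theorem root_step {p : ℕ} [Fact p.Prime] {R : Type u} [CommRing R] [CharP R p]
    (hR : ∀ w : R, ∃ z : R, z ^ p - z = w) (f : WittVector p R) (n : ℕ) (z : WittVector p R)
    (hz : ∀ i < n, (f - (WittVector.frobenius z - z)).coeff i = 0) :
    ∃ z' : WittVector p R, (∀ i < n, z'.coeff i = z.coeff i) ∧
      ∀ i < n + 1, (f - (WittVector.frobenius z' - z')).coeff i = 0 := by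
  set x := f - (WittVector.frobenius z - z) with hx
  obtain ⟨u, hu⟩ := hR ((x.shift n).coeff 0)
  set t : WittVector p R := WittVector.teichmuller p u with ht
  set Vn : WittVector p R → WittVector p R := (WittVector.verschiebung)^[n] with hVn
  have hadd : ∀ a b, Vn (a + b) = Vn a + Vn b := by
    intro a b
    exact iterate_map_add (WittVector.verschiebung) n a b
  have hsub : ∀ a b, Vn (a - b) = Vn a - Vn b := by
    intro a b
    exact iterate_map_sub (WittVector.verschiebung) n a b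
  have hF : WittVector.frobenius (Vn t) = Vn (WittVector.frobenius t) := by
    have hc : Function.Commute (WittVector.verschiebung : WittVector p R → WittVector p R)
        WittVector.frobenius := WittVector.verschiebung_frobenius_comm
    exact ((hc.iterate_left n) t).symm
  have hxV : x = Vn (x.shift n) := WittVector.eq_iterate_verschiebung hz
  refine ⟨z + Vn t, ?_, ?_⟩
  · intro i hi
    have h1 : WittVector.truncate n (z + Vn t) = WittVector.truncate n z := by
      rw [map_add]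
      have : WittVector.truncate n (Vn t) = 0 := by
        rw [← RingHom.mem_ker, WittVector.mem_ker_truncate]
        intro j hj
        exact WittVector.iterate_verschiebung_coeff_eq_zero _ hj
      rw [this, add_zero]
    have h2 := congrArg (fun y => TruncatedWittVector.coeff (⟨i, hi⟩ : Fin n) y) h1
    simpa only [WittVector.coeff_truncate] using h2
  · have key : f - (WittVector.frobenius (z + Vn t) - (z + Vn t))
        = Vn (x.shift n - (WittVector.frobenius t - t)) := by
      rw [hsub, hsub, ← hxV, ← hF, hx, map_add]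
      ring
    rw [key]
    intro i hi
    rcases Nat.lt_succ_iff_lt_or_eq.1 hi with h | h
    · exact WittVector.iterate_verschiebung_coeff_eq_zero _ h
    · subst h
      have h1 := WittVector.iterate_verschiebung_coeff
        (x.shift i - (WittVector.frobenius t - t)) i 0
      rw [zero_add] at h1
      rw [hVn, h1]
      have h2 : ∀ a b : WittVector p R, (a - b).coeff 0 = a.coeff 0 - b.coeff 0 := by
        intro a b
        exact map_sub (WittVector.constantCoeff (p := p) (R := R)) a b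
      rw [h2, h2, WittVector.coeff_frobenius_charP, ht, WittVector.teichmuller_coeff_zero, hu,
        sub_self]

private theorem root_witt {p : ℕ} [Fact p.Prime] {R : Type u} [CommRing R] [CharP R p]
    (hR : ∀ w : R, ∃ z : R, z ^ p - z = w) (f : WittVector p R) :
    ∃ z : WittVector p R, WittVector.frobenius z - z = f := by
  classical
  have hseq : ∃ s : ℕ → WittVector p R,
      (∀ n, ∀ i < n, (f - (WittVector.frobenius (s n) - s n)).coeff i = 0) ∧
      ∀ n, ∀ i < n, (s (n + 1)).coeff i = (s n).coeff i := by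
    let G : (n : ℕ) → {z : WittVector p R //
        ∀ i < n, (f - (WittVector.frobenius z - z)).coeff i = 0} := fun n =>
      Nat.rec ⟨0, fun i hi => absurd hi (Nat.not_lt_zero i)⟩
        (fun n z => ⟨(root_step hR f n z.1 z.2).choose,
          (root_step hR f n z.1 z.2).choose_spec.2⟩) n
    refine ⟨fun n => (G n).1, fun n => (G n).2, fun n => ?_⟩
    exact (root_step hR f n (G n).1 (G n).2).choose_spec.1
  obtain ⟨s, hs1, hs2⟩ := hseq
  have hs3 : ∀ m n i, i < n → n ≤ m → (s m).coeff i = (s n).coeff i := by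
    intro m n i hi hnm
    induction m, hnm using Nat.le_induction with
    | base => rfl
    | succ m hm ih => rw [hs2 m i (by omega), ih]
  refine ⟨WittVector.mk p fun i => (s (i + 1)).coeff i, ?_⟩
  set z : WittVector p R := WittVector.mk p fun i => (s (i + 1)).coeff i with hz
  have hz1 : ∀ n, ∀ i < n, z.coeff i = (s n).coeff i := by
    intro n i hi
    rw [hz, WittVector.coeff_mk]
    exact (hs3 n (i + 1) i (Nat.lt_succ_self i) hi).symm
  ext n
  have ht1 : WittVector.truncate (n + 1) z = WittVector.truncate (n + 1) (s (n + 1)) := by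
    refine TruncatedWittVector.ext fun i => ?_
    rw [WittVector.coeff_truncate, WittVector.coeff_truncate]
    exact hz1 (n + 1) i i.2
  have ht2 : WittVector.truncate (n + 1) (WittVector.frobenius z)
      = WittVector.truncate (n + 1) (WittVector.frobenius (s (n + 1))) := by
    refine TruncatedWittVector.ext fun i => ?_
    rw [WittVector.coeff_truncate, WittVector.coeff_truncate, WittVector.coeff_frobenius_charP,
      WittVector.coeff_frobenius_charP, hz1 (n + 1) i i.2]
  have ht3 : WittVector.truncate (n + 1) (f - (WittVector.frobenius (s (n + 1)) - s (n + 1)))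
      = 0 := by
    rw [← RingHom.mem_ker, WittVector.mem_ker_truncate]
    exact hs1 (n + 1)
  have ht4 : WittVector.truncate (n + 1) (WittVector.frobenius z - z)
      = WittVector.truncate (n + 1) f := by
    rw [map_sub, ht1, ht2, ← map_sub]
    rw [map_sub] at ht3
    exact (sub_eq_zero.1 ht3).symm
  have h2 := congrArg (fun y => TruncatedWittVector.coeff (⟨n, Nat.lt_succ_self n⟩ : Fin (n + 1)) y)
    ht4
  simpa only [WittVector.coeff_truncate] using h2

/-- Solve for the coordinates one after the other: if the first `n` coordinates of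
`F z - z` are correct, replace `z` by `z + V^n [u]`. -/
theorem exists_wroot {p : ℕ} [Fact p.Prime] {k : Type u} [Field k] [IsAlgClosed k] [CharP k p]
    (f : WittVector p (Om k)) : ∃ z : WittVector p (Om k), WittVector.frobenius z - z = f := by
  have : CharP (Om k) p := root_charP p k
  exact root_witt (fun w => exists_as_root w) f

end Pool.Agent.WC
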