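import Pool.Agent.WD.Defs
import Pool.Agent.WC.Root

/-!
# MP_827cb6_ag : the wild duality for cyclic `p`-groups, definitions

`k` is an algebraically closed field of characteristic `p`, `K = k((t))` is `LaurentSeries k`,
`Om k = k((t^ℚ))`; the parameter space `Par p r k` is now the space of the reduced Witt vectors
`f = (f_0, ..., f_{r-1})` over `K`, i.e. of the `ℤ/p^r`-torsors over `K`.
-/

namespace Pool.Agent.WC

open Polynomial Pool.Agent.WD

noncomputable section

universe u

variable {p : ℕ} [Fact p.Prime] {k : Type u} [Field k] [IsAlgClosed k] [CharP k p] {r n : ℕ}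

/-- the Witt vector `f = (f_0, ..., f_{r-1}, 0, 0, ...)` -/
def wf (c : Par p r k) : WittVector p (Om k) :=
  WittVector.mk p fun s => if h : s < r then toOm k (polar c ⟨s, h⟩) else 0

/-- the root `z` of `F(z) - z = f` -/
def wz (c : Par p r k) : WittVector p (Om k) := Classical.choose (exists_wroot (wf c))

theorem wz_spec (c : Par p r k) : WittVector.frobenius (wz c) - wz c = wf c :=
  Classical.choose_spec (exists_wroot (wf c))

/-- The extension `L_c = K(z_0, ..., z_{r-1})` of `K = k((t))` -/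
def Lw (c : Par p r k) : IntermediateField (LaurentSeries k) (Om k) :=
  IntermediateField.adjoin (LaurentSeries k) (Set.range fun s : Fin r => (wz c).coeff s)

/-- `z_s` as an element of `L_c` -/
def zL (c : Par p r k) (s : Fin r) : Lw c :=
  ⟨(wz c).coeff s, IntermediateField.subset_adjoin _ _ ⟨s, rfl⟩⟩

/-- constants `k → L_c` -/
def cw (c : Par p r k) : k →+* Lw c :=
  (algebraMap (LaurentSeries k) (Lw c)).comp HahnSeries.C

/-- the relation between `σ ∈ Gal(L_c / K)` and `g ∈ ℤ/p^r` : `σ(z) = z + g` -/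
def CorrW (c : Par p r k) (σ : Lw c ≃ₐ[LaurentSeries k] Lw c) (g : ZMod (p ^ r)) : Prop :=
  ∀ s : Fin r, ((σ (zL c s) : Lw c) : Om k) =
    (wz c + ((g.val : ℕ) : WittVector p (Om k))).coeff s

/-- the Jordan matrix with blocks of sizes `m_B` and eigenvalue `1` -/
def Jm (k : Type u) [Field k] (m : Fin n → ℕ) : Matrix (Ix n m) (Ix n m) k :=
  fun a b => if a.1 = b.1 ∧ ((a.2 : ℕ) = b.2 ∨ (b.2 : ℕ) = a.2 + 1) then 1 else 0

/-- the representation of `ℤ/p^r` with Jordan blocks of sizes `m_B`: `g` acts by `J^g` -/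
def rhoW (k : Type u) [Field k] (p r : ℕ) (m : Fin n → ℕ) (g : ZMod (p ^ r)) :
    Matrix (Ix n m) (Ix n m) k := Jm k m ^ g.val

/-- The tuning module `Ξ_c`: integral vectors `x` over `L_c` with `σ(x) = ρ(g) x` whenever
`g` corresponds to `σ`. -/
def TuningW (m : Fin n → ℕ) (c : Par p r k) :
    Submodule (PowerSeries k) (Ix n m → Lw c) where
  carrier := {x | (∀ a, IsIntegral (PowerSeries k) (x a)) ∧
    ∀ (σ : Lw c ≃ₐ[LaurentSeries k] Lw c) (g : ZMod (p ^ r)), CorrW c σ g →
      ∀ a, σ (x a) = ∑ b, cw c (rhoW k p r m g a b) * x b}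
  add_mem' := by
    rintro x y ⟨hx1, hx2⟩ ⟨hy1, hy2⟩
    refine ⟨fun a => (hx1 a).add (hy1 a), fun σ g h a => ?_⟩
    rw [Pi.add_apply, map_add, hx2 σ g h a, hy2 σ g h a, ← Finset.sum_add_distrib]
    exact Finset.sum_congr rfl fun b _ => by rw [Pi.add_apply, mul_add]
  zero_mem' := by
    refine ⟨fun a => isIntegral_zero, fun σ g h a => ?_⟩
    simp
  smul_mem' := by
    rintro u x ⟨hx1, hx2⟩
    refine ⟨fun a => ?_, fun σ g h a => ?_⟩
    · rw [Pi.smul_apply, Algebra.smul_def]
      exact isIntegral_algebraMap.mul (hx1 a)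
    · rw [Pi.smul_apply, Algebra.smul_def, map_mul, hx2 σ g h a, Finset.mul_sum,
        IsScalarTower.algebraMap_apply (PowerSeries k) (LaurentSeries k) (Lw c), σ.commutes]
      refine Finset.sum_congr rfl fun b _ => ?_
      rw [Pi.smul_apply, Algebra.smul_def,
        IsScalarTower.algebraMap_apply (PowerSeries k) (LaurentSeries k) (Lw c)]
      ring

/-- `IsVW c a`: for some `k[[t]]`-basis of `Ξ_c` the determinant of the basis is `t^a` times a
unit of `k[[t]]`. -/
def IsVW (m : Fin n → ℕ) (c : Par p r k) (a : ℕ) : Prop :=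
  ∃ (b : Module.Basis (Ix n m) (PowerSeries k) (TuningW m c)) (v : (PowerSeries k)ˣ),
    Matrix.det (fun i a => (b i : Ix n m → Lw c) a) =
      algebraMap (PowerSeries k) (Lw c) ((v : PowerSeries k) * PowerSeries.X ^ a)

/-- the `v`-function -/
def vW (m : Fin n → ℕ) (c : Par p r k) : ℕ := sInf {a | IsVW m c a}

/-- the image `H_c ⊆ ℤ/p^r` of the Galois group -/
def HW (c : Par p r k) : Set (ZMod (p ^ r)) :=
  {g | ∃ σ : Lw c ≃ₐ[LaurentSeries k] Lw c, CorrW c σ g}

/-- the fixed space `V^{H_c}` -/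
def fixedW (m : Fin n → ℕ) (c : Par p r k) : Submodule k (Ix n m → k) where
  carrier := {x | ∀ g ∈ HW c, (rhoW k p r m g).mulVec x = x}
  add_mem' := by
    intro x y hx hy g hg
    rw [Matrix.mulVec_add, hx g hg, hy g hg]
  zero_mem' := by
    intro g _
    rw [Matrix.mulVec_zero]
  smul_mem' := by
    intro a x hx g hg
    rw [Matrix.mulVec_smul, hx g hg]

/-- the `w`-function `w(c) = codim V^{H_c} - v(c)` -/
def wW (m : Fin n → ℕ) (c : Par p r k) : ℤ :=
  (dimV m : ℤ) - Module.finrank k (fixedW m c) - vW m c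

/-- `V` is a faithful representation -/
def FaithfulW (k : Type u) [Field k] (p r : ℕ) (m : Fin n → ℕ) : Prop :=
  ∀ g : ZMod (p ^ r), g ≠ 0 → rhoW k p r m g ≠ 1

end

end Pool.Agent.WC
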