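import Pool.Agent.WD.A1

/-! # The lattice of the elements killed by `(τ - 1)^J` (piece WC-L) -/

namespace Pool.Agent.WC

open Pool.Agent.WD

noncomputable section

universe u w

/-- `binom(y, d)` for `d < p`  -/
def bin {L : Type w} [Field L] (y : L) (d : ℕ) : L :=
  (∏ i ∈ Finset.range d, (y - i)) / (d.factorial : L)

/-- `h_j = ∏_s binom(y_s, j_s)`, with the digits `j_s` of `j` -/
def hh (p : ℕ) {L : Type w} [Field L] (y : ℕ → L) (N j : ℕ) : L :=
  ∏ s ∈ Finset.range N, bin (y s) ((j / p ^ s) % p)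

/-- `τ - 1` -/
def TT {L : Type w} [Field L] (τ : L ≃+* L) (x : L) : L := τ x - x

/-- `X_j = ∑_s j_s Y_s` -/
def XX (p : ℕ) (Y : ℕ → ℚ) (N j : ℕ) : ℚ :=
  ∑ s ∈ Finset.range N, (((j / p ^ s) % p : ℕ) : ℚ) * Y s

/-- the hypotheses -/
structure LatD (p : ℕ) {k : Type u} [Field k] {L : Type w} [Field L] (φ : L →+* Om k)
    (τ : L ≃+* L) (K0 : Subfield L) (N : ℕ) (y : ℕ → L) (Y : ℕ → ℚ) : Prop where
  fix : ∀ x, τ x = x ↔ x ∈ K0
  vK : ∀ x ∈ K0, x ≠ 0 → ∃ z : ℤ, (φ x).orderTop = (((z : ℚ)) : WithTop ℚ)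
  ys : ∀ s < N, (τ ^ (p ^ s)) (y s) = y s + 1
  vy : ∀ s < N, (φ (y s)).orderTop = ((-Y s : ℚ) : WithTop ℚ)
  num : ∀ s < N, ∃ l : ℕ, 0 < l ∧ ¬ p ∣ l ∧ Y s = (l : ℚ) / (p : ℚ) ^ (s + 1)

variable {p : ℕ} [Fact p.Prime] {k : Type u} [Field k] {L : Type w} [Field L] [CharP L p]
  {φ : L →+* Om k} {τ : L ≃+* L} {K0 : Subfield L} {N : ℕ} {y : ℕ → L} {Y : ℕ → ℚ}

private theorem lat_charP (p : ℕ) (L : Type w) [Field L] [CharP L p] :
    CharP (AddMonoid.End L) p := by
  refine ⟨fun n => ?_⟩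
  rw [← CharP.cast_eq_zero_iff L p n]
  constructor
  · intro h
    have h1 := DFunLike.congr_fun h (1 : L)
    simpa using h1
  · intro h
    ext x
    simp [h]

/-- `τ` as an additive endomorphism -/
private def latE (τ : L ≃+* L) : AddMonoid.End L := (τ : L →+* L).toAddMonoidHom

omit [CharP L p] [Fact p.Prime] in
private theorem latE_pow (τ : L ≃+* L) (n : ℕ) (x : L) : (latE τ ^ n) x = (τ ^ n) x := by
  induction n with
  | zero => rfl
  | succ n ih =>
    rw [pow_succ', pow_succ']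
    change latE τ ((latE τ ^ n) x) = τ ((τ ^ n) x)
    rw [ih]
    rfl

omit [CharP L p] [Fact p.Prime] in
private theorem TT_iter (τ : L ≃+* L) (n : ℕ) (x : L) :
    (TT τ)^[n] x = ((latE τ - 1) ^ n) x := by
  induction n with
  | zero => rfl
  | succ n ih =>
    rw [Function.iterate_succ_apply', pow_succ', ih]
    rfl

/-- `(τ - 1)^(p^s) = τ^(p^s) - 1` in characteristic `p` -/
theorem TT_pow (s : ℕ) (x : L) : (TT τ)^[p ^ s] x = (τ ^ (p ^ s)) x - x := by
  haveI := lat_charP p L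
  rw [TT_iter, sub_pow_char_pow_of_commute p s (Commute.one_right (latE τ)), one_pow]
  change (latE τ ^ (p ^ s)) x - x = _
  rw [latE_pow]

private theorem TT_pow' (s : ℕ) : (TT τ)^[p ^ s] = TT (τ ^ (p ^ s)) :=
  funext fun x => TT_pow s x

omit [CharP L p] [Fact p.Prime] in
private theorem TT_mul_iter (σ : L ≃+* L) {c : L} (hc : σ c = c) (n : ℕ) (u : L) :
    (TT σ)^[n] (c * u) = c * (TT σ)^[n] u := by
  induction n generalizing u with
  | zero => rfl
  | succ n ih =>
    rw [Function.iterate_succ_apply, Function.iterate_succ_apply, ← ih]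
    congr 1
    rw [TT, TT, map_mul, hc, mul_sub]

omit [CharP L p] [Fact p.Prime] in
private theorem TT_iter_sum (σ : L ≃+* L) (n : ℕ) (s : Finset ℕ) (u : ℕ → L) :
    (TT σ)^[n] (∑ j ∈ s, u j) = ∑ j ∈ s, (TT σ)^[n] (u j) := by
  rw [TT_iter, map_sum]
  exact Finset.sum_congr rfl fun j _ => (TT_iter σ n (u j)).symm

omit [CharP L p] [Fact p.Prime] in
private theorem TT_iter_sub (σ : L ≃+* L) (n : ℕ) (u v : L) :
    (TT σ)^[n] (u - v) = (TT σ)^[n] u - (TT σ)^[n] v := by
  rw [TT_iter, TT_iter, TT_iter, map_sub]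

omit [CharP L p] [Fact p.Prime] in
private theorem TT_iter_zero (σ : L ≃+* L) (n : ℕ) : (TT σ)^[n] (0 : L) = 0 := by
  rw [TT_iter, map_zero]

omit [CharP L p] [Fact p.Prime] in
private theorem bin_zero' (u : L) : bin u 0 = 1 := by
  simp [bin]

omit [CharP L p] [Fact p.Prime] in
private theorem map_bin (σ : L ≃+* L) (u : L) (d : ℕ) : σ (bin u d) = bin (σ u) d := by
  rw [bin, bin, map_div₀, map_prod, map_natCast]
  congr 1
  refine Finset.prod_congr rfl fun i _ => ?_
  rw [map_sub, map_natCast]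

omit [Fact p.Prime] in
private theorem lat_cast_ne (p : ℕ) [CharP L p] {d : ℕ} (h0 : 0 < d) (hd : d < p) :
    (d : L) ≠ 0 := by
  intro h
  rw [CharP.cast_eq_zero_iff L p] at h
  exact absurd (Nat.le_of_dvd h0 h) (not_le.2 hd)

private theorem lat_fact_ne (p : ℕ) [Fact p.Prime] [CharP L p] {d : ℕ} (hd : d < p) :
    ((d.factorial : ℕ) : L) ≠ 0 := by
  intro h
  rw [CharP.cast_eq_zero_iff L p] at h
  have h1 := ((Fact.out : p.Prime).dvd_factorial).1 h
  omega

private theorem TT_bin (p : ℕ) [Fact p.Prime] [CharP L p] (σ : L ≃+* L) {u : L}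
    (hu : σ u = u + 1) {d : ℕ} (hd : d + 1 < p) : TT σ (bin u (d + 1)) = bin u d := by
  have h1 : ((d + 1 : ℕ) : L) ≠ 0 := lat_cast_ne p (Nat.succ_pos d) hd
  have h2 : ((d.factorial : ℕ) : L) ≠ 0 := lat_fact_ne p (by omega)
  rw [TT, map_bin, hu, bin, bin, bin, Finset.prod_range_succ', Finset.prod_range_succ,
    Nat.factorial_succ]
  have h3 : ∀ i ∈ Finset.range d, u + 1 - ((i + 1 : ℕ) : L) = u - (i : L) := by
    intro i _
    push_cast
    ring
  rw [Finset.prod_congr rfl h3]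
  rw [Nat.cast_mul]
  push_cast at h1 ⊢
  field_simp
  ring

private theorem TT_bin_iter (p : ℕ) [Fact p.Prime] [CharP L p] (σ : L ≃+* L) {u : L}
    (hu : σ u = u + 1) (d : ℕ) (hd : d < p) : (TT σ)^[d] (bin u d) = 1 := by
  induction d with
  | zero => exact bin_zero' u
  | succ d ih =>
    rw [Function.iterate_succ_apply, TT_bin p σ hu hd]
    exact ih (by omega)

private theorem lat_fixed (h : LatD p φ τ K0 N y Y) {s n : ℕ} (hs : s < N) (hn : s < n) :
    (τ ^ (p ^ n)) (y s) = y s := by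
  have h1 : ∀ m : ℕ, ((τ ^ (p ^ s)) ^ m) (y s) = y s + m := by
    intro m
    induction m with
    | zero => simp
    | succ m ih =>
      rw [pow_succ']
      change (τ ^ (p ^ s)) (((τ ^ (p ^ s)) ^ m) (y s)) = _
      rw [ih, map_add, map_natCast, h.ys s hs]
      push_cast
      ring
  have h2 : p ^ n = p ^ s * p ^ (n - s) := by
    rw [← pow_add]
    congr 1
    omega
  have h3 : ((p ^ (n - s) : ℕ) : L) = 0 := by
    rw [CharP.cast_eq_zero_iff L p]
    exact dvd_pow_self p (by omega)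
  rw [h2, pow_mul, h1, h3, add_zero]

private theorem hh_succ (y : ℕ → L) (n j : ℕ) :
    hh p y (n + 1) j = hh p y n j * bin (y n) ((j / p ^ n) % p) := by
  rw [hh, hh, Finset.prod_range_succ]

omit [Fact p.Prime] in
private theorem lat_digit (p : ℕ) {s n : ℕ} (hs : s < n) (j : ℕ) :
    ((j % p ^ n) / p ^ s) % p = (j / p ^ s) % p := by
  have h2 : p ^ n = p ^ s * p ^ (n - s) := by
    rw [← pow_add]
    congr 1
    omega
  rw [h2, Nat.mod_mul_right_div_self, Nat.mod_mod_of_dvd]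
  exact dvd_pow_self p (by omega)

private theorem hh_mod (y : ℕ → L) (n j : ℕ) : hh p y n (j % p ^ n) = hh p y n j := by
  rw [hh, hh]
  refine Finset.prod_congr rfl fun s hs => ?_
  rw [lat_digit p (Finset.mem_range.1 hs)]

private theorem hh_fixed (h : LatD p φ τ K0 N y Y) {n : ℕ} (hn : n ≤ N) (j : ℕ) :
    (τ ^ (p ^ n)) (hh p y n j) = hh p y n j := by
  rw [hh, map_prod]
  refine Finset.prod_congr rfl fun s hs => ?_
  have hs' := Finset.mem_range.1 hs
  rw [map_bin, lat_fixed h (by omega) hs']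

private theorem TT_hh_aux (h : LatD p φ τ K0 N y Y) (n : ℕ) : n ≤ N → ∀ j < p ^ n,
    (TT τ)^[j] (hh p y n j) = 1 := by
  induction n with
  | zero =>
    intro _ j hj
    rw [pow_zero, Nat.lt_one_iff] at hj
    subst hj
    simp [hh]
  | succ n ih =>
    intro hn j hj
    have hpos : 0 < p ^ n := Nat.pos_of_ne_zero (pow_ne_zero _ (Fact.out : p.Prime).ne_zero)
    have hd : j / p ^ n < p := by
      rw [Nat.div_lt_iff_lt_mul hpos, mul_comm, ← pow_succ]
      exact hj
    have hj' : j = j % p ^ n + p ^ n * (j / p ^ n) := (Nat.mod_add_div j (p ^ n)).symm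
    rw [hh_succ, Nat.mod_eq_of_lt hd]
    conv_lhs => rw [hj']
    rw [Function.iterate_add_apply, Function.iterate_mul, TT_pow']
    rw [← hj', TT_mul_iter (τ ^ (p ^ n)) (hh_fixed h (by omega) j),
      TT_bin_iter p (τ ^ (p ^ n)) (h.ys n (by omega)) _ hd, mul_one, ← hh_mod]
    exact ih (by omega) _ (Nat.mod_lt _ hpos)

/-- Induction on `N`: `h_j = h_{j'} binom(y_{N-1}, d)` with `j = d p^(N-1) + j'`; `h_{j'}` is fixed by
`τ^(p^(N-1))`, and `(τ^(p^(N-1)) - 1)^d binom(y_{N-1}, d) = 1`. -/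
theorem TT_hh (h : LatD p φ τ K0 N y Y) (j : ℕ) (hj : j < p ^ N) :
    (TT τ)^[j] (hh p y N j) = 1 :=
  TT_hh_aux h N le_rfl j hj

private theorem lat_orderTop_cast (m : ℕ) : 0 ≤ ((m : ℕ) : Om k).orderTop := by
  have h1 : ((m : ℕ) : Om k) = HahnSeries.single 0 ((m : ℕ) : k) :=
    (map_natCast (HahnSeries.C : k →+* Om k) m).symm
  rw [h1]
  exact HahnSeries.orderTop_single_le

private theorem lat_orderTop_cast' {m : ℕ} (hm : ((m : ℕ) : Om k) ≠ 0) :
    ((m : ℕ) : Om k).orderTop = 0 := by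
  have h1 : ((m : ℕ) : Om k) = HahnSeries.single 0 ((m : ℕ) : k) :=
    (map_natCast (HahnSeries.C : k →+* Om k) m).symm
  have h2 : ((m : ℕ) : k) ≠ 0 := by
    intro h3
    rw [h3, HahnSeries.single_eq_zero] at h1
    exact hm h1
  rw [h1, HahnSeries.orderTop_single h2]
  rfl

private theorem lat_Y_pos (h : LatD p φ τ K0 N y Y) {s : ℕ} (hs : s < N) : 0 < Y s := by
  obtain ⟨l, hl, _, hY⟩ := h.num s hs
  have hp : (0 : ℚ) < p := by exact_mod_cast (Fact.out : p.Prime).pos
  rw [hY]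
  have : (0 : ℚ) < l := by exact_mod_cast hl
  positivity

private theorem orderTop_bin (h : LatD p φ τ K0 N y Y) {s : ℕ} (hs : s < N) {d : ℕ}
    (hd : d < p) : (φ (bin (y s) d)).orderTop = ((-((d : ℚ) * Y s) : ℚ) : WithTop ℚ) := by
  have hY := lat_Y_pos h hs
  have hfac : ∀ i : ℕ, (φ (y s - (i : L))).orderTop = ((-Y s : ℚ) : WithTop ℚ) := by
    intro i
    rw [map_sub, map_natCast, HahnSeries.orderTop_sub, h.vy s hs]
    rw [h.vy s hs]
    refine lt_of_lt_of_le ?_ (lat_orderTop_cast i)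
    exact_mod_cast neg_lt_zero.2 hY
  have hprod : ∀ d : ℕ, (φ (∏ i ∈ Finset.range d, (y s - (i : L)))).orderTop =
      ((-((d : ℚ) * Y s) : ℚ) : WithTop ℚ) := by
    intro d
    induction d with
    | zero => simp
    | succ d ih =>
      rw [Finset.prod_range_succ, map_mul, HahnSeries.orderTop_mul, ih, hfac, ← WithTop.coe_add]
      congr 1
      push_cast
      ring
  have h2 : ((d.factorial : ℕ) : L) ≠ 0 := lat_fact_ne p hd
  have h3 : ((d.factorial : ℕ) : Om k) ≠ 0 := by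
    intro h4
    apply h2
    apply φ.injective
    rw [map_natCast, h4, map_zero]
  have h4 : φ (bin (y s) d) * ((d.factorial : ℕ) : Om k) =
      φ (∏ i ∈ Finset.range d, (y s - (i : L))) := by
    rw [← map_natCast φ, ← map_mul, bin, div_mul_cancel₀ _ h2]
  have h5 := congrArg HahnSeries.orderTop h4
  rw [HahnSeries.orderTop_mul, lat_orderTop_cast' h3, add_zero, hprod] at h5
  exact h5

private theorem XX_succ (p : ℕ) (Y : ℕ → ℚ) (n j : ℕ) :
    XX p Y (n + 1) j = XX p Y n j + (((j / p ^ n) % p : ℕ) : ℚ) * Y n := by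
  rw [XX, XX, Finset.sum_range_succ]

private theorem XX_mod (p : ℕ) (Y : ℕ → ℚ) (n j : ℕ) : XX p Y n (j % p ^ n) = XX p Y n j := by
  rw [XX, XX]
  refine Finset.sum_congr rfl fun s hs => ?_
  rw [lat_digit p (Finset.mem_range.1 hs)]

private theorem orderTop_hh_aux (h : LatD p φ τ K0 N y Y) (j n : ℕ) (hn : n ≤ N) :
    (φ (hh p y n j)).orderTop = ((-XX p Y n j : ℚ) : WithTop ℚ) := by
  induction n with
  | zero => simp [hh, XX]
  | succ n ih =>
    rw [hh_succ, XX_succ, map_mul, HahnSeries.orderTop_mul, ih (by omega),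
      orderTop_bin h (by omega) (Nat.mod_lt _ (Fact.out : p.Prime).pos), ← WithTop.coe_add]
    congr 1
    ring

theorem orderTop_hh (h : LatD p φ τ K0 N y Y) (j : ℕ) (hj : j < p ^ N) :
    (φ (hh p y N j)).orderTop = ((-XX p Y N j : ℚ) : WithTop ℚ) := by
  have _ := hj
  exact orderTop_hh_aux h j N le_rfl

private theorem XX_int (h : LatD p φ τ K0 N y Y) (j n : ℕ) (hn : n ≤ N) :
    ∃ z : ℤ, (p : ℚ) ^ n * XX p Y n j = z := by
  induction n with
  | zero => exact ⟨0, by simp [XX]⟩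
  | succ n ih =>
    obtain ⟨z, hz⟩ := ih (by omega)
    obtain ⟨l, _, _, hY⟩ := h.num n (by omega)
    have hp : (p : ℚ) ≠ 0 := by exact_mod_cast (Fact.out : p.Prime).ne_zero
    refine ⟨p * z + (((j / p ^ n) % p : ℕ) : ℤ) * l, ?_⟩
    rw [XX_succ]
    generalize (j / p ^ n) % p = d
    rw [hY, Int.cast_add, Int.cast_mul, ← hz, Int.cast_natCast, Int.cast_mul,
      Int.cast_natCast, Int.cast_natCast]
    field_simp
    ring

private theorem XX_not_int_aux (h : LatD p φ τ K0 N y Y) (n : ℕ) : n ≤ N → ∀ i < p ^ n,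
    ∀ j < p ^ n, i ≠ j → ∀ z : ℤ, XX p Y n i - XX p Y n j ≠ z := by
  induction n with
  | zero =>
    intro _ i hi j hj hij
    rw [pow_zero, Nat.lt_one_iff] at hi hj
    omega
  | succ n ih =>
    intro hn i hi j hj hij z hz
    have hpp : p.Prime := Fact.out
    have hp : (p : ℚ) ≠ 0 := by exact_mod_cast hpp.ne_zero
    have hpos : 0 < p ^ n := Nat.pos_of_ne_zero (pow_ne_zero _ hpp.ne_zero)
    have hdi : i / p ^ n < p := by
      rw [Nat.div_lt_iff_lt_mul hpos, mul_comm, ← pow_succ]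
      exact hi
    have hdj : j / p ^ n < p := by
      rw [Nat.div_lt_iff_lt_mul hpos, mul_comm, ← pow_succ]
      exact hj
    rw [XX_succ, XX_succ, Nat.mod_eq_of_lt hdi, Nat.mod_eq_of_lt hdj] at hz
    by_cases hd : i / p ^ n = j / p ^ n
    · have h1 : i % p ^ n ≠ j % p ^ n := by
        intro h2
        apply hij
        rw [← Nat.mod_add_div i (p ^ n), ← Nat.mod_add_div j (p ^ n), h2, hd]
      refine ih (by omega) _ (Nat.mod_lt _ hpos) _ (Nat.mod_lt _ hpos) h1 z ?_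
      rw [XX_mod, XX_mod, ← hz, hd]
      ring
    · obtain ⟨zi, hzi⟩ := XX_int h i n (by omega)
      obtain ⟨zj, hzj⟩ := XX_int h j n (by omega)
      obtain ⟨l, hl0, hl, hY⟩ := h.num n (by omega)
      have h1 : (((i / p ^ n : ℕ) : ℚ) - ((j / p ^ n : ℕ) : ℚ)) * l =
          p * ((p : ℚ) ^ n * z - zi + zj) := by
        rw [← hz, ← hzi, ← hzj, hY]
        field_simp
        ring
      have h2 : (((i / p ^ n : ℕ) : ℤ) - ((j / p ^ n : ℕ) : ℤ)) * (l : ℤ) =
          (p : ℤ) * ((p : ℤ) ^ n * z - zi + zj) := by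
        exact_mod_cast h1
      have h3 : (p : ℤ) ∣ (((i / p ^ n : ℕ) : ℤ) - ((j / p ^ n : ℕ) : ℤ)) * (l : ℤ) :=
        ⟨_, h2⟩
      rcases (Nat.prime_iff_prime_int.1 hpp).dvd_or_dvd h3 with h4 | h4
      · obtain ⟨c, hc⟩ := h4
        have h5 : ((i / p ^ n : ℕ) : ℤ) < p := by exact_mod_cast hdi
        have h6 : ((j / p ^ n : ℕ) : ℤ) < p := by exact_mod_cast hdj
        have h7 : (0 : ℤ) ≤ ((i / p ^ n : ℕ) : ℤ) := Int.natCast_nonneg _
        have h8 : (0 : ℤ) ≤ ((j / p ^ n : ℕ) : ℤ) := Int.natCast_nonneg _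
        have h9 : c = 0 := by
          by_contra hc0
          rcases lt_or_gt_of_ne hc0 with h10 | h10
          · nlinarith
          · nlinarith
        rw [h9, mul_zero, sub_eq_zero] at hc
        exact hd (by exact_mod_cast hc)
      · exact hl (by exact_mod_cast h4)

/-- differences of different `X_j` are not integers -/
theorem XX_not_int (h : LatD p φ τ K0 N y Y) {i j : ℕ} (hi : i < p ^ N) (hj : j < p ^ N)
    (hij : i ≠ j) (z : ℤ) : XX p Y N i - XX p Y N j ≠ z :=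
  XX_not_int_aux h N le_rfl i hi j hj hij z

/-- Induction on `J`: `(τ - 1)^(J-1) x ∈ K0`. -/
theorem exists_repr (h : LatD p φ τ K0 N y Y) (J : ℕ) (hJ : J ≤ p ^ N) (x : L)
    (hx : (TT τ)^[J] x = 0) :
    ∃ a : ℕ → L, (∀ j, a j ∈ K0) ∧ x = ∑ j ∈ Finset.range J, a j * hh p y N j := by
  classical
  induction J generalizing x with
  | zero =>
    refine ⟨fun _ => 0, fun _ => K0.zero_mem, ?_⟩
    rw [Finset.range_zero, Finset.sum_empty]
    exact hx
  | succ J ih =>
    set c := (TT τ)^[J] x with hc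
    have hc0 : c ∈ K0 := by
      rw [← h.fix]
      rw [Function.iterate_succ_apply'] at hx
      exact sub_eq_zero.1 hx
    have hcτ : τ c = c := (h.fix c).2 hc0
    have h1 : (TT τ)^[J] (x - c * hh p y N J) = 0 := by
      rw [TT_iter_sub, TT_mul_iter τ hcτ, TT_hh h J (by omega), mul_one, ← hc, sub_self]
    obtain ⟨a, ha, hxa⟩ := ih (by omega) _ h1
    refine ⟨Function.update a J c, ?_, ?_⟩
    · intro j
      by_cases hj : j = J
      · rw [hj, Function.update_self]
        exact hc0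
      · rw [Function.update_of_ne hj]
        exact ha j
    · rw [Finset.sum_range_succ, Function.update_self]
      have h2 : ∑ j ∈ Finset.range J, Function.update a J c j * hh p y N j =
          ∑ j ∈ Finset.range J, a j * hh p y N j := by
        refine Finset.sum_congr rfl fun j hj => ?_
        rw [Function.update_of_ne (Finset.mem_range.1 hj).ne]
      rw [h2, ← hxa]
      ring

theorem TT_sum (h : LatD p φ τ K0 N y Y) (J : ℕ) (hJ : J ≤ p ^ N) (a : ℕ → L)
    (ha : ∀ j, a j ∈ K0) :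
    (TT τ)^[J] (∑ j ∈ Finset.range J, a j * hh p y N j) = 0 := by
  rw [TT_iter_sum]
  refine Finset.sum_eq_zero fun j hj => ?_
  have hj' := Finset.mem_range.1 hj
  rw [TT_mul_iter τ ((h.fix _).2 (ha j))]
  have h1 : J = (J - (j + 1)) + 1 + j := by omega
  rw [h1, Function.iterate_add_apply, TT_hh h j (by omega), Function.iterate_add_apply,
    Function.iterate_one]
  have h2 : TT τ (1 : L) = 0 := by
    rw [TT, map_one, sub_self]
  rw [h2, TT_iter_zero, mul_zero]

private theorem lat_sum (S : Finset ℕ) (u : ℕ → Om k)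
    (hd : ∀ i ∈ S, ∀ j ∈ S, i ≠ j → u i ≠ 0 → (u i).orderTop ≠ (u j).orderTop) (j : ℕ)
    (hj : j ∈ S) : (∑ i ∈ S, u i).orderTop ≤ (u j).orderTop := by
  by_cases hj0 : u j = 0
  · rw [hj0, HahnSeries.orderTop_zero]
    exact le_top
  obtain ⟨i, hi, hmin⟩ := Finset.exists_min_image S (fun i => (u i).orderTop) ⟨j, hj⟩
  have h1 : u i ≠ 0 := by
    intro h0
    have h2 := hmin j hj
    rw [h0, HahnSeries.orderTop_zero, top_le_iff, HahnSeries.orderTop_eq_top] at h2
    exact hj0 h2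
  obtain ⟨g, hg⟩ := WithTop.ne_top_iff_exists.1 (HahnSeries.orderTop_ne_top.2 h1)
  have h2 : (∑ i ∈ S, u i).coeff g = (u i).coeff g := by
    rw [HahnSeries.coeff_sum]
    refine Finset.sum_eq_single i ?_ (fun h => absurd hi h)
    intro i' hi' hne
    apply HahnSeries.coeff_eq_zero_of_lt_orderTop
    rw [hg]
    exact lt_of_le_of_ne (hmin i' hi') (hd i hi i' hi' (Ne.symm hne) h1)
  have h3 : (u i).coeff g ≠ 0 := HahnSeries.coeff_orderTop_ne hg.symm
  have h4 : (∑ i ∈ S, u i).orderTop ≤ g := by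
    apply HahnSeries.orderTop_le_of_coeff_ne_zero
    rw [h2]
    exact h3
  rw [hg] at h4
  exact h4.trans (hmin j hj)

theorem orderTop_le (h : LatD p φ τ K0 N y Y) (J : ℕ) (hJ : J ≤ p ^ N) (a : ℕ → L)
    (ha : ∀ j, a j ∈ K0) (j : ℕ) (hj : j < J) :
    (φ (∑ j ∈ Finset.range J, a j * hh p y N j)).orderTop ≤
      (φ (a j * hh p y N j)).orderTop := by
  rw [map_sum]
  refine lat_sum (Finset.range J) (fun j => φ (a j * hh p y N j)) ?_ j (Finset.mem_range.2 hj)
  intro i hi i' hi' hne h0 heq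
  have hi1 : i < p ^ N := lt_of_lt_of_le (Finset.mem_range.1 hi) hJ
  have hi2 : i' < p ^ N := lt_of_lt_of_le (Finset.mem_range.1 hi') hJ
  have h0' : φ (a i' * hh p y N i') ≠ 0 := by
    intro h1
    rw [h1, HahnSeries.orderTop_zero, HahnSeries.orderTop_eq_top] at heq
    exact h0 heq
  have ha0 : a i ≠ 0 := by
    intro h1
    rw [h1, zero_mul, map_zero] at h0
    exact h0 rfl
  have ha0' : a i' ≠ 0 := by
    intro h1
    rw [h1, zero_mul, map_zero] at h0'
    exact h0' rfl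
  obtain ⟨z, hz⟩ := h.vK _ (ha i) ha0
  obtain ⟨z', hz'⟩ := h.vK _ (ha i') ha0'
  rw [map_mul, map_mul, HahnSeries.orderTop_mul, HahnSeries.orderTop_mul, hz, hz',
    orderTop_hh h i hi1, orderTop_hh h i' hi2, ← WithTop.coe_add, ← WithTop.coe_add,
    WithTop.coe_inj] at heq
  refine XX_not_int h hi1 hi2 hne (z - z') ?_
  push_cast
  linarith

end

end Pool.Agent.WC
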