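import Pool.Agent.WC.G3
import Pool.Agent.WC.Lat
import Pool.Agent.WD.A5

/-! # The tuning module (piece WC-E1) -/

namespace Pool.Agent.WC

open Pool.Agent.WD

noncomputable section

universe u

variable {p : ℕ} [Fact p.Prime] {k : Type u} [Field k] [IsAlgClosed k] [CharP k p] {r n : ℕ}

/-- the nilpotent part -/
private def E1_N (k : Type u) [Field k] (m : Fin n → ℕ) : Matrix (Ix n m) (Ix n m) k :=
  fun x y => if x.1 = y.1 ∧ (y.2 : ℕ) = x.2 + 1 then 1 else 0

omit [IsAlgClosed k] [CharP k p] [Fact p.Prime] in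
private theorem E1_N_pow {k : Type u} [Field k] (m : Fin n → ℕ) (j : ℕ) (x y : Ix n m) :
    (E1_N k m ^ j) x y = if x.1 = y.1 ∧ (y.2 : ℕ) = x.2 + j then 1 else 0 := by
  classical
  induction j generalizing x y with
  | zero =>
    rw [pow_zero, Matrix.one_apply]
    by_cases h : x = y
    · subst h
      rw [if_pos rfl, if_pos ⟨rfl, by omega⟩]
    · rw [if_neg h, if_neg]
      rintro ⟨h1, h2⟩
      apply h
      obtain ⟨B, i⟩ := x
      obtain ⟨B', i'⟩ := y
      simp only at h1 h2
      subst h1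
      have : i = i' := Fin.ext (by omega)
      rw [this]
  | succ j ih =>
    rw [pow_succ, Matrix.mul_apply]
    by_cases h : x.1 = y.1 ∧ (y.2 : ℕ) = x.2 + (j + 1)
    · rw [if_pos h]
      obtain ⟨B, i⟩ := x
      obtain ⟨B', i'⟩ := y
      obtain ⟨h1, h2⟩ := h
      simp only at h1 h2
      subst h1
      have hlt : (i : ℕ) + j < m B := by
        have := i'.2
        omega
      rw [Finset.sum_eq_single (⟨B, ⟨(i : ℕ) + j, hlt⟩⟩ : Ix n m)]
      · rw [ih, if_pos ⟨rfl, rfl⟩, one_mul]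
        unfold E1_N
        rw [if_pos]
        exact ⟨rfl, by simp only; omega⟩
      · rintro ⟨B'', i''⟩ _ hne
        rw [ih]
        by_cases h3 : B = B'' ∧ (i'' : ℕ) = i + j
        · exfalso
          apply hne
          obtain ⟨h3, h4⟩ := h3
          subst h3
          have : i'' = ⟨(i : ℕ) + j, hlt⟩ := Fin.ext h4
          rw [this]
        · rw [if_neg h3, zero_mul]
      · intro h'
        exact absurd (Finset.mem_univ _) h'
    · rw [if_neg h]
      refine Finset.sum_eq_zero fun z _ => ?_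
      rw [ih]
      unfold E1_N
      by_cases h3 : x.1 = z.1 ∧ (z.2 : ℕ) = x.2 + j
      · rw [if_neg (c := z.1 = y.1 ∧ (y.2 : ℕ) = z.2 + 1), mul_zero]
        rintro ⟨h4, h5⟩
        exact h ⟨h3.1.trans h4, by omega⟩
      · rw [if_neg h3, zero_mul]

omit [IsAlgClosed k] [CharP k p] [Fact p.Prime] in
private theorem E1_J {k : Type u} [Field k] (m : Fin n → ℕ) : Jm k m = 1 + E1_N k m := by
  classical
  ext x y
  rw [Matrix.add_apply, Matrix.one_apply]
  unfold Jm E1_N
  by_cases h : x = y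
  · subst h
    rw [if_pos ⟨rfl, Or.inl rfl⟩, if_pos rfl, if_neg, add_zero]
    rintro ⟨-, h⟩
    omega
  · rw [if_neg h, zero_add]
    by_cases h1 : x.1 = y.1 ∧ (y.2 : ℕ) = x.2 + 1
    · rw [if_pos h1, if_pos ⟨h1.1, Or.inr h1.2⟩]
    · rw [if_neg h1, if_neg]
      rintro ⟨h2, h3 | h3⟩
      · apply h
        obtain ⟨B, i⟩ := x
        obtain ⟨B', i'⟩ := y
        simp only at h2 h3
        subst h2
        rw [Fin.ext h3]
      · exact h1 ⟨h2, h3⟩

/-- the entries of `J^(p^a)`: `1` on the diagonal and at distance `p^a` -/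
theorem Jm_pow_p_pow (m : Fin n → ℕ) (a : ℕ) (x y : Ix n m) :
    (Jm k m ^ (p ^ a)) x y =
      if x.1 = y.1 ∧ ((x.2 : ℕ) = y.2 ∨ (y.2 : ℕ) = x.2 + p ^ a) then 1 else 0 := by
  classical
  haveI : Nonempty (Ix n m) := ⟨x⟩
  have hpa : 0 < p ^ a := pow_pos (Fact.out : p.Prime).pos a
  rw [E1_J, add_pow_char_pow_of_commute p a (Commute.one_left _), one_pow, Matrix.add_apply,
    Matrix.one_apply, E1_N_pow]
  by_cases h : x = y
  · subst h
    rw [if_pos rfl, if_neg, if_pos ⟨rfl, Or.inl rfl⟩, add_zero]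
    rintro ⟨-, h⟩
    omega
  · rw [if_neg h, zero_add]
    by_cases h1 : x.1 = y.1 ∧ (y.2 : ℕ) = x.2 + p ^ a
    · rw [if_pos h1, if_pos ⟨h1.1, Or.inr h1.2⟩]
    · rw [if_neg h1, if_neg]
      rintro ⟨h2, h3 | h3⟩
      · apply h
        obtain ⟨B, i⟩ := x
        obtain ⟨B', i'⟩ := y
        simp only at h2 h3
        subst h2
        rw [Fin.ext h3]
      · exact h1 ⟨h2, h3⟩

theorem Jm_pow_eq_one (m : Fin n → ℕ) (hm : ∀ B, m B ≤ p ^ r) : Jm k m ^ (p ^ r) = 1 := by
  classical
  ext x y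
  rw [Jm_pow_p_pow, Matrix.one_apply]
  by_cases h : x = y
  · subst h
    rw [if_pos rfl, if_pos ⟨rfl, Or.inl rfl⟩]
  · rw [if_neg h, if_neg]
    rintro ⟨h2, h3 | h3⟩
    · apply h
      obtain ⟨B, i⟩ := x
      obtain ⟨B', i'⟩ := y
      simp only at h2 h3
      subst h2
      rw [Fin.ext h3]
    · have h4 := y.2.2
      have h5 := hm y.1
      omega


/-! Integrality -/

private theorem E1_order (c : Par p r k) (σ : Lw c ≃ₐ[LaurentSeries k] Lw c) (x : Lw c) :
    ((σ x : Lw c) : Om k).orderTop = (x : Om k).orderTop := by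
  by_cases hc : c = 0
  · subst hc
    rw [(core_zero σ).1]
    rfl
  · obtain ⟨a, ha, τ, y, h0, hpa, hcτ, hall, hfix, hinv, hy1, hy2⟩ := core c hc
    obtain ⟨g, hg⟩ := corrW_exists c σ
    obtain ⟨i, hi, -⟩ := hall σ g hg
    rw [hi]
    clear hi
    induction i with
    | zero => rfl
    | succ i ih =>
      rw [pow_succ', AlgEquiv.mul_apply, hinv, ih]

private noncomputable def E1_V (k : Type u) [Field k] :
    Valuation (Om k) (Multiplicative (WithTop ℚ)ᵒᵈ) :=
  (HahnSeries.addVal ℚ k).toValuation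

omit [IsAlgClosed k] in
private theorem E1_mem (x : Om k) : x ∈ (E1_V k).integer ↔ 0 ≤ x.orderTop := by
  rw [Valuation.mem_integer_iff]
  rfl

private theorem E1_coe_iff (c : Par p r k) (x : Lw c) :
    IsIntegral (PowerSeries k) x ↔ IsIntegral (PowerSeries k) (x : Om k) := by
  haveI : IsScalarTower (PowerSeries k) (Lw c) (Om k) := by
    refine IsScalarTower.of_algebraMap_eq fun y => ?_
    rw [IsScalarTower.algebraMap_apply (PowerSeries k) (LaurentSeries k) (Lw c),
      IsScalarTower.algebraMap_apply (PowerSeries k) (LaurentSeries k) (Om k)]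
    rfl
  have h : Function.Injective (algebraMap (Lw c) (Om k)) := (algebraMap (Lw c) (Om k)).injective
  exact (isIntegral_algebraMap_iff (R := PowerSeries k) (A := Lw c) (B := Om k) h).symm

private theorem E1_conj (c : Par p r k) (x : Lw c)
    (h : ∀ σ : Lw c ≃ₐ[LaurentSeries k] Lw c, 0 ≤ ((σ x : Lw c) : Om k).orderTop) :
    IsIntegral (PowerSeries k) x := by
  classical
  haveI := finiteDim_Lw c
  haveI := isGalois_Lw c
  haveI : Fintype (Lw c ≃ₐ[LaurentSeries k] Lw c) := Fintype.ofFinite _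
  let V : Subring (Lw c) := (E1_V k).integer.comap (algebraMap (Lw c) (Om k))
  have hV : ∀ y : Lw c, y ∈ V ↔ 0 ≤ (y : Om k).orderTop := fun y => E1_mem (y : Om k)
  set P : Polynomial (Lw c) := ∏ σ : Lw c ≃ₐ[LaurentSeries k] Lw c,
    (Polynomial.X - Polynomial.C (σ x)) with hP
  have hmonic : P.Monic := Polynomial.monic_prod_of_monic _ _ fun σ _ => Polynomial.monic_X_sub_C _
  have hroot : Polynomial.eval x P = 0 := by
    rw [hP, Polynomial.eval_prod]
    refine Finset.prod_eq_zero (Finset.mem_univ (AlgEquiv.refl : Lw c ≃ₐ[LaurentSeries k] Lw c)) ?_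
    rw [Polynomial.eval_sub, Polynomial.eval_X, Polynomial.eval_C]
    simp
  have hfix : ∀ τ : Lw c ≃ₐ[LaurentSeries k] Lw c, ∀ i, τ (P.coeff i) = P.coeff i := by
    intro τ i
    have h1 : P.map (τ : Lw c →+* Lw c) = P := by
      rw [hP, Polynomial.map_prod]
      refine Fintype.prod_equiv (Equiv.mulLeft τ) _ _ fun σ => ?_
      rw [Polynomial.map_sub, Polynomial.map_X, Polynomial.map_C]
      rfl
    conv_rhs => rw [← h1]
    rw [Polynomial.coeff_map]
    rfl
  have hcoef : ∀ i, P.coeff i ∈ V := by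
    intro i
    have h1 : P = Polynomial.map V.subtype (∏ σ : Lw c ≃ₐ[LaurentSeries k] Lw c,
        (Polynomial.X - Polynomial.C (⟨σ x, (hV _).2 (h σ)⟩ : V))) := by
      rw [hP, Polynomial.map_prod]
      refine Finset.prod_congr rfl fun σ _ => ?_
      rw [Polynomial.map_sub, Polynomial.map_X, Polynomial.map_C]
      rfl
    rw [h1, Polynomial.coeff_map]
    exact Subtype.property _
  have hlift : P ∈ Polynomial.lifts (algebraMap (PowerSeries k) (Lw c)) := by
    rw [Polynomial.lifts_iff_coeff_lifts]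
    intro i
    obtain ⟨a, ha⟩ := (IsGalois.mem_range_algebraMap_iff_fixed (F := LaurentSeries k)
      (P.coeff i)).2 fun τ => hfix τ i
    have h1 : 0 ≤ (toOm k a).orderTop := by
      have h2 := (hV _).1 (hcoef i)
      rw [← ha] at h2
      exact h2
    obtain ⟨y, hy⟩ := exists_powerSeries a h1
    refine ⟨y, ?_⟩
    rw [← ha, ← hy, IsScalarTower.algebraMap_apply (PowerSeries k) (LaurentSeries k) (Lw c)]
  obtain ⟨Q, hQ, _, hQm⟩ := Polynomial.lifts_and_degree_eq_and_monic hlift hmonic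
  refine ⟨Q, hQm, ?_⟩
  rw [← Polynomial.eval_map, hQ, hroot]

/-- integrality in `L_c`: the product of the `X - σ x` has coefficients in `k[[t]]` -/
theorem isIntegral_Lw_iff (c : Par p r k) (x : Lw c) :
    IsIntegral (PowerSeries k) x ↔ 0 ≤ (x : Om k).orderTop := by
  constructor
  · intro h
    exact orderTop_nonneg_of_isIntegral _ ((E1_coe_iff c x).1 h)
  · intro h
    apply E1_conj c x
    intro σ
    rw [E1_order]
    exact h

/-! The tuning module -/

private theorem E1_cw (c : Par p r k) (σ : Lw c ≃ₐ[LaurentSeries k] Lw c) (a : k) :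
    σ (cw c a) = cw c a := σ.commutes _

/-- the action of `J^(p^a)` -/
private theorem E1_sum (m : Fin n → ℕ) (c : Par p r k) (a : ℕ) (x : Ix n m → Lw c)
    (i : Ix n m) : ∑ b, cw c ((Jm k m ^ (p ^ a)) i b) * x b =
      x i + if h : (i.2 : ℕ) + p ^ a < m i.1 then x ⟨i.1, ⟨(i.2 : ℕ) + p ^ a, h⟩⟩ else 0 := by
  have hp : 0 < p ^ a := pow_pos (Fact.out : p.Prime).pos a
  have h3 : ∀ y, cw c ((Jm k m ^ (p ^ a)) i y) * x y =
      if i.1 = y.1 ∧ ((i.2 : ℕ) = y.2 ∨ (y.2 : ℕ) = i.2 + p ^ a) then x y else 0 := by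
    intro y
    rw [Jm_pow_p_pow (p := p) m a i y]
    split_ifs
    · rw [map_one, one_mul]
    · rw [map_zero, zero_mul]
  rw [Finset.sum_congr rfl fun y _ => h3 y]
  by_cases h : (i.2 : ℕ) + p ^ a < m i.1
  · rw [dif_pos h, Fintype.sum_eq_add i ⟨i.1, ⟨(i.2 : ℕ) + p ^ a, h⟩⟩]
    · rw [if_pos ⟨rfl, Or.inl rfl⟩, if_pos ⟨rfl, Or.inr rfl⟩]
    · intro h4
      have h5 : (i.2 : ℕ) = (i.2 : ℕ) + p ^ a := by
        have h6 := congrArg (fun y : Ix n m => (y.2 : ℕ)) h4
        exact h6
      omega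
    · rintro y ⟨hy1, hy2⟩
      rw [if_neg]
      rintro ⟨hy3, hy4⟩
      obtain ⟨B, j⟩ := y
      obtain ⟨B', j'⟩ := i
      simp only at hy3 hy4
      subst hy3
      rcases hy4 with hy4 | hy4
      · apply hy1
        have : j = j' := Fin.ext hy4.symm
        rw [this]
      · apply hy2
        have : j = ⟨(j' : ℕ) + p ^ a, h⟩ := Fin.ext hy4
        rw [this]
  · rw [dif_neg h, Fintype.sum_eq_single i]
    · rw [if_pos ⟨rfl, Or.inl rfl⟩, add_zero]
    · intro y hy
      rw [if_neg]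
      rintro ⟨hy3, hy4⟩
      obtain ⟨B, j⟩ := y
      obtain ⟨B', j'⟩ := i
      simp only at hy3 hy4 h
      subst hy3
      rcases hy4 with hy4 | hy4
      · apply hy
        have : j = j' := Fin.ext hy4.symm
        rw [this]
      · apply h
        rw [← hy4]
        exact j.2

private theorem E1_iter (m : Fin n → ℕ) (c : Par p r k) (A : Matrix (Ix n m) (Ix n m) k)
    (τ : Lw c ≃ₐ[LaurentSeries k] Lw c) (x : Ix n m → Lw c)
    (h : ∀ i, τ (x i) = ∑ b, cw c (A i b) * x b) (j : ℕ) (i : Ix n m) :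
    (τ ^ j) (x i) = ∑ b, cw c ((A ^ j) i b) * x b := by
  classical
  induction j generalizing i with
  | zero =>
    rw [pow_zero, pow_zero]
    have h3 : ∀ y, cw c ((1 : Matrix (Ix n m) (Ix n m) k) i y) * x y =
        if i = y then x y else 0 := by
      intro y
      rw [Matrix.one_apply]
      split_ifs
      · rw [map_one, one_mul]
      · rw [map_zero, zero_mul]
    rw [Finset.sum_congr rfl fun y _ => h3 y, Finset.sum_ite_eq, if_pos (Finset.mem_univ _)]
    rfl
  | succ j ih =>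
    rw [pow_succ', AlgEquiv.mul_apply, ih, map_sum]
    have h1 : ∀ b, τ (cw c ((A ^ j) i b) * x b) =
        ∑ d, cw c ((A ^ j) i b) * (cw c (A b d) * x d) := by
      intro b
      rw [map_mul, E1_cw, h, Finset.mul_sum]
    rw [Finset.sum_congr rfl fun b _ => h1 b, Finset.sum_comm]
    refine Finset.sum_congr rfl fun d _ => ?_
    rw [pow_succ, Matrix.mul_apply, map_sum, Finset.sum_mul]
    refine Finset.sum_congr rfl fun b _ => ?_
    rw [map_mul]
    ring

private theorem E1_pow_mod (m : Fin n → ℕ) (hm : ∀ B, m B ≤ p ^ r) (i : ℕ) :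
    Jm k m ^ (i % p ^ r) = Jm k m ^ i := by
  conv_rhs => rw [← Nat.div_add_mod i (p ^ r), pow_add, pow_mul, Jm_pow_eq_one (p := p) m hm,
    one_pow, one_mul]

/-- `x` is in the tuning module if and only if all `x_a` are integral and
`τ(x_i) - x_i = x_{i + p^a}` in each Jordan block -/
theorem mem_Tuning_iff (m : Fin n → ℕ) (hm : ∀ B, m B ≤ p ^ r) (c : Par p r k)
    {a : ℕ} (ha : a < r) {τ : Lw c ≃ₐ[LaurentSeries k] Lw c}
    (h1 : CorrW c τ ((p ^ a : ℕ) : ZMod (p ^ r)))
    (h2 : ∀ σ g, CorrW c σ g → ∃ i : ℕ, σ = τ ^ i ∧ g = ((p ^ a * i : ℕ) : ZMod (p ^ r)))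
    (x : Ix n m → Lw c) :
    x ∈ TuningW m c ↔ (∀ i, 0 ≤ ((x i : Lw c) : Om k).orderTop) ∧
      ∀ i : Ix n m, τ (x i) - x i =
        if h : (i.2 : ℕ) + p ^ a < m i.1 then x ⟨i.1, ⟨(i.2 : ℕ) + p ^ a, h⟩⟩ else 0 := by
  have hp : p.Prime := Fact.out
  have hlt : p ^ a < p ^ r := Nat.pow_lt_pow_right hp.one_lt ha
  constructor
  · rintro ⟨hx1, hx2⟩
    refine ⟨fun i => (isIntegral_Lw_iff c _).1 (hx1 i), fun i => ?_⟩
    have h3 := hx2 τ _ h1 i
    have h4 : rhoW k p r m ((p ^ a : ℕ) : ZMod (p ^ r)) = Jm k m ^ (p ^ a) := by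
      unfold rhoW
      rw [ZMod.val_natCast, Nat.mod_eq_of_lt hlt]
    rw [h4, E1_sum] at h3
    rw [h3]
    ring
  · rintro ⟨hx1, hx2⟩
    refine ⟨fun i => (isIntegral_Lw_iff c _).2 (hx1 i), fun σ g hσ i => ?_⟩
    obtain ⟨j, rfl, rfl⟩ := h2 σ g hσ
    have h4 : rhoW k p r m ((p ^ a * j : ℕ) : ZMod (p ^ r)) = (Jm k m ^ (p ^ a)) ^ j := by
      unfold rhoW
      rw [ZMod.val_natCast, E1_pow_mod m hm, pow_mul]
    rw [h4]
    apply E1_iter
    intro i
    rw [E1_sum, ← hx2 i]
    ring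

/-! The basis -/

private theorem E1_inj (c : Par p r k) :
    Function.Injective (algebraMap (PowerSeries k) (Lw c)) := by
  rw [IsScalarTower.algebraMap_eq (PowerSeries k) (LaurentSeries k) (Lw c)]
  exact (algebraMap (LaurentSeries k) (Lw c)).injective.comp
    (IsFractionRing.injective (PowerSeries k) (LaurentSeries k))

private theorem E1_basis (m : Fin n → ℕ) (c : Par p r k)
    (M : Submodule (PowerSeries k) (Ix n m → Lw c)) (e : ℕ → ℕ) (v : Ix n m → Ix n m → Lw c)
    (hv : ∀ a, v a ∈ M)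
    (h0 : ∀ a a' : Ix n m, (a.1 ≠ a'.1 ∨ (a.2 : ℕ) < a'.2) → v a a' = 0)
    (h1 : ∀ a : Ix n m, v a a = algebraMap (PowerSeries k) (Lw c) (PowerSeries.X ^ e a.2))
    (lead : ∀ x ∈ M, ∀ a : Ix n m, (∀ a' : Ix n m, a'.1 = a.1 → (a.2 : ℕ) < a'.2 → x a' = 0) →
      ∃ u : PowerSeries k, x a = algebraMap (PowerSeries k) (Lw c) (PowerSeries.X ^ e a.2 * u)) :
    ∃ b : Module.Basis (Ix n m) (PowerSeries k) M, ∀ a, (b a : Ix n m → Lw c) = v a := by
  classical
  set w : Ix n m → M := fun a => ⟨v a, hv a⟩ with hw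
  have hcomb : ∀ (g : Ix n m → PowerSeries k) (a' : Ix n m),
      ((∑ a, g a • w a : M) : Ix n m → Lw c) a' =
      ∑ a, algebraMap (PowerSeries k) (Lw c) (g a) * v a a' := by
    intro g a'
    rw [AddSubmonoidClass.coe_finsetSum, Finset.sum_apply]
    refine Finset.sum_congr rfl fun a _ => ?_
    rw [Submodule.coe_smul, Pi.smul_apply, Algebra.smul_def]
  have hli : LinearIndependent (PowerSeries k) w := by
    rw [Fintype.linearIndependent_iff]
    intro g hg
    by_contra hcon
    push Not at hcon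
    obtain ⟨a0, ha0⟩ := hcon
    obtain ⟨a, ha, hmax⟩ := Finset.exists_max_image
      (Finset.univ.filter fun a : Ix n m => g a ≠ 0) (fun a => (a.2 : ℕ))
      ⟨a0, Finset.mem_filter.2 ⟨Finset.mem_univ _, ha0⟩⟩
    rw [Finset.mem_filter] at ha
    have h2 : ∑ b, algebraMap (PowerSeries k) (Lw c) (g b) * v b a = 0 := by
      rw [← hcomb, hg]
      rfl
    rw [Finset.sum_eq_single a] at h2
    · rw [h1, ← map_mul] at h2
      have h3 := (map_eq_zero_iff _ (E1_inj c)).1 h2
      rcases mul_eq_zero.1 h3 with h4 | h4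
      · exact ha.2 h4
      · exact absurd h4 (pow_ne_zero _ PowerSeries.X_ne_zero)
    · intro b _ hba
      by_cases hgb : g b = 0
      · rw [hgb, map_zero, zero_mul]
      · have h3 := hmax b (Finset.mem_filter.2 ⟨Finset.mem_univ _, hgb⟩)
        rw [h0, mul_zero]
        by_cases h4 : b.1 = a.1
        · right
          obtain ⟨B, i⟩ := b
          obtain ⟨B', i'⟩ := a
          simp only at h3 h4 ⊢
          subst h4
          rcases Nat.lt_or_ge (i : ℕ) i' with h5 | h5
          · exact h5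
          · exfalso
            apply hba
            rw [Fin.ext (le_antisymm h3 h5)]
        · exact Or.inl h4
    · intro h
      exact absurd (Finset.mem_univ _) h
  have hclaim : ∀ N : ℕ, ∀ x ∈ M, (∀ a' : Ix n m, N ≤ (a'.2 : ℕ) → x a' = 0) →
      ∃ g : Ix n m → PowerSeries k, ∀ a', ∑ a, algebraMap (PowerSeries k) (Lw c) (g a) * v a a' =
        x a' := by
    intro N
    induction N with
    | zero =>
      intro x _ hx
      refine ⟨0, fun a' => ?_⟩
      rw [hx a' (Nat.zero_le _)]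
      simp
    | succ N ih =>
      intro x hxM hx
      have hu : ∀ a : Ix n m, ∃ u : PowerSeries k, (a.2 : ℕ) = N →
          x a = algebraMap (PowerSeries k) (Lw c) (PowerSeries.X ^ e a.2 * u) := by
        intro a
        by_cases h : (a.2 : ℕ) = N
        · obtain ⟨u, hu⟩ := lead x hxM a (fun a' _ h3 => hx a' (by omega))
          exact ⟨u, fun _ => hu⟩
        · exact ⟨0, fun h' => absurd h' h⟩
      choose u hu using hu
      set g0 : Ix n m → PowerSeries k := fun a => if (a.2 : ℕ) = N then u a else 0 with hg0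
      set y : M := ∑ a, g0 a • w a with hy
      have hyM : x - (y : Ix n m → Lw c) ∈ M := M.sub_mem hxM y.2
      have hya : ∀ a', (y : Ix n m → Lw c) a' =
          ∑ a, algebraMap (PowerSeries k) (Lw c) (g0 a) * v a a' := hcomb g0
      have hvan : ∀ a' : Ix n m, N ≤ (a'.2 : ℕ) → (x - (y : Ix n m → Lw c)) a' = 0 := by
        intro a' ha'
        rw [Pi.sub_apply, hya]
        rcases Nat.eq_or_lt_of_le ha' with h | h
        · rw [Finset.sum_eq_single a']
          · rw [hg0]
            simp only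
            rw [if_pos h.symm, h1, hu a' h.symm, ← map_mul, mul_comm (u a'), sub_self]
          · intro b _ hb
            by_cases h3 : (b.2 : ℕ) = N
            · rw [h0, mul_zero]
              left
              intro h4
              apply hb
              obtain ⟨B, i⟩ := b
              obtain ⟨B', i'⟩ := a'
              simp only at h3 h4 h
              subst h4
              rw [Fin.ext (h3.trans h)]
            · rw [hg0]
              simp only
              rw [if_neg h3, map_zero, zero_mul]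
          · intro h3
            exact absurd (Finset.mem_univ _) h3
        · rw [hx a' h, zero_sub, neg_eq_zero]
          refine Finset.sum_eq_zero fun b _ => ?_
          by_cases h3 : (b.2 : ℕ) = N
          · rw [h0 b a' (Or.inr (by omega)), mul_zero]
          · rw [hg0]
            simp only
            rw [if_neg h3, map_zero, zero_mul]
      obtain ⟨g', hg'⟩ := ih _ hyM hvan
      refine ⟨g0 + g', fun a' => ?_⟩
      have h3 : ∀ a, algebraMap (PowerSeries k) (Lw c) ((g0 + g') a) * v a a' =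
          algebraMap (PowerSeries k) (Lw c) (g0 a) * v a a' +
          algebraMap (PowerSeries k) (Lw c) (g' a) * v a a' := by
        intro a
        rw [Pi.add_apply, map_add, add_mul]
      rw [Finset.sum_congr rfl fun a _ => h3 a, Finset.sum_add_distrib, hg', ← hya,
        Pi.sub_apply]
      ring
  have hsp : ⊤ ≤ Submodule.span (PowerSeries k) (Set.range w) := by
    intro x _
    rw [Submodule.mem_span_range_iff_exists_fun]
    obtain ⟨g, hg⟩ := hclaim (Finset.univ.sup m) x x.2 (fun a' ha' => by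
      have h3 : m a'.1 ≤ Finset.univ.sup m := Finset.le_sup (Finset.mem_univ a'.1)
      have h4 := a'.2.2
      omega)
    refine ⟨g, ?_⟩
    apply Subtype.ext
    funext a'
    rw [hcomb, hg]
  refine ⟨Module.Basis.mk hli hsp, fun a => ?_⟩
  rw [Module.Basis.mk_apply]

private theorem E1_X (l : ℕ) : algebraMap (PowerSeries k) (LaurentSeries k) (PowerSeries.X ^ l) =
    HahnSeries.single (l : ℤ) 1 := by
  rw [LaurentSeries.coe_algebraMap, HahnSeries.ofPowerSeries_X_pow]

private theorem E1_toOm_single (v : ℤ) :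
    toOm k (HahnSeries.single v 1) = HahnSeries.single (v : ℚ) 1 := by
  change HahnSeries.embDomain _ (HahnSeries.single v (1 : k)) = _
  rw [HahnSeries.embDomain_single]
  rfl

private theorem E1_toOm_order {y : LaurentSeries k} (hy : y ≠ 0) :
    (toOm k y).orderTop = ((y.order : ℚ) : WithTop ℚ) := by
  change (HahnSeries.embDomain _ y).orderTop = _
  rw [HahnSeries.orderTop_embDomain, ← HahnSeries.order_eq_orderTop_of_ne_zero hy]
  rfl

/-- divisibility by a power of `t` -/
private theorem E1_div (q : ℚ) (hq : 0 ≤ q) (y : LaurentSeries k)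
    (h : ((q : ℚ) : WithTop ℚ) ≤ (toOm k y).orderTop) :
    ∃ u : PowerSeries k, algebraMap (PowerSeries k) (LaurentSeries k)
      (PowerSeries.X ^ ⌈q⌉₊ * u) = y := by
  by_cases hy : y = 0
  · exact ⟨0, by rw [mul_zero, map_zero, hy]⟩
  have hyo := E1_toOm_order (k := k) hy
  rw [hyo, WithTop.coe_le_coe] at h
  have hv : 0 ≤ y.order := by
    have : (0 : ℚ) ≤ (y.order : ℚ) := hq.trans h
    exact_mod_cast this
  have hle : ⌈q⌉₊ ≤ y.order.toNat := by
    rw [Nat.ceil_le]
    have h3 : ((y.order.toNat : ℕ) : ℚ) = (y.order : ℚ) := by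
      have := Int.toNat_of_nonneg hv
      exact_mod_cast this
    rw [h3]
    exact h
  obtain ⟨u, hu⟩ := exists_powerSeries (HahnSeries.single (-(⌈q⌉₊ : ℤ)) (1 : k) * y) (by
    rw [map_mul, E1_toOm_single, HahnSeries.orderTop_mul, HahnSeries.orderTop_single one_ne_zero,
      hyo, ← WithTop.coe_add, ← WithTop.coe_zero, WithTop.coe_le_coe]
    have h3 : (⌈q⌉₊ : ℤ) ≤ y.order := by
      rw [← Int.toNat_of_nonneg hv]
      exact_mod_cast hle
    have h4 : ((⌈q⌉₊ : ℤ) : ℚ) ≤ (y.order : ℚ) := by exact_mod_cast h3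
    push_cast at h4 ⊢
    linarith)
  refine ⟨u, ?_⟩
  rw [map_mul, hu, E1_X, ← mul_assoc, HahnSeries.single_mul_single, add_neg_cancel, mul_one]
  exact one_mul y

omit [Fact p.Prime] in
private theorem E1_up {p : ℕ} {j : ℕ → ℕ} {a : ℕ} (h : ∀ s < a, j s = 0) :
    (∀ s < a, up p j s = 0) ∧ up p j a = j a := by
  have h1 : ∀ s < a, up p j s = 0 := by
    intro s hs
    induction s with
    | zero => exact h 0 hs
    | succ s ih =>
      change max (p * up p j s) (j (s + 1)) = 0
      rw [ih (by omega), h (s + 1) hs]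
      simp
  refine ⟨h1, ?_⟩
  cases a with
  | zero => rfl
  | succ a =>
    change max (p * up p j a) (j (a + 1)) = _
    rw [h1 a (by omega)]
    simp

omit [Fact p.Prime] in
private theorem E1_XX {p r a : ℕ} (Y : ℕ → ℚ) (hY : ∀ s < a, Y s = 0) (ha : a ≤ r) (i : ℕ) :
    ∑ s ∈ Finset.range r, (((i / p ^ s) % p : ℕ) : ℚ) * Y s =
      XX p (fun s => Y (a + s)) (r - a) (i / p ^ a) := by
  unfold XX
  obtain ⟨d, rfl⟩ := Nat.exists_eq_add_of_le ha
  rw [Finset.sum_range_add, Nat.add_sub_cancel_left]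
  have e1 : ∑ s ∈ Finset.range a, (((i / p ^ s) % p : ℕ) : ℚ) * Y s = 0 := by
    refine Finset.sum_eq_zero fun s hs => ?_
    rw [hY s (Finset.mem_range.1 hs), mul_zero]
  rw [e1, zero_add]
  refine Finset.sum_congr rfl fun s _ => ?_
  rw [pow_add, Nat.div_div_eq_div_mul]

private theorem E1_pow_apply (c : Par p r k) (τ : Lw c ≃ₐ[LaurentSeries k] Lw c) (j : ℕ)
    (x : Lw c) : ((τ : Lw c ≃+* Lw c) ^ j) x = (τ ^ j) x := by
  induction j generalizing x with
  | zero => rfl
  | succ j ih =>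
    rw [pow_succ', pow_succ', AlgEquiv.mul_apply, ← ih]
    rfl

private theorem E1_lat (c : Par p r k) {a : ℕ} {τ : Lw c ≃ₐ[LaurentSeries k] Lw c}
    {y : ℕ → Lw c} (h0 : ∀ s < a, pol c s = 0) (hpa : pol c a ≠ 0)
    (hfix : ∀ x : Lw c, τ x = x → x ∈ Set.range (algebraMap (LaurentSeries k) (Lw c)))
    (hy1 : ∀ s < r - a, (τ ^ (p ^ s)) (y s) = y s + 1)
    (hy2 : ∀ s < r - a, ((y s : Lw c) : Om k).orderTop =
        ((-Yq p (fun s => (up p (pol c) s : ℚ)) (a + s) : ℚ) : WithTop ℚ)) :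
    LatD p (algebraMap (Lw c) (Om k)) (τ : Lw c ≃+* Lw c) (KL c) (r - a) y
      (fun s => Yq p (fun s => (up p (pol c) s : ℚ)) (a + s)) := by
  have hp : p.Prime := Fact.out
  refine ⟨fun x => ⟨fun h => ?_, fun h => ?_⟩, fun x hx hx0 => ?_, fun s hs => ?_, fun s hs => ?_,
    fun s hs => ?_⟩
  · obtain ⟨x', hx'⟩ := hfix x h
    exact ⟨x', hx'⟩
  · obtain ⟨x', rfl⟩ := h
    exact τ.commutes x'
  · obtain ⟨x', rfl⟩ := hx
    have hx0' : x' ≠ 0 := by
      rintro rfl
      exact hx0 (map_zero _)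
    exact ⟨x'.order, E1_toOm_order hx0'⟩
  · rw [E1_pow_apply]
    exact hy1 s hs
  · exact hy2 s hs
  · have h3 := E1_up (p := p) h0
    obtain ⟨l, hl1, hl2, hl3⟩ := Yq_num hp (up p (pol c)) (fun s => up_mono hp.one_lt.le _ s) a
      h3.1 (by
        rw [h3.2]
        exact (pol_spec c a).resolve_left hpa) (a + s) (Nat.le_add_right _ _)
    refine ⟨l, hl1, hl2, ?_⟩
    rw [Nat.add_sub_cancel_left] at hl3
    exact hl3

section TTlem

variable {L : Type*} [Field L]

private theorem E1_TT_zero (τ : L ≃+* L) (j : ℕ) : (TT τ)^[j] (0 : L) = 0 := by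
  induction j with
  | zero => rfl
  | succ j ih => rw [Function.iterate_succ_apply', ih, TT, map_zero, sub_zero]

private theorem E1_TT_add (τ : L ≃+* L) (j : ℕ) (x y : L) :
    (TT τ)^[j] (x + y) = (TT τ)^[j] x + (TT τ)^[j] y := by
  induction j with
  | zero => rfl
  | succ j ih =>
    rw [Function.iterate_succ_apply', ih, Function.iterate_succ_apply',
      Function.iterate_succ_apply', TT, TT, TT, map_add]
    ring

private theorem E1_TT_mul (τ : L ≃+* L) {a : L} (ha : τ a = a) (j : ℕ) (x : L) :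
    (TT τ)^[j] (a * x) = a * (TT τ)^[j] x := by
  induction j with
  | zero => rfl
  | succ j ih =>
    rw [Function.iterate_succ_apply', ih, Function.iterate_succ_apply', TT, TT, map_mul, ha]
    ring

end TTlem

private theorem E1_TT_order (c : Par p r k) (τ : Lw c ≃ₐ[LaurentSeries k] Lw c) (j : ℕ)
    (x : Lw c) : (x : Om k).orderTop ≤
      (((TT (τ : Lw c ≃+* Lw c))^[j] x : Lw c) : Om k).orderTop := by
  induction j with
  | zero => exact le_rfl
  | succ j ih =>
    rw [Function.iterate_succ_apply']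
    set z := (TT (τ : Lw c ≃+* Lw c))^[j] x with hz
    refine ih.trans ?_
    have h1 : ((TT (τ : Lw c ≃+* Lw c) z : Lw c) : Om k) = ((τ z : Lw c) : Om k) + -(z : Om k) := by
      rw [← sub_eq_add_neg]
      rfl
    rw [h1]
    refine le_trans ?_ HahnSeries.min_orderTop_le_orderTop_add
    rw [HahnSeries.orderTop_neg, E1_order, min_self]

private theorem E1_XX_nonneg {p : ℕ} {Y : ℕ → ℚ} {N : ℕ} (hY : ∀ s < N, 0 ≤ Y s) (j : ℕ) :
    0 ≤ XX p Y N j := by
  unfold XX
  exact Finset.sum_nonneg fun s hs => mul_nonneg (Nat.cast_nonneg _) (hY s (Finset.mem_range.1 hs))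

private theorem E1_Y_nonneg {c : Par p r k} {a : ℕ} {τ : Lw c ≃ₐ[LaurentSeries k] Lw c}
    {y : ℕ → Lw c} {Y : ℕ → ℚ}
    (hL : LatD p (algebraMap (Lw c) (Om k)) (τ : Lw c ≃+* Lw c) (KL c) (r - a) y Y) :
    ∀ s < r - a, 0 ≤ Y s := by
  intro s hs
  obtain ⟨l, -, -, h⟩ := hL.num s hs
  rw [h]
  positivity

/-- the leading coefficients -/
private theorem E1_lead (m : Fin n → ℕ) (hm : ∀ B, m B ≤ p ^ r) (c : Par p r k) {a : ℕ}
    (ha : a < r) {τ : Lw c ≃ₐ[LaurentSeries k] Lw c} {y : ℕ → Lw c} {Y : ℕ → ℚ}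
    (hL : LatD p (algebraMap (Lw c) (Om k)) (τ : Lw c ≃+* Lw c) (KL c) (r - a) y Y)
    (x : Ix n m → Lw c) (hx1 : ∀ i, 0 ≤ ((x i : Lw c) : Om k).orderTop)
    (hx2 : ∀ i : Ix n m, τ (x i) - x i =
        if h : (i.2 : ℕ) + p ^ a < m i.1 then x ⟨i.1, ⟨(i.2 : ℕ) + p ^ a, h⟩⟩ else 0)
    (i : Ix n m) (hi : ∀ a' : Ix n m, a'.1 = i.1 → (i.2 : ℕ) < a'.2 → x a' = 0) :
    ∃ u : PowerSeries k, x i = algebraMap (PowerSeries k) (Lw c)
      (PowerSeries.X ^ ⌈XX p Y (r - a) ((i.2 : ℕ) / p ^ a)⌉₊ * u) := by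
  have hp : p.Prime := Fact.out
  have hq : 0 < p ^ a := pow_pos hp.pos a
  obtain ⟨B, i⟩ := i
  simp only at hi ⊢
  set X' : ℕ → Lw c := fun s => if h : s < m B then x ⟨B, ⟨s, h⟩⟩ else 0 with hX'
  have hstep : ∀ s, TT (τ : Lw c ≃+* Lw c) (X' s) = X' (s + p ^ a) := by
    intro s
    by_cases h : s < m B
    · have h3 := hx2 ⟨B, ⟨s, h⟩⟩
      simp only at h3
      rw [hX']
      simp only
      rw [dif_pos h]
      exact h3
    · rw [hX']
      simp only
      rw [dif_neg h, dif_neg (by omega), TT, map_zero, sub_zero]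
  have hiter : ∀ j s, (TT (τ : Lw c ≃+* Lw c))^[j] (X' s) = X' (s + j * p ^ a) := by
    intro j s
    induction j with
    | zero => simp
    | succ j ih =>
      rw [Function.iterate_succ_apply', ih, hstep]
      congr 1
      ring
  set b := (i : ℕ) % p ^ a with hb
  set l := (i : ℕ) / p ^ a with hl
  have hbl : b + l * p ^ a = i := by
    rw [mul_comm]
    exact Nat.mod_add_div _ _
  have hbi : b ≤ i := by
    rw [← hbl]
    exact Nat.le_add_right _ _
  have hbm : b < m B := lt_of_le_of_lt hbi i.2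
  have hlN : l < p ^ (r - a) := by
    rw [hl, Nat.div_lt_iff_lt_mul hq, ← pow_add]
    have h3 : r - a + a = r := by omega
    rw [h3]
    exact lt_of_lt_of_le i.2 (hm B)
  have h1 : (TT (τ : Lw c ≃+* Lw c))^[l] (X' b) = x ⟨B, i⟩ := by
    rw [hiter, hbl, hX']
    simp only
    rw [dif_pos i.2]
  have h2 : (TT (τ : Lw c ≃+* Lw c))^[l + 1] (X' b) = 0 := by
    rw [hiter]
    have h3 : b + (l + 1) * p ^ a = i + p ^ a := by
      rw [add_mul, one_mul, ← add_assoc, hbl]
    rw [h3, hX']
    simp only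
    split_ifs with h4
    · exact hi _ rfl (by simp only; omega)
    · rfl
  obtain ⟨A, hA, hrep⟩ := exists_repr hL (l + 1) hlN (X' b) h2
  have h3 : x ⟨B, i⟩ = A l := by
    rw [← h1, hrep, Finset.sum_range_succ, E1_TT_add, TT_sum hL l hlN.le A hA, zero_add,
      E1_TT_mul _ ((hL.fix _).2 (hA l)), TT_hh hL l hlN, mul_one]
  have h4 := orderTop_le hL (l + 1) hlN A hA l (Nat.lt_succ_self l)
  rw [← hrep, map_mul, HahnSeries.orderTop_mul, orderTop_hh hL l hlN] at h4
  have h5 : 0 ≤ (algebraMap (Lw c) (Om k) (X' b)).orderTop := by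
    rw [hX']
    simp only
    rw [dif_pos hbm]
    exact hx1 _
  have h6 := h5.trans h4
  obtain ⟨z, hz⟩ := hA l
  have h7 : algebraMap (Lw c) (Om k) (A l) = toOm k z := by
    rw [← hz]
    rfl
  rw [h7] at h6
  have h8 : ((XX p Y (r - a) l : ℚ) : WithTop ℚ) ≤ (toOm k z).orderTop := by
    cases hzo : (toOm k z).orderTop with
    | top => exact le_top
    | coe w =>
      rw [hzo, ← WithTop.coe_add, ← WithTop.coe_zero, WithTop.coe_le_coe] at h6
      rw [WithTop.coe_le_coe]
      linarith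
  obtain ⟨u, hu⟩ := E1_div _ (E1_XX_nonneg (E1_Y_nonneg hL) l) z h8
  refine ⟨u, ?_⟩
  rw [h3, ← hz, ← hu, ← IsScalarTower.algebraMap_apply (PowerSeries k) (LaurentSeries k) (Lw c)]

/-- the elements of the basis -/
private def E1_v (m : Fin n → ℕ) (c : Par p r k) (a : ℕ) (τ : Lw c ≃ₐ[LaurentSeries k] Lw c)
    (y : ℕ → Lw c) (e : ℕ → ℕ) (i a' : Ix n m) : Lw c :=
  if i.1 = a'.1 ∧ (a'.2 : ℕ) % p ^ a = (i.2 : ℕ) % p ^ a then
    algebraMap (PowerSeries k) (Lw c) (PowerSeries.X ^ e i.2) *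
      (TT (τ : Lw c ≃+* Lw c))^[(a'.2 : ℕ) / p ^ a] (hh p y (r - a) ((i.2 : ℕ) / p ^ a))
  else 0

private theorem E1_TT_high (c : Par p r k) {a : ℕ}
    {τ : Lw c ≃ₐ[LaurentSeries k] Lw c} {y : ℕ → Lw c} {Y : ℕ → ℚ}
    (hL : LatD p (algebraMap (Lw c) (Om k)) (τ : Lw c ≃+* Lw c) (KL c) (r - a) y Y)
    {l j : ℕ} (hl : l < p ^ (r - a)) (hlj : l < j) :
    (TT (τ : Lw c ≃+* Lw c))^[j] (hh p y (r - a) l) = 0 := by
  obtain ⟨d, rfl⟩ := Nat.exists_eq_add_of_lt hlj
  have h1 : l + d + 1 = d + 1 + l := by ring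
  rw [h1, Function.iterate_add_apply, TT_hh hL l hl, Function.iterate_add_apply,
    Function.iterate_one, TT, map_one, sub_self, E1_TT_zero]

private theorem E1_v_mem (m : Fin n → ℕ) (hm : ∀ B, m B ≤ p ^ r) (c : Par p r k) {a : ℕ}
    (ha : a < r) {τ : Lw c ≃ₐ[LaurentSeries k] Lw c} {y : ℕ → Lw c} {Y : ℕ → ℚ}
    (hL : LatD p (algebraMap (Lw c) (Om k)) (τ : Lw c ≃+* Lw c) (KL c) (r - a) y Y)
    (e : ℕ → ℕ) (i : Ix n m) (he : XX p Y (r - a) ((i.2 : ℕ) / p ^ a) ≤ (e i.2 : ℚ)) :
    (∀ a', 0 ≤ ((E1_v m c a τ y e i a' : Lw c) : Om k).orderTop) ∧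
      ∀ a' : Ix n m, τ (E1_v m c a τ y e i a') - E1_v m c a τ y e i a' =
        if h : (a'.2 : ℕ) + p ^ a < m a'.1 then
          E1_v m c a τ y e i ⟨a'.1, ⟨(a'.2 : ℕ) + p ^ a, h⟩⟩ else 0 := by
  have hp : p.Prime := Fact.out
  have hq : 0 < p ^ a := pow_pos hp.pos a
  have hlN : (i.2 : ℕ) / p ^ a < p ^ (r - a) := by
    rw [Nat.div_lt_iff_lt_mul hq, ← pow_add]
    have h3 : r - a + a = r := by omega
    rw [h3]
    exact lt_of_lt_of_le i.2.2 (hm i.1)
  constructor
  · intro a'
    unfold E1_v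
    split_ifs with h
    · have h1 : ((algebraMap (PowerSeries k) (Lw c) (PowerSeries.X ^ e i.2) *
          (TT (τ : Lw c ≃+* Lw c))^[(a'.2 : ℕ) / p ^ a] (hh p y (r - a) ((i.2 : ℕ) / p ^ a)) :
            Lw c) : Om k) = HahnSeries.single (e i.2 : ℚ) (1 : k) *
          (((TT (τ : Lw c ≃+* Lw c))^[(a'.2 : ℕ) / p ^ a] (hh p y (r - a) ((i.2 : ℕ) / p ^ a)) :
            Lw c) : Om k) := by
        have h2 : ((algebraMap (PowerSeries k) (Lw c) (PowerSeries.X ^ e i.2) : Lw c) : Om k) =
            HahnSeries.single (e i.2 : ℚ) (1 : k) := by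
          rw [IsScalarTower.algebraMap_apply (PowerSeries k) (LaurentSeries k) (Lw c), E1_X]
          change toOm k _ = _
          rw [E1_toOm_single]
          norm_cast
        rw [← h2]
        rfl
      rw [h1, HahnSeries.orderTop_mul, HahnSeries.orderTop_single one_ne_zero]
      have h3 := E1_TT_order c τ ((a'.2 : ℕ) / p ^ a) (hh p y (r - a) ((i.2 : ℕ) / p ^ a))
      have h4 : ((hh p y (r - a) ((i.2 : ℕ) / p ^ a) : Lw c) : Om k).orderTop = _ :=
        orderTop_hh hL _ hlN
      rw [h4] at h3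
      refine le_trans ?_ (add_le_add le_rfl h3)
      rw [← WithTop.coe_add, ← WithTop.coe_zero, WithTop.coe_le_coe]
      linarith
    · change 0 ≤ (0 : Om k).orderTop
      rw [HahnSeries.orderTop_zero]
      exact le_top
  · intro a'
    have hC : τ (algebraMap (PowerSeries k) (Lw c) (PowerSeries.X ^ e i.2)) =
        algebraMap (PowerSeries k) (Lw c) (PowerSeries.X ^ e i.2) := by
      rw [IsScalarTower.algebraMap_apply (PowerSeries k) (LaurentSeries k) (Lw c)]
      exact τ.commutes _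
    by_cases h : i.1 = a'.1 ∧ (a'.2 : ℕ) % p ^ a = (i.2 : ℕ) % p ^ a
    · have h1 : τ (E1_v m c a τ y e i a') - E1_v m c a τ y e i a' =
          algebraMap (PowerSeries k) (Lw c) (PowerSeries.X ^ e i.2) *
          (TT (τ : Lw c ≃+* Lw c))^[(a'.2 : ℕ) / p ^ a + 1]
            (hh p y (r - a) ((i.2 : ℕ) / p ^ a)) := by
        unfold E1_v
        rw [if_pos h, map_mul, hC, Function.iterate_succ_apply', TT, mul_sub]
        rfl
      rw [h1]
      split_ifs with h2
      · unfold E1_v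
        rw [if_pos]
        · simp only
          rw [Nat.add_div_right _ hq]
        · refine ⟨h.1, ?_⟩
          simp only
          rw [Nat.add_mod_right]
          exact h.2
      · rw [E1_TT_high c hL hlN, mul_zero]
        have h3 := Nat.mod_add_div (i.2 : ℕ) (p ^ a)
        have h4 := Nat.mod_add_div (a'.2 : ℕ) (p ^ a)
        have h5 := i.2.2
        have h6 : m i.1 = m a'.1 := by rw [h.1]
        rw [h.2] at h4
        by_contra hcon
        have h7 : (a'.2 : ℕ) / p ^ a + 1 ≤ (i.2 : ℕ) / p ^ a := not_lt.1 hcon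
        have h8 := Nat.mul_le_mul_left (p ^ a) h7
        rw [mul_add, mul_one] at h8
        omega
    · have h1 : E1_v m c a τ y e i a' = 0 := by
        unfold E1_v
        rw [if_neg h]
      rw [h1, map_zero, sub_zero]
      split_ifs with h2
      · unfold E1_v
        rw [if_neg]
        rintro ⟨h3, h4⟩
        apply h
        refine ⟨h3, ?_⟩
        simp only at h4
        rwa [Nat.add_mod_right] at h4
      · rfl

private theorem E1_rho_zero (m : Fin n → ℕ) : rhoW k p r m 0 = 1 := by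
  unfold rhoW
  rw [ZMod.val_zero, pow_zero]

/-- In the block `B` and the residue class `b` modulo `p^a` the vector is determined by
`x_b ∈ ker (τ - 1)^J`; basis `t^⌈X_j⌉ h_j`, `j < J`. -/
theorem exists_basisW (m : Fin n → ℕ) (hm : ∀ B, m B ≤ p ^ r) (c : Par p r k) :
    ∃ b : Module.Basis (Ix n m) (PowerSeries k) (TuningW m c),
      (∀ a a' : Ix n m, (a.1 ≠ a'.1 ∨ (a.2 : ℕ) < a'.2) → (b a : Ix n m → Lw c) a' = 0) ∧
      ∀ a : Ix n m, (b a : Ix n m → Lw c) a = algebraMap (PowerSeries k) (Lw c)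
        (PowerSeries.X ^ ⌈Xq p r (up p (pol c)) a.2⌉₊) := by
  classical
  have hp : p.Prime := Fact.out
  by_cases hc : c = 0
  · subst hc
    have hpol : ∀ s, pol (0 : Par p r k) s = 0 := by
      intro s
      unfold pol
      rw [Finsupp.support_zero, Finset.filter_empty]
      rfl
    have hup : ∀ s, up p (pol (0 : Par p r k)) s = 0 := fun s =>
      (E1_up (p := p) (a := s + 1) fun t _ => hpol t).1 s (Nat.lt_succ_self s)
    have hXq : ∀ i, Xq p r (up p (pol (0 : Par p r k))) i = 0 := by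
      intro i
      unfold Xq
      refine Finset.sum_eq_zero fun s _ => ?_
      have h1 : Yq p (fun s => (up p (pol (0 : Par p r k)) s : ℚ)) s = 0 := by
        unfold Yq
        simp [hup]
      rw [h1, mul_zero]
    have hmem : ∀ x : Ix n m → Lw (0 : Par p r k), x ∈ TuningW m (0 : Par p r k) ↔
        ∀ i, 0 ≤ ((x i : Lw (0 : Par p r k)) : Om k).orderTop := by
      intro x
      constructor
      · rintro ⟨hx, -⟩ i
        exact (isIntegral_Lw_iff _ _).1 (hx i)
      · intro hx
        refine ⟨fun i => (isIntegral_Lw_iff _ _).2 (hx i), fun σ g hσ i => ?_⟩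
        obtain ⟨h1, h2, -⟩ := core_zero σ
        have h3 : g = 0 := corrW_unique _ hσ h2
        rw [h3, h1, E1_rho_zero]
        have h4 : ∀ b, cw (0 : Par p r k) ((1 : Matrix (Ix n m) (Ix n m) k) i b) * x b =
            if i = b then x b else 0 := by
          intro b
          rw [Matrix.one_apply]
          split_ifs
          · rw [map_one, one_mul]
          · rw [map_zero, zero_mul]
        rw [Finset.sum_congr rfl fun b _ => h4 b, Finset.sum_ite_eq, if_pos (Finset.mem_univ _)]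
        rfl
    obtain ⟨b, hb⟩ := E1_basis m (0 : Par p r k) (TuningW m (0 : Par p r k)) (fun _ => 0)
      (fun a => Pi.single a 1) (fun a => (hmem _).2 fun i => by
        by_cases h : i = a
        · subst h
          rw [Pi.single_eq_same]
          change 0 ≤ (1 : Om k).orderTop
          rw [HahnSeries.orderTop_one]
        · rw [Pi.single_eq_of_ne h]
          change 0 ≤ (0 : Om k).orderTop
          rw [HahnSeries.orderTop_zero]
          exact le_top)
      (fun a a' h => by
        apply Pi.single_eq_of_ne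
        rintro rfl
        rcases h with h | h
        · exact h rfl
        · exact lt_irrefl _ h)
      (fun a => by rw [Pi.single_eq_same, pow_zero, map_one])
      (fun x hx a _ => by
        obtain ⟨z, hz⟩ := (core_zero (1 : Lw (0 : Par p r k) ≃ₐ[LaurentSeries k] _)).2.2 (x a)
        have h1 := (hmem x).1 hx a
        rw [← hz] at h1
        obtain ⟨u, hu⟩ := exists_powerSeries z h1
        refine ⟨u, ?_⟩
        rw [pow_zero, one_mul, ← hz, ← hu,
          ← IsScalarTower.algebraMap_apply (PowerSeries k) (LaurentSeries k) (Lw (0 : Par p r k))])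
    refine ⟨b, fun a a' h => ?_, fun a => ?_⟩
    · rw [hb]
      apply Pi.single_eq_of_ne
      rintro rfl
      rcases h with h | h
      · exact h rfl
      · exact lt_irrefl _ h
    · rw [hb, hXq, Nat.ceil_zero, pow_zero, map_one, Pi.single_eq_same]
  · obtain ⟨a, ha, τ, y, h0, hpa, hcτ, hall, hfix, hinv, hy1, hy2⟩ := core c hc
    have hL := E1_lat c h0 hpa hfix hy1 hy2
    have hmem := mem_Tuning_iff m hm c ha hcτ hall
    have hX : ∀ i : ℕ, Xq p r (up p (pol c)) i =
        XX p (fun s => Yq p (fun s => (up p (pol c) s : ℚ)) (a + s)) (r - a) (i / p ^ a) := by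
      intro i
      exact E1_XX _ (fun s hs => Yq_eq_zero _ a (E1_up (p := p) h0).1 s hs) ha.le i
    have hq : 0 < p ^ a := pow_pos hp.pos a
    have hlN : ∀ i : Ix n m, (i.2 : ℕ) / p ^ a < p ^ (r - a) := by
      intro i
      rw [Nat.div_lt_iff_lt_mul hq, ← pow_add]
      have h3 : r - a + a = r := by omega
      rw [h3]
      exact lt_of_lt_of_le i.2.2 (hm i.1)
    set e : ℕ → ℕ := fun i => ⌈Xq p r (up p (pol c)) i⌉₊ with he
    have hv0 : ∀ i a' : Ix n m, (i.1 ≠ a'.1 ∨ (i.2 : ℕ) < a'.2) → E1_v m c a τ y e i a' = 0 := by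
      intro i a' h
      unfold E1_v
      split_ifs with h1
      · rcases h with h | h
        · exact absurd h1.1 h
        · rw [E1_TT_high c hL (hlN i), mul_zero]
          have h3 := Nat.mod_add_div (i.2 : ℕ) (p ^ a)
          have h4 := Nat.mod_add_div (a'.2 : ℕ) (p ^ a)
          rw [h1.2] at h4
          by_contra hcon
          have h7 : (a'.2 : ℕ) / p ^ a ≤ (i.2 : ℕ) / p ^ a := not_lt.1 hcon
          have h8 := Nat.mul_le_mul_left (p ^ a) h7
          omega
      · rfl
    have hv1 : ∀ i : Ix n m, E1_v m c a τ y e i i =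
        algebraMap (PowerSeries k) (Lw c) (PowerSeries.X ^ e i.2) := by
      intro i
      unfold E1_v
      rw [if_pos ⟨rfl, rfl⟩, TT_hh hL _ (hlN i), mul_one]
    obtain ⟨b, hb⟩ := E1_basis m c (TuningW m c) e (E1_v m c a τ y e)
      (fun i => (hmem _).2 (E1_v_mem m hm c ha hL e i (by
        rw [← hX]
        exact Nat.le_ceil _)))
      hv0 hv1
      (fun x hx i hi => by
        obtain ⟨hx1, hx2⟩ := (hmem x).1 hx
        obtain ⟨u, hu⟩ := E1_lead m hm c ha hL x hx1 hx2 i hi
        refine ⟨u, ?_⟩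
        rw [hu, he]
        simp only
        rw [hX])
    refine ⟨b, fun i a' h => ?_, fun i => ?_⟩
    · rw [hb]
      exact hv0 i a' h
    · rw [hb]
      exact hv1 i

/-! The determinant -/

private theorem E1_det0 (m : Fin n → ℕ) (c : Par p r k)
    (b : Module.Basis (Ix n m) (PowerSeries k) (TuningW m c))
    (hb0 : ∀ a a' : Ix n m, (a.1 ≠ a'.1 ∨ (a.2 : ℕ) < a'.2) → (b a : Ix n m → Lw c) a' = 0)
    (hb1 : ∀ a : Ix n m, (b a : Ix n m → Lw c) a = algebraMap (PowerSeries k) (Lw c)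
        (PowerSeries.X ^ ⌈Xq p r (up p (pol c)) a.2⌉₊)) :
    Matrix.det (fun i a => (b i : Ix n m → Lw c) a) =
      algebraMap (PowerSeries k) (Lw c) (PowerSeries.X ^ vN p r m (up p (pol c))) := by
  classical
  have hbt : Matrix.BlockTriangular (Matrix.transpose (fun i a => (b i : Ix n m → Lw c) a :
      Matrix (Ix n m) (Ix n m) (Lw c))) (fun a : Ix n m => (a.2 : ℕ)) := by
    intro a' a h
    exact hb0 a a' (Or.inr h)
  change Matrix.det (Matrix.of (fun i a => (b i : Ix n m → Lw c) a)) = _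
  rw [← Matrix.det_transpose]
  have hdet : (Matrix.transpose (Matrix.of (fun i a => (b i : Ix n m → Lw c) a))).det =
      (Matrix.transpose (fun i a => (b i : Ix n m → Lw c) a :
        Matrix (Ix n m) (Ix n m) (Lw c))).det := rfl
  rw [hdet, hbt.det]
  have h1 : ∀ j ∈ Finset.image (fun a : Ix n m => (a.2 : ℕ)) Finset.univ,
      (Matrix.toSquareBlock (Matrix.transpose (fun i a => (b i : Ix n m → Lw c) a :
        Matrix (Ix n m) (Ix n m) (Lw c))) (fun a : Ix n m => (a.2 : ℕ)) j).det =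
      ∏ x : {a : Ix n m // (a.2 : ℕ) = j}, (b x.1 : Ix n m → Lw c) x.1 := by
    intro j _
    have h2 : Matrix.toSquareBlock (Matrix.transpose (fun i a => (b i : Ix n m → Lw c) a :
        Matrix (Ix n m) (Ix n m) (Lw c))) (fun a : Ix n m => (a.2 : ℕ)) j =
        Matrix.diagonal fun x : {a : Ix n m // (a.2 : ℕ) = j} => (b x.1 : Ix n m → Lw c) x.1 := by
      refine Matrix.ext fun x' x => ?_
      change (b x.1 : Ix n m → Lw c) x'.1 = _
      by_cases h : x' = x
      · subst h
        rw [Matrix.diagonal_apply_eq]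
      · rw [Matrix.diagonal_apply_ne _ h]
        apply hb0
        left
        intro h3
        apply h
        obtain ⟨⟨B, i⟩, hi⟩ := x
        obtain ⟨⟨B', i'⟩, hi'⟩ := x'
        simp only at h3 hi hi'
        subst h3
        have : i = i' := Fin.ext (hi.trans hi'.symm)
        subst this
        rfl
    rw [h2, Matrix.det_diagonal]
  rw [Finset.prod_congr rfl h1]
  have h3 : ∀ j, ∏ x : {a : Ix n m // (a.2 : ℕ) = j}, (b x.1 : Ix n m → Lw c) x.1 =
      ∏ a ∈ Finset.univ.filter (fun a : Ix n m => (a.2 : ℕ) = j), (b a : Ix n m → Lw c) a := by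
    intro j
    exact (Finset.prod_subtype (Finset.univ.filter fun a : Ix n m => (a.2 : ℕ) = j)
      (fun x => by simp) (fun a : Ix n m => (b a : Ix n m → Lw c) a)).symm
  rw [Finset.prod_congr rfl fun j _ => h3 j,
    Finset.prod_fiberwise_of_maps_to (fun a ha => Finset.mem_image_of_mem _ ha),
    Finset.prod_congr rfl fun a _ => hb1 a, ← map_prod, Finset.prod_pow_eq_pow_sum]
  rfl

private theorem E1_change (m : Fin n → ℕ) (c : Par p r k)
    (b b0 : Module.Basis (Ix n m) (PowerSeries k) (TuningW m c)) :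
    ∃ v : (PowerSeries k)ˣ, Matrix.det (fun i a => (b i : Ix n m → Lw c) a) =
      algebraMap (PowerSeries k) (Lw c) (v : PowerSeries k) *
        Matrix.det (fun i a => (b0 i : Ix n m → Lw c) a) := by
  classical
  set Q : Matrix (Ix n m) (Ix n m) (PowerSeries k) := b0.toMatrix b with hQ
  have hu : IsUnit Q.det := by
    have h1 : Q * b.toMatrix b0 = 1 := Module.Basis.toMatrix_mul_toMatrix_flip b0 b
    exact Matrix.isUnit_det_of_right_inverse h1
  obtain ⟨v, hv⟩ := hu
  refine ⟨v, ?_⟩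
  have h2 : (Matrix.of fun i a => (b i : Ix n m → Lw c) a) =
      (Q.map (algebraMap (PowerSeries k) (Lw c))).transpose *
        (Matrix.of fun i a => (b0 i : Ix n m → Lw c) a) := by
    refine Matrix.ext fun i a => ?_
    rw [Matrix.mul_apply]
    have h3 := Module.Basis.sum_toMatrix_smul_self b0 b i
    have h4 := congrArg (fun x : TuningW m c => (x : Ix n m → Lw c) a) h3
    simp only [Submodule.coe_sum, Submodule.coe_smul, Finset.sum_apply, Pi.smul_apply] at h4
    rw [Matrix.of_apply, ← h4]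
    apply Finset.sum_congr rfl
    intro j _
    rw [Algebra.smul_def]
    rfl
  change Matrix.det (Matrix.of fun i a => (b i : Ix n m → Lw c) a) =
    algebraMap (PowerSeries k) (Lw c) (v : PowerSeries k) *
      Matrix.det (Matrix.of fun i a => (b0 i : Ix n m → Lw c) a)
  rw [h2, Matrix.det_mul, Matrix.det_transpose, hv, RingHom.map_det]
  rfl

theorem isVW_iff (m : Fin n → ℕ) (hm : ∀ B, m B ≤ p ^ r) (c : Par p r k) (a : ℕ) :
    IsVW m c a ↔ a = vN p r m (up p (pol c)) := by
  obtain ⟨b0, hb0, hb1⟩ := exists_basisW m hm c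
  have h0 := E1_det0 m c b0 hb0 hb1
  constructor
  · rintro ⟨b, v, hv⟩
    obtain ⟨w, hw⟩ := E1_change m c b b0
    rw [hv, h0, ← map_mul] at hw
    have h1 := E1_inj c hw
    have h2 : PowerSeries.order ((v : PowerSeries k) * PowerSeries.X ^ a) = a := by
      rw [PowerSeries.order_mul, PowerSeries.order_X_pow]
      have h3 : PowerSeries.order (v : PowerSeries k) = 0 :=
        PowerSeries.order_zero_of_unit v.isUnit
      rw [h3, zero_add]
    have h4 : PowerSeries.order ((w : PowerSeries k) *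
        PowerSeries.X ^ (vN p r m (up p (pol c)))) =
        ((vN p r m (up p (pol c)) : ℕ) : ℕ∞) := by
      rw [PowerSeries.order_mul, PowerSeries.order_X_pow]
      have h3 : PowerSeries.order (w : PowerSeries k) = 0 :=
        PowerSeries.order_zero_of_unit w.isUnit
      rw [h3, zero_add]
    rw [h1, h4] at h2
    exact_mod_cast h2.symm
  · rintro rfl
    refine ⟨b0, 1, ?_⟩
    rw [h0, Units.val_one, one_mul]

theorem vW_eq (m : Fin n → ℕ) (hm : ∀ B, m B ≤ p ^ r) (c : Par p r k) :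
    vW m c = vN p r m (up p (pol c)) := by
  have h1 : {a | IsVW m c a} = {vN p r m (up p (pol c))} := by
    ext a
    rw [Set.mem_singleton_iff]
    exact isVW_iff m hm c a
  unfold vW
  rw [h1, csInf_singleton]

end

end Pool.Agent.WC
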