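import Pool.Agent.WC.E1

/-! # The fixed space (piece WC-E2) -/

namespace Pool.Agent.WC

open Pool.Agent.WD

universe u

variable {p : ℕ} [Fact p.Prime] {k : Type u} [Field k] [IsAlgClosed k] [CharP k p] {r n : ℕ}

omit [IsAlgClosed k] in
/-- dimension of a coordinate subspace -/
private theorem E2_finrank {ι : Type*} [Fintype ι] (P : ι → Prop) [DecidablePred P]
    (S : Submodule k (ι → k)) (hS : ∀ x, x ∈ S ↔ ∀ i, P i → x i = 0) :
    Module.finrank k S + (Finset.univ.filter P).card = Fintype.card ι := by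
  classical
  have hbij : Function.Bijective
      ((LinearMap.funLeft k k (Subtype.val : {i // ¬ P i} → ι)).comp S.subtype) := by
    constructor
    · rw [← LinearMap.ker_eq_bot, LinearMap.ker_eq_bot']
      intro x hx
      ext i
      by_cases hi : P i
      · exact (hS x).1 x.2 i hi
      · exact congrFun hx ⟨i, hi⟩
    · intro y
      refine ⟨⟨fun i => if h : P i then 0 else y ⟨i, h⟩, ?_⟩, ?_⟩
      · rw [hS]
        intro i hi
        simp [hi]
      · funext i
        change (if h : P i.1 then 0 else y ⟨i.1, h⟩) = y i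
        rw [dif_neg i.2]
  have h1 := (LinearEquiv.ofBijective _ hbij).finrank_eq
  rw [h1, Module.finrank_fintype_fun_eq_card, Fintype.card_subtype, add_comm,
    Finset.card_filter_add_card_filter_not]
  rfl

/-- the vectors fixed by `J^(p^a)` -/
private theorem E2_fixed (m : Fin n → ℕ) (a : ℕ) (x : Ix n m → k) :
    (Jm k m ^ (p ^ a)).mulVec x = x ↔ ∀ y : Ix n m, p ^ a ≤ (y.2 : ℕ) → x y = 0 := by
  have hp : 0 < p ^ a := pow_pos (Fact.out : p.Prime).pos a
  have h1 : ∀ i : Ix n m, (Jm k m ^ (p ^ a)).mulVec x i =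
      x i + (if h : (i.2 : ℕ) + p ^ a < m i.1 then x ⟨i.1, ⟨(i.2 : ℕ) + p ^ a, h⟩⟩ else 0) := by
    intro i
    have h2 : (Jm k m ^ (p ^ a)).mulVec x i = ∑ y, (Jm k m ^ (p ^ a)) i y * x y := rfl
    have h3 : ∀ y, (Jm k m ^ (p ^ a)) i y * x y =
        if i.1 = y.1 ∧ ((i.2 : ℕ) = y.2 ∨ (y.2 : ℕ) = i.2 + p ^ a) then x y else 0 := by
      intro y
      rw [Jm_pow_p_pow (p := p) m a i y]
      split_ifs
      · rw [one_mul]
      · rw [zero_mul]
    rw [h2, Finset.sum_congr rfl fun y _ => h3 y]
    by_cases h : (i.2 : ℕ) + p ^ a < m i.1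
    · rw [dif_pos h, Fintype.sum_eq_add i ⟨i.1, ⟨(i.2 : ℕ) + p ^ a, h⟩⟩]
      · rw [if_pos ⟨rfl, Or.inl rfl⟩, if_pos ⟨rfl, Or.inr rfl⟩]
      · intro h4
        have h5 : (i.2 : ℕ) = (i.2 : ℕ) + p ^ a := by
          have h6 := congrArg (fun y : Ix n m => (y.2 : ℕ)) h4
          exact h6
        omega
      · rintro y ⟨hy1, hy2⟩
        rw [if_neg]
        rintro ⟨hy3, hy4⟩
        obtain ⟨B, j⟩ := y
        obtain ⟨B', j'⟩ := i
        simp only at hy3 hy4
        subst hy3
        rcases hy4 with hy4 | hy4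
        · apply hy1
          have : j = j' := Fin.ext hy4.symm
          rw [this]
        · apply hy2
          have : j = ⟨(j' : ℕ) + p ^ a, h⟩ := Fin.ext hy4
          rw [this]
    · rw [dif_neg h, Fintype.sum_eq_single i]
      · rw [if_pos ⟨rfl, Or.inl rfl⟩, add_zero]
      · intro y hy
        rw [if_neg]
        rintro ⟨hy3, hy4⟩
        obtain ⟨B, j⟩ := y
        obtain ⟨B', j'⟩ := i
        simp only at hy3 hy4 h
        subst hy3
        rcases hy4 with hy4 | hy4
        · apply hy
          have : j = j' := Fin.ext hy4.symm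
          rw [this]
        · apply h
          rw [← hy4]
          exact j.2
  constructor
  · rintro h ⟨B, j⟩ hy
    simp only at hy
    have hj : (j : ℕ) - p ^ a < m B := by
      have := j.2
      omega
    have h4 := congrFun h ⟨B, ⟨(j : ℕ) - p ^ a, hj⟩⟩
    rw [h1, add_eq_left] at h4
    have h5 : (j : ℕ) - p ^ a + p ^ a < m B := by
      have := j.2
      omega
    rw [dif_pos h5] at h4
    have h6 : (⟨(j : ℕ) - p ^ a + p ^ a, h5⟩ : Fin (m B)) = j := by
      apply Fin.ext
      simp only
      omega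
    rw [h6] at h4
    exact h4
  · intro h
    funext i
    rw [h1]
    split_ifs with h2
    · rw [h ⟨i.1, ⟨(i.2 : ℕ) + p ^ a, h2⟩⟩ (by simp), add_zero]
    · rw [add_zero]

omit [Fact p.Prime] in
private theorem E2_up_zero {j : ℕ → ℕ} (s : ℕ) (h : ∀ t ≤ s, j t = 0) : up p j s = 0 := by
  induction s with
  | zero => exact h 0 le_rfl
  | succ s ih =>
    change max (p * up p j s) (j (s + 1)) = 0
    rw [ih fun t ht => h t (by omega), h (s + 1) le_rfl]
    simp

private theorem E2_card (m : Fin n → ℕ) : Fintype.card (Ix n m) = dimV m := by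
  unfold dimV
  rw [Fintype.card_sigma]
  simp

private theorem E2_pow (m : Fin n → ℕ) (hm : ∀ B, m B ≤ p ^ r) (i : ℕ) :
    Jm k m ^ (i % p ^ r) = Jm k m ^ i := by
  conv_rhs => rw [← Nat.div_add_mod i (p ^ r), pow_add, pow_mul, Jm_pow_eq_one (p := p) m hm,
    one_pow, one_mul]

/-- `x` is fixed by `J^(p^a)` if and only if `x_i = 0` for all `i ≥ p^a` -/
theorem codimW_eq (m : Fin n → ℕ) (hm : ∀ B, m B ≤ p ^ r) (c : Par p r k) :
    (dimV m : ℤ) - Module.finrank k (fixedW m c) = (cN p r m (up p (pol c)) : ℤ) := by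
  classical
  have hp : p.Prime := Fact.out
  by_cases hc : c = 0
  · subst hc
    have h1 : ∀ g ∈ HW (0 : Par p r k), g = 0 := by
      rintro g ⟨σ, hσ⟩
      exact corrW_unique _ hσ (core_zero σ).2.1
    have h2 := E2_finrank (k := k) (fun _ : Ix n m => False) (fixedW m (0 : Par p r k))
      (by
        intro x
        refine ⟨fun _ i hi => hi.elim, fun _ g hg => ?_⟩
        rw [h1 g hg]
        unfold rhoW
        rw [ZMod.val_zero, pow_zero, Matrix.one_mulVec])
    have h3 : ∀ s, pol (0 : Par p r k) s = 0 := by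
      intro s
      unfold pol
      simp
    have h4 : ∀ s, up p (pol (0 : Par p r k)) s = 0 := fun s => E2_up_zero s fun t _ => h3 t
    have h5 : ∀ i, Xq p r (up p (pol (0 : Par p r k))) i = 0 := by
      intro i
      unfold Xq Yq
      simp only [h4]
      simp
    have h6 : cN p r m (up p (pol (0 : Par p r k))) = 0 := by
      unfold cN
      simp only [h5]
      simp
    rw [h6, E2_card] at *
    simp only [Finset.filter_false, Finset.card_empty, add_zero] at h2
    rw [h2]
    simp
  · obtain ⟨a, har, τ, y, h1, h2, h3, h4, -⟩ := core c hc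
    have hu : ∀ s, p * up p (pol c) s ≤ up p (pol c) (s + 1) := up_mono hp.pos _
    have hz : ∀ s, s < a → up p (pol c) s = 0 := fun s hs =>
      E2_up_zero s fun t ht => h1 t (lt_of_le_of_lt ht hs)
    have ha : ¬ p ∣ up p (pol c) a := by
      have h5 : up p (pol c) a = pol c a := by
        cases a with
        | zero => rfl
        | succ a =>
          change max (p * up p (pol c) a) (pol c (a + 1)) = _
          rw [hz a (by omega)]
          simp
      rw [h5]
      exact (pol_spec c a).resolve_left h2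
    have hpa : p ^ a < p ^ r := Nat.pow_lt_pow_right hp.one_lt har
    have hval : ((p ^ a : ℕ) : ZMod (p ^ r)).val = p ^ a := ZMod.val_cast_of_lt hpa
    have h5 := E2_finrank (k := k) (fun y : Ix n m => p ^ a ≤ (y.2 : ℕ)) (fixedW m c)
      (by
        intro x
        rw [← E2_fixed (p := p)]
        constructor
        · intro hx
          have h6 := hx _ ⟨τ, h3⟩
          unfold rhoW at h6
          rwa [hval] at h6
        · rintro hx g ⟨σ, hσ⟩
          obtain ⟨i, -, rfl⟩ := h4 σ g hσ
          unfold rhoW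
          rw [ZMod.val_natCast, E2_pow m hm, pow_mul]
          have h7 : ∀ i : ℕ, ((Jm k m ^ (p ^ a)) ^ i).mulVec x = x := by
            intro i
            induction i with
            | zero => rw [pow_zero, Matrix.one_mulVec]
            | succ i ih => rw [pow_succ, ← Matrix.mulVec_mulVec, hx, ih]
          exact h7 i)
    have h6 : cN p r m (up p (pol c)) =
        (Finset.univ.filter fun y : Ix n m => p ^ a ≤ (y.2 : ℕ)).card := by
      unfold cN
      refine congrArg Finset.card (Finset.ext fun y => ?_)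
      rw [Finset.mem_filter, Finset.mem_filter,
        Ne, Xq_eq_zero_iff hp _ hu a har hz ha _ (lt_of_lt_of_le y.2.2 (hm y.1)), not_lt]
    rw [h6, ← E2_card m, ← h5]
    push_cast
    ring

theorem faithN_of_faithfulW (m : Fin n → ℕ) (hf : FaithfulW k p r m) : FaithN p r m := by
  have hp : p.Prime := Fact.out
  by_contra hcon
  unfold FaithN at hcon
  push Not at hcon
  obtain ⟨hr, hB⟩ := hcon
  have h1 : p ^ (r - 1) < p ^ r := Nat.pow_lt_pow_right hp.one_lt (by omega)
  have hval : ((p ^ (r - 1) : ℕ) : ZMod (p ^ r)).val = p ^ (r - 1) := ZMod.val_cast_of_lt h1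
  refine hf ((p ^ (r - 1) : ℕ) : ZMod (p ^ r)) ?_ ?_
  · intro h
    rw [h, ZMod.val_zero] at hval
    exact (pow_pos hp.pos (r - 1)).ne hval
  · unfold rhoW
    rw [hval]
    exact Jm_pow_eq_one (p := p) m hB

end Pool.Agent.WC
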