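import Pool.Agent.WC.Num

/-! # Numbers: the lower jumps (piece WC-N1) -/

namespace Pool.Agent.WC

open Pool.Agent.WD

theorem up_mono {p : ℕ} (hp : 1 ≤ p) (j : ℕ → ℕ) (s : ℕ) : p * up p j s ≤ up p j (s + 1) := by
  rw [up]
  exact le_max_left _ _

theorem le_up {p : ℕ} (hp : 1 ≤ p) (j : ℕ → ℕ) (s : ℕ) : j s ≤ up p j s := by
  cases s with
  | zero => rw [up]
  | succ s =>
    rw [up]
    exact le_max_right _ _

private theorem N1_zero (p : ℕ) (u : ℕ → ℚ) : Yq p u 0 = u 0 / p := by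
  simp [Yq]

private theorem N1_rec {p : ℕ} (hp : 0 < p) (u : ℕ → ℚ) (s : ℕ) :
    Yq p u (s + 1) = (u (s + 1) - u s + Yq p u s) / p := by
  have hp' : (p : ℚ) ≠ 0 := by exact_mod_cast hp.ne'
  rw [Yq, Yq, Finset.sum_range_succ]
  have h1 : ∑ i ∈ Finset.range s, ((p : ℚ) - 1) * u i / (p : ℚ) ^ (s + 1 - i + 1) =
      (∑ i ∈ Finset.range s, ((p : ℚ) - 1) * u i / (p : ℚ) ^ (s - i + 1)) / p := by
    rw [Finset.sum_div]
    refine Finset.sum_congr rfl fun i hi => ?_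
    have h2 : s + 1 - i + 1 = (s - i + 1) + 1 := by
      have := Finset.mem_range.mp hi
      omega
    rw [h2, pow_succ (p : ℚ) (s - i + 1), div_div]
  have h3 : s + 1 - s + 1 = 2 := by omega
  rw [h1, h3]
  field_simp
  ring

theorem Yq_eq_zero {p : ℕ} (u : ℕ → ℕ) (a : ℕ) (h : ∀ s, s < a → u s = 0) (s : ℕ)
    (hs : s < a) : Yq p (fun s => (u s : ℚ)) s = 0 := by
  rw [Yq, h s hs, Finset.sum_eq_zero]
  · simp
  · intro i hi
    rw [h i (lt_trans (Finset.mem_range.mp hi) hs)]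
    simp

/-- `l = p^(s-a) u_s - (p - 1) ∑_{a ≤ i < s} p^(i-a) u_i ≡ u_a` modulo `p`; and `Y_s > 0` because
`u_i ≤ u_s / p^(s-i)`. -/
theorem Yq_num {p : ℕ} (hp : p.Prime) (u : ℕ → ℕ) (hu : ∀ s, p * u s ≤ u (s + 1)) (a : ℕ)
    (h : ∀ s, s < a → u s = 0) (ha : ¬ p ∣ u a) (s : ℕ) (hs : a ≤ s) :
    ∃ l : ℕ, 0 < l ∧ ¬ p ∣ l ∧
      Yq p (fun s => (u s : ℚ)) s = (l : ℚ) / (p : ℚ) ^ (s - a + 1) := by
  have hp' : (p : ℚ) ≠ 0 := by exact_mod_cast hp.ne_zero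
  obtain ⟨t, rfl⟩ := Nat.exists_eq_add_of_le hs
  clear hs
  induction t with
  | zero =>
    refine ⟨u a, ?_, ha, ?_⟩
    · rcases Nat.eq_zero_or_pos (u a) with h0 | h0
      · exact absurd (by rw [h0]; exact dvd_zero p) ha
      · exact h0
    · cases a with
      | zero => rw [N1_zero]; simp
      | succ b =>
        rw [add_zero, N1_rec hp.pos, h b (Nat.lt_succ_self b),
          Yq_eq_zero u (b + 1) h b (Nat.lt_succ_self b)]
        simp
  | succ t ih =>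
    obtain ⟨l, hl1, hl2, hl3⟩ := ih
    have hle : u (a + t) ≤ u (a + t + 1) :=
      le_trans (Nat.le_mul_of_pos_left _ hp.pos) (hu (a + t))
    refine ⟨(u (a + t + 1) - u (a + t)) * p ^ (t + 1) + l, by omega, ?_, ?_⟩
    · intro hd
      apply hl2
      have h1 : p ∣ (u (a + t + 1) - u (a + t)) * p ^ (t + 1) :=
        Dvd.dvd.mul_left (dvd_pow_self p (Nat.succ_ne_zero t)) _
      exact (Nat.dvd_add_right h1).mp hd
    · have e1 : a + (t + 1) = a + t + 1 := rfl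
      have e2 : a + t + 1 - a + 1 = (t + 1) + 1 := by omega
      have e3 : a + t - a + 1 = t + 1 := by omega
      rw [e1, N1_rec hp.pos, hl3, e2, e3]
      push_cast [Nat.cast_sub hle]
      field_simp
      ring

/-- `Y_s ≥ u_s / (p + 1)` -/
theorem Yq_ge {p : ℕ} (hp : p.Prime) (u : ℕ → ℕ) (hu : ∀ s, p * u s ≤ u (s + 1)) (s : ℕ) :
    (u s : ℚ) / ((p : ℚ) + 1) ≤ Yq p (fun s => (u s : ℚ)) s := by
  have hp0 : (0 : ℚ) < p := by exact_mod_cast hp.pos
  induction s with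
  | zero =>
    rw [N1_zero]
    have h0 : (0 : ℚ) ≤ u 0 := by positivity
    gcongr
    linarith
  | succ s ih =>
    rw [N1_rec hp.pos]
    have h1 : (p : ℚ) * u s ≤ u (s + 1) := by exact_mod_cast hu s
    have h2 : ((u (s + 1) : ℚ) - u s + (u s : ℚ) / ((p : ℚ) + 1)) / p ≤
        ((u (s + 1) : ℚ) - u s + Yq p (fun s => (u s : ℚ)) s) / p := by
      gcongr
    refine le_trans ?_ h2
    rw [div_le_div_iff₀ (by positivity) hp0]
    have h3 : ((u (s + 1) : ℚ) - u s + (u s : ℚ) / ((p : ℚ) + 1)) * ((p : ℚ) + 1) =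
        (u (s + 1) : ℚ) * (p + 1) - u s * p := by
      field_simp
      ring
    rw [h3]
    nlinarith

private theorem N1_pos {p : ℕ} (hp : p.Prime) (u : ℕ → ℕ) (hu : ∀ s, p * u s ≤ u (s + 1))
    (a : ℕ) (h : ∀ s, s < a → u s = 0) (ha : ¬ p ∣ u a) (s : ℕ) (hs : a ≤ s) :
    0 < Yq p (fun s => (u s : ℚ)) s := by
  obtain ⟨l, hl1, _, hl3⟩ := Yq_num hp u hu a h ha s hs
  rw [hl3]
  have : (0 : ℚ) < p := by exact_mod_cast hp.pos
  have : (0 : ℚ) < l := by exact_mod_cast hl1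
  positivity

private theorem N1_nonneg {p : ℕ} (hp : p.Prime) (u : ℕ → ℕ) (hu : ∀ s, p * u s ≤ u (s + 1))
    (s : ℕ) : 0 ≤ Yq p (fun s => (u s : ℚ)) s :=
  le_trans (by positivity) (Yq_ge hp u hu s)

private theorem N1_top {p i : ℕ} (hp : p.Prime) (hi : i ≠ 0) :
    (i / p ^ (Nat.log p i)) % p ≠ 0 ∧ (i / p ^ (Nat.log p i)) % p < p := by
  have h1 : p ^ (Nat.log p i) ≤ i := Nat.pow_log_le_self p hi
  have h2 : i < p ^ (Nat.log p i + 1) := Nat.lt_pow_succ_log_self hp.one_lt i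
  have h3 : 0 < i / p ^ (Nat.log p i) := Nat.div_pos h1 (pow_pos hp.pos _)
  have h4 : i / p ^ (Nat.log p i) < p := by
    rw [Nat.div_lt_iff_lt_mul (pow_pos hp.pos _), mul_comm, ← pow_succ]
    exact h2
  rw [Nat.mod_eq_of_lt h4]
  exact ⟨h3.ne', h4⟩

private theorem N1_above {p i s : ℕ} (hp : p.Prime) (h : i < p ^ s) : (i / p ^ s) % p = 0 := by
  rw [Nat.div_eq_of_lt h, Nat.zero_mod]

/-- `X_i` vanishes if and only if `i < p^a` -/
theorem Xq_eq_zero_iff {p r : ℕ} (hp : p.Prime) (u : ℕ → ℕ) (hu : ∀ s, p * u s ≤ u (s + 1))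
    (a : ℕ) (har : a < r) (h : ∀ s, s < a → u s = 0) (ha : ¬ p ∣ u a) (i : ℕ)
    (hi : i < p ^ r) : Xq p r u i = 0 ↔ i < p ^ a := by
  constructor
  · intro h0
    by_contra hlt
    push Not at hlt
    have hi0 : i ≠ 0 := by
      have := pow_pos hp.pos a
      omega
    have hL1 : a ≤ Nat.log p i := Nat.le_log_of_pow_le hp.one_lt hlt
    have hL2 : Nat.log p i < r := Nat.log_lt_of_lt_pow hi0 hi
    rw [Xq, Finset.sum_eq_zero_iff_of_nonneg] at h0
    · have h1 := h0 (Nat.log p i) (Finset.mem_range.mpr hL2)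
      rcases mul_eq_zero.mp h1 with h2 | h2
      · exact (N1_top hp hi0).1 (by exact_mod_cast h2)
      · exact (N1_pos hp u hu a h ha _ hL1).ne' h2
    · intro s _
      exact mul_nonneg (by positivity) (N1_nonneg hp u hu s)
  · intro hlt
    rw [Xq]
    refine Finset.sum_eq_zero fun s _ => ?_
    by_cases hs : s < a
    · rw [Yq_eq_zero u a h s hs, mul_zero]
    · push Not at hs
      rw [N1_above hp (lt_of_lt_of_le hlt (Nat.pow_le_pow_right hp.pos hs))]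
      simp

private theorem N1_notint {p r a M l : ℕ} (hp : p.Prime) (haM : a ≤ M) (hM : M < r)
    (d : ℕ → ℕ) (Y : ℕ → ℚ) (hd : ¬ p ∣ d M) (hl : ¬ p ∣ l)
    (hY : Y M = (l : ℚ) / (p : ℚ) ^ (M - a + 1)) (hY0 : ∀ s < a, Y s = 0)
    (hYs : ∀ s, a ≤ s → ∃ l' : ℕ, Y s = (l' : ℚ) / (p : ℚ) ^ (s - a + 1))
    (hd0 : ∀ s, M < s → d s = 0) (z : ℤ) :
    ∑ s ∈ Finset.range r, (d s : ℚ) * Y s ≠ z := by
  intro hz
  have hp' : (p : ℚ) ≠ 0 := by exact_mod_cast hp.ne_zero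
  have hint : ∀ s ∈ (Finset.range r).erase M, ∃ w : ℤ, (p : ℚ) ^ (M - a) *
      ((d s : ℚ) * Y s) = w := by
    intro s hs
    rw [Finset.mem_erase, Finset.mem_range] at hs
    rcases lt_or_gt_of_ne hs.1 with hlt | hgt
    · by_cases hsa : s < a
      · exact ⟨0, by rw [hY0 s hsa]; simp⟩
      · push Not at hsa
        obtain ⟨l', hl3'⟩ := hYs s hsa
        refine ⟨(d s : ℤ) * l' * p ^ (M - s - 1), ?_⟩
        rw [hl3']
        have e : M - a = (s - a + 1) + (M - s - 1) := by omega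
        rw [e, pow_add]
        push_cast
        field_simp
    · exact ⟨0, by rw [hd0 s hgt]; simp⟩
  choose! w hw using hint
  have hsum : (p : ℚ) ^ (M - a) * ∑ s ∈ Finset.range r, (d s : ℚ) * Y s =
      ((∑ s ∈ (Finset.range r).erase M, w s : ℤ) : ℚ) + (d M : ℚ) * l / p := by
    rw [Finset.mul_sum, ← Finset.sum_erase_add _ _ (Finset.mem_range.mpr hM),
      Finset.sum_congr rfl hw, hY]
    push_cast
    congr 1
    rw [pow_succ]
    field_simp
  rw [hz] at hsum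
  generalize (∑ s ∈ (Finset.range r).erase M, w s : ℤ) = W at hsum
  have h3 : ((d M : ℚ) * l) = (p : ℚ) * ((p : ℚ) ^ (M - a) * z - (W : ℚ)) := by
    rw [hsum]
    field_simp
    ring
  have h4 : ((d M : ℤ) * (l : ℤ)) = (p : ℤ) * ((p : ℤ) ^ (M - a) * z - W) := by
    have h5 : (((d M : ℤ) * (l : ℤ) : ℤ) : ℚ) =
        (((p : ℤ) * ((p : ℤ) ^ (M - a) * z - W) : ℤ) : ℚ) := by
      push_cast
      exact h3
    exact_mod_cast h5
  have h5 : (p : ℤ) ∣ ((d M : ℤ) * (l : ℤ)) := ⟨_, h4⟩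
  have h6 : p ∣ d M * l := by exact_mod_cast h5
  rcases hp.dvd_mul.mp h6 with h9 | h9
  · exact hd h9
  · exact hl h9

/-- otherwise `X_i` is not an integer -/
theorem Xq_not_int {p r : ℕ} (hp : p.Prime) (u : ℕ → ℕ) (hu : ∀ s, p * u s ≤ u (s + 1))
    (a : ℕ) (har : a < r) (h : ∀ s, s < a → u s = 0) (ha : ¬ p ∣ u a) (i : ℕ)
    (hi : i < p ^ r) (h1 : p ^ a ≤ i) (z : ℤ) : Xq p r u i ≠ z := by
  have hi0 : i ≠ 0 := by
    have := pow_pos hp.pos a
    omega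
  have hL1 : a ≤ Nat.log p i := Nat.le_log_of_pow_le hp.one_lt h1
  have hL2 : Nat.log p i < r := Nat.log_lt_of_lt_pow hi0 hi
  obtain ⟨l, hl1, hl2, hl3⟩ := Yq_num hp u hu a h ha (Nat.log p i) hL1
  obtain ⟨h7, h8⟩ := N1_top hp hi0
  rw [Xq]
  refine N1_notint hp hL1 hL2 (fun s => (i / p ^ s) % p) (Yq p (fun s => (u s : ℚ))) ?_ hl2 hl3
    (fun s hs => Yq_eq_zero u a h s hs) ?_ ?_ z
  · intro h9
    exact absurd (Nat.le_of_dvd (Nat.pos_of_ne_zero h7) h9) (not_le.mpr h8)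
  · intro s hs
    obtain ⟨l', _, _, hl3'⟩ := Yq_num hp u hu a h ha s hs
    exact ⟨l', hl3'⟩
  · intro s hs
    exact N1_above hp (lt_of_lt_of_le (Nat.lt_pow_succ_log_self hp.one_lt i)
      (Nat.pow_le_pow_right hp.pos hs))

/-- `u_s ≤ (p + 1) v(u)` for a faithful representation -/
theorem le_vN {p r n : ℕ} (hp : p.Prime) (m : Fin n → ℕ) (hf : FaithN p r m) (u : ℕ → ℕ)
    (hu : ∀ s, p * u s ≤ u (s + 1)) (s : ℕ) (hs : s < r) : u s ≤ (p + 1) * vN p r m u := by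
  rcases hf with rfl | ⟨B, hB⟩
  · omega
  · have h1 : p ^ s < m B :=
      lt_of_le_of_lt (Nat.pow_le_pow_right hp.pos (by omega)) hB
    have hX : Xq p r u (p ^ s) = Yq p (fun s => (u s : ℚ)) s := by
      rw [Xq, Finset.sum_eq_single s]
      · rw [Nat.div_self (pow_pos hp.pos s), Nat.mod_eq_of_lt hp.one_lt]
        simp
      · intro t _ hne
        rcases lt_or_gt_of_ne hne with hlt | hgt
        · have h2 : p ^ s / p ^ t = p ^ (s - t) := Nat.pow_div hlt.le hp.pos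
          have h3 : p ^ (s - t) % p = 0 :=
            Nat.mod_eq_zero_of_dvd (dvd_pow_self p (by omega))
          rw [h2, h3]
          simp
        · rw [N1_above hp (Nat.pow_lt_pow_right hp.one_lt hgt)]
          simp
      · intro hn
        exact absurd (Finset.mem_range.mpr hs) hn
    have key : ∀ (f : Ix n m → ℕ) (a : Ix n m), f a ≤ ∑ b, f b := fun f a =>
      Finset.single_le_sum (fun _ _ => Nat.zero_le _) (Finset.mem_univ a)
    have h2 : ⌈Xq p r u (p ^ s)⌉₊ ≤ vN p r m u :=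
      key (fun a => ⌈Xq p r u a.2⌉₊) ⟨B, ⟨p ^ s, h1⟩⟩
    clear key
    have h3 : (u s : ℚ) / ((p : ℚ) + 1) ≤ (vN p r m u : ℚ) := by
      calc (u s : ℚ) / ((p : ℚ) + 1) ≤ Xq p r u (p ^ s) := by
            rw [hX]
            exact Yq_ge hp u hu s
        _ ≤ (⌈Xq p r u (p ^ s)⌉₊ : ℚ) := Nat.le_ceil _
        _ ≤ (vN p r m u : ℚ) := by exact_mod_cast h2
    rw [div_le_iff₀ (by positivity)] at h3
    have h4 : (u s : ℚ) ≤ ((p + 1) * vN p r m u : ℕ) := by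
      push_cast
      linarith
    exact_mod_cast h4

end Pool.Agent.WC
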