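import Pool.Agent.WC.G3
import Pool.Agent.WC.N1
import Pool.Agent.WD.B1
import Pool.Agent.WD.B3

/-! # The classes of the cells and of the level sets (piece WC-F1) -/

namespace Pool.Agent.WC

open Polynomial Pool.Agent.WD

universe u

variable {p : ℕ} [Fact p.Prime] {k : Type u} [Field k] [IsAlgClosed k] [CharP k p] {r n : ℕ}

private theorem F1_zero {k : Type u} [Field k] {ι : Type} (a : ι) :
    IsConstr {x : ι → k | x a = 0} := by
  have h := IsConstr.zeros (MvPolynomial.X a : MvPolynomial ι k)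
  simpa using h

private theorem F1_constrB {k : Type u} [Field k] {ι : Type} [DecidableEq ι] (B : Finset ι) :
    IsConstr {x : ι → k | ∀ i ∈ B, x i = 0} := by
  induction B using Finset.induction_on with
  | empty =>
    have h : {x : ι → k | ∀ i ∈ (∅ : Finset ι), x i = 0} = Set.univ := by
      ext x
      simp
    rw [h]
    exact IsConstr.univ
  | insert a t _ ih =>
    have h : {x : ι → k | ∀ i ∈ insert a t, x i = 0} =
        {x : ι → k | x a = 0} ∩ {x : ι → k | ∀ i ∈ t, x i = 0} := by
      ext x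
      simp
    rw [h]
    exact (F1_zero a).inter ih

private theorem F1_constrA {k : Type u} [Field k] {ι : Type} [DecidableEq ι] (A : Finset ι) :
    IsConstr {x : ι → k | ∀ i ∈ A, x i ≠ 0} := by
  induction A using Finset.induction_on with
  | empty =>
    have h : {x : ι → k | ∀ i ∈ (∅ : Finset ι), x i ≠ 0} = Set.univ := by
      ext x
      simp
    rw [h]
    exact IsConstr.univ
  | insert a t _ ih =>
    have h : {x : ι → k | ∀ i ∈ insert a t, x i ≠ 0} =
        {x : ι → k | x a = 0}ᶜ ∩ {x : ι → k | ∀ i ∈ t, x i ≠ 0} := by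
      ext x
      simp
    rw [h]
    exact (F1_zero a).compl.inter ih

private theorem F1_constr {k : Type u} [Field k] {ι : Type} [DecidableEq ι] (A B : Finset ι) :
    IsConstr {x : ι → k | (∀ i ∈ A, x i ≠ 0) ∧ ∀ i ∈ B, x i = 0} :=
  (F1_constrA A).inter (F1_constrB B)

private theorem F1_base {k : Type u} [Field k] {ι : Type} [Fintype ι] [DecidableEq ι]
    (e : Realization k) (B : Finset ι) :
    e.cls {x : ι → k | ∀ i ∈ B, x i = 0} = X ^ (2 * (Fintype.card ι - B.card)) := by
  set f : ({i // i ∉ B} → k) →ₗ[k] (ι → k) :=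
    LinearMap.pi fun i => if h : i ∉ B then LinearMap.proj ⟨i, h⟩ else 0 with hf
  have hf1 : ∀ y i (h : i ∉ B), f y i = y ⟨i, h⟩ := by
    intro y i h
    rw [hf, LinearMap.pi_apply, dif_pos h, LinearMap.proj_apply]
  have hf2 : ∀ y i, i ∈ B → f y i = 0 := by
    intro y i h
    rw [hf, LinearMap.pi_apply, dif_neg (not_not.2 h), LinearMap.zero_apply]
  have hinj : Function.Injective f := by
    intro y y' h
    funext i
    have h1 := congrFun h i.1
    rwa [hf1 _ _ i.2, hf1 _ _ i.2] at h1
  have himg : {x : ι → k | ∀ i ∈ B, x i = 0} = f '' Set.univ := by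
    ext x
    constructor
    · intro hx
      refine ⟨fun i => x i.1, Set.mem_univ _, ?_⟩
      funext i
      by_cases h : i ∈ B
      · rw [hf2 _ _ h]
        exact (hx i h).symm
      · rw [hf1 _ _ h]
    · rintro ⟨y, _, rfl⟩ i hi
      exact hf2 y i hi
  have hcard : Fintype.card {i // i ∉ B} = Fintype.card ι - B.card := by
    rw [Fintype.card_subtype_compl, Fintype.card_coe]
  rw [himg, e.cls_inj f hinj IsConstr.univ, e.cls_univ, hcard]

private theorem F1_cls {k : Type u} [Field k] {ι : Type} [Fintype ι] [DecidableEq ι]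
    (e : Realization k) (A : Finset ι) : ∀ B : Finset ι, Disjoint A B →
      e.cls {x : ι → k | (∀ i ∈ A, x i ≠ 0) ∧ ∀ i ∈ B, x i = 0} =
        (X ^ 2 - 1) ^ A.card * X ^ (2 * (Fintype.card ι - A.card - B.card)) := by
  induction A using Finset.induction_on with
  | empty =>
    intro B _
    rw [Finset.card_empty, pow_zero, one_mul, Nat.sub_zero, ← F1_base e B]
    congr 1
    ext x
    simp
  | insert a A ha ih =>
    intro B hd
    rw [Finset.disjoint_insert_left] at hd
    obtain ⟨haB, hd⟩ := hd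
    have hdis : Disjoint A (insert a B) := by
      rw [Finset.disjoint_insert_right]
      exact ⟨ha, hd⟩
    have h1 := ih B hd
    have h2 := ih (insert a B) hdis
    have hun : {x : ι → k | (∀ i ∈ A, x i ≠ 0) ∧ ∀ i ∈ B, x i = 0} =
        {x : ι → k | (∀ i ∈ insert a A, x i ≠ 0) ∧ ∀ i ∈ B, x i = 0} ∪
          {x : ι → k | (∀ i ∈ A, x i ≠ 0) ∧ ∀ i ∈ insert a B, x i = 0} := by
      ext x
      simp only [Set.mem_union, Set.mem_ofPred_eq, Finset.forall_mem_insert]
      by_cases hx : x a = 0
      · simp [hx]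
      · simp [hx]
    have hdis2 : Disjoint {x : ι → k | (∀ i ∈ insert a A, x i ≠ 0) ∧ ∀ i ∈ B, x i = 0}
          {x : ι → k | (∀ i ∈ A, x i ≠ 0) ∧ ∀ i ∈ insert a B, x i = 0} := by
      rw [Set.disjoint_left]
      rintro x ⟨hx, _⟩ ⟨_, hx'⟩
      exact hx a (Finset.mem_insert_self _ _) (hx' a (Finset.mem_insert_self _ _))
    have h3 := e.cls_union (F1_constr (insert a A) B) (F1_constr A (insert a B)) hdis2
    rw [← hun, h1, h2, Finset.card_insert_of_notMem haB] at h3
    have hle : A.card + B.card + 1 ≤ Fintype.card ι := by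
      have h4 : (insert a (A ∪ B)).card ≤ Fintype.card ι := Finset.card_le_univ _
      rw [Finset.card_insert_of_notMem, Finset.card_union_of_disjoint hd] at h4
      · exact h4
      · rw [Finset.mem_union]
        rintro (h | h)
        · exact ha h
        · exact haB h
    obtain ⟨t, ht⟩ : ∃ t, Fintype.card ι = A.card + B.card + 1 + t :=
      ⟨_, (Nat.add_sub_cancel' hle).symm⟩
    rw [Finset.card_insert_of_notMem ha]
    have e1 : Fintype.card ι - A.card - B.card = t + 1 := by omega
    have e2 : Fintype.card ι - A.card - (B.card + 1) = t := by omega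
    have e3 : Fintype.card ι - (A.card + 1) - B.card = t := by omega
    rw [e1, e2] at h3
    rw [e3]
    have h4 : e.cls {x : ι → k | (∀ i ∈ insert a A, x i ≠ 0) ∧ ∀ i ∈ B, x i = 0} =
        (X ^ 2 - 1) ^ A.card * X ^ (2 * (t + 1)) - (X ^ 2 - 1) ^ A.card * X ^ (2 * t) := by
      rw [h3]
      ring
    rw [h4]
    ring

/-- the class of `{x ∈ k^ι : x_i ≠ 0 for i ∈ A, x_i = 0 for i ∈ B}` -/
theorem cls_coord {ι : Type} [Fintype ι] [DecidableEq ι] (e : Realization k) (A B : Finset ι)
    (h : Disjoint A B) :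
    IsConstr {x : ι → k | (∀ i ∈ A, x i ≠ 0) ∧ ∀ i ∈ B, x i = 0} ∧
      e.cls {x : ι → k | (∀ i ∈ A, x i ≠ 0) ∧ ∀ i ∈ B, x i = 0} =
        (X ^ 2 - 1) ^ A.card * X ^ (2 * (Fintype.card ι - A.card - B.card)) :=
  ⟨F1_constr A B, F1_cls e A B h⟩

private theorem F1_count {p : ℕ} {J : ℕ} (hJ0 : J ≠ 0) (hJ : ¬ p ∣ J) :
    ((Finset.range J).filter fun j => ¬ p ∣ j).card = J - 1 - J / p := by
  obtain ⟨K, rfl⟩ : ∃ K, J = K + 1 := ⟨J - 1, by omega⟩
  rw [Finset.card_filter, Finset.sum_range_succ', if_neg (by simp), add_zero]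
  have h1 : ∑ j ∈ Finset.range K, (if ¬ p ∣ j + 1 then 1 else 0) +
      ((Finset.range K).filter fun e => p ∣ e + 1).card = K := by
    rw [Finset.card_filter, ← Finset.sum_add_distrib]
    have h2 : ∀ j ∈ Finset.range K, ((if ¬ p ∣ j + 1 then 1 else 0) +
        if p ∣ j + 1 then 1 else 0) = 1 := by
      intro j _
      split_ifs <;> simp_all
    rw [Finset.sum_congr rfl h2, Finset.sum_const, Finset.card_range, smul_eq_mul, mul_one]
  rw [Nat.card_multiples] at h1
  rw [Nat.succ_div, if_neg hJ]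
  omega

/-- the numbers `≤ N` prime to `p` -/
private abbrev F1_T (p N : ℕ) : Type := {j : Fin (N + 1) // ¬ p ∣ (j : ℕ)}

private theorem F1_lt {p N J : ℕ} (hJN : J ≤ N) (hJ : J = 0 ∨ ¬ p ∣ J) :
    (Finset.univ.filter fun j : F1_T p N => (j.1 : ℕ) < J).card =
      if J = 0 then 0 else J - 1 - J / p := by
  split_ifs with h0
  · rw [Finset.card_eq_zero, Finset.filter_eq_empty_iff]
    intro j _
    omega
  · rw [← F1_count h0 (hJ.resolve_left h0)]
    rw [← Finset.card_image_of_injective (Finset.univ.filter fun j : F1_T p N => (j.1 : ℕ) < J)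
      (f := fun j : F1_T p N => (j.1 : ℕ))]
    · congr 1
      ext j
      rw [Finset.mem_image, Finset.mem_filter, Finset.mem_range]
      constructor
      · rintro ⟨i, hi, rfl⟩
        exact ⟨(Finset.mem_filter.1 hi).2, i.2⟩
      · rintro ⟨h1, h2⟩
        exact ⟨⟨⟨j, by omega⟩, h2⟩, Finset.mem_filter.2 ⟨Finset.mem_univ _, h1⟩, rfl⟩
    · intro i j h
      exact Subtype.ext (Fin.ext h)

private theorem F1_eq {p N J : ℕ} (hJN : J ≤ N) (hJ : J = 0 ∨ ¬ p ∣ J) :
    (Finset.univ.filter fun j : F1_T p N => (j.1 : ℕ) = J).card = if J = 0 then 0 else 1 := by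
  split_ifs with h0
  · rw [Finset.card_eq_zero, Finset.filter_eq_empty_iff]
    intro j _ hj
    apply j.2
    rw [hj, h0]
    exact dvd_zero p
  · rw [Finset.card_eq_one]
    refine ⟨⟨⟨J, by omega⟩, hJ.resolve_left h0⟩, ?_⟩
    ext j
    rw [Finset.mem_filter, Finset.mem_singleton]
    constructor
    · rintro ⟨_, h1⟩
      exact Subtype.ext (Fin.ext h1)
    · rintro rfl
      exact ⟨Finset.mem_univ _, rfl⟩

private theorem F1_tot {p N : ℕ} (J : ℕ) :
    Fintype.card (F1_T p N) =
      (Finset.univ.filter fun j : F1_T p N => (j.1 : ℕ) = J).card +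
      (Finset.univ.filter fun j : F1_T p N => J < (j.1 : ℕ)).card +
      (Finset.univ.filter fun j : F1_T p N => (j.1 : ℕ) < J).card := by
  rw [Finset.card_filter, Finset.card_filter, Finset.card_filter, ← Finset.sum_add_distrib,
    ← Finset.sum_add_distrib, Fintype.card, Finset.card_eq_sum_ones]
  refine Finset.sum_congr rfl fun j _ => ?_
  rcases lt_trichotomy (j.1 : ℕ) J with h | h | h
  · rw [if_neg (by omega), if_neg (by omega), if_pos h]
  · rw [if_pos h, if_neg (by omega), if_neg (by omega)]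
  · rw [if_neg (by omega), if_pos h, if_neg (by omega)]

private theorem F1_prod {p r N : ℕ} (Q : Fin r → ℕ → Prop) [∀ s j, Decidable (Q s j)] :
    (Finset.univ.filter fun i : Co p r N => Q i.1 (i.2.1 : ℕ)).card =
      ∑ s, (Finset.univ.filter fun j : F1_T p N => Q s (j.1 : ℕ)).card := by
  rw [Finset.card_filter, Fintype.sum_prod_type]
  refine Finset.sum_congr rfl fun s _ => ?_
  rw [Finset.card_filter]

omit [Fact p.Prime] [CharP k p] [IsAlgClosed k] in
private theorem F1_ext {N : ℕ} (x : Co p r N → k) (s : Fin r) (j : Jp p) (hj : j.1 < N + 1) :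
    ext x (s, j) = x (s, ⟨⟨j.1, hj⟩, j.2⟩) :=
  Finsupp.embDomain_apply_self (coEmb p r N) (Finsupp.equivFunOnFinite.symm x)
    (s, ⟨⟨j.1, hj⟩, j.2⟩)

omit [Fact p.Prime] [CharP k p] [IsAlgClosed k] in
private theorem F1_ext_lt {N : ℕ} (x : Co p r N → k) (s : Fin r) (j : Jp p) (hj : N < j.1) :
    ext x (s, j) = 0 := by
  rw [WD.ext]
  apply Finsupp.embDomain_notin_range
  rintro ⟨⟨s', ⟨j', hj'⟩⟩, h⟩
  have h1 : (j' : ℕ) = j.1 := congrArg (fun z : Fin r × Jp p => z.2.1) h
  have h2 := j'.2
  omega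

private theorem F1_pol_le (c : Par p r k) (s : Fin r) (M : ℕ) :
    pol c s ≤ M ↔ ∀ j : Jp p, M < j.1 → c (s, j) = 0 := by
  rw [pol, Finset.sup_le_iff]
  constructor
  · intro h j hj
    by_contra hne
    have h1 := h (s, j) (Finset.mem_filter.2 ⟨Finsupp.mem_support_iff.2 hne, rfl⟩)
    exact absurd hj (not_lt.2 h1)
  · rintro h ⟨s', j⟩ hx
    rw [Finset.mem_filter, Finsupp.mem_support_iff] at hx
    obtain ⟨h1, h2⟩ := hx
    have h3 : s' = s := Fin.ext h2
    subst h3
    by_contra hlt
    exact h1 (h j (not_le.1 hlt))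

private theorem F1_pol_eq (c : Par p r k) (s : Fin r) (J : ℕ) (hJ : J = 0 ∨ ¬ p ∣ J) :
    pol c s = J ↔ (∀ h : ¬ p ∣ J, c (s, ⟨J, h⟩) ≠ 0) ∧ ∀ j : Jp p, J < j.1 → c (s, j) = 0 := by
  constructor
  · intro h
    refine ⟨?_, (F1_pol_le c s J).1 h.le⟩
    intro hJ2 h0
    have hJ0 : J ≠ 0 := by
      rintro rfl
      exact hJ2 (dvd_zero p)
    have h1 : pol c s ≤ J - 1 := by
      rw [F1_pol_le]
      intro j hj
      rcases Nat.lt_or_ge J j.1 with h2 | h2
      · exact (F1_pol_le c s J).1 h.le j h2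
      · have h3 : j = ⟨J, hJ2⟩ := Subtype.ext (by
          change j.1 = J
          omega)
        rw [h3]
        exact h0
    omega
  · rintro ⟨h1, h2⟩
    have h3 := (F1_pol_le c s J).2 h2
    rcases hJ with h4 | h4
    · omega
    · by_contra hne
      have h5 : pol c s ≤ J - 1 := by omega
      have hJ0 : J ≠ 0 := by
        rintro rfl
        exact h4 (dvd_zero p)
      exact h1 h4 ((F1_pol_le c s (J - 1)).1 h5 ⟨J, h4⟩ (by
        change J - 1 < J
        omega))

/-- the cell of the pole orders `J` -/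
theorem cls_cellW (e : Realization k) (N : ℕ) (J : Fin r → ℕ) (hJ : J ∈ box p r N) :
    IsConstr {x : Co p r N → k | ∀ s : Fin r, pol (ext x) s = J s} ∧
      e.cls {x : Co p r N → k | ∀ s : Fin r, pol (ext x) s = J s} = ∏ s, mcls p (J s) := by
  rw [box, Fintype.mem_piFinset] at hJ
  have hJN : ∀ s, J s ≤ N := by
    intro s
    have h := hJ s
    rw [Finset.mem_filter, Finset.mem_range] at h
    omega
  have hJp : ∀ s, J s = 0 ∨ ¬ p ∣ J s := by
    intro s
    have h := hJ s
    rw [Finset.mem_filter] at h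
    exact h.2
  set A : Finset (Co p r N) := Finset.univ.filter fun i => (i.2.1 : ℕ) = J i.1 with hA
  set B : Finset (Co p r N) := Finset.univ.filter fun i => J i.1 < (i.2.1 : ℕ) with hB
  have hdis : Disjoint A B := by
    rw [Finset.disjoint_left]
    intro i hi hi'
    rw [hA, Finset.mem_filter] at hi
    rw [hB, Finset.mem_filter] at hi'
    omega
  have hset : {x : Co p r N → k | ∀ s : Fin r, pol (ext x) s = J s} =
      {x : Co p r N → k | (∀ i ∈ A, x i ≠ 0) ∧ ∀ i ∈ B, x i = 0} := by
    ext x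
    constructor
    · intro hx
      refine ⟨?_, ?_⟩
      · rintro ⟨s, j⟩ hi
        rw [hA, Finset.mem_filter] at hi
        have h1 : (j.1 : ℕ) = J s := hi.2
        have h2 := ((F1_pol_eq (ext x) s (J s) (hJp s)).1 (hx s)).1 (by
          rw [← h1]
          exact j.2)
        rw [F1_ext x s _ (by
          change J s < N + 1
          have := hJN s
          omega)] at h2
        intro h3
        apply h2
        rw [← h3]
        congr 1
        refine Prod.ext rfl (Subtype.ext (Fin.ext ?_))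
        exact h1.symm
      · rintro ⟨s, j⟩ hi
        rw [hB, Finset.mem_filter] at hi
        have h2 := ((F1_pol_eq (ext x) s (J s) (hJp s)).1 (hx s)).2 ⟨(j.1 : ℕ), j.2⟩ hi.2
        rw [F1_ext x s _ j.1.2] at h2
        exact h2
    · rintro ⟨h1, h2⟩ s
      rw [F1_pol_eq (ext x) s (J s) (hJp s)]
      refine ⟨?_, ?_⟩
      · intro h
        rw [F1_ext x s _ (by
          change J s < N + 1
          have := hJN s
          omega)]
        apply h1
        rw [hA, Finset.mem_filter]
        exact ⟨Finset.mem_univ _, rfl⟩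
      · intro j hj
        by_cases hjN : j.1 < N + 1
        · rw [F1_ext x s j hjN]
          apply h2
          rw [hB, Finset.mem_filter]
          exact ⟨Finset.mem_univ _, hj⟩
        · exact F1_ext_lt x s j (by omega)
  have hAc : A.card = ∑ s, if J s = 0 then 0 else 1 := by
    rw [hA, F1_prod (fun s j => j = J s)]
    exact Finset.sum_congr rfl fun s _ => F1_eq (hJN s) (hJp s)
  have hcard : Fintype.card (Co p r N) = A.card + B.card +
      ∑ s, if J s = 0 then 0 else J s - 1 - J s / p := by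
    rw [hA, hB, F1_prod (fun s j => j = J s), F1_prod (fun s j => J s < j),
      ← Finset.sum_add_distrib, ← Finset.sum_add_distrib, Fintype.card_prod, Fintype.card_fin]
    have h1 : ∀ s ∈ (Finset.univ : Finset (Fin r)),
        (Finset.univ.filter fun j : F1_T p N => (j.1 : ℕ) = J s).card +
        (Finset.univ.filter fun j : F1_T p N => J s < (j.1 : ℕ)).card +
        (if J s = 0 then 0 else J s - 1 - J s / p) = Fintype.card (F1_T p N) := by
      intro s _
      rw [← F1_lt (hJN s) (hJp s)]
      exact (F1_tot (J s)).symm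
    rw [Finset.sum_congr rfl h1, Finset.sum_const, Finset.card_univ, Fintype.card_fin,
      smul_eq_mul]
  obtain ⟨k1, k2⟩ := cls_coord e A B hdis
  rw [hset]
  refine ⟨k1, ?_⟩
  rw [k2]
  have h3 : Fintype.card (Co p r N) - A.card - B.card =
      ∑ s, if J s = 0 then 0 else J s - 1 - J s / p := by omega
  rw [h3, hAc, Finset.mul_sum, ← Finset.prod_pow_eq_pow_sum, ← Finset.prod_pow_eq_pow_sum,
    ← Finset.prod_mul_distrib]
  refine Finset.prod_congr rfl fun s _ => ?_
  rw [mcls]
  split_ifs <;> simp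

theorem pol_ext_mem (N : ℕ) (x : Co p r N → k) :
    (fun s : Fin r => pol (ext x) s) ∈ box p r N := by
  rw [box, Fintype.mem_piFinset]
  intro s
  rw [Finset.mem_filter, Finset.mem_range]
  refine ⟨?_, pol_spec (ext x) s⟩
  have h := (F1_pol_le (ext x) s N).2 fun j hj => F1_ext_lt x s j hj
  omega

private theorem F1_jN (c : Par p r k) : pol c = jN fun s : Fin r => pol c s := by
  funext s
  rw [jN]
  split_ifs with h
  · rfl
  · rw [pol, Finset.filter_eq_empty_iff.2, Finset.sup_empty]
    · rfl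
    · rintro ⟨s', j⟩ _ h1
      exact h (h1 ▸ s'.2)

private theorem F1_hasClass (e : Realization k) (m : Fin n → ℕ) (hf : FaithN p r m)
    (Pr : (ℕ → ℕ) → Prop) (R : ℕ) (hR : ∀ j, Pr j → vN p r m (up p j) ≤ R)
    [DecidablePred fun J : Fin r → ℕ => Pr (jN J)] :
    HasClass e {c : Par p r k | Pr (pol c)}
      (∑ J ∈ (box p r ((p + 1) * R)).filter (fun J => Pr (jN J)), ∏ s, mcls p (J s)) := by
  have hp : p.Prime := Fact.out
  have hp1 : 1 ≤ p := hp.one_lt.le
  have hbd : ∀ j : ℕ → ℕ, Pr j → ∀ s < r, j s ≤ (p + 1) * R := by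
    intro j hj s hs
    have h1 := le_up hp1 j s
    have h2 := le_vN hp m hf (up p j) (up_mono hp1 j) s hs
    exact h1.trans (h2.trans (Nat.mul_le_mul_left _ (hR j hj)))
  refine ⟨(p + 1) * R, ?_, ?_⟩
  · intro c hc s j hj
    exact (F1_pol_le c s ((p + 1) * R)).1 (hbd _ hc s s.2) j hj
  · intro N hN
    have hbox : (box p r ((p + 1) * R)).filter (fun J => Pr (jN J)) =
        (box p r N).filter (fun J => Pr (jN J)) := by
      ext J
      rw [Finset.mem_filter, Finset.mem_filter, box, box, Fintype.mem_piFinset,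
        Fintype.mem_piFinset]
      constructor
      · rintro ⟨h1, h2⟩
        refine ⟨fun s => ?_, h2⟩
        have h3 := h1 s
        rw [Finset.mem_filter, Finset.mem_range] at h3 ⊢
        exact ⟨by omega, h3.2⟩
      · rintro ⟨h1, h2⟩
        refine ⟨fun s => ?_, h2⟩
        have h3 := h1 s
        rw [Finset.mem_filter, Finset.mem_range] at h3 ⊢
        have h4 := hbd _ h2 s s.2
        have h5 : jN J s = J s := by
          rw [jN, dif_pos s.2]
        rw [h5] at h4
        exact ⟨by omega, h3.2⟩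
    rw [hbox]
    have h1 : {x : Co p r N → k | ext x ∈ {c : Par p r k | Pr (pol c)}} =
        ⋃ J ∈ (box p r N).filter (fun J => Pr (jN J)),
          {x : Co p r N → k | ∀ s : Fin r, pol (ext x) s = J s} := by
      ext x
      simp only [Set.mem_iUnion]
      constructor
      · intro h
        refine ⟨fun s => pol (ext x) s, ?_, fun s => rfl⟩
        rw [Finset.mem_filter]
        refine ⟨pol_ext_mem N x, ?_⟩
        rw [← F1_jN]
        exact h
      · rintro ⟨J, hJ, h⟩
        rw [Finset.mem_filter] at hJ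
        change Pr (pol (ext x))
        have h2 : (fun s : Fin r => pol (ext x) s) = J := funext h
        rw [F1_jN, h2]
        exact hJ.2
    rw [h1]
    have h2 : ∀ J ∈ (box p r N).filter (fun J => Pr (jN J)), IsConstr
        {x : Co p r N → k | ∀ s : Fin r, pol (ext x) s = J s} := fun J hJ =>
      (cls_cellW e N J (Finset.mem_filter.1 hJ).1).1
    refine ⟨IsConstr.biUnion _ _ h2, ?_⟩
    rw [e.cls_biUnion _ _ h2]
    · exact Finset.sum_congr rfl fun J hJ => (cls_cellW e N J (Finset.mem_filter.1 hJ).1).2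
    · intro J _ J' _ hne
      rw [Set.disjoint_left]
      intro x hx hx'
      apply hne
      funext s
      exact (hx s).symm.trans (hx' s)

theorem hasClass_vW (e : Realization k) (m : Fin n → ℕ) (hf : FaithN p r m) (a : ℕ) :
    HasClass e {c : Par p r k | vN p r m (up p (pol c)) = a} (PW p r m a) :=
  F1_hasClass e m hf (fun j => vN p r m (up p j) = a) a (fun _ h => h.le)

theorem hasClass_wW (e : Realization k) (m : Fin n → ℕ) (hf : FaithN p r m) (b : ℤ) :
    HasClass e {c : Par p r k |
      (cN p r m (up p (pol c)) : ℤ) - (vN p r m (up p (pol c)) : ℤ) = b} (QW p r m b) := by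
  refine F1_hasClass e m hf
    (fun j => (cN p r m (up p j) : ℤ) - (vN p r m (up p j) : ℤ) = b) (dimV m + (-b).toNat) ?_
  intro j h
  have h1 : cN p r m (up p j) ≤ dimV m := by
    rw [cN]
    refine (Finset.card_le_univ _).trans ?_
    rw [Fintype.card_sigma]
    simp [dimV]
  have h2 := Int.self_le_toNat (-b)
  omega

end Pool.Agent.WC
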