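import Pool.Agent.WC.Num
import Pool.Agent.WD.D0
import Pool.Agent.WD.D1

/-! # Reciprocity for product cones (piece WC-N3) -/

namespace Pool.Agent.WC

open Pool.Agent.WD

/-- the residues modulo `P` -/
private def n3Res (p r P : ℕ) : Finset (Fin r → ℕ) :=
  Fintype.piFinset fun _ => (Finset.range P).filter fun j => j = 0 ∨ ¬ p ∣ j

private theorem n3_mem {p r P : ℕ} {ρ : Fin r → ℕ} :
    ρ ∈ n3Res p r P ↔ ∀ s, ρ s < P ∧ (ρ s = 0 ∨ ¬ p ∣ ρ s) := by
  unfold n3Res
  rw [Fintype.mem_piFinset]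
  constructor
  · intro h s
    have := h s
    rw [Finset.mem_filter, Finset.mem_range] at this
    exact this
  · intro h s
    rw [Finset.mem_filter, Finset.mem_range]
    exact h s

/-- the support -/
private def n3S {r : ℕ} (ρ : Fin r → ℕ) : Finset (Fin r) := Finset.univ.filter fun s => ρ s ≠ 0

/-- the sum over the exponents of residue `ρ` -/
private noncomputable def n3T {r : ℕ} (B : (Fin r → ℕ) → ℤ) (c : Fin r → ℤ) (ρ : Fin r → ℕ)
    (q : ℝ) : ℝ :=
  q ^ B ρ * ∏ s ∈ n3S ρ, ((1 - q⁻¹) * (1 - q ^ (-c s))⁻¹)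

/-- the exponent `ρ + P m` -/
private def n3E {r : ℕ} (P : ℕ) (ρ m : Fin r → ℕ) : Fin r → ℕ :=
  fun s => if ρ s = 0 then 0 else ρ s + P * m s

private theorem n3_shift {p r P : ℕ} (hP : 0 < r → p ∣ P) (B : (Fin r → ℕ) → ℤ)
    (c : Fin r → ℤ)
    (hB : ∀ (e : Fin r → ℕ) (s : Fin r), (∀ t, e t = 0 ∨ ¬ p ∣ e t) → e s ≠ 0 →
      B (fun t => if t = s then e t + P else e t) = B e - c s)
    (ρ : Fin r → ℕ) (hρ : ∀ s, ρ s = 0 ∨ ¬ p ∣ ρ s) :
    ∀ (n : ℕ) (m : Fin r → ℕ), ∑ s, m s = n →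
      B (n3E P ρ m) = B ρ - ∑ s ∈ n3S ρ, c s * m s := by
  intro n
  induction n with
  | zero =>
    intro m hm
    have h0 : ∀ s, m s = 0 := by
      intro s
      have := (Finset.sum_eq_zero_iff.mp hm) s (Finset.mem_univ s)
      exact this
    have h1 : n3E P ρ m = ρ := by
      funext s
      unfold n3E
      rw [h0 s]
      by_cases h : ρ s = 0
      · rw [if_pos h, h]
      · rw [if_neg h, mul_zero, add_zero]
    rw [h1]
    have h2 : ∑ s ∈ n3S ρ, c s * (m s : ℤ) = 0 :=
      Finset.sum_eq_zero fun s _ => by rw [h0 s]; simp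
    rw [h2, sub_zero]
  | succ n ih =>
    intro m hm
    obtain ⟨s, hs⟩ : ∃ s, m s ≠ 0 := by
      by_contra hcon
      push Not at hcon
      rw [Finset.sum_eq_zero (fun s _ => hcon s)] at hm
      omega
    let m' : Fin r → ℕ := Function.update m s (m s - 1)
    have hms : m' s = m s - 1 := Function.update_self s _ m
    have hmt : ∀ t, t ≠ s → m' t = m t := fun t ht => Function.update_of_ne ht _ m
    have hsum : ∑ t, m' t = n := by
      have h1 := Finset.add_sum_erase Finset.univ m (Finset.mem_univ s)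
      have h2 := Finset.add_sum_erase Finset.univ m' (Finset.mem_univ s)
      have h3 : ∑ t ∈ Finset.univ.erase s, m' t = ∑ t ∈ Finset.univ.erase s, m t :=
        Finset.sum_congr rfl fun t ht => hmt t (Finset.ne_of_mem_erase ht)
      rw [hms, h3] at h2
      omega
    have hih := ih m' hsum
    by_cases hρs : ρ s = 0
    · have h1 : n3E P ρ m = n3E P ρ m' := by
        funext t
        unfold n3E
        by_cases ht : t = s
        · subst ht
          rw [if_pos hρs, if_pos hρs]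
        · rw [hmt t ht]
      rw [h1, hih]
      congr 1
      refine Finset.sum_congr rfl fun t ht => ?_
      have hts : t ≠ s := by
        rintro rfl
        unfold n3S at ht
        rw [Finset.mem_filter] at ht
        exact ht.2 hρs
      rw [hmt t hts]
    · have h1 : n3E P ρ m = fun t => if t = s then n3E P ρ m' t + P else n3E P ρ m' t := by
        funext t
        by_cases ht : t = s
        · subst ht
          rw [if_pos rfl]
          unfold n3E
          rw [if_neg hρs, if_neg hρs, hms]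
          obtain ⟨k, hk⟩ := Nat.exists_eq_succ_of_ne_zero hs
          rw [hk, Nat.succ_sub_one, Nat.succ_eq_add_one]
          ring
        · rw [if_neg ht]
          unfold n3E
          rw [hmt t ht]
      have hcond : ∀ t, n3E P ρ m' t = 0 ∨ ¬ p ∣ n3E P ρ m' t := by
        intro t
        unfold n3E
        by_cases h : ρ t = 0
        · rw [if_pos h]
          exact Or.inl rfl
        · rw [if_neg h]
          right
          have hpP : p ∣ P * m' t := (hP (Fin.pos t)).mul_right _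
          rw [Nat.dvd_add_left hpP]
          rcases hρ t with h' | h'
          · exact absurd h' h
          · exact h'
      have hne : n3E P ρ m' s ≠ 0 := by
        unfold n3E
        rw [if_neg hρs]
        omega
      rw [h1, hB _ s hcond hne, hih]
      have hsS : s ∈ n3S ρ := by
        unfold n3S
        rw [Finset.mem_filter]
        exact ⟨Finset.mem_univ s, hρs⟩
      have h2 := Finset.add_sum_erase (n3S ρ) (fun t => c t * (m t : ℤ)) hsS
      have h3 := Finset.add_sum_erase (n3S ρ) (fun t => c t * (m' t : ℤ)) hsS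
      have h4 : ∑ t ∈ (n3S ρ).erase s, c t * (m' t : ℤ) = ∑ t ∈ (n3S ρ).erase s, c t * (m t : ℤ) :=
        Finset.sum_congr rfl fun t ht => by rw [hmt t (Finset.ne_of_mem_erase ht)]
      rw [← h2, ← h3, h4]
      have h5 : (m' s : ℤ) = (m s : ℤ) - 1 := by
        rw [hms]
        omega
      simp only [h5]
      ring

/-- the exponents of residue `ρ` -/
private def n3Emb (p : ℕ) {r : ℕ} (P : ℕ) (hP : 0 < r → p ∣ P) (ρ : Fin r → ℕ)
    (hρ : ∀ s, ρ s = 0 ∨ ¬ p ∣ ρ s) (m : {s // s ∈ n3S ρ} → ℕ) (s : Fin r) : Ep p :=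
  if h : s ∈ n3S ρ then ⟨ρ s + P * m ⟨s, h⟩, by
    right
    rw [Nat.dvd_add_left ((hP (Fin.pos s)).mul_right _)]
    rcases hρ s with h' | h'
    · unfold n3S at h
      rw [Finset.mem_filter] at h
      exact absurd h' h.2
    · exact h'⟩ else ⟨0, Or.inl rfl⟩

private theorem n3_hasSum {p r : ℕ} (P : ℕ) (hP : 0 < r → p ∣ P) (hP0 : 0 < P)
    (B : (Fin r → ℕ) → ℤ) (c : Fin r → ℤ) (hc : ∀ s, 0 < c s)
    (hB : ∀ (e : Fin r → ℕ) (s : Fin r), (∀ t, e t = 0 ∨ ¬ p ∣ e t) → e s ≠ 0 →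
      B (fun t => if t = s then e t + P else e t) = B e - c s) (q : ℝ) (hq : 1 < q) :
    HasSum (fun e : Fin r → Ep p => (1 - q⁻¹) ^ nS (fun s => (e s).1) *
        q ^ B (fun s => (e s).1)) (∑ ρ ∈ n3Res p r P, n3T B c ρ q) := by
  classical
  have hq0 : (0 : ℝ) < q := by linarith
  have key : ∀ ρ ∈ n3Res p r P, HasSum (fun e : Fin r → Ep p =>
      if (fun s => (e s).1 % P) = ρ then (1 - q⁻¹) ^ nS (fun s => (e s).1) *
        q ^ B (fun s => (e s).1) else 0) (n3T B c ρ q) := by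
    intro ρ hρ
    rw [n3_mem] at hρ
    have hρ2 : ∀ s, ρ s = 0 ∨ ¬ p ∣ ρ s := fun s => (hρ s).2
    have hval : ∀ (m : {s // s ∈ n3S ρ} → ℕ) (s : Fin r),
        (n3Emb p P hP ρ hρ2 m s).1 = if h : s ∈ n3S ρ then ρ s + P * m ⟨s, h⟩ else 0 := by
      intro m s
      unfold n3Emb
      split_ifs <;> rfl
    have hmemS : ∀ s, s ∈ n3S ρ ↔ ρ s ≠ 0 := by
      intro s
      unfold n3S
      rw [Finset.mem_filter]
      exact ⟨fun h => h.2, fun h => ⟨Finset.mem_univ s, h⟩⟩
    have hinj : Function.Injective (n3Emb p P hP ρ hρ2) := by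
      intro m m' h
      funext ⟨s, hs⟩
      have h1 : (n3Emb p P hP ρ hρ2 m s).1 = (n3Emb p P hP ρ hρ2 m' s).1 := by rw [h]
      rw [hval, hval, dif_pos hs, dif_pos hs] at h1
      have h2 : P * m ⟨s, hs⟩ = P * m' ⟨s, hs⟩ := by omega
      exact Nat.eq_of_mul_eq_mul_left hP0 h2
    rw [← hinj.hasSum_iff]
    · have hfun : (fun e : Fin r → Ep p =>
          if (fun s => (e s).1 % P) = ρ then (1 - q⁻¹) ^ nS (fun s => (e s).1) *
            q ^ B (fun s => (e s).1) else 0) ∘ (n3Emb p P hP ρ hρ2) =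
          fun m : {s // s ∈ n3S ρ} → ℕ => ((1 - q⁻¹) ^ (n3S ρ).card * q ^ B ρ) *
            ∏ b, (q ^ (-c b.1)) ^ m b := by
        funext m
        have h1 : (fun s => (n3Emb p P hP ρ hρ2 m s).1 % P) = ρ := by
          funext s
          rw [hval]
          by_cases h : s ∈ n3S ρ
          · rw [dif_pos h, Nat.add_mul_mod_self_left, Nat.mod_eq_of_lt (hρ s).1]
          · rw [dif_neg h, Nat.zero_mod]
            rw [hmemS, not_not] at h
            exact h.symm
        have h2 : (fun s => (n3Emb p P hP ρ hρ2 m s).1) =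
            n3E P ρ (fun s => if h : s ∈ n3S ρ then m ⟨s, h⟩ else 0) := by
          funext s
          rw [hval]
          unfold n3E
          by_cases h : s ∈ n3S ρ
          · rw [dif_pos h, if_neg ((hmemS s).1 h)]
            simp only [h, dif_pos]
          · rw [dif_neg h]
            rw [hmemS, not_not] at h
            rw [if_pos h]
        have h3 : nS (fun s => (n3Emb p P hP ρ hρ2 m s).1) = (n3S ρ).card := by
          unfold nS
          congr 1
          ext s
          rw [Finset.mem_filter, hmemS]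
          simp only [Finset.mem_univ, true_and]
          rw [hval]
          by_cases h : s ∈ n3S ρ
          · rw [dif_pos h]
            have := (hmemS s).1 h
            constructor
            · intro _
              exact this
            · intro _
              omega
          · rw [dif_neg h]
            rw [hmemS, not_not] at h
            simp [h]
        simp only [Function.comp_apply]
        rw [if_pos h1, h3, h2, n3_shift hP B c hB ρ hρ2 _ _ rfl, zpow_sub₀ hq0.ne']
        have h4 : ∑ s ∈ n3S ρ, c s * ((if h : s ∈ n3S ρ then m ⟨s, h⟩ else 0 : ℕ) : ℤ) =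
            ∑ b : {s // s ∈ n3S ρ}, c b.1 * (m b : ℤ) := by
          rw [← Finset.sum_coe_sort (n3S ρ)]
          refine Finset.sum_congr rfl fun b _ => ?_
          rw [dif_pos b.2]
        rw [h4]
        have h5 : ∏ b : {s // s ∈ n3S ρ}, (q ^ (-c b.1)) ^ m b =
            (q ^ (∑ b : {s // s ∈ n3S ρ}, c b.1 * (m b : ℤ)))⁻¹ := by
          rw [← zpow_neg, ← Finset.sum_neg_distrib]
          have h6 : ∀ t : Finset {s // s ∈ n3S ρ}, ∏ b ∈ t, (q ^ (-c b.1)) ^ m b =
              q ^ (∑ b ∈ t, -(c b.1 * (m b : ℤ))) := by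
            intro t
            induction t using Finset.induction_on with
            | empty => simp
            | insert a t ha ih =>
              rw [Finset.prod_insert ha, Finset.sum_insert ha, zpow_add₀ hq0.ne', ih,
                ← zpow_natCast, ← zpow_mul]
              congr 2
              ring
          exact h6 Finset.univ
        rw [h5]
        ring
      rw [hfun]
      have hx0 : ∀ b : {s // s ∈ n3S ρ}, 0 ≤ q ^ (-c b.1) := fun b => (zpow_pos hq0 _).le
      have hx1 : ∀ b : {s // s ∈ n3S ρ}, q ^ (-c b.1) < 1 := fun b =>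
        zpow_lt_one_of_neg₀ hq (by have := hc b.1; omega)
      have hg := (hasSum_geom_pi (fun b : {s // s ∈ n3S ρ} => q ^ (-c b.1)) hx0 hx1).mul_left
        ((1 - q⁻¹) ^ (n3S ρ).card * q ^ B ρ)
      have hT : n3T B c ρ q = ((1 - q⁻¹) ^ (n3S ρ).card * q ^ B ρ) *
          ∏ b : {s // s ∈ n3S ρ}, (1 - q ^ (-c b.1))⁻¹ := by
        unfold n3T
        rw [Finset.prod_mul_distrib, Finset.prod_const,
          Finset.prod_coe_sort (n3S ρ) (fun s => (1 - q ^ (-c s))⁻¹)]
        ring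
      rw [hT]
      exact hg
    · intro e he
      rw [if_neg]
      intro h
      apply he
      refine ⟨fun b => (e b.1).1 / P, ?_⟩
      funext s
      apply Subtype.ext
      rw [hval]
      have hs : (e s).1 % P = ρ s := congrFun h s
      by_cases h0 : s ∈ n3S ρ
      · rw [dif_pos h0, ← hs]
        exact Nat.mod_add_div _ _
      · rw [dif_neg h0]
        rw [hmemS, not_not] at h0
        rw [h0] at hs
        rcases (e s).2 with h' | h'
        · exact h'.symm
        · exfalso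
          exact h' ((hP (Fin.pos s)).trans (Nat.dvd_of_mod_eq_zero hs))
  have h := hasSum_sum key
  have hfun : (fun e : Fin r → Ep p => (1 - q⁻¹) ^ nS (fun s => (e s).1) *
        q ^ B (fun s => (e s).1)) = fun e : Fin r → Ep p => ∑ ρ ∈ n3Res p r P,
      if (fun s => (e s).1 % P) = ρ then (1 - q⁻¹) ^ nS (fun s => (e s).1) *
        q ^ B (fun s => (e s).1) else 0 := by
    funext e
    rw [Finset.sum_ite_eq, if_pos]
    rw [n3_mem]
    intro s
    refine ⟨Nat.mod_lt _ hP0, ?_⟩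
    rcases (e s).2 with h' | h'
    · left
      rw [h', Nat.zero_mod]
    · right
      rwa [(Nat.dvd_mod_iff (hP (Fin.pos s)))]
  rw [hfun]
  exact h

/-- the dual residue -/
private def n3Inv {r : ℕ} (P : ℕ) (ρ : Fin r → ℕ) : Fin r → ℕ :=
  fun t => if ρ t = 0 then 0 else P - ρ t

private theorem n3_inv_mem {p r P : ℕ} (hP : 0 < r → p ∣ P) {ρ : Fin r → ℕ}
    (hρ : ρ ∈ n3Res p r P) : n3Inv P ρ ∈ n3Res p r P := by
  rw [n3_mem] at hρ ⊢
  intro s
  obtain ⟨h1, h2⟩ := hρ s
  unfold n3Inv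
  by_cases h : ρ s = 0
  · rw [if_pos h]
    exact ⟨by omega, Or.inl rfl⟩
  · rw [if_neg h]
    refine ⟨by omega, Or.inr ?_⟩
    rcases h2 with h2 | h2
    · exact absurd h2 h
    · intro h3
      apply h2
      exact (Nat.dvd_sub_iff_right h1.le (hP (Fin.pos s))).1 h3

private theorem n3_inv_inv {p r P : ℕ} {ρ : Fin r → ℕ}
    (hρ : ρ ∈ n3Res p r P) : n3Inv P (n3Inv P ρ) = ρ := by
  rw [n3_mem] at hρ
  funext s
  obtain ⟨h1, -⟩ := hρ s
  unfold n3Inv
  by_cases h : ρ s = 0
  · rw [if_pos h, if_pos rfl, h]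
  · rw [if_neg h, if_neg (by omega)]
    omega

private theorem n3_inv_S {p r P : ℕ} {ρ : Fin r → ℕ}
    (hρ : ρ ∈ n3Res p r P) : n3S (n3Inv P ρ) = n3S ρ := by
  rw [n3_mem] at hρ
  ext s
  obtain ⟨h1, -⟩ := hρ s
  unfold n3S n3Inv
  rw [Finset.mem_filter, Finset.mem_filter]
  simp only [Finset.mem_univ, true_and]
  by_cases h : ρ s = 0
  · rw [if_pos h]
    simp [h]
  · rw [if_neg h]
    constructor
    · intro _
      exact h
    · intro _
      omega

private theorem n3_factor {q : ℝ} (hq : 1 < q) {c : ℤ} (hc : 0 < c) :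
    (1 - q) * (1 - q ^ c)⁻¹ = q ^ (1 - c) * ((1 - q⁻¹) * (1 - q ^ (-c))⁻¹) := by
  have hq0 : (0 : ℝ) < q := by linarith
  have h1 : 1 < q ^ c := one_lt_zpow₀ hq hc
  have h2 : (1 : ℝ) - q ^ c ≠ 0 := by
    intro h
    linarith
  have h3 : q ^ c ≠ 0 := (zpow_pos hq0 c).ne'
  rw [zpow_sub₀ hq0.ne', zpow_one, zpow_neg]
  have e0 : 1 - q ^ c = -(q ^ c * (1 - (q ^ c)⁻¹)) := by
    rw [mul_sub, mul_inv_cancel₀ h3]
    ring
  have e1 : (1 - q ^ c)⁻¹ = -((q ^ c)⁻¹ * (1 - (q ^ c)⁻¹)⁻¹) := by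
    rw [e0, inv_neg, mul_inv]
  have e2 : 1 - q = -(q * (1 - q⁻¹)) := by
    rw [mul_sub, mul_inv_cancel₀ hq0.ne']
    ring
  rw [e1, e2]
  ring

/-- Decompose `e = P m + ρ`; for a fixed support `S` and a fixed residue vector `ρ` both sums are
products of geometric series; the dual of the term of `ρ` is the term of `P 1_S - ρ`. -/
theorem prod_reciprocity {p r : ℕ} (hp : p.Prime) (P : ℕ) (hP : 0 < r → p ∣ P) (hP0 : 0 < P)
    (A A' : (Fin r → ℕ) → ℤ) (c : Fin r → ℤ) (hc : ∀ s, 0 < c s)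
    (hA : ∀ (e : Fin r → ℕ) (s : Fin r), (∀ t, e t = 0 ∨ ¬ p ∣ e t) → e s ≠ 0 →
      A (fun t => if t = s then e t + P else e t) = A e - c s)
    (hA' : ∀ (e : Fin r → ℕ) (s : Fin r), (∀ t, e t = 0 ∨ ¬ p ∣ e t) → e s ≠ 0 →
      A' (fun t => if t = s then e t + P else e t) = A' e - c s)
    (hr : ∀ e : Fin r → ℕ, (∀ t, e t = 0 ∨ ¬ p ∣ e t) → (∀ t, e t < P) →
      A' (fun t => if e t = 0 then 0 else P - e t) =
        (nS e : ℤ) - (∑ s ∈ Finset.univ.filter (fun s => e s ≠ 0), c s) - A e) :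
    ∃ F G : ℝ → ℝ, Dual F G ∧ ∀ q : ℝ, 1 < q →
      HasSum (fun e : Fin r → Ep p => (1 - q⁻¹) ^ nS (fun s => (e s).1) *
        q ^ A (fun s => (e s).1)) (F q) ∧
      HasSum (fun e : Fin r → Ep p => (1 - q⁻¹) ^ nS (fun s => (e s).1) *
        q ^ A' (fun s => (e s).1)) (G q) := by
  have hpe : ∀ q : ℝ, 1 < q →
      HasSum (fun e : Fin r → Ep p => (1 - q⁻¹) ^ nS (fun s => (e s).1) *
        q ^ A (fun s => (e s).1)) (∑ ρ ∈ n3Res p r P, n3T A c ρ q) ∧
      HasSum (fun e : Fin r → Ep p => (1 - q⁻¹) ^ nS (fun s => (e s).1) *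
        q ^ A' (fun s => (e s).1)) (∑ ρ ∈ n3Res p r P, n3T A' c ρ q) := fun q hq =>
    ⟨n3_hasSum P hP hP0 A c hc hA q hq, n3_hasSum P hP hP0 A' c hc hA' q hq⟩
  refine ⟨fun q => ∑ ρ ∈ n3Res p r P, n3T A c ρ q, fun q => ∑ ρ ∈ n3Res p r P, n3T A' c ρ q,
    ?_, hpe⟩
  have h1 : Dual (fun q => ∑ ρ ∈ n3Res p r P, n3T A c ρ q)
      (fun q => ∑ ρ ∈ n3Res p r P, n3T A' c (n3Inv P ρ) q) := by
    refine Dual.sum _ _ _ fun ρ hρ => ?_
    have hd1 : ∀ s ∈ n3S ρ, Dual (fun q => (1 - q⁻¹) * (1 - q ^ (-c s))⁻¹)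
        (fun q => (1 - q) * (1 - q ^ (c s))⁻¹) := by
      intro s _
      have h2 : Dual (fun q => 1 - q⁻¹) (fun q => 1 - q) := by
        refine ((Dual.const 1).add ((Dual.const (-1)).mul (Dual.zpow (-1)))).congr ?_ ?_
        · intro q _
          simp only [Int.cast_one, Int.cast_neg, zpow_neg_one]
          ring
        · intro q _
          simp only [Int.cast_one, Int.cast_neg, neg_neg, zpow_one]
          ring
      exact h2.mul (Dual.inv_one_sub (c s) (hc s).ne')
    have hd2 := (Dual.zpow (A ρ)).mul (Dual.prod (n3S ρ) _ _ hd1)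
    refine hd2.congr (fun q _ => rfl) fun q hq => ?_
    have hq0 : (0 : ℝ) < q := by linarith
    have hρ' := hρ
    rw [n3_mem] at hρ'
    have h3 : A' (n3Inv P ρ) = (nS ρ : ℤ) - (∑ s ∈ n3S ρ, c s) - A ρ :=
      hr ρ (fun t => (hρ' t).2) (fun t => (hρ' t).1)
    have h4 : (nS ρ : ℤ) = ∑ s ∈ n3S ρ, (1 : ℤ) := by
      rw [Finset.sum_const]
      unfold nS n3S
      simp
    have h5 : A' (n3Inv P ρ) = -A ρ + ∑ s ∈ n3S ρ, (1 - c s) := by
      rw [h3, h4, Finset.sum_sub_distrib]
      ring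
    have h6 : ∀ t : Finset (Fin r), q ^ (∑ s ∈ t, (1 - c s)) = ∏ s ∈ t, q ^ (1 - c s) := by
      intro t
      induction t using Finset.induction_on with
      | empty => simp
      | insert a t ha ih =>
        rw [Finset.sum_insert ha, Finset.prod_insert ha, zpow_add₀ hq0.ne', ih]
    unfold n3T
    rw [n3_inv_S hρ, h5, zpow_add₀ hq0.ne', h6, mul_assoc, ← Finset.prod_mul_distrib]
    congr 1
    refine Finset.prod_congr rfl fun s _ => ?_
    exact (n3_factor hq (hc s)).symm
  refine h1.congr (fun q _ => rfl) fun q _ => ?_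
  refine Finset.sum_nbij' (n3Inv P) (n3Inv P) (fun ρ hρ => n3_inv_mem hP hρ)
    (fun ρ hρ => n3_inv_mem hP hρ) (fun ρ hρ => n3_inv_inv hρ) (fun ρ hρ => n3_inv_inv hρ) ?_
  intro ρ hρ
  rw [n3_inv_inv hρ]

end Pool.Agent.WC
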