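import Pool.Agent.WC.N1

/-! # From pole orders to differences of jumps (piece WC-N4) -/

namespace Pool.Agent.WC

open Pool.Agent.WD

/-- the mass `(q - 1) q^(j - 1 - ⌊j/p⌋)`  -/
noncomputable def mR (p : ℕ) (q : ℝ) (j : ℕ) : ℝ :=
  if j = 0 then 1 else (q - 1) * q ^ (j - 1 - j / p)

/-- `∑_{j ≤ J} m(j) = q^(J - ⌊J/p⌋)` -/
theorem sum_mR {p : ℕ} (hp : p.Prime) (q : ℝ) (J : ℕ) :
    ∑ j ∈ (Finset.range (J + 1)).filter (fun j => j = 0 ∨ ¬ p ∣ j), mR p q j =
      q ^ (J - J / p) := by
  induction J with
  | zero =>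
    rw [Finset.sum_filter]
    simp [mR]
  | succ J ih =>
    rw [Finset.sum_filter] at ih ⊢
    rw [Finset.sum_range_succ, ih]
    have h1 : J / p ≤ J := Nat.div_le_self _ _
    by_cases hd : p ∣ J + 1
    · have h2 : (J + 1) / p = J / p + 1 := by
        rw [Nat.succ_div, if_pos hd]
      rw [if_neg (by rintro (h | h); · omega
                     · exact h hd), add_zero, h2]
      congr 1
      omega
    · have h2 : (J + 1) / p = J / p := by
        rw [Nat.succ_div, if_neg hd, add_zero]
      rw [if_pos (Or.inr hd)]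
      unfold mR
      rw [if_neg (Nat.succ_ne_zero J), h2]
      have h3 : J + 1 - 1 - J / p = J - J / p := by omega
      have h4 : J + 1 - J / p = J - J / p + 1 := by omega
      rw [h3, h4, pow_succ]
      ring

private theorem hasSum_fib {A B : Type*} (f : A → B) (t : B → Finset A)
    (ht : ∀ b a, f a = b ↔ a ∈ t b) (F : A → ℝ) (hF : ∀ a, 0 ≤ F a) (x : ℝ)
    (h : HasSum (fun b => ∑ a ∈ t b, F a) x) : HasSum F x := by
  have hfib : ∀ b, HasSum (fun c : {a // f a = b} => F c) (∑ a ∈ t b, F a) := by
    intro b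
    have h1 : HasSum (F ∘ (Subtype.val : {a // f a = b} → A)) (∑ a ∈ t b, F a) := by
      have h2 := hasSum_subtype_iff_indicator (f := F) (s := {a | f a = b})
        (a := ∑ a ∈ t b, F a)
      refine h2.2 ?_
      have h3 : ∑ a ∈ t b, F a = ∑ a ∈ t b, Set.indicator {a | f a = b} F a := by
        refine Finset.sum_congr rfl fun a ha => ?_
        rw [Set.indicator_of_mem]
        exact (ht b a).2 ha
      rw [h3]
      refine hasSum_sum_of_ne_finset_zero fun a ha => ?_
      rw [Set.indicator_of_notMem]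
      intro h4
      exact ha ((ht b a).1 h4)
    exact h1
  rw [← (Equiv.sigmaFiberEquiv f).hasSum_iff]
  have hs : Summable (F ∘ (Equiv.sigmaFiberEquiv f)) := by
    refine (summable_sigma_of_nonneg (f := F ∘ (Equiv.sigmaFiberEquiv f))
      (fun x => hF _)).2 ?_
    refine ⟨fun b => (hfib b).summable, ?_⟩
    have h5 : (fun b => ∑' y : {a // f a = b}, (F ∘ (Equiv.sigmaFiberEquiv f)) ⟨b, y⟩) =
        fun b => ∑ a ∈ t b, F a := by
      funext b
      exact (hfib b).tsum_eq
    rw [h5]
    exact h.summable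
  exact HasSum.sigma_of_hasSum h hfib hs

private def pu (p : ℕ) (u : ℕ → ℕ) : ℕ → ℕ
  | 0 => 0
  | s + 1 => u s

private theorem ue_eq (p : ℕ) (e : ℕ → ℕ) (s : ℕ) :
    ue p e s = p * pu p (ue p e) s + e s := by
  cases s with
  | zero => simp [ue, pu]
  | succ s => simp [ue, pu]

private theorem up_eq (p : ℕ) (e : ℕ → ℕ) (s : ℕ) :
    up p e s = max (p * pu p (up p e) s) (e s) := by
  cases s with
  | zero => simp [up, pu]
  | succ s => simp [up, pu]

private theorem pu_congr (p : ℕ) (u v : ℕ → ℕ) (s : ℕ) (h : ∀ t, t < s → u t = v t) :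
    pu p u s = pu p v s := by
  cases s with
  | zero => rfl
  | succ s => exact h s (Nat.lt_succ_self s)

private theorem jN_apply {r : ℕ} (J : Fin r → ℕ) (s : Fin r) : jN J s = J s := by
  unfold jN
  rw [dif_pos s.2]

/-- the jumps differences -/
private theorem adm {p : ℕ} (a j : ℕ) (hj : j = 0 ∨ ¬ p ∣ j) :
    max (p * a) j - p * a = 0 ∨ ¬ p ∣ max (p * a) j - p * a := by
  rcases le_total j (p * a) with h | h
  · left
    rw [max_eq_left h]
    exact Nat.sub_self _
  · rw [max_eq_right h]
    rcases hj with rfl | hj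
    · left
      omega
    · right
      intro h2
      apply hj
      have h3 := dvd_add h2 (dvd_mul_right p a)
      rwa [Nat.sub_add_cancel h] at h3

private noncomputable def fe (p : ℕ) {r : ℕ} (J : Fin r → Ep p) : Fin r → Ep p := fun s =>
  ⟨up p (jN fun s => (J s).1) s - p * pu p (up p (jN fun s => (J s).1)) s, by
    rw [up_eq]
    apply adm
    rw [jN_apply]
    exact (J s).2⟩

open Classical in
private noncomputable def tt (p : ℕ) {r : ℕ} (e : Fin r → Ep p) (s : Fin r) : Finset (Ep p) :=
  if (e s).1 = 0 then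
    (Finset.range (p * pu p (ue p (jN fun s => (e s).1)) s + 1)).subtype
      (fun j => j = 0 ∨ ¬ p ∣ j)
  else
    ({p * pu p (ue p (jN fun s => (e s).1)) s + (e s).1} : Finset ℕ).subtype
      (fun j => j = 0 ∨ ¬ p ∣ j)

private theorem ue_fe {p r : ℕ} (J : Fin r → Ep p) (s : ℕ) (hs : s < r) :
    ue p (jN fun s => (fe p J s).1) s = up p (jN fun s => (J s).1) s := by
  induction s using Nat.strong_induction_on with
  | _ s ih =>
    rw [ue_eq]
    rw [pu_congr p _ (up p (jN fun s => (J s).1)) s (fun t ht => ih t ht (ht.trans hs))]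
    have h1 : jN (fun s => (fe p J s).1) s = (fe p J ⟨s, hs⟩).1 := by
      unfold jN
      rw [dif_pos hs]
    rw [h1]
    unfold fe
    simp only
    have h2 : p * pu p (up p (jN fun s => (J s).1)) s ≤ up p (jN fun s => (J s).1) s := by
      rw [up_eq p (jN fun s => (J s).1) s]
      exact le_max_left _ _
    omega

private theorem fe_iff {p r : ℕ} (e J : Fin r → Ep p) :
    fe p J = e ↔ J ∈ Fintype.piFinset (tt p e) := by
  rw [Fintype.mem_piFinset]
  constructor
  · rintro rfl s
    unfold tt
    have h0 : pu p (ue p (jN fun s => (fe p J s).1)) s = pu p (up p (jN fun s => (J s).1)) s :=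
      pu_congr p _ _ s (fun t ht => ue_fe J t (ht.trans s.2))
    rw [h0]
    have h1 := up_eq p (jN fun s => (J s).1) s
    rw [jN_apply] at h1
    have h2 : (fe p J s).1 = up p (jN fun s => (J s).1) s -
      p * pu p (up p (jN fun s => (J s).1)) s := rfl
    split_ifs with h
    · rw [Finset.mem_subtype, Finset.mem_range]
      rw [h2] at h
      have h3 := le_max_right (p * pu p (up p (jN fun s => (J s).1)) s) (J s).1
      rw [← h1] at h3
      omega
    · rw [Finset.mem_subtype, Finset.mem_singleton, h2]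
      rw [h2] at h
      rcases le_total (J s).1 (p * pu p (up p (jN fun s => (J s).1)) s) with h4 | h4
      · rw [max_eq_left h4] at h1
        omega
      · rw [max_eq_right h4] at h1
        rw [h1]
        omega
  · intro h
    have key : ∀ s, s < r → up p (jN fun s => (J s).1) s = ue p (jN fun s => (e s).1) s := by
      intro s
      induction s using Nat.strong_induction_on with
      | _ s ih =>
        intro hs
        have h0 : pu p (up p (jN fun s => (J s).1)) s = pu p (ue p (jN fun s => (e s).1)) s :=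
          pu_congr p _ _ s (fun t ht => ih t ht (ht.trans hs))
        rw [up_eq, ue_eq, h0]
        have h1 := h ⟨s, hs⟩
        unfold tt at h1
        have e1 : jN (fun s => (J s).1) s = (J ⟨s, hs⟩).1 := by
          unfold jN
          rw [dif_pos hs]
        have e2 : jN (fun s => (e s).1) s = (e ⟨s, hs⟩).1 := by
          unfold jN
          rw [dif_pos hs]
        rw [e1, e2]
        split_ifs at h1 with h2
        · rw [Finset.mem_subtype, Finset.mem_range] at h1
          rw [h2, add_zero]
          apply max_eq_left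
          simp only at h1
          omega
        · rw [Finset.mem_subtype, Finset.mem_singleton] at h1
          rw [h1]
          simp only
          omega
    funext s
    apply Subtype.ext
    have h2 : (fe p J s).1 = up p (jN fun s => (J s).1) s -
      p * pu p (up p (jN fun s => (J s).1)) s := rfl
    rw [h2, key s s.2, pu_congr p _ _ s (fun t ht => key t (ht.trans s.2)), ue_eq, jN_apply]
    omega

private theorem sum_tt {p r : ℕ} (hp : p.Prime) (q : ℝ) (hq : 1 < q) (e : Fin r → Ep p)
    (s : Fin r) :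
    ∑ j ∈ tt p e s, mR p q j.1 = (if (e s).1 ≠ 0 then (1 - q⁻¹) else 1) *
      q ^ ((p - 1) * pu p (ue p (jN fun s => (e s).1)) s + ((e s).1 - (e s).1 / p)) := by
  unfold tt
  set a := pu p (ue p (jN fun s => (e s).1)) s with ha
  have hpp : 0 < p := hp.pos
  by_cases h : (e s).1 = 0
  · rw [if_pos h, if_neg (not_not.2 h)]
    rw [Finset.sum_subtype_eq_sum_filter, sum_mR hp, h, Nat.mul_div_cancel_left _ hpp]
    rw [one_mul, Nat.zero_div, Nat.sub_zero, add_zero, Nat.sub_mul, one_mul]
  · rw [if_neg h, if_pos h]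
    rw [Finset.sum_subtype_eq_sum_filter, Finset.sum_filter, Finset.sum_singleton]
    have h3 : ¬ p ∣ (e s).1 := (e s).2.resolve_left h
    have h4 : ¬ p ∣ p * a + (e s).1 := by
      intro h5
      exact h3 ((Nat.dvd_add_right (dvd_mul_right p a)).1 h5)
    rw [if_pos (Or.inr h4)]
    unfold mR
    rw [if_neg (by omega)]
    have h6 : (p * a + (e s).1) / p = a + (e s).1 / p := by
      rw [Nat.mul_add_div hpp]
    have h7 : (e s).1 / p < (e s).1 := Nat.div_lt_self (Nat.pos_of_ne_zero h) hp.one_lt
    have h8 : a ≤ p * a := Nat.le_mul_of_pos_left a hpp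
    have h9 : (p - 1) * a + ((e s).1 - (e s).1 / p) =
        (p * a + (e s).1 - 1 - (p * a + (e s).1) / p) + 1 := by
      rw [h6, Nat.sub_mul, one_mul]
      omega
    rw [h9, pow_succ]
    have hq0 : q ≠ 0 := by linarith
    field_simp

private theorem prod_tt {p r : ℕ} (q : ℝ) (e : Fin r → Ep p) :
    ∏ s : Fin r, ((if (e s).1 ≠ 0 then (1 - q⁻¹) else 1) *
      q ^ ((p - 1) * pu p (ue p (jN fun s => (e s).1)) s + ((e s).1 - (e s).1 / p))) =
    (1 - q⁻¹) ^ nS (fun s => (e s).1) * q ^ (wN p fun s => (e s).1) := by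
  rw [Finset.prod_mul_distrib]
  congr 1
  · unfold nS
    rw [Finset.prod_ite, Finset.prod_const, Finset.prod_const_one, mul_one]
  · rw [Finset.prod_pow_eq_pow_sum]
    congr 1
    unfold wN
    rw [Finset.sum_add_distrib, ← Finset.mul_sum]
    congr 2
    rw [Fin.sum_univ_eq_sum_range (fun s => pu p (ue p (jN fun s => (e s).1)) s) r]
    cases r with
    | zero => simp
    | succ r =>
      rw [Finset.sum_range_succ']
      simp [pu]

/-- For a function `Φ ≥ 0` of the jumps: the sum over the pole orders `J` is the sum over the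
differences `e_s = u_s - p u_{s-1}`; the fibre of `e` is a product, and if `e_s = 0`, the coordinate
`J_s` runs over all admissible numbers `≤ p u_{s-1}`. Induction on `r` (last coordinate). -/
theorem hasSum_jumps {p r : ℕ} (hp : p.Prime) (q : ℝ) (hq : 1 < q) (Φ : (ℕ → ℕ) → ℝ)
    (hΦ : ∀ u, 0 ≤ Φ u) (hc : ∀ u u' : ℕ → ℕ, (∀ s, s < r → u s = u' s) → Φ u = Φ u') (x : ℝ)
    (h : HasSum (fun e : Fin r → Ep p => (1 - q⁻¹) ^ nS (fun s => (e s).1) *
      q ^ (wN p fun s => (e s).1) * Φ (ue p (jN fun s => (e s).1))) x) :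
    HasSum (fun J : Fin r → Ep p => (∏ s, mR p q (J s).1) *
      Φ (up p (jN fun s => (J s).1))) x := by
  refine hasSum_fib (fe p) (fun e => Fintype.piFinset (tt p e)) (fun e J => fe_iff e J) _
    (fun J => ?_) x ?_
  · refine mul_nonneg (Finset.prod_nonneg fun s _ => ?_) (hΦ _)
    unfold mR
    split_ifs
    · exact zero_le_one
    · exact mul_nonneg (by linarith) (pow_nonneg (by linarith) _)
  · convert h using 2 with e
    have h1 : ∀ J ∈ Fintype.piFinset (tt p e), (∏ s, mR p q (J s).1) *
        Φ (up p (jN fun s => (J s).1)) = (∏ s, mR p q (J s).1) *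
        Φ (ue p (jN fun s => (e s).1)) := by
      intro J hJ
      rw [← fe_iff] at hJ
      subst hJ
      rw [hc (up p (jN fun s => (J s).1)) (ue p (jN fun s => (fe p J s).1))
        (fun s hs => (ue_fe J s hs).symm)]
    rw [Finset.sum_congr rfl h1, ← Finset.sum_mul]
    congr 1
    rw [← Finset.prod_univ_sum (t := tt p e) (f := fun _ j => mR p q j.1)]
    rw [Finset.prod_congr rfl (fun s _ => sum_tt hp q hq e s), prod_tt]

end Pool.Agent.WC
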