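import Pool.Agent.WC.N2
import Pool.Agent.WC.N4

/-! # The two generating series (piece WC-N5) -/

namespace Pool.Agent.WC

open Polynomial Filter Pool.Agent.WD

private theorem n5_Xq_congr {p r : ℕ} {u u' : ℕ → ℕ} (h : ∀ s, s < r → u s = u' s) (i : ℕ) :
    Xq p r u i = Xq p r u' i := by
  unfold Xq
  refine Finset.sum_congr rfl fun s hs => ?_
  rw [Finset.mem_range] at hs
  congr 1
  unfold Yq
  simp only
  rw [h s hs]
  congr 1
  refine Finset.sum_congr rfl fun t ht => ?_
  rw [Finset.mem_range] at ht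
  rw [h t (ht.trans hs)]

private theorem n5_vN_congr {p r n : ℕ} (m : Fin n → ℕ) {u u' : ℕ → ℕ}
    (h : ∀ s, s < r → u s = u' s) : vN p r m u = vN p r m u' := by
  unfold vN
  exact Finset.sum_congr rfl fun a _ => by rw [n5_Xq_congr h]

private theorem n5_cN_congr {p r n : ℕ} (m : Fin n → ℕ) {u u' : ℕ → ℕ}
    (h : ∀ s, s < r → u s = u' s) : cN p r m u = cN p r m u' := by
  unfold cN
  simp only [n5_Xq_congr h]

private theorem n5_group {γ K : Type} (g : K → γ) (t : γ → Finset K) (F : K → ℝ)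
    (h1 : ∀ c k, g k = c → F k ≠ 0 → k ∈ t c) (h2 : ∀ c, ∀ k ∈ t c, g k = c) {x : ℝ}
    (h : HasSum F x) : HasSum (fun c => ∑ k ∈ t c, F k) x := by
  have h3 := h.tsum_fiberwise g
  have h4 : (fun c => ∑ k ∈ t c, F k) = fun c => ∑' b : g ⁻¹' {c}, F b := by
    funext c
    rw [tsum_subtype (g ⁻¹' {c}) F, tsum_eq_sum (s := t c)]
    · refine Finset.sum_congr rfl fun k hk => ?_
      rw [Set.indicator_of_mem]
      exact h2 c k hk
    · intro k hk
      by_contra h0
      have h5 : k ∈ g ⁻¹' {c} := by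
        by_contra hh
        exact h0 (Set.indicator_of_notMem hh _)
      rw [Set.indicator_of_mem h5] at h0
      exact hk (h1 c k h5 h0)
  rw [h4]
  exact h3

open Classical in
private noncomputable def n5_ext (p : ℕ) {r : ℕ} (F : (Fin r → ℕ) → ℝ) (K : Fin r → ℕ) : ℝ :=
  if ∀ s, K s = 0 ∨ ¬ p ∣ K s then F K else 0

private theorem n5_transfer {p r : ℕ} (F : (Fin r → ℕ) → ℝ) {x : ℝ}
    (h : HasSum (fun J : Fin r → Ep p => F (fun s => (J s).1)) x) : HasSum (n5_ext p F) x := by
  have hinj : Function.Injective (fun (J : Fin r → Ep p) (s : Fin r) => (J s).1) := by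
    intro J J' hJ
    funext s
    exact Subtype.ext (congrFun hJ s)
  rw [← hinj.hasSum_iff]
  · have h1 : n5_ext p F ∘ (fun (J : Fin r → Ep p) (s : Fin r) => (J s).1) =
        fun J : Fin r → Ep p => F (fun s => (J s).1) := by
      funext J
      simp only [Function.comp_apply, n5_ext]
      rw [if_pos fun s => (J s).2]
    rw [h1]
    exact h
  · intro K hK
    unfold n5_ext
    rw [if_neg]
    intro hh
    exact hK ⟨fun s => ⟨K s, hh s⟩, rfl⟩

private theorem n5_mcls (p : ℕ) (T : ℝ) (j : ℕ) : aeval T (mcls p j) = mR p (T ^ 2) j := by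
  unfold mcls mR
  split_ifs with h
  · simp
  · simp [pow_mul]

private theorem n5_box {p r N : ℕ} (K : Fin r → ℕ) :
    K ∈ box p r N ↔ ∀ s, K s ≤ N ∧ (K s = 0 ∨ ¬ p ∣ K s) := by
  unfold box
  rw [Fintype.mem_piFinset]
  refine forall_congr' fun s => ?_
  rw [Finset.mem_filter, Finset.mem_range, Nat.lt_succ_iff]

private theorem n5_jN {r : ℕ} (K : Fin r → ℕ) (s : ℕ) (hs : s < r) : jN K s = K ⟨s, hs⟩ := by
  unfold jN
  rw [dif_pos hs]

private theorem n5_le {p r n : ℕ} (hp : p.Prime) (m : Fin n → ℕ) (hf : FaithN p r m)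
    (K : Fin r → ℕ) (s : Fin r) : K s ≤ (p + 1) * vN p r m (up p (jN K)) := by
  have h1 := le_up hp.one_lt.le (jN K) s
  rw [n5_jN K s s.2] at h1
  exact h1.trans (le_vN hp m hf _ (fun s => up_mono hp.one_lt.le (jN K) s) s s.2)

private theorem n5_mem {p r n : ℕ} (hp : p.Prime) (m : Fin n → ℕ) (hf : FaithN p r m)
    (K : Fin r → ℕ) (hK : ∀ s, K s = 0 ∨ ¬ p ∣ K s) {N : ℕ}
    (hN : vN p r m (up p (jN K)) ≤ N) : K ∈ box p r ((p + 1) * N) := by
  rw [n5_box]
  exact fun s => ⟨(n5_le hp m hf K s).trans (Nat.mul_le_mul_left _ hN), hK s⟩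

private theorem n5_ext_eq {p r N : ℕ} (F : (Fin r → ℕ) → ℝ) {K : Fin r → ℕ}
    (hK : K ∈ box p r N) : n5_ext p F K = F K := by
  rw [n5_box] at hK
  unfold n5_ext
  rw [if_pos fun s => (hK s).2]

private theorem n5_adm {p r : ℕ} {F : (Fin r → ℕ) → ℝ} {K : Fin r → ℕ}
    (hK : n5_ext p F K ≠ 0) : ∀ s, K s = 0 ∨ ¬ p ∣ K s := by
  by_contra h
  apply hK
  unfold n5_ext
  rw [if_neg h]

private theorem n5_cN_le {p r n : ℕ} (m : Fin n → ℕ) (u : ℕ → ℕ) : cN p r m u ≤ dimV m := by
  unfold cN dimV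
  refine (Finset.card_le_univ _).trans ?_
  rw [Fintype.card_sigma]
  simp

theorem hasSum_PW {p r n : ℕ} (hp : p.Prime) (m : Fin n → ℕ) (hm : ∀ B, m B ≤ p ^ r)
    (hf : FaithN p r m) (T : ℝ) (hT : 1 < T) (x : ℝ)
    (h : HasSum (fun e : Fin r → Ep p => (1 - (T ^ 2)⁻¹) ^ nS (fun s => (e s).1) *
      (T ^ 2) ^ AN p m (fun s => (e s).1)) x) :
    HasSum (fun a : ℕ => aeval T (PW p r m a) * T ^ (-(2 * (a : ℤ)))) x := by
  have hT0 : (0 : ℝ) < T := by linarith
  have hq : 1 < T ^ 2 := by nlinarith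
  have hq0 : (0 : ℝ) < T ^ 2 := by positivity
  set Φ : (ℕ → ℕ) → ℝ := fun u => (T ^ 2) ^ (-(vN p r m u : ℤ)) with hΦ
  have h1 := hasSum_jumps hp (T ^ 2) hq Φ (fun u => (zpow_pos hq0 _).le)
    (fun u u' hu => by rw [hΦ]; simp only; rw [n5_vN_congr m hu]) x (by
      convert h using 2 with e
      rw [hΦ, mul_assoc]
      congr 1
      simp only
      unfold AN
      rw [sub_eq_add_neg, zpow_add₀ hq0.ne', zpow_natCast])
  have h2 := n5_transfer (fun K => (∏ s, mR p (T ^ 2) (K s)) * Φ (up p (jN K))) h1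
  have h3 := n5_group (fun K => vN p r m (up p (jN K)))
    (fun a => (box p r ((p + 1) * a)).filter (fun J => vN p r m (up p (jN J)) = a)) _
    (fun a K hK h0 => by
      rw [Finset.mem_filter]
      exact ⟨n5_mem hp m hf K (n5_adm h0) hK.le, hK⟩)
    (fun a K hK => (Finset.mem_filter.1 hK).2) h2
  convert h3 using 2 with a
  unfold PW
  rw [map_sum, Finset.sum_mul]
  refine Finset.sum_congr rfl fun K hK => ?_
  rw [Finset.mem_filter] at hK
  rw [n5_ext_eq _ hK.1, map_prod, hΦ]
  simp only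
  rw [hK.2]
  congr 1
  · exact Finset.prod_congr rfl fun s _ => n5_mcls p T _
  · rw [← zpow_natCast T 2, ← zpow_mul]
    congr 1
    push_cast
    ring

theorem hasSum_QW {p r n : ℕ} (hp : p.Prime) (m : Fin n → ℕ) (hm : ∀ B, m B ≤ p ^ r)
    (hf : FaithN p r m) (T : ℝ) (hT : 1 < T) (x : ℝ)
    (h : HasSum (fun e : Fin r → Ep p => (1 - (T ^ 2)⁻¹) ^ nS (fun s => (e s).1) *
      (T ^ 2) ^ (AN p m (fun s => (e s).1) + cN p r m (ue p (jN fun s => (e s).1)))) x) :
    HasSum (fun b : ℤ => aeval T (QW p r m b) * T ^ (2 * b)) x := by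
  have hT0 : (0 : ℝ) < T := by linarith
  have hq : 1 < T ^ 2 := by nlinarith
  have hq0 : (0 : ℝ) < T ^ 2 := by positivity
  set Φ : (ℕ → ℕ) → ℝ := fun u => (T ^ 2) ^ ((cN p r m u : ℤ) - (vN p r m u : ℤ)) with hΦ
  have h1 := hasSum_jumps hp (T ^ 2) hq Φ (fun u => (zpow_pos hq0 _).le)
    (fun u u' hu => by rw [hΦ]; simp only; rw [n5_vN_congr m hu, n5_cN_congr m hu]) x (by
      convert h using 2 with e
      rw [hΦ, mul_assoc]
      congr 1
      simp only
      unfold AN
      rw [← zpow_natCast, ← zpow_add₀ hq0.ne']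
      congr 1
      ring)
  have h2 := n5_transfer (fun K => (∏ s, mR p (T ^ 2) (K s)) * Φ (up p (jN K))) h1
  have h3 := n5_group (fun K => (cN p r m (up p (jN K)) : ℤ) - (vN p r m (up p (jN K)) : ℤ))
    (fun b => (box p r ((p + 1) * (dimV m + (-b).toNat))).filter
      (fun J => (cN p r m (up p (jN J)) : ℤ) - (vN p r m (up p (jN J)) : ℤ) = b)) _
    (fun b K hK h0 => by
      rw [Finset.mem_filter]
      refine ⟨n5_mem hp m hf K (n5_adm h0) ?_, hK⟩
      have h4 : cN p r m (up p (jN K)) ≤ dimV m := n5_cN_le m _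
      omega)
    (fun b K hK => (Finset.mem_filter.1 hK).2) h2
  convert h3 using 2 with b
  unfold QW
  rw [map_sum, Finset.sum_mul]
  refine Finset.sum_congr rfl fun K hK => ?_
  rw [Finset.mem_filter] at hK
  rw [n5_ext_eq _ hK.1, map_prod, hΦ]
  simp only
  rw [hK.2]
  congr 1
  · exact Finset.prod_congr rfl fun s _ => n5_mcls p T _
  · rw [← zpow_natCast T 2, ← zpow_mul]
    congr 1

private theorem n5_natDegree {K : Type} (t : Finset K) (f : K → ℤ[X])
    (hf : ∀ k ∈ t, (f k).Monic) {k0 : K} (hk : k0 ∈ t) :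
    (f k0).natDegree ≤ (∑ k ∈ t, f k).natDegree := by
  obtain ⟨k1, hk1, hmax⟩ := t.exists_max_image (fun k => (f k).natDegree) ⟨k0, hk⟩
  refine (hmax k0 hk).trans ?_
  apply le_natDegree_of_ne_zero
  rw [finsetSum_coeff]
  have h0 : ∀ k ∈ t, 0 ≤ (f k).coeff (f k1).natDegree := by
    intro k hk
    rcases (hmax k hk).lt_or_eq with h | h
    · rw [coeff_eq_zero_of_natDegree_lt h]
    · rw [← h, (hf k hk).coeff_natDegree]
      norm_num
  have h1 : 0 < (f k1).coeff (f k1).natDegree := by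
    rw [(hf k1 hk1).coeff_natDegree]
    norm_num
  exact (Finset.sum_pos' h0 ⟨k1, hk1, h1⟩).ne'

private theorem n5_mcls_monic (p j : ℕ) : (mcls p j).Monic := by
  unfold mcls
  split_ifs with h
  · exact monic_one
  · have h1 : (X ^ 2 - 1 : ℤ[X]).Monic := by
      have := monic_X_pow_sub_C (1 : ℤ) (two_ne_zero)
      rwa [map_one] at this
    exact h1.mul (monic_X_pow _)

private theorem n5_mcls_deg {p : ℕ} (hp : p.Prime) (j : ℕ) :
    (mcls p j).natDegree = 2 * (j - j / p) := by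
  unfold mcls
  split_ifs with h
  · subst h
    simp
  · have h1 : (X ^ 2 - 1 : ℤ[X]).Monic := by
      have := monic_X_pow_sub_C (1 : ℤ) (two_ne_zero)
      rwa [map_one] at this
    have h2 : (X ^ 2 - 1 : ℤ[X]).natDegree = 2 := by
      have := natDegree_X_pow_sub_C (n := 2) (r := (1 : ℤ))
      rwa [map_one] at this
    rw [h1.natDegree_mul (monic_X_pow _), h2, natDegree_X_pow]
    have h3 : j / p < j := Nat.div_lt_self (Nat.pos_of_ne_zero h) hp.one_lt
    omega

private def n5_E (p : ℕ) {r : ℕ} (s : Fin r) (x : ℕ) (t : Fin r) : ℕ :=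
  if t = s then x * p ^ r + 1 else 0

private def n5_J (p : ℕ) {r : ℕ} (s : Fin r) (x : ℕ) (t : Fin r) : ℕ :=
  if (t : ℕ) < s then 0 else if (t : ℕ) = s then x * p ^ r + 1 else
    p ^ ((t : ℕ) - s) * (x * p ^ r + 1) - 1

private def n5_u (p : ℕ) {r : ℕ} (s : Fin r) (x : ℕ) (i : ℕ) : ℕ :=
  if i < s then 0 else p ^ (i - s) * (x * p ^ r + 1)

private theorem n5_ue (p : ℕ) {r : ℕ} (s : Fin r) (x : ℕ) :
    ∀ i, i < r → ue p (jN (n5_E p s x)) i = n5_u p s x i := by
  intro i
  induction i with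
  | zero =>
    intro hi
    unfold ue
    rw [n5_jN _ 0 hi]
    unfold n5_E n5_u
    by_cases h : (s : ℕ) = 0
    · rw [if_pos (Fin.ext h.symm), h]
      simp
    · rw [if_neg (fun h' => h (congrArg Fin.val h').symm), if_pos (Nat.pos_of_ne_zero h)]
  | succ i ih =>
    intro hi
    unfold ue
    rw [ih (by omega), n5_jN _ _ hi]
    unfold n5_E n5_u
    rcases lt_trichotomy (i + 1) (s : ℕ) with h | h | h
    · rw [if_pos (by omega), if_pos h, if_neg (fun h' => by
        have := congrArg Fin.val h'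
        simp only at this
        omega)]
      simp
    · rw [if_pos (by omega), if_pos (Fin.ext h), if_neg (by omega), h]
      simp
    · rw [if_neg (by omega), if_neg (fun h' => by
        have := congrArg Fin.val h'
        simp only at this
        omega), if_neg (by omega)]
      have h1 : i + 1 - (s : ℕ) = (i - s) + 1 := by omega
      rw [h1, pow_succ]
      ring

private theorem n5_up (p : ℕ) {r : ℕ} (s : Fin r) (x : ℕ) :
    ∀ i, i < r → up p (jN (n5_J p s x)) i = n5_u p s x i := by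
  intro i
  induction i with
  | zero =>
    intro hi
    unfold up
    rw [n5_jN _ 0 hi]
    unfold n5_J n5_u
    simp only
    by_cases h : (s : ℕ) = 0
    · rw [if_neg (by omega), if_pos h.symm, if_neg (by omega), h]
      simp
    · rw [if_pos (Nat.pos_of_ne_zero h), if_pos (Nat.pos_of_ne_zero h)]
  | succ i ih =>
    intro hi
    unfold up
    rw [ih (by omega), n5_jN _ _ hi]
    unfold n5_J n5_u
    simp only
    rcases lt_trichotomy (i + 1) (s : ℕ) with h | h | h
    · rw [if_pos (by omega), if_pos h, if_pos h]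
      simp
    · rw [if_pos (by omega), if_neg (by omega), if_pos h, if_neg (by omega), h]
      simp
    · rw [if_neg (by omega), if_neg (by omega), if_neg (by omega), if_neg (by omega)]
      have h1 : i + 1 - (s : ℕ) = (i - s) + 1 := by omega
      rw [h1, pow_succ]
      have h2 : p * (p ^ (i - s) * (x * p ^ r + 1)) = p ^ (i - s) * p * (x * p ^ r + 1) := by
        ring
      rw [h2]
      exact max_eq_left (Nat.sub_le _ _)

private theorem n5_J_adm {p : ℕ} (hp : p.Prime) {r : ℕ} (s : Fin r) (x : ℕ) (t : Fin r) :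
    n5_J p s x t = 0 ∨ ¬ p ∣ n5_J p s x t := by
  have hr : 0 < r := Fin.pos s
  have h1 : p ∣ p ^ r := dvd_pow_self p hr.ne'
  have h2 : ¬ p ∣ x * p ^ r + 1 := by
    intro h
    have h3 := (Nat.dvd_add_right (h1.mul_left x)).1 h
    exact hp.one_lt.ne' (Nat.dvd_one.1 h3)
  unfold n5_J
  split_ifs with h h'
  · exact Or.inl rfl
  · exact Or.inr h2
  · right
    intro h3
    have h4 : p ∣ p ^ ((t : ℕ) - s) * (x * p ^ r + 1) :=
      (dvd_pow_self p (by omega)).mul_right _
    have h5 : 0 < p ^ ((t : ℕ) - s) * (x * p ^ r + 1) :=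
      Nat.mul_pos (pow_pos hp.pos _) (Nat.succ_pos _)
    have h6 := (Nat.dvd_sub_iff_right (Nat.succ_le_of_lt h5) h4).1 h3
    exact hp.one_lt.ne' (Nat.dvd_one.1 h6)

private def n5_pu (u : ℕ → ℕ) : ℕ → ℕ
  | 0 => 0
  | s + 1 => u s

private theorem n5_term {p : ℕ} (hp : p.Prime) {r : ℕ} (s : Fin r) (x : ℕ) (t : Fin r) :
    n5_J p s x t - n5_J p s x t / p =
      (p - 1) * n5_pu (n5_u p s x) t + (n5_E p s x t - n5_E p s x t / p) := by
  rcases lt_trichotomy (t : ℕ) (s : ℕ) with h | h | h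
  · have e1 : n5_J p s x t = 0 := by
      unfold n5_J
      rw [if_pos h]
    have e2 : n5_E p s x t = 0 := by
      unfold n5_E
      rw [if_neg (fun h' => by rw [h'] at h; exact lt_irrefl _ h)]
    have e3 : n5_pu (n5_u p s x) t = 0 := by
      rcases ht : (t : ℕ) with _ | i
      · rfl
      · change n5_u p s x i = 0
        unfold n5_u
        rw [if_pos (by omega)]
    rw [e1, e2, e3]
    simp
  · have e1 : n5_J p s x t = x * p ^ r + 1 := by
      unfold n5_J
      rw [if_neg (by omega), if_pos h]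
    have e2 : n5_E p s x t = x * p ^ r + 1 := by
      unfold n5_E
      rw [if_pos (Fin.ext h)]
    have e3 : n5_pu (n5_u p s x) t = 0 := by
      rcases ht : (t : ℕ) with _ | i
      · rfl
      · change n5_u p s x i = 0
        unfold n5_u
        rw [if_pos (by omega)]
    rw [e1, e2, e3, mul_zero, zero_add]
  · obtain ⟨i, hi⟩ : ∃ i, (t : ℕ) = i + 1 := ⟨t - 1, by omega⟩
    have e2 : n5_E p s x t = 0 := by
      unfold n5_E
      rw [if_neg (fun h' => by rw [h'] at h; exact lt_irrefl _ h)]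
    have e3 : n5_pu (n5_u p s x) t = p ^ (i - s) * (x * p ^ r + 1) := by
      rw [hi]
      change n5_u p s x i = _
      unfold n5_u
      rw [if_neg (by omega)]
    have e1 : n5_J p s x t = p * (p ^ (i - s) * (x * p ^ r + 1)) - 1 := by
      unfold n5_J
      rw [if_neg (by omega), if_neg (by omega), hi]
      have h1 : i + 1 - (s : ℕ) = (i - s) + 1 := by omega
      rw [h1, pow_succ]
      congr 1
      ring
    rw [e1, e2, e3]
    have hu : 0 < p ^ (i - s) * (x * p ^ r + 1) :=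
      Nat.mul_pos (pow_pos hp.pos _) (Nat.succ_pos _)
    obtain ⟨v, hv⟩ := Nat.exists_eq_succ_of_ne_zero hu.ne'
    rw [hv]
    have h2 : p * v.succ - 1 = p * v + (p - 1) := by
      have := hp.pos
      rw [Nat.succ_eq_add_one, Nat.mul_add, mul_one]
      omega
    have h3 : (p * v + (p - 1)) / p = v := by
      rw [Nat.mul_add_div hp.pos, Nat.div_eq_of_lt (by have := hp.pos; omega), add_zero]
    rw [h2, h3, Nat.zero_div, Nat.sub_zero, add_zero, Nat.succ_eq_add_one, Nat.mul_add, mul_one,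
      Nat.sub_mul, one_mul]
    have h4 : v ≤ p * v := Nat.le_mul_of_pos_left v hp.pos
    omega

private theorem n5_sum {p : ℕ} (hp : p.Prime) {r : ℕ} (s : Fin r) (x : ℕ) :
    ∑ t, (n5_J p s x t - n5_J p s x t / p) = wN p (n5_E p s x) := by
  rw [Finset.sum_congr rfl fun t _ => n5_term hp s x t, Finset.sum_add_distrib,
    ← Finset.mul_sum]
  unfold wN
  congr 2
  rw [Fin.sum_univ_eq_sum_range (fun t => n5_pu (n5_u p s x) t) r]
  obtain ⟨r', hr⟩ := Nat.exists_eq_succ_of_ne_zero (Fin.pos s).ne'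
  rw [show Finset.range r = Finset.range (r' + 1) by rw [hr], Finset.sum_range_succ']
  have h1 : r - 1 = r' := by omega
  rw [h1]
  change ∑ k ∈ Finset.range r', n5_u p s x k + 0 = _
  rw [add_zero]
  refine Finset.sum_congr rfl fun k hk => ?_
  rw [Finset.mem_range] at hk
  exact (n5_ue p s x k (by omega)).symm

private theorem n5_AN {p r n : ℕ} (hp : p.Prime) (m : Fin n → ℕ) (hm : ∀ B, m B ≤ p ^ r)
    (s : Fin r) (x : ℕ) :
    AN p m (n5_E p s x) = AN p m (n5_E p s 0) - x * dec p m s := by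
  induction x with
  | zero => simp
  | succ x ih =>
    have h1 := AN_add hp m hm (n5_E p s x) s
    have h2 : (fun t => if t = s then n5_E p s x t + p ^ r else n5_E p s x t) =
        n5_E p s (x + 1) := by
      funext t
      unfold n5_E
      split_ifs
      · ring
      · rfl
    rw [h2] at h1
    rw [h1, ih]
    push_cast
    ring

/-- If `c_s ≤ 0`, the parameters `e = (x p^r + 1) 1_s`, `x → ∞`, give level sets `{v = a}` whose
classes have degree `≥ 2 a - const`. -/
theorem dec_pos {p r n : ℕ} (hp : p.Prime) (m : Fin n → ℕ) (hm : ∀ B, m B ≤ p ^ r)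
    (hf : FaithN p r m)
    (hconv : Tendsto (fun a : ℕ => 2 * (a : ℤ) - ((PW p r m a).natDegree : ℤ)) atTop atTop)
    (s : Fin r) : 0 < dec p m s := by
  by_contra hd
  rw [not_lt] at hd
  obtain ⟨N, hN⟩ := (tendsto_atTop_atTop.1 hconv) (-2 * AN p m (n5_E p s 0) + 1)
  set x : ℕ := (p + 1) * N with hx
  set a : ℕ := vN p r m (up p (jN (n5_J p s x))) with ha
  have hpr : 0 < p ^ r := pow_pos hp.pos r
  have h1 : (p + 1) * N * p ^ r + 1 ≤ (p + 1) * a := by
    have h2 := n5_le hp m hf (n5_J p s x) s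
    have h3 : n5_J p s x s = x * p ^ r + 1 := by
      unfold n5_J
      rw [if_neg (lt_irrefl _), if_pos rfl]
    rw [h3] at h2
    exact h2
  have haN : N ≤ a := by
    have h2 : (p + 1) * N ≤ (p + 1) * a := by
      refine le_trans ?_ h1
      exact (Nat.le_mul_of_pos_right _ hpr).trans (Nat.le_succ _)
    exact Nat.le_of_mul_le_mul_left h2 (Nat.succ_pos p)
  have h2 := hN a haN
  have h3 : 2 * wN p (n5_E p s x) ≤ (PW p r m a).natDegree := by
    have h4 := n5_natDegree ((box p r ((p + 1) * a)).filter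
      (fun J => vN p r m (up p (jN J)) = a)) (fun J => ∏ s, mcls p (J s))
      (fun J _ => monic_prod_of_monic _ _ fun s _ => n5_mcls_monic p _)
      (k0 := n5_J p s x) (by
        rw [Finset.mem_filter]
        exact ⟨n5_mem hp m hf _ (n5_J_adm hp s x) ha.symm.le, ha.symm⟩)
    refine le_trans ?_ h4
    rw [natDegree_prod_of_monic _ _ fun s _ => n5_mcls_monic p _]
    rw [Finset.sum_congr rfl fun t _ => n5_mcls_deg hp _, ← Finset.mul_sum, n5_sum hp]
  have h5 : (AN p m (n5_E p s x) : ℤ) = (wN p (n5_E p s x) : ℤ) - a := by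
    unfold AN
    rw [ha]
    congr 2
    refine n5_vN_congr m fun i hi => ?_
    rw [n5_ue p s x i hi, n5_up p s x i hi]
  have h6 := n5_AN hp m hm s x
  have h7 : (x : ℤ) * dec p m s ≤ 0 := mul_nonpos_of_nonneg_of_nonpos (Int.natCast_nonneg x) hd
  have h8 : (2 : ℤ) * (wN p (n5_E p s x) : ℤ) ≤ ((PW p r m a).natDegree : ℤ) := by
    exact_mod_cast h3
  omega

end Pool.Agent.WC
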