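import Pool.Agent.WC.E2
import Pool.Agent.WC.F1
import Pool.Agent.WC.N3
import Pool.Agent.WC.N5

/-! # Assembly -/

namespace Pool.Agent.WC

open Polynomial Filter Pool.Agent.WD

universe u

theorem finalW (p : ℕ) [Fact p.Prime] (k : Type u) [Field k] [IsAlgClosed k] [CharP k p]
    {r n : ℕ} (m : Fin n → ℕ) (hm : ∀ B, m B ≤ p ^ r) (hf : FaithfulW k p r m)
    (e : Realization k) :
    (∀ c : Par p r k, ∃! a, IsVW m c a) ∧
    ∃ (P : ℕ → ℤ[X]) (Q : ℤ → ℤ[X]),
      (∀ a, HasClass e {c : Par p r k | vW m c = a} (P a)) ∧
      (∀ b, HasClass e {c : Par p r k | wW m c = b} (Q b)) ∧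
      (Tendsto (fun a : ℕ => 2 * (a : ℤ) - ((P a).natDegree : ℤ)) atTop atTop →
        ∃ A B : ℤ[X], (∀ x : ℝ, 0 < x → x ≠ 1 → aeval x B ≠ 0) ∧ ∀ T : ℝ, 1 < T →
          HasSum (fun a : ℕ => aeval T (P a) * T ^ (2 * ((dimV m : ℤ) - a)))
            (aeval T A / aeval T B) ∧
          HasSum (fun b : ℤ => aeval T (Q b) * T ^ (2 * b))
            (T ^ (2 * dimV m) * (aeval T⁻¹ A / aeval T⁻¹ B))) := by
  classical
  have hp : p.Prime := Fact.out
  have hfN := faithN_of_faithfulW m hf
  refine ⟨fun c => ⟨_, (isVW_iff m hm c _).mpr rfl, fun a ha => (isVW_iff m hm c a).mp ha⟩, ?_⟩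
  refine ⟨PW p r m, QW p r m, ?_, ?_, ?_⟩
  · intro a
    have h := hasClass_vW (p := p) (k := k) (r := r) e m hfN a
    have h2 : {c : Par p r k | vW m c = a} =
        {c : Par p r k | vN p r m (up p (pol c)) = a} := by
      ext c
      change vW m c = a ↔ _
      rw [vW_eq m hm c]
      rfl
    rw [h2]
    exact h
  · intro b
    have h := hasClass_wW (p := p) (k := k) (r := r) e m hfN b
    have h2 : {c : Par p r k | wW m c = b} = {c : Par p r k |
      (cN p r m (up p (pol c)) : ℤ) - (vN p r m (up p (pol c)) : ℤ) = b} := by
      ext c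
      change wW m c = b ↔ _
      rw [wW, codimW_eq m hm c, vW_eq m hm c]
      rfl
    rw [h2]
    exact h
  · intro hconv
    obtain ⟨F, G, hFG, hrec⟩ := prod_reciprocity (r := r) hp (p ^ r)
      (fun h => dvd_pow_self p (by omega)) (pow_pos hp.pos r) (AN p m)
      (fun e => AN p m e + cN p r m (ue p (jN e))) (dec p m)
      (dec_pos hp m hm hfN hconv) (fun e s _ _ => AN_add hp m hm e s)
      (by
        intro e s he hs
        have h1 := AN_add hp m hm e s
        have h2 : cN p r m (ue p (jN fun t => if t = s then e t + p ^ r else e t)) =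
            cN p r m (ue p (jN e)) := by
          apply cN_congr hp m hm _ _ ?_ he
          · intro t
            by_cases hts : t = s
            · simp [hts, hs]
            · simp [hts]
          · intro t
            by_cases hts : t = s
            · subst hts
              have h3 : p ∣ p ^ r := dvd_pow_self p (by have := t.2; omega)
              rcases he t with h4 | h4
              · exact absurd h4 hs
              · right
                simp only [if_true]
                intro h5
                exact h4 ((Nat.dvd_add_left h3).mp h5)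
            · simp only [hts, if_false]
              exact he t
        beta_reduce
        rw [h1, h2]
        ring)
      (by
        intro e he hb
        have h1 := AN_refl hp m hm e he hb
        have h2 : cN p r m (ue p (jN fun t => if e t = 0 then 0 else p ^ r - e t)) =
            cN p r m (ue p (jN e)) := by
          apply cN_congr hp m hm _ _ ?_ he
          · intro t
            by_cases ht : e t = 0
            · simp [ht]
            · have := hb t
              simp only [ht, if_false, iff_false]
              omega
          · intro t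
            by_cases ht : e t = 0
            · simp [ht]
            · right
              simp only [ht, if_false]
              have h3 : p ∣ p ^ r := dvd_pow_self p (by have := t.2; omega)
              rcases he t with h4 | h4
              · exact absurd h4 ht
              · intro h5
                exact h4 ((Nat.dvd_sub_iff_right (hb t).le h3).mp h5)
        rw [h2]
        exact h1)
    have h1 : Dual (fun T => T ^ (2 * (dimV m : ℤ)) * F (T ^ 2))
        (fun T => T ^ (-(2 * (dimV m : ℤ))) * G (T ^ 2)) :=
      (Dual.zpow (2 * (dimV m : ℤ))).mul hFG.comp_sq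
    obtain ⟨A, B, hB, hAB⟩ := h1
    refine ⟨A, B, hB, fun T hT => ?_⟩
    have hT0 : (0 : ℝ) < T := by linarith
    have hT2 : 1 < T ^ 2 := by nlinarith
    obtain ⟨hs1, hs2⟩ := hrec (T ^ 2) hT2
    obtain ⟨hA1, hA2⟩ := hAB T hT
    constructor
    · rw [← hA1]
      have h3 := (hasSum_PW hp m hm hfN T hT _ hs1).mul_left (T ^ (2 * (dimV m : ℤ)))
      have h4 : (fun a : ℕ => aeval T (PW p r m a) * T ^ (2 * ((dimV m : ℤ) - a))) =
          fun a : ℕ => T ^ (2 * (dimV m : ℤ)) *
            (aeval T (PW p r m a) * T ^ (-(2 * (a : ℤ)))) := by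
        funext a
        rw [mul_left_comm, ← zpow_add₀ hT0.ne']
        congr 2
        ring
      rw [h4]
      exact h3
    · rw [← hA2]
      have h3 := hasSum_QW hp m hm hfN T hT _ hs2
      have h5 : (T : ℝ) ^ (2 * dimV m) = T ^ (2 * (dimV m : ℤ)) := by
        rw [← zpow_natCast]
        push_cast
        rfl
      have h4 : T ^ (2 * dimV m) * (T ^ (-(2 * (dimV m : ℤ))) * G (T ^ 2)) = G (T ^ 2) := by
        rw [h5, ← mul_assoc, ← zpow_add₀ hT0.ne', add_neg_cancel, zpow_zero, one_mul]
      rw [h4]
      exact h3

end Pool.Agent.WC
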