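import Pool.Agent.WC.Abs

/-! # Generalities on Witt vectors over a field (piece WC-T1) -/

namespace Pool.Agent.WC

open Pool.Agent.WD

universe u w

variable {p : ℕ} [Fact p.Prime] {L : Type w} [Field L] [CharP L p]

omit [CharP L p] in
private theorem T1_trunc {a a' : WittVector p L} {n : ℕ} (ha : ∀ i < n, a.coeff i = a'.coeff i) :
    WittVector.truncate n a = WittVector.truncate n a' := by
  refine TruncatedWittVector.ext fun i => ?_
  rw [WittVector.coeff_truncate, WittVector.coeff_truncate]
  exact ha i i.2

omit [CharP L p] in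
private theorem T1_trunc' {a a' : WittVector p L} {n : ℕ}
    (h : WittVector.truncate n a = WittVector.truncate n a') : ∀ i < n, a.coeff i = a'.coeff i := by
  intro i hi
  have h1 := congrArg (TruncatedWittVector.coeff (⟨i, hi⟩ : Fin n)) h
  rwa [WittVector.coeff_truncate, WittVector.coeff_truncate] at h1

/-- the first coordinates of a sum depend only on the first coordinates -/
theorem coeff_add_congr {a a' b b' : WittVector p L} {n : ℕ} (ha : ∀ i < n, a.coeff i = a'.coeff i)
    (hb : ∀ i < n, b.coeff i = b'.coeff i) : ∀ i < n, (a + b).coeff i = (a' + b').coeff i := by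
  apply T1_trunc'
  rw [map_add, map_add, T1_trunc ha, T1_trunc hb]

theorem coeff_sub_congr {a a' b b' : WittVector p L} {n : ℕ} (ha : ∀ i < n, a.coeff i = a'.coeff i)
    (hb : ∀ i < n, b.coeff i = b'.coeff i) : ∀ i < n, (a - b).coeff i = (a' - b').coeff i := by
  apply T1_trunc'
  rw [map_sub, map_sub, T1_trunc ha, T1_trunc hb]

omit [CharP L p] in
private theorem T1_lift (S : Subring L) {a : WittVector p L} {n : ℕ}
    (ha : ∀ i < n, a.coeff i ∈ S) : ∃ a' : WittVector p S,
      ∀ i < n, a.coeff i = (WittVector.map S.subtype a').coeff i := by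
  classical
  refine ⟨WittVector.mk p fun i => if h : i < n then ⟨a.coeff i, ha i h⟩ else 0, fun i hi => ?_⟩
  rw [WittVector.map_coeff, WittVector.coeff_mk, dif_pos hi]
  rfl

/-- closure for a subring -/
theorem coeff_add_mem (S : Subring L) {a b : WittVector p L} {n : ℕ}
    (ha : ∀ i < n, a.coeff i ∈ S) (hb : ∀ i < n, b.coeff i ∈ S) :
    ∀ i < n, (a + b).coeff i ∈ S := by
  obtain ⟨a', ha'⟩ := T1_lift S ha
  obtain ⟨b', hb'⟩ := T1_lift S hb
  intro i hi
  rw [coeff_add_congr ha' hb' i hi, ← map_add, WittVector.map_coeff]
  exact Subtype.property _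

theorem coeff_sub_mem (S : Subring L) {a b : WittVector p L} {n : ℕ}
    (ha : ∀ i < n, a.coeff i ∈ S) (hb : ∀ i < n, b.coeff i ∈ S) :
    ∀ i < n, (a - b).coeff i ∈ S := by
  obtain ⟨a', ha'⟩ := T1_lift S ha
  obtain ⟨b', hb'⟩ := T1_lift S hb
  intro i hi
  rw [coeff_sub_congr ha' hb' i hi, ← map_sub, WittVector.map_coeff]
  exact Subtype.property _

omit [CharP L p] in
private theorem T1_split (u : L) (y : WittVector p L) (i : ℕ) :
    (WittVector.teichmuller p u + WittVector.verschiebung y).coeff i =
      (WittVector.teichmuller p u).coeff i + (WittVector.verschiebung y).coeff i := by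
  refine WittVector.coeff_add_of_disjoint i _ _ fun n => ?_
  rcases Nat.eq_zero_or_pos n with rfl | hn
  · exact Or.inr (WittVector.verschiebung_coeff_zero y)
  · exact Or.inl (WittVector.teichmuller_coeff_pos p u n hn)

/-- `a = [a_0] + V(shift a)` -/
theorem eq_teichmuller_add (a : WittVector p L) :
    a = WittVector.teichmuller p (a.coeff 0) +
      WittVector.verschiebung (WittVector.mk p fun i => a.coeff (i + 1)) := by
  ext i
  rw [T1_split]
  rcases i with _ | i
  · rw [WittVector.teichmuller_coeff_zero, WittVector.verschiebung_coeff_zero, add_zero]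
  · rw [WittVector.teichmuller_coeff_pos p _ _ i.succ_pos, WittVector.verschiebung_coeff_add_one,
      WittVector.coeff_mk, zero_add]

private theorem T1_frob_teich (T : L) : WittVector.frobenius (WittVector.teichmuller p T) =
    WittVector.teichmuller p (T ^ p) := by
  ext i
  rw [WittVector.coeff_frobenius_charP]
  rcases Nat.eq_zero_or_pos i with rfl | hi
  · rw [WittVector.teichmuller_coeff_zero, WittVector.teichmuller_coeff_zero]
  · rw [WittVector.teichmuller_coeff_pos p _ _ hi, WittVector.teichmuller_coeff_pos p _ _ hi,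
      zero_pow (Fact.out : p.Prime).ne_zero]

/-- multiplication by a Teichmueller representative -/
theorem coeff_teichmuller_mul (T : L) (a : WittVector p L) (i : ℕ) :
    (WittVector.teichmuller p T * a).coeff i = T ^ (p ^ i) * a.coeff i := by
  induction i generalizing T a with
  | zero =>
    rw [WittVector.mul_coeff_zero, WittVector.teichmuller_coeff_zero, pow_zero, pow_one]
  | succ i ih =>
    have h1 : WittVector.teichmuller p T * a =
        WittVector.teichmuller p (T * a.coeff 0) + WittVector.verschiebung
          (WittVector.teichmuller p (T ^ p) * (WittVector.mk p fun i => a.coeff (i + 1))) := by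
      conv_lhs => rw [eq_teichmuller_add a, mul_add, ← map_mul]
      congr 1
      rw [mul_comm, ← WittVector.verschiebung_mul_frobenius, T1_frob_teich, mul_comm]
    rw [h1, T1_split, WittVector.teichmuller_coeff_pos p _ _ i.succ_pos,
      WittVector.verschiebung_coeff_add_one, ih, WittVector.coeff_mk, zero_add, ← pow_mul,
      pow_succ' p i]

omit [CharP L p] in
private theorem T1_add_V (n : ℕ) : ∀ (a : WittVector p L),
    ∃ b : WittVector p L, ∃ c : WittVector p L, (∀ i < n, b.coeff i = a.coeff i) ∧
      (∀ i, n ≤ i → b.coeff i = 0) ∧ c.coeff 0 = a.coeff n ∧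
      a = b + (WittVector.verschiebung)^[n] c := by
  classical
  intro a
  refine ⟨WittVector.mk p fun i => if i < n then a.coeff i else 0,
    WittVector.mk p fun i => a.coeff (i + n), ?_, ?_, ?_, ?_⟩
  · intro i hi
    rw [WittVector.coeff_mk, if_pos hi]
  · intro i hi
    rw [WittVector.coeff_mk, if_neg (not_lt.2 hi)]
  · rw [WittVector.coeff_mk, zero_add]
  · ext i
    rw [WittVector.coeff_add_of_disjoint]
    · rcases lt_or_ge i n with hi | hi
      · rw [WittVector.iterate_verschiebung_coeff_eq_zero _ hi, WittVector.coeff_mk, if_pos hi,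
          add_zero]
      · obtain ⟨k, rfl⟩ := Nat.exists_eq_add_of_le hi
        rw [Nat.add_comm n k, WittVector.iterate_verschiebung_coeff, WittVector.coeff_mk,
          WittVector.coeff_mk, if_neg (by omega), zero_add]
    · intro m
      rcases lt_or_ge m n with hm | hm
      · exact Or.inr (WittVector.iterate_verschiebung_coeff_eq_zero _ hm)
      · left
        rw [WittVector.coeff_mk, if_neg (not_lt.2 hm)]

omit [CharP L p] in
private theorem T1_disj (n : ℕ) (b c : WittVector p L) (hb : ∀ i, n ≤ i → b.coeff i = 0) :
    (∀ i < n, (b + (WittVector.verschiebung)^[n] c).coeff i = b.coeff i) ∧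
      (b + (WittVector.verschiebung)^[n] c).coeff n = c.coeff 0 := by
  have h : ∀ i, (b + (WittVector.verschiebung)^[n] c).coeff i = b.coeff i +
      ((WittVector.verschiebung)^[n] c).coeff i := by
    intro i
    refine WittVector.coeff_add_of_disjoint i _ _ fun m => ?_
    rcases lt_or_ge m n with hm | hm
    · exact Or.inr (WittVector.iterate_verschiebung_coeff_eq_zero _ hm)
    · exact Or.inl (hb m hm)
  refine ⟨fun i hi => ?_, ?_⟩
  · rw [h, WittVector.iterate_verschiebung_coeff_eq_zero _ hi, add_zero]
  · rw [h, hb n le_rfl, zero_add]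
    have := WittVector.iterate_verschiebung_coeff c n 0
    rwa [Nat.zero_add] at this

omit [CharP L p] in
private theorem T1_iter_add (n : ℕ) (x y : WittVector p L) :
    (WittVector.verschiebung)^[n] (x + y) =
      (WittVector.verschiebung)^[n] x + (WittVector.verschiebung)^[n] y :=
  iterate_map_add WittVector.verschiebung n x y

omit [CharP L p] in
private theorem T1_iter_sub (n : ℕ) (x y : WittVector p L) :
    (WittVector.verschiebung)^[n] (x - y) =
      (WittVector.verschiebung)^[n] x - (WittVector.verschiebung)^[n] y :=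
  iterate_map_sub WittVector.verschiebung n x y

/-- adding `V^n [u]` changes the coordinate `n` by `u` and not the coordinates before -/
theorem coeff_add_iterate (a : WittVector p L) (n : ℕ) (x : L) :
    (∀ i < n, (a + (WittVector.verschiebung)^[n] (WittVector.teichmuller p x)).coeff i =
      a.coeff i) ∧
    (a + (WittVector.verschiebung)^[n] (WittVector.teichmuller p x)).coeff n =
      a.coeff n + x := by
  obtain ⟨b, c, h1, h2, h3, h4⟩ := T1_add_V n a
  have e : a + (WittVector.verschiebung)^[n] (WittVector.teichmuller p x) =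
      b + (WittVector.verschiebung)^[n] (c + WittVector.teichmuller p x) := by
    rw [T1_iter_add, ← add_assoc, ← h4]
  obtain ⟨h5, h6⟩ := T1_disj n b (c + WittVector.teichmuller p x) h2
  rw [e]
  refine ⟨fun i hi => ?_, ?_⟩
  · rw [h5 i hi, h1 i hi]
  · rw [h6, WittVector.add_coeff_zero, WittVector.teichmuller_coeff_zero, h3]

theorem coeff_sub_iterate (a : WittVector p L) (n : ℕ) (x : L) :
    (∀ i < n, (a - (WittVector.verschiebung)^[n] (WittVector.teichmuller p x)).coeff i =
      a.coeff i) ∧
    (a - (WittVector.verschiebung)^[n] (WittVector.teichmuller p x)).coeff n =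
      a.coeff n - x := by
  obtain ⟨b, c, h1, h2, h3, h4⟩ := T1_add_V n a
  have e : a - (WittVector.verschiebung)^[n] (WittVector.teichmuller p x) =
      b + (WittVector.verschiebung)^[n] (c - WittVector.teichmuller p x) := by
    rw [T1_iter_sub, ← add_sub_assoc, ← h4]
  obtain ⟨h5, h6⟩ := T1_disj n b (c - WittVector.teichmuller p x) h2
  rw [e]
  refine ⟨fun i hi => ?_, ?_⟩
  · rw [h5 i hi, h1 i hi]
  · have h7 : (c - WittVector.teichmuller p x).coeff 0 =
        c.coeff 0 - (WittVector.teichmuller p x).coeff 0 :=
      map_sub (WittVector.constantCoeff : WittVector p L →+* L) c (WittVector.teichmuller p x)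
    rw [h6, h7, WittVector.teichmuller_coeff_zero, h3]

private theorem T1_V_nat (m : ℕ) :
    WittVector.verschiebung ((m : WittVector p L)) = (m : WittVector p L) * p := by
  have h := WittVector.verschiebung_frobenius (m : WittVector p L)
  rwa [map_natCast] at h

/-- `V(p^s) = p^(s+1)`, and `p^s = V^s 1` -/
theorem verschiebung_p_pow (s : ℕ) :
    WittVector.verschiebung ((p : WittVector p L) ^ s) = (p : WittVector p L) ^ (s + 1) := by
  have h := T1_V_nat (p := p) (L := L) (p ^ s)
  rw [Nat.cast_pow] at h
  rw [h, pow_succ]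

theorem verschiebung_iterate_nat (s g : ℕ) :
    (WittVector.verschiebung)^[s] ((g : WittVector p L)) = ((p ^ s * g : ℕ) : WittVector p L) := by
  induction s with
  | zero => simp
  | succ s ih =>
    rw [Function.iterate_succ_apply', ih, T1_V_nat, ← Nat.cast_mul]
    congr 1
    ring

end Pool.Agent.WC
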