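import Pool.Agent.WC.Defs
import Pool.Agent.WC.T1

/-! # Galois theory of `L_c / K` (piece WC-G1) -/

namespace Pool.Agent.WC

open Pool.Agent.WD

universe u

variable {p : ℕ} [Fact p.Prime] {k : Type u} [Field k] [IsAlgClosed k] [CharP k p] {r : ℕ}

instance charP_Om : CharP (Om k) p := charP_of_injective_algebraMap
  (algebraMap k (Om k)).injective p

instance charP_Lw (c : Par p r k) : CharP (Lw c) p :=
  charP_of_injective_ringHom (cw c).injective p

/-- the coordinates `< r` of a natural number depend only on its class modulo `p^r` -/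
theorem coeff_nat_congr {A : Type*} [Field A] [CharP A p] {r a b : ℕ} (h : a ≡ b [MOD p ^ r]) :
    ∀ i < r, ((a : ℕ) : WittVector p A).coeff i = ((b : ℕ) : WittVector p A).coeff i := by
  have key : ∀ a b : ℕ, a ≤ b → a ≡ b [MOD p ^ r] →
      ∀ i < r, ((a : ℕ) : WittVector p A).coeff i = ((b : ℕ) : WittVector p A).coeff i := by
    intro a b hab h i hi
    obtain ⟨c, hc⟩ := (Nat.modEq_iff_dvd' hab).1 h
    have hb : b = a + c * p ^ r := by
      rw [mul_comm c, ← hc]
      omega
    have h1 := coeff_add_congr (p := p) (L := A) (a := (a : WittVector p A)) (a' := a)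
      (b := ((c : ℕ) : WittVector p A) * (p : WittVector p A) ^ r) (b' := 0) (n := r)
      (fun i _ => rfl) (fun i hi => by
        rw [WittVector.mul_pow_charP_coeff_zero _ hi, WittVector.zero_coeff]) i hi
    rw [add_zero] at h1
    rw [hb]
    push_cast
    exact h1.symm
  rcases le_total a b with hab | hab
  · exact key a b hab h
  · intro i hi
    exact (key b a hab h.symm i hi).symm

private theorem G1_dvd {A : Type*} [Field A] [CharP A p] (r : ℕ) : ∀ d : ℕ,
    (∀ i < r, ((d : ℕ) : WittVector p A).coeff i = 0) → p ^ r ∣ d := by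
  induction r with
  | zero => intro d _; simp
  | succ r ih =>
    intro d h
    have h0 := h 0 (Nat.succ_pos r)
    have h1 : ((d : ℕ) : A) = 0 := by
      have h2 : WittVector.constantCoeff ((d : ℕ) : WittVector p A) = ((d : ℕ) : A) :=
        map_natCast _ d
      rw [← h2]
      exact h0
    rw [CharP.cast_eq_zero_iff A p] at h1
    obtain ⟨e, rfl⟩ := h1
    rw [pow_succ, mul_comm]
    refine mul_dvd_mul_left p (ih e fun i hi => ?_)
    have h3 := h (i + 1) (by omega)
    rw [mul_comm, Nat.cast_mul, WittVector.mul_charP_coeff_succ] at h3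
    exact pow_eq_zero_iff (Fact.out : p.Prime).ne_zero |>.1 h3

theorem nat_congr_of_coeff {A : Type*} [Field A] [CharP A p] {r a b : ℕ}
    (h : ∀ i < r, ((a : ℕ) : WittVector p A).coeff i = ((b : ℕ) : WittVector p A).coeff i) :
    a ≡ b [MOD p ^ r] := by
  have key : ∀ a b : ℕ, a ≤ b →
      (∀ i < r, ((a : ℕ) : WittVector p A).coeff i = ((b : ℕ) : WittVector p A).coeff i) →
      a ≡ b [MOD p ^ r] := by
    intro a b hab h
    rw [Nat.modEq_iff_dvd' hab]
    apply G1_dvd (A := A)
    intro i hi
    have h1 := coeff_sub_congr (p := p) (L := A) (a := (b : WittVector p A)) (a' := a)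
      (b := (a : WittVector p A)) (b' := a) (n := r) (fun i hi => (h i hi).symm)
      (fun i _ => rfl) i hi
    rw [sub_self, WittVector.zero_coeff] at h1
    rw [Nat.cast_sub hab]
    exact h1
  rcases le_total a b with hab | hab
  · exact key a b hab h
  · exact (key b a hab fun i hi => (h i hi).symm).symm

/-- a Witt vector fixed by `F` up to the coordinate `r` agrees there with a natural number -/
theorem exists_nat_of_frobenius {A : Type*} [Field A] [CharP A p] (r : ℕ) (w : WittVector p A)
    (h : ∀ i < r, (WittVector.frobenius w - w).coeff i = 0) :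
    ∃ g : ZMod (p ^ r), ∀ i < r, w.coeff i = ((g.val : ℕ) : WittVector p A).coeff i := by
  have hp : p.Prime := Fact.out
  have : NeZero (p ^ r) := ⟨pow_ne_zero _ hp.ne_zero⟩
  -- the coordinates are in the prime field
  have hfix : ∀ x : A, x ^ p = x → ∃ a : ZMod p, ((ZMod.castHom (dvd_refl p) A) a) = x := by
    intro x hx
    have h1 : x ∈ (⊥ : Subfield A) := (Subfield.mem_bot_iff_pow_eq_self A p).2 hx
    obtain ⟨n, rfl⟩ := (mem_bot_iff_intCast p A).1 h1
    exact ⟨(n : ZMod p), map_intCast _ n⟩
  have hw : ∀ i < r, (w.coeff i) ^ p = w.coeff i := by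
    intro i hi
    have h1 := coeff_add_congr (p := p) (L := A) (a := WittVector.frobenius w - w) (a' := 0)
      (b := w) (b' := w) (n := r) (fun i hi => by rw [h i hi, WittVector.zero_coeff])
      (fun i _ => rfl) i hi
    rw [sub_add_cancel, zero_add, WittVector.coeff_frobenius_charP] at h1
    exact h1
  -- counting
  have hinj : Function.Injective (fun (g : ZMod (p ^ r)) (i : Fin r) =>
      ((g.val : ℕ) : WittVector p (ZMod p)).coeff i) := by
    intro g g' hg
    have h1 : g.val ≡ g'.val [MOD p ^ r] :=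
      nat_congr_of_coeff (A := ZMod p) fun i hi => congrFun hg ⟨i, hi⟩
    have h2 : g.val = g'.val := by
      have := h1
      unfold Nat.ModEq at this
      rwa [Nat.mod_eq_of_lt (ZMod.val_lt g), Nat.mod_eq_of_lt (ZMod.val_lt g')] at this
    exact ZMod.val_injective _ h2
  have hsurj : Function.Surjective (fun (g : ZMod (p ^ r)) (i : Fin r) =>
      ((g.val : ℕ) : WittVector p (ZMod p)).coeff i) := by
    apply ((Fintype.bijective_iff_injective_and_card _).2 ⟨hinj, ?_⟩).2
    rw [ZMod.card, Fintype.card_fun, ZMod.card, Fintype.card_fin]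
  choose! a ha using fun i (hi : i < r) => hfix _ (hw i hi)
  obtain ⟨g, hg⟩ := hsurj fun i => a i
  refine ⟨g, fun i hi => ?_⟩
  have h1 : ((g.val : ℕ) : WittVector p (ZMod p)).coeff i = a i := congrFun hg ⟨i, hi⟩
  have h2 : (WittVector.map (ZMod.castHom (dvd_refl p) A)) ((g.val : ℕ) : WittVector p (ZMod p)) =
      ((g.val : ℕ) : WittVector p A) := map_natCast _ _
  rw [← h2, WittVector.map_coeff, h1, ha i hi]

private theorem G1_diff {A : Type*} [Field A] [CharP A p] (r : ℕ) {a b : WittVector p A}
    (h : ∀ i < r, (WittVector.frobenius a - a).coeff i = (WittVector.frobenius b - b).coeff i) :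
    ∃ g : ZMod (p ^ r), ∀ i < r, a.coeff i = (b + ((g.val : ℕ) : WittVector p A)).coeff i := by
  have h1 : ∀ i < r, (WittVector.frobenius (a - b) - (a - b)).coeff i = 0 := by
    intro i hi
    have e1 : WittVector.frobenius (a - b) - (a - b) =
        (WittVector.frobenius a - a) - (WittVector.frobenius b - b) := by
      rw [map_sub]
      ring
    have h2 := coeff_sub_congr (p := p) (L := A) (a := WittVector.frobenius a - a)
      (a' := WittVector.frobenius b - b) (b := WittVector.frobenius b - b)
      (b' := WittVector.frobenius b - b) (n := r) h (fun i _ => rfl) i hi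
    rw [e1, h2, sub_self, WittVector.zero_coeff]
  obtain ⟨g, hg⟩ := exists_nat_of_frobenius r (a - b) h1
  refine ⟨g, fun i hi => ?_⟩
  have h3 := coeff_add_congr (p := p) (L := A) (a := b) (a' := b) (b := a - b)
    (b' := ((g.val : ℕ) : WittVector p A)) (n := r) (fun i _ => rfl) hg i hi
  rw [← h3]
  congr 1
  ring

/-- the Witt vector `(z_0, ..., z_{r-1}, 0, ...)` over `L_c` -/
private noncomputable def G1_zw (c : Par p r k) : WittVector p (Lw c) :=
  WittVector.mk p fun s => if h : s < r then zL c ⟨s, h⟩ else 0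

private theorem G1_zw_coeff (c : Par p r k) {i : ℕ} (hi : i < r) :
    (G1_zw c).coeff i = zL c ⟨i, hi⟩ := by
  change (if h : i < r then zL c ⟨i, h⟩ else 0) = _
  rw [dif_pos hi]

private theorem G1_map_zw (c : Par p r k) : ∀ i < r,
    (WittVector.map (algebraMap (Lw c) (Om k)) (G1_zw c)).coeff i = (wz c).coeff i := by
  intro i hi
  rw [WittVector.map_coeff, G1_zw_coeff c hi]
  rfl

omit [Fact p.Prime] [IsAlgClosed k] [CharP k p] in
private theorem G1_wf_coeff (c : Par p r k) {i : ℕ} (hi : i < r) :
    (wf c).coeff i = algebraMap (LaurentSeries k) (Om k) (polar c ⟨i, hi⟩) := by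
  change (if h : i < r then toOm k (polar c ⟨i, h⟩) else 0) = _
  rw [dif_pos hi]
  rfl

private theorem G1_zw_frob (c : Par p r k) {i : ℕ} (hi : i < r) :
    (WittVector.frobenius (G1_zw c) - G1_zw c).coeff i =
      algebraMap (LaurentSeries k) (Lw c) (polar c ⟨i, hi⟩) := by
  apply (algebraMap (Lw c) (Om k)).injective
  rw [← IsScalarTower.algebraMap_apply, ← G1_wf_coeff c hi, ← wz_spec c, ← WittVector.map_coeff,
    map_sub]
  refine coeff_sub_congr (p := p) (n := r) ?_ (G1_map_zw c) i hi
  intro j hj
  rw [WittVector.coeff_frobenius_charP, WittVector.map_coeff, WittVector.coeff_frobenius_charP,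
    map_pow, ← WittVector.map_coeff, G1_map_zw c j hj]

private theorem G1_hom_frob (c : Par p r k) {Ω : Type*} [Field Ω] [CharP Ω p]
    [Algebra (LaurentSeries k) Ω] (σ : Lw c →ₐ[LaurentSeries k] Ω) {i : ℕ} (hi : i < r) :
    (WittVector.frobenius (WittVector.map (σ : Lw c →+* Ω) (G1_zw c)) -
      WittVector.map (σ : Lw c →+* Ω) (G1_zw c)).coeff i =
      algebraMap (LaurentSeries k) Ω (polar c ⟨i, hi⟩) := by
  have e1 : WittVector.frobenius (WittVector.map (σ : Lw c →+* Ω) (G1_zw c)) =
      WittVector.map (σ : Lw c →+* Ω) (WittVector.frobenius (G1_zw c)) := by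
    ext j
    rw [WittVector.coeff_frobenius_charP, WittVector.map_coeff, WittVector.map_coeff,
      WittVector.coeff_frobenius_charP, map_pow]
  rw [e1, ← map_sub, WittVector.map_coeff, G1_zw_frob c hi]
  exact σ.commutes _

/-- the values of the embeddings -/
private theorem G1_hom (c : Par p r k) {Ω : Type*} [Field Ω] [CharP Ω p]
    [Algebra (LaurentSeries k) Ω] (σ τ : Lw c →ₐ[LaurentSeries k] Ω) :
    ∃ g : ZMod (p ^ r), ∀ s : Fin r, σ (zL c s) =
      τ ((G1_zw c + ((g.val : ℕ) : WittVector p (Lw c))).coeff s) := by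
  obtain ⟨g, hg⟩ := G1_diff (p := p) r
    (a := WittVector.map (σ : Lw c →+* Ω) (G1_zw c))
    (b := WittVector.map (τ : Lw c →+* Ω) (G1_zw c))
    (fun i hi => by rw [G1_hom_frob c σ hi, G1_hom_frob c τ hi])
  refine ⟨g, fun s => ?_⟩
  have h1 := hg s s.2
  rw [WittVector.map_coeff, G1_zw_coeff c s.2] at h1
  have h2 : WittVector.map (τ : Lw c →+* Ω) (G1_zw c) + ((g.val : ℕ) : WittVector p Ω) =
      WittVector.map (τ : Lw c →+* Ω) (G1_zw c + ((g.val : ℕ) : WittVector p (Lw c))) := by
    rw [map_add, map_natCast]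
  rw [h2, WittVector.map_coeff] at h1
  exact h1

private theorem G1_coe_add (c : Par p r k) (g : ℕ) (s : Fin r) :
    (((G1_zw c + ((g : ℕ) : WittVector p (Lw c))).coeff s : Lw c) : Om k) =
      (wz c + ((g : ℕ) : WittVector p (Om k))).coeff s := by
  change algebraMap (Lw c) (Om k) _ = _
  rw [← WittVector.map_coeff, map_add, map_natCast]
  exact coeff_add_congr (p := p) (n := r) (G1_map_zw c) (fun i _ => rfl) s s.2

private theorem G1_corr_iff (c : Par p r k) (σ : Lw c ≃ₐ[LaurentSeries k] Lw c)
    (g : ZMod (p ^ r)) : CorrW c σ g ↔ ∀ s : Fin r,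
      σ (zL c s) = (G1_zw c + ((g.val : ℕ) : WittVector p (Lw c))).coeff s := by
  unfold CorrW
  refine forall_congr' fun s => ?_
  rw [← G1_coe_add]
  exact Subtype.coe_injective.eq_iff

theorem corrW_exists (c : Par p r k) (σ : Lw c ≃ₐ[LaurentSeries k] Lw c) :
    ∃ g, CorrW c σ g := by
  obtain ⟨g, hg⟩ := G1_hom c (σ : Lw c →ₐ[LaurentSeries k] Lw c) (AlgHom.id _ _)
  exact ⟨g, (G1_corr_iff c σ g).2 hg⟩

theorem corrW_unique (c : Par p r k) {σ : Lw c ≃ₐ[LaurentSeries k] Lw c}
    {g g' : ZMod (p ^ r)} (h : CorrW c σ g) (h' : CorrW c σ g') : g = g' := by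
  have : NeZero (p ^ r) := ⟨pow_ne_zero _ (Fact.out : p.Prime).ne_zero⟩
  have h1 : ∀ i < r, (((g.val : ℕ) : WittVector p (Om k))).coeff i =
      (((g'.val : ℕ) : WittVector p (Om k))).coeff i := by
    intro i hi
    have h2 := coeff_sub_congr (p := p) (L := Om k) (n := r)
      (a := wz c + ((g.val : ℕ) : WittVector p (Om k)))
      (a' := wz c + ((g'.val : ℕ) : WittVector p (Om k))) (b := wz c) (b' := wz c)
      (fun i hi => (h ⟨i, hi⟩).symm.trans (h' ⟨i, hi⟩)) (fun i _ => rfl) i hi
    rwa [add_sub_cancel_left, add_sub_cancel_left] at h2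
  have h3 := nat_congr_of_coeff h1
  unfold Nat.ModEq at h3
  rw [Nat.mod_eq_of_lt (ZMod.val_lt g), Nat.mod_eq_of_lt (ZMod.val_lt g')] at h3
  exact ZMod.val_injective _ h3

theorem eq_of_corrW (c : Par p r k) {σ τ : Lw c ≃ₐ[LaurentSeries k] Lw c}
    {g : ZMod (p ^ r)} (h : CorrW c σ g) (h' : CorrW c τ g) : σ = τ := by
  rw [G1_corr_iff] at h h'
  have h1 : (σ : Lw c →ₐ[LaurentSeries k] Lw c) = (τ : Lw c →ₐ[LaurentSeries k] Lw c) := by
    apply IntermediateField.algHom_ext_of_eq_adjoin (LaurentSeries k) rfl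
    rintro x ⟨s, rfl⟩
    exact (h s).trans (h' s).symm
  exact AlgEquiv.coe_toAlgHom_injective h1

theorem corrW_one (c : Par p r k) : CorrW c 1 0 := by
  intro s
  rw [ZMod.val_zero, Nat.cast_zero, add_zero]
  rfl

theorem corrW_mul (c : Par p r k) {σ τ : Lw c ≃ₐ[LaurentSeries k] Lw c}
    {g g' : ZMod (p ^ r)} (h : CorrW c σ g) (h' : CorrW c τ g') : CorrW c (σ * τ) (g + g') := by
  have : NeZero (p ^ r) := ⟨pow_ne_zero _ (Fact.out : p.Prime).ne_zero⟩
  rw [G1_corr_iff] at h h' ⊢
  intro s
  rw [AlgEquiv.mul_apply, h' s]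
  have h1 : ∀ i < r, (WittVector.map ((σ : Lw c →ₐ[LaurentSeries k] Lw c) : Lw c →+* Lw c)
      (G1_zw c)).coeff i = (G1_zw c + ((g.val : ℕ) : WittVector p (Lw c))).coeff i := by
    intro i hi
    rw [WittVector.map_coeff, G1_zw_coeff c hi]
    exact h ⟨i, hi⟩
  have h2 : σ ((G1_zw c + ((g'.val : ℕ) : WittVector p (Lw c))).coeff s) =
      (WittVector.map ((σ : Lw c →ₐ[LaurentSeries k] Lw c) : Lw c →+* Lw c)
        (G1_zw c + ((g'.val : ℕ) : WittVector p (Lw c)))).coeff s := by
    rw [WittVector.map_coeff]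
    rfl
  rw [h2, map_add, map_natCast]
  have h3 : ((((g + g').val : ℕ)) : ℕ) ≡ g.val + g'.val [MOD p ^ r] := by
    rw [ZMod.val_add]
    exact Nat.mod_modEq _ _
  have h4 := coeff_nat_congr (A := Lw c) h3
  rw [coeff_add_congr (p := p) (L := Lw c) (n := r) h1
    (fun i _ => rfl : ∀ i < r, ((g'.val : ℕ) : WittVector p (Lw c)).coeff i = _) s s.2]
  rw [coeff_add_congr (p := p) (L := Lw c) (n := r)
    (fun i _ => rfl : ∀ i < r, (G1_zw c).coeff i = _) h4 s s.2]
  rw [Nat.cast_add, add_assoc]

/-- `z_s^p - z_s` in terms of the preceding coordinates -/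
private theorem G1_step (c : Par p r k) (S : Subring (Om k))
    (hK : ∀ x : LaurentSeries k, algebraMap (LaurentSeries k) (Om k) x ∈ S) (s : ℕ)
    (hS : ∀ i < s, (wz c).coeff i ∈ S) : (wz c).coeff s ^ p - (wz c).coeff s ∈ S := by
  have hp : p.Prime := Fact.out
  set z' : WittVector p (Om k) := WittVector.mk p fun i => if i < s then (wz c).coeff i else 0
    with hz'
  have hz'c : ∀ i, z'.coeff i = if i < s then (wz c).coeff i else 0 := fun i => rfl
  have hz's : ∀ i, z'.coeff i ∈ S := by
    intro i
    rw [hz'c]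
    split_ifs with h
    · exact hS i h
    · exact S.zero_mem
  set x := (wz c).coeff s with hx
  have e1 : ∀ i < s + 1, (wz c).coeff i =
      (z' + (WittVector.verschiebung)^[s] (WittVector.teichmuller p x)).coeff i := by
    intro i hi
    obtain ⟨h1, h2⟩ := coeff_add_iterate z' s x
    rcases Nat.lt_succ_iff_lt_or_eq.1 hi with h | rfl
    · rw [h1 i h, hz'c, if_pos h]
    · rw [h2, hz'c, if_neg (lt_irrefl _), zero_add]
  have e2 : ∀ i < s + 1, (WittVector.frobenius (wz c)).coeff i =
      (WittVector.frobenius z' +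
        (WittVector.verschiebung)^[s] (WittVector.teichmuller p (x ^ p))).coeff i := by
    intro i hi
    obtain ⟨h1, h2⟩ := coeff_add_iterate (WittVector.frobenius z') s (x ^ p)
    rcases Nat.lt_succ_iff_lt_or_eq.1 hi with h | rfl
    · rw [h1 i h, WittVector.coeff_frobenius_charP, WittVector.coeff_frobenius_charP, hz'c,
        if_pos h]
    · rw [h2, WittVector.coeff_frobenius_charP, WittVector.coeff_frobenius_charP, hz'c,
        if_neg (lt_irrefl _), zero_pow hp.ne_zero, zero_add]
  have e3 := coeff_sub_congr e2 e1 s (Nat.lt_succ_self s)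
  have e4 : WittVector.frobenius z' +
      (WittVector.verschiebung)^[s] (WittVector.teichmuller p (x ^ p)) -
      (z' + (WittVector.verschiebung)^[s] (WittVector.teichmuller p x)) =
      ((WittVector.frobenius z' - z') +
        (WittVector.verschiebung)^[s] (WittVector.teichmuller p (x ^ p))) -
        (WittVector.verschiebung)^[s] (WittVector.teichmuller p x) := by
    ring
  rw [e4, (coeff_sub_iterate _ s x).2, (coeff_add_iterate _ s (x ^ p)).2, wz_spec c] at e3
  have h5 : (wf c).coeff s ∈ S := by
    by_cases h : s < r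
    · rw [G1_wf_coeff c h]
      exact hK _
    · change (if h : s < r then toOm k (polar c ⟨s, h⟩) else 0) ∈ S
      rw [dif_neg h]
      exact S.zero_mem
  have h6 : (WittVector.frobenius z' - z').coeff s ∈ S := by
    refine coeff_sub_mem S (n := s + 1) (fun i _ => ?_) (fun i _ => hz's i) s (Nat.lt_succ_self s)
    rw [WittVector.coeff_frobenius_charP]
    exact S.pow_mem (hz's i) p
  have e5 : x ^ p - x = (wf c).coeff s - (WittVector.frobenius z' - z').coeff s := by
    rw [e3]
    ring
  rw [e5]
  exact S.sub_mem h5 h6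

private theorem G1_mem (c : Par p r k) (S : Subring (Om k))
    (hK : ∀ x : LaurentSeries k, algebraMap (LaurentSeries k) (Om k) x ∈ S)
    (hS : ∀ x : Om k, x ^ p - x ∈ S → x ∈ S) (s : ℕ) : (wz c).coeff s ∈ S := by
  induction s using Nat.strong_induction_on with
  | _ s ih => exact hS _ (G1_step c S hK s ih)

private theorem G1_integral (c : Par p r k) (s : ℕ) :
    IsIntegral (LaurentSeries k) ((wz c).coeff s) := by
  have hp : p.Prime := Fact.out
  have h := G1_mem c (integralClosure (LaurentSeries k) (Om k)).toSubring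
    (fun x => isIntegral_algebraMap) (fun x hx => ?_) s
  · exact h
  · change IsIntegral (LaurentSeries k) x
    have h1 : IsIntegral (integralClosure (LaurentSeries k) (Om k)) x := by
      refine ⟨Polynomial.X ^ p - (Polynomial.X + Polynomial.C ⟨x ^ p - x, hx⟩), ?_, ?_⟩
      · apply Polynomial.Monic.sub_of_left (Polynomial.monic_X_pow p)
        refine lt_of_le_of_lt (Polynomial.degree_X_add_C _).le ?_
        rw [Polynomial.degree_X_pow]
        exact_mod_cast hp.one_lt
      · rw [Polynomial.eval₂_sub, Polynomial.eval₂_add, Polynomial.eval₂_pow, Polynomial.eval₂_X,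
          Polynomial.eval₂_C]
        change x ^ p - (x + (x ^ p - x)) = 0
        ring
    exact isIntegral_trans x h1

theorem finiteDim_Lw (c : Par p r k) : FiniteDimensional (LaurentSeries k) (Lw c) := by
  unfold Lw
  have : Finite (Set.range fun s : Fin r => (wz c).coeff s) := Set.finite_range _
  apply IntermediateField.finiteDimensional_adjoin
  rintro x ⟨s, rfl⟩
  exact G1_integral c s

private theorem G1_separable (c : Par p r k) (s : ℕ) :
    (wz c).coeff s ∈ separableClosure (LaurentSeries k) (Om k) := by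
  refine G1_mem c (separableClosure (LaurentSeries k) (Om k)).toSubfield.toSubring
    (fun x => IntermediateField.algebraMap_mem _ x) (fun x hx => ?_) s
  change x ∈ separableClosure (LaurentSeries k) (Om k)
  rw [mem_separableClosure_iff]
  set E := separableClosure (LaurentSeries k) (Om k) with hE
  have h1 : IsSeparable E x := by
    set w : E := ⟨x ^ p - x, hx⟩ with hw
    have hp0 : ((p : ℕ) : E) = 0 := by
      apply (algebraMap E (Om k)).injective
      rw [map_natCast, map_zero]
      exact CharP.cast_eq_zero (Om k) p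
    have hsep : (Polynomial.X ^ p - Polynomial.X - Polynomial.C w : Polynomial E).Separable := by
      rw [Polynomial.separable_def]
      have hd : Polynomial.derivative
          (Polynomial.X ^ p - Polynomial.X - Polynomial.C w : Polynomial E) = -1 := by
        rw [Polynomial.derivative_sub, Polynomial.derivative_sub, Polynomial.derivative_X_pow,
          Polynomial.derivative_X, Polynomial.derivative_C, hp0]
        simp
      rw [hd]
      exact ⟨0, -1, by ring⟩
    refine Polynomial.Separable.of_dvd hsep (minpoly.dvd E x ?_)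
    rw [map_sub, map_sub, map_pow, Polynomial.aeval_X, Polynomial.aeval_C]
    change x ^ p - x - (x ^ p - x) = 0
    ring
  exact IsSeparable.of_algebra_isSeparable_of_isSeparable (LaurentSeries k) h1

/-- Separable: a tower of Artin-Schreier extensions. Normal: if `σ` is an embedding of `L_c` over
`K` in an algebraically closed field containing `k((t^ℚ))`, then `σ(z) - z` is fixed by `F` in the
coordinates `< r`, so `σ(z_s)` is a coordinate of `z + g`, `g ∈ ℕ`, and is in `L_c`. -/
theorem isGalois_Lw (c : Par p r k) : IsGalois (LaurentSeries k) (Lw c) := by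
  have hfin := finiteDim_Lw c
  have hsep : Algebra.IsSeparable (LaurentSeries k) (Lw c) := by
    rw [← le_separableClosure_iff]
    unfold Lw
    rw [IntermediateField.adjoin_le_iff]
    rintro x ⟨s, rfl⟩
    exact G1_separable c s
  have hnorm : Normal (LaurentSeries k) (Lw c) := by
    rw [normal_iff]
    intro x
    refine ⟨Algebra.IsIntegral.isIntegral x, ?_⟩
    have e1 : minpoly (LaurentSeries k) x = minpoly (LaurentSeries k) (x : Om k) :=
      (minpoly.algebraMap_eq (algebraMap (Lw c) (Om k)).injective x).symm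
    rw [e1]
    refine IntermediateField.splits_of_mem_adjoin (F := LaurentSeries k) (K := Om k) (L := Lw c)
      (S := Set.range fun s : Fin r => (wz c).coeff s) ?_ x.2
    rintro y ⟨s, rfl⟩
    refine ⟨G1_integral c s, ?_⟩
    have e2 : minpoly (LaurentSeries k) ((wz c).coeff s) = minpoly (LaurentSeries k) (zL c s) :=
      minpoly.algebraMap_eq (algebraMap (Lw c) (Om k)).injective (zL c s)
    rw [e2]
    have hch : CharP (AlgebraicClosure (Lw c)) p :=
      charP_of_injective_algebraMap (algebraMap (Lw c) (AlgebraicClosure (Lw c))).injective p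
    refine Polynomial.Splits.of_splits_map (algebraMap (Lw c) (AlgebraicClosure (Lw c)))
      (IsAlgClosed.splits _) fun y hy => ?_
    have hy2 : y ∈ (minpoly (LaurentSeries k) (zL c s)).rootSet (AlgebraicClosure (Lw c)) := by
      rw [Polynomial.mem_rootSet', Polynomial.aeval_def, ← Polynomial.eval_map,
        IsScalarTower.algebraMap_eq (LaurentSeries k) (Lw c) (AlgebraicClosure (Lw c)),
        ← Polynomial.map_map]
      exact (Polynomial.mem_roots'.1 hy)
    rw [← Algebra.IsAlgebraic.range_eval_eq_rootSet_minpoly] at hy2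
    obtain ⟨σ, rfl⟩ := hy2
    obtain ⟨g, hg⟩ := G1_hom c σ (IsScalarTower.toAlgHom (LaurentSeries k) (Lw c)
      (AlgebraicClosure (Lw c)))
    exact ⟨_, (hg s).symm⟩
  exact ⟨⟩

end Pool.Agent.WC
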