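import Pool.Agent.WC.G1
import Pool.Agent.WC.Abs

/-! # The derivation of `L_c` (piece WC-G2) -/

namespace Pool.Agent.WC

open Pool.Agent.WD

universe u

variable {p : ℕ} [Fact p.Prime] {k : Type u} [Field k] [IsAlgClosed k] [CharP k p] {r : ℕ}

/-- the subfield `K` of `L_c` -/
noncomputable def KL (c : Par p r k) : Subfield (Lw c) := (algebraMap (LaurentSeries k) (Lw c)).fieldRange

private theorem G2_coeff {k : Type u} [Field k] (f : LaurentSeries k) (n : ℤ) :
    (LaurentSeries.derivative k f).coeff n = ((n + 1 : ℤ) : k) * f.coeff (n + 1) := by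
  rw [LaurentSeries.derivative_apply, LaurentSeries.hasseDeriv_coeff, Nat.cast_one,
    Ring.choose_one_right, zsmul_eq_mul]

private theorem G2_mul {k : Type u} [Field k] (f g : LaurentSeries k) (n : ℤ) :
    (f * LaurentSeries.derivative k g).coeff n =
      ∑ ij ∈ Finset.antidiagonal f.isPWO_support g.isPWO_support (n + 1),
        f.coeff ij.1 * ((ij.2 : k) * g.coeff ij.2) := by
  have h1 : ((fun x : ℤ => x - 1) '' g.support).IsPWO :=
    g.isPWO_support.image_of_monotone fun a b h => by simpa using h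
  have h2 : (LaurentSeries.derivative k g).support ⊆ (fun x : ℤ => x - 1) '' g.support := by
    intro x hx
    rw [HahnSeries.mem_support, G2_coeff] at hx
    exact ⟨x + 1, HahnSeries.mem_support _ _ |>.2 (right_ne_zero_of_mul hx), by simp⟩
  rw [HahnSeries.coeff_mul_right' h1 h2]
  refine Finset.sum_nbij' (fun ij => (ij.1, ij.2 + 1)) (fun ij => (ij.1, ij.2 - 1)) ?_ ?_ ?_ ?_ ?_
  · rintro ⟨i, j⟩ hij
    rw [Finset.mem_antidiagonal] at hij ⊢
    obtain ⟨hi, ⟨l, hl, hlj⟩, hs⟩ := hij
    simp only at hi hlj hs ⊢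
    refine ⟨hi, ?_, by omega⟩
    have : j + 1 = l := by omega
    rwa [this]
  · rintro ⟨i, j⟩ hij
    rw [Finset.mem_antidiagonal] at hij ⊢
    obtain ⟨hi, hj, hs⟩ := hij
    simp only at hi hj hs ⊢
    exact ⟨hi, ⟨j, hj, rfl⟩, by omega⟩
  · rintro ⟨i, j⟩ _
    simp
  · rintro ⟨i, j⟩ _
    simp
  · rintro ⟨i, j⟩ _
    simp only [G2_coeff]

private theorem G2_leibniz {k : Type u} [Field k] (f g : LaurentSeries k) :
    LaurentSeries.derivative k (f * g) =
      f * LaurentSeries.derivative k g + g * LaurentSeries.derivative k f := by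
  ext n
  rw [HahnSeries.coeff_add, G2_mul f g n, G2_mul g f n, G2_coeff, HahnSeries.coeff_mul,
    Finset.mul_sum]
  have h1 : ∑ ij ∈ Finset.antidiagonal g.isPWO_support f.isPWO_support (n + 1),
        g.coeff ij.1 * ((ij.2 : k) * f.coeff ij.2) =
      ∑ ij ∈ Finset.antidiagonal f.isPWO_support g.isPWO_support (n + 1),
        g.coeff ij.2 * ((ij.1 : k) * f.coeff ij.1) := by
    refine Finset.sum_nbij' Prod.swap Prod.swap ?_ ?_ ?_ ?_ ?_
    · rintro ⟨i, j⟩ hij
      rw [Finset.mem_antidiagonal] at hij ⊢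
      exact ⟨hij.2.1, hij.1, by rw [← hij.2.2]; exact add_comm _ _⟩
    · rintro ⟨i, j⟩ hij
      rw [Finset.mem_antidiagonal] at hij ⊢
      exact ⟨hij.2.1, hij.1, by rw [← hij.2.2]; exact add_comm _ _⟩
    · rintro ⟨i, j⟩ _
      rfl
    · rintro ⟨i, j⟩ _
      rfl
    · rintro ⟨i, j⟩ _
      rfl
  rw [h1, ← Finset.sum_add_distrib]
  refine Finset.sum_congr rfl fun ij hij => ?_
  rw [Finset.mem_antidiagonal] at hij
  rw [← hij.2.2]
  push_cast
  ring

/-- Extension of a derivation to a separable algebraic extension. -/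
private theorem G2_extend {K L : Type u} [Field K] [Field L] [Algebra K L]
    [Algebra.IsSeparable K L] (f : K → K) (hadd : ∀ x y, f (x + y) = f x + f y)
    (hmul : ∀ x y, f (x * y) = x * f y + y * f x) :
    ∃ D : Derivation ℤ L L, ∀ x : K, D (algebraMap K L x) = algebraMap K L (f x) := by
  have := Algebra.FormallyEtale.of_isSeparable K L
  let d : Derivation ℤ K K := Derivation.mk' (AddMonoidHom.mk' f hadd).toIntLinearMap
    fun x y => hmul x y
  let d' : Derivation ℤ K L := (Algebra.linearMap K L).compDer d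
  let φ : TensorProduct K L (Ω[K⁄ℤ]) →ₗ[L] L :=
    LinearMap.liftBaseChange L d'.liftKaehlerDifferential
  let ψ : Ω[L⁄ℤ] →ₗ[L] L :=
    φ ∘ₗ (KaehlerDifferential.tensorKaehlerEquivOfFormallyEtale ℤ K L).symm.toLinearMap
  refine ⟨ψ.compDer (KaehlerDifferential.D ℤ L), fun x => ?_⟩
  have h1 : ψ.compDer (KaehlerDifferential.D ℤ L) (algebraMap K L x) =
      φ ((KaehlerDifferential.tensorKaehlerEquivOfFormallyEtale ℤ K L).symm
        (KaehlerDifferential.D ℤ L (algebraMap K L x))) := rfl
  rw [h1, KaehlerDifferential.tensorKaehlerEquivOfFormallyEtale_symm_D_algebraMap]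
  simp only [φ, LinearMap.liftBaseChange_tmul, one_smul]
  rw [Derivation.liftKaehlerDifferential_comp_D]
  rfl

/-- The derivation `d/dt` of `K` extends to the finite separable extension `L_c` (e.g. with
`KaehlerDifferential.tensorKaehlerEquivOfFormallyEtale`, or through ring homomorphisms to the dual
numbers and formal etaleness, or `Derivation` extension for separable algebraic extensions). -/
theorem exists_derivation (c : Par p r k) : ∃ D : Derivation ℤ (Lw c) (Lw c),
    ∀ x : LaurentSeries k, D (algebraMap (LaurentSeries k) (Lw c) x) =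
      algebraMap (LaurentSeries k) (Lw c) (LaurentSeries.derivative k x) := by
  have := isGalois_Lw c
  obtain ⟨D, hD⟩ := G2_extend (K := LaurentSeries k) (L := Lw c)
    (fun x => LaurentSeries.derivative k x) (fun x y => map_add _ x y) G2_leibniz
  exact ⟨D, hD⟩

private theorem G2_toOm_single {k : Type u} [Field k] (v : ℤ) (a : k) :
    toOm k (HahnSeries.single v a) = HahnSeries.single (v : ℚ) a := by
  change HahnSeries.embDomain _ (HahnSeries.single v a) = _
  rw [HahnSeries.embDomain_single]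
  rfl

private theorem G2_toOm_order {k : Type u} [Field k] {y : LaurentSeries k} (hy : y ≠ 0) :
    (toOm k y).orderTop = ((y.order : ℚ) : WithTop ℚ) := by
  change (HahnSeries.embDomain _ y).orderTop = _
  rw [HahnSeries.orderTop_embDomain, ← HahnSeries.order_eq_orderTop_of_ne_zero hy]
  rfl

/-- The order of the derivative. -/
private theorem G2_deriv_order {k : Type u} [Field k] (y : LaurentSeries k) (hy : y ≠ 0) :
    ((((y.order : ℤ) : ℚ) - 1 : ℚ) : WithTop ℚ) ≤
      (toOm k (LaurentSeries.derivative k y)).orderTop ∧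
    (((y.order : ℤ) : k) ≠ 0 → (toOm k (LaurentSeries.derivative k y)).orderTop =
      ((((y.order : ℤ) : ℚ) - 1 : ℚ) : WithTop ℚ)) := by
  have h1 : ∀ n : ℤ, n < y.order - 1 → (LaurentSeries.derivative k y).coeff n = 0 := by
    intro n hn
    rw [G2_coeff, HahnSeries.coeff_eq_zero_of_lt_order (by omega), mul_zero]
  have h2 : (((y.order - 1 : ℤ) : ℚ) : WithTop ℚ) ≤
      (toOm k (LaurentSeries.derivative k y)).orderTop := by
    by_cases h0 : LaurentSeries.derivative k y = 0
    · rw [h0, map_zero, HahnSeries.orderTop_zero]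
      exact le_top
    · rw [G2_toOm_order h0, WithTop.coe_le_coe, Int.cast_le]
      by_contra hlt
      rw [not_le] at hlt
      exact h0 (HahnSeries.coeff_order_eq_zero.1 (h1 _ hlt))
  have h3 : ((y.order : ℤ) : ℚ) - 1 = ((y.order - 1 : ℤ) : ℚ) := by push_cast; rfl
  rw [h3]
  refine ⟨h2, fun h4 => ?_⟩
  have h5 : (LaurentSeries.derivative k y).coeff (y.order - 1) ≠ 0 := by
    rw [G2_coeff, sub_add_cancel]
    exact mul_ne_zero h4 (mt HahnSeries.coeff_order_eq_zero.1 hy)
  have h0 : LaurentSeries.derivative k y ≠ 0 := by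
    intro h
    rw [h] at h5
    exact h5 rfl
  refine le_antisymm ?_ h2
  rw [G2_toOm_order h0, WithTop.coe_le_coe, Int.cast_le]
  exact HahnSeries.order_le_of_coeff_ne_zero h5

/-- `K` has value group `ℤ` and `d/dt` lowers the value by `1`. -/
theorem exists_VF (c : Par p r k) : ∃ V : VF k (Lw c), (∀ x, V.phi x = (x : Om k)) ∧
    (∀ a, V.cc a = cw c a) ∧ Lvl p V (KL c) 0 ∧ Dv p V (KL c) 0 1 := by
  obtain ⟨D, hD⟩ := exists_derivation c
  have hphi : ∀ y : LaurentSeries k,
      ((algebraMap (LaurentSeries k) (Lw c) y : Lw c) : Om k) = toOm k y := fun y => rfl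
  have hC : ∀ a : k, toOm k (HahnSeries.C a) = HahnSeries.C a := by
    intro a
    rw [HahnSeries.C_apply, G2_toOm_single, HahnSeries.C_apply, Int.cast_zero]
  let V : VF k (Lw c) := ⟨algebraMap (Lw c) (Om k), D, cw c, fun a => hC a⟩
  have hv : ∀ y : LaurentSeries k, V.v (algebraMap (LaurentSeries k) (Lw c) y) =
      (toOm k y).orderTop := fun y => rfl
  refine ⟨V, fun _ => rfl, fun _ => rfl, ⟨fun a => ⟨_, rfl⟩, ?_, ?_⟩, ?_⟩
  · rintro _ ⟨y, rfl⟩ hx
    have hy : y ≠ 0 := by
      rintro rfl
      exact hx (map_zero _)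
    refine ⟨y.order, ?_⟩
    rw [hv, G2_toOm_order hy, pow_zero, div_one]
  · intro z
    refine ⟨algebraMap (LaurentSeries k) (Lw c) (HahnSeries.single z 1), ⟨_, rfl⟩, ?_⟩
    rw [hv, G2_toOm_single, HahnSeries.orderTop_single one_ne_zero, pow_zero, div_one]
  · rintro _ ⟨y, rfl⟩ z hz
    have hy : y ≠ 0 := by
      rintro rfl
      rw [hv, map_zero, HahnSeries.orderTop_zero] at hz
      exact WithTop.top_ne_coe hz
    have hz' : y.order = z := by
      rw [hv, G2_toOm_order hy, pow_zero, div_one] at hz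
      exact_mod_cast WithTop.coe_injective hz
    subst hz'
    have h1 := G2_deriv_order y hy
    have h2 : V.v (V.dd (algebraMap (LaurentSeries k) (Lw c) y)) =
        (toOm k (LaurentSeries.derivative k y)).orderTop := by
      rw [← hv]
      exact congrArg V.v (hD y)
    rw [h2, pow_zero, div_one]
    refine ⟨h1.1, fun hp => h1.2 ?_⟩
    rw [Ne, CharP.intCast_eq_zero_iff k p]
    exact hp

end Pool.Agent.WC
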