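import Pool.Agent.WC.T4

/-! # Invariance of the valuation (piece WC-T10) -/

namespace Pool.Agent.WC

open Pool.Agent.WD

universe u w

variable {p : ℕ} [Fact p.Prime] {k : Type u} [Field k] {L : Type w} [Field L] [CharP L p]

omit [CharP L p] in
private theorem T10_diff (V : VF k L) (M : Subfield L) {e : ℕ} (hM : Lvl p V M e) {y : L} {l : ℤ}
    (hl : ¬ (p : ℤ) ∣ l) (hy : V.v y = qv ((l : ℚ) / (p : ℚ) ^ (e + 1))) (a : Fin p → L)
    (ha : ∀ i, a i ∈ M) (i j : Fin p) (hij : i ≠ j)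
    (h : V.v (a i * y ^ (i : ℕ)) = V.v (a j * y ^ (j : ℕ))) :
    V.v (a i * y ^ (i : ℕ)) = ⊤ := by
  have hp : p.Prime := Fact.out
  have hp0 : (p : ℚ) ≠ 0 := by exact_mod_cast hp.ne_zero
  have key : ∀ i : Fin p, a i ≠ 0 → ∃ z : ℤ, V.v (a i * y ^ (i : ℕ)) =
      qv (((p * z + i * l : ℤ) : ℚ) / (p : ℚ) ^ (e + 1)) := by
    intro i hi
    obtain ⟨z, hz⟩ := hM.2.1 (a i) (ha i) hi
    refine ⟨z, ?_⟩
    rw [V.v_mul, V.v_pow, hz, hy]
    rw [← WithTop.coe_nsmul, ← WithTop.coe_add]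
    congr 1
    rw [nsmul_eq_mul, pow_succ]
    push_cast
    field_simp
  by_cases hi : a i = 0
  · rw [hi, zero_mul, V.v_zero]
  by_cases hj : a j = 0
  · rw [h, hj, zero_mul, V.v_zero]
  exfalso
  obtain ⟨z, hz⟩ := key i hi
  obtain ⟨z', hz'⟩ := key j hj
  rw [hz, hz'] at h
  have h1 : (((p * z + i * l : ℤ) : ℚ) / (p : ℚ) ^ (e + 1)) =
      (((p * z' + j * l : ℤ) : ℚ) / (p : ℚ) ^ (e + 1)) := WithTop.coe_injective h
  have hpe : (p : ℚ) ^ (e + 1) ≠ 0 := pow_ne_zero _ hp0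
  have h2 : ((p * z + i * l : ℤ) : ℚ) = ((p * z' + j * l : ℤ) : ℚ) := by
    field_simp at h1
    exact h1
  have h3 : (p : ℤ) * z + i * l = p * z' + j * l := by exact_mod_cast h2
  have h4 : (p : ℤ) ∣ ((i : ℤ) - j) * l := ⟨z' - z, by linarith⟩
  have hpi : Prime (p : ℤ) := Nat.prime_iff_prime_int.1 hp
  rcases hpi.dvd_or_dvd h4 with h5 | h5
  · apply hij
    obtain ⟨c, hc⟩ := h5
    have hi1 := i.2
    have hj1 := j.2
    have hp1 : (0 : ℤ) < p := by exact_mod_cast hp.pos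
    have hc0 : c = 0 := by
      have h6 : (i : ℤ) < p := by exact_mod_cast hi1
      have h7 : (j : ℤ) < p := by exact_mod_cast hj1
      have h8 : (0 : ℤ) ≤ i := Int.natCast_nonneg _
      have h9 : (0 : ℤ) ≤ j := Int.natCast_nonneg _
      have h10 : c < 1 := by
        by_contra hcc
        have : (p : ℤ) * 1 ≤ p * c := mul_le_mul_of_nonneg_left (by omega) hp1.le
        linarith
      have h11 : -1 < c := by
        by_contra hcc
        have : (p : ℤ) * c ≤ p * (-1) := mul_le_mul_of_nonneg_left (by omega) hp1.le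
        linarith
      omega
    rw [hc0, mul_zero] at hc
    exact Fin.ext (by omega)
  · exact hl h5

/-- `θ(y)` is a root of `X^p - X - θ(w)`, so `v(θ y) = v(y)`; the terms of `θ(∑ a_i y^i)` have the
same, pairwise different values. -/
theorem inv_adj (V : VF k L) (M : Subfield L) {e : ℕ} (hM : Lvl p V M e) {y : L} {l : ℤ}
    (hw : y ^ p - y ∈ M) (hl : ¬ (p : ℤ) ∣ l) (hl0 : l < 0)
    (hy : V.v y = qv ((l : ℚ) / (p : ℚ) ^ (e + 1))) (θ : L →+* L)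
    (hθ : ∀ x ∈ M, V.v (θ x) = V.v x) : ∀ x ∈ adj M y, V.v (θ x) = V.v x := by
  have hp : p.Prime := Fact.out
  have hp0 : (p : ℚ) ≠ 0 := by exact_mod_cast hp.ne_zero
  have hpp : (0 : ℚ) < p := by exact_mod_cast hp.pos
  have hl0' : (l : ℚ) < 0 := by exact_mod_cast hl0
  have hr : (l : ℚ) / (p : ℚ) ^ (e + 1) < 0 := div_neg_of_neg_of_pos hl0' (pow_pos hpp _)
  have hp1 : (1 : ℚ) < p := by exact_mod_cast hp.one_lt
  -- the value of `y ^ p`
  have hyp : V.v (y ^ p) = qv ((l : ℚ) / (p : ℚ) ^ e) := by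
    rw [V.v_pow, hy, ← WithTop.coe_nsmul]
    congr 1
    rw [nsmul_eq_mul, pow_succ]
    field_simp
  have hlt : V.v (y ^ p) < V.v (-y) := by
    rw [V.v_neg, hyp, hy, WithTop.coe_lt_coe]
    have : (l : ℚ) / (p : ℚ) ^ e = p * ((l : ℚ) / (p : ℚ) ^ (e + 1)) := by
      rw [pow_succ]
      field_simp
    rw [this]
    nlinarith
  have hwv : V.v (y ^ p - y) = qv ((l : ℚ) / (p : ℚ) ^ e) := by
    rw [sub_eq_add_neg, V.v_add_of_lt hlt, hyp]
  have hlp : (l : ℚ) / (p : ℚ) ^ e < 0 := div_neg_of_neg_of_pos hl0' (pow_pos hpp _)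
  have hroot : V.v ((θ y) ^ p - θ y) = qv ((l : ℚ) / (p : ℚ) ^ e) := by
    rw [← map_pow, ← map_sub, hθ _ hw, hwv]
  have hθy : V.v (θ y) = V.v y := by
    rw [v_of_root (p := p) V hlp hroot, hy]
    congr 1
    rw [pow_succ]
    field_simp
  intro x hx
  obtain ⟨a, ha, rfl⟩ := adj_repr M hw x hx
  rw [map_sum]
  have hterm : ∀ i : Fin p, V.v (θ (a i * y ^ (i : ℕ))) = V.v (a i * y ^ (i : ℕ)) := by
    intro i
    rw [map_mul, map_pow, V.v_mul, V.v_pow, V.v_mul, V.v_pow, hθ _ (ha i), hθy]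
  have hd := T10_diff V M hM hl hy a ha
  have hs1 := V.v_sum Finset.univ (fun i : Fin p => a i * y ^ (i : ℕ))
    (fun i _ j _ hij h => hd i j hij h)
  have hs2 := V.v_sum Finset.univ (fun i : Fin p => θ (a i * y ^ (i : ℕ)))
    (fun i _ j _ hij h => by
      rw [hterm i]
      refine hd i j hij ?_
      rw [← hterm i, ← hterm j]
      exact h)
  haveI : NeZero p := ⟨hp.ne_zero⟩
  have hne : (Finset.univ : Finset (Fin p)).Nonempty := Finset.univ_nonempty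
  obtain ⟨i, _, hi⟩ := hs1.2 hne
  obtain ⟨j, _, hj⟩ := hs2.2 hne
  apply le_antisymm
  · rw [hi, ← hterm i]
    exact hs2.1 i (Finset.mem_univ _)
  · rw [hj, hterm j]
    exact hs1.1 j (Finset.mem_univ _)

theorem inv_tower (V : VF k L) (n : ℕ) (y : ℕ → L) (Ms : ℕ → Subfield L)
    (h1 : ∀ s < n, Ms (s + 1) = adj (Ms s) (y s)) (h2 : ∀ s < n, y s ^ p - y s ∈ Ms s)
    (h3 : ∀ s < n, ∃ l : ℤ, l < 0 ∧ ¬ (p : ℤ) ∣ l ∧
      V.v (y s) = qv ((l : ℚ) / (p : ℚ) ^ (s + 1)))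
    (h4 : ∀ s ≤ n, Lvl p V (Ms s) s) (θ : L →+* L)
    (hθ : ∀ x ∈ Ms 0, V.v (θ x) = V.v x) : ∀ s ≤ n, ∀ x ∈ Ms s, V.v (θ x) = V.v x := by
  intro s
  induction s with
  | zero => exact fun _ => hθ
  | succ s ih =>
    intro hs
    obtain ⟨l, hl0, hl, hy⟩ := h3 s hs
    rw [h1 s hs]
    exact inv_adj V (Ms s) (h4 s (by omega)) (h2 s hs) hl hl0 hy θ (ih (by omega))

end Pool.Agent.WC
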