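import Pool.Agent.WC.T8

/-! # The tower (piece WC-T9) -/

namespace Pool.Agent.WC

open Pool.Agent.WD

universe u w

variable {p : ℕ} [Fact p.Prime] {k : Type u} [Field k] [CharP k p] [PerfectRing k p]
  {L : Type w} [Field L] [CharP L p]

theorem Yb_zero (p : ℕ) (β : ℕ → ℚ) : Yb p β 0 = β 0 / p := by
  simp [Yb]

private theorem T9_sum (q : ℚ) (hq : q ≠ 0) (s : ℕ) :
    (q - 1) * ∑ i ∈ Finset.range s, 1 / q ^ (s - i + 1) = 1 / q - 1 / q ^ (s + 1) := by
  have h1 : ∑ i ∈ Finset.range s, 1 / q ^ (s - i + 1) =
      ∑ i ∈ Finset.range s, 1 / q ^ (i + 2) := by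
    rw [← Finset.sum_range_reflect]
    refine Finset.sum_congr rfl fun i hi => ?_
    rw [Finset.mem_range] at hi
    congr 2
    omega
  rw [h1]
  clear h1
  induction s with
  | zero => simp
  | succ s ih =>
    rw [Finset.sum_range_succ, mul_add, ih]
    field_simp
    ring

theorem Yb_succ (p : ℕ) (hp : p.Prime) (β : ℕ → ℚ) (s : ℕ) :
    Yb p (fun s => β (s + 1) - ((p : ℚ) - 1) / p * β 0) s = Yb p β (s + 1) := by
  have hq : (p : ℚ) ≠ 0 := by exact_mod_cast hp.ne_zero
  have h1 := T9_sum (p : ℚ) hq s
  rw [Yb, Yb, Finset.sum_range_succ']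
  have h2 : ∑ i ∈ Finset.range s, ((p : ℚ) - 1) * (β (i + 1) - ((p : ℚ) - 1) / p * β 0) /
      (p : ℚ) ^ (s - i + 1) = (∑ i ∈ Finset.range s, ((p : ℚ) - 1) * β (i + 1) /
      (p : ℚ) ^ (s - i + 1)) - ((p : ℚ) - 1) / p * β 0 *
        (((p : ℚ) - 1) * ∑ i ∈ Finset.range s, 1 / (p : ℚ) ^ (s - i + 1)) := by
    rw [Finset.mul_sum, Finset.mul_sum, ← Finset.sum_sub_distrib]
    refine Finset.sum_congr rfl fun i _ => ?_
    field_simp
  have h3 : ∑ i ∈ Finset.range s, ((p : ℚ) - 1) * β (i + 1) /
      (p : ℚ) ^ (s + 1 - (i + 1) + 1) = ∑ i ∈ Finset.range s, ((p : ℚ) - 1) * β (i + 1) /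
      (p : ℚ) ^ (s - i + 1) := by
    refine Finset.sum_congr rfl fun i _ => ?_
    rw [Nat.add_sub_add_right]
  rw [h2, h3, h1]
  have h4 : s + 1 - 0 + 1 = s + 2 := by omega
  rw [h4]
  field_simp
  ring

private theorem T9_le_adj (M : Subfield L) (y : L) : M ≤ adj M y := fun _ hx =>
  Subfield.subset_closure (Or.inl hx)

private theorem T9_mem_adj (M : Subfield L) (y : L) : y ∈ adj M y :=
  Subfield.subset_closure (Or.inr rfl)

private theorem T9_mono {n : ℕ} {y : ℕ → L} {Ms : ℕ → Subfield L}
    (h : ∀ s < n, Ms (s + 1) = adj (Ms s) (y s)) (i j : ℕ) (hj : i + j ≤ n) :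
    Ms i ≤ Ms (i + j) := by
  induction j with
  | zero => exact le_refl _
  | succ j ih =>
    refine (ih (by omega)).trans ?_
    rw [← add_assoc, h (i + j) (by omega)]
    exact T9_le_adj _ _

private theorem T9_coeff (a : L) (Y : WittVector p L) (i : ℕ) :
    (WittVector.teichmuller p a + WittVector.verschiebung Y).coeff (i + 1) = Y.coeff i := by
  set A := WittVector.teichmuller p a + WittVector.verschiebung Y with hA
  have h1 := eq_teichmuller_add A
  have h2 : A.coeff 0 = a := by
    rw [hA, WittVector.add_coeff_zero, WittVector.verschiebung_coeff_zero, add_zero,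
      WittVector.teichmuller_coeff_zero]
  rw [h2] at h1
  have h3 : WittVector.verschiebung Y =
      WittVector.verschiebung (WittVector.mk p fun i => A.coeff (i + 1)) := by
    have h4 : WittVector.teichmuller p a + WittVector.verschiebung Y =
        WittVector.teichmuller p a +
          WittVector.verschiebung (WittVector.mk p fun i => A.coeff (i + 1)) := by
      rw [← hA]
      exact h1
    exact add_left_cancel h4
  have h5 := WittVector.verschiebung_injective p L h3
  conv_rhs => rw [h5]
  rw [WittVector.coeff_mk]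

/-- Induction on `n` with `step`; `y_0 = z_0`. For the last statement, `σ(z) = z + p^s` with
`s ≥ 1` fixes `z_0`, so it fixes `M(z_0)`, and `σ(z') = z' + p^(s-1)` because
`p^s = V(p^(s-1))` and `z = [z_0] + V(z' + c)`. -/
theorem tower (V : VF k L) (n : ℕ) : ∀ {e : ℕ} {δ : ℚ} {M : Subfield L} {g z : WittVector p L}
    {β : ℕ → ℚ}, TD p V n e δ M g z β →
    ∃ (y : ℕ → L) (Ms : ℕ → Subfield L), Ms 0 = M ∧
      (∀ s < n, Ms (s + 1) = adj (Ms s) (y s)) ∧ (∀ s < n, y s ^ p - y s ∈ Ms s) ∧
      (∀ s < n, ∃ l : ℤ, l < 0 ∧ ¬ (p : ℤ) ∣ l ∧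
        V.v (y s) = qv ((l : ℚ) / (p : ℚ) ^ (e + s + 1))) ∧
      (∀ s < n, V.v (y s) = qv (-Yb p β s)) ∧
      (∀ s ≤ n, Lvl p V (Ms s) (e + s)) ∧ (∀ s < n, z.coeff s ∈ Ms (s + 1)) ∧
      (∀ s < n, y s ∈ Subfield.closure ((M : Set L) ∪ {x | ∃ i ≤ s, x = z.coeff i})) ∧
      (∀ σ : L →+* L, (∀ x ∈ M, σ x = x) → ∀ s < n,
        (∀ i < n, σ (z.coeff i) = (z + (p : WittVector p L) ^ s).coeff i) →
          σ (y s) = y s + 1) := by
  induction n with
  | zero =>
    intro e δ M g z β h
    refine ⟨fun _ => 0, fun _ => M, rfl, ?_, ?_, ?_, ?_, ?_, ?_, ?_, ?_⟩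
    · intro s hs
      omega
    · intro s hs
      omega
    · intro s hs
      omega
    · intro s hs
      omega
    · intro s hs
      obtain rfl : s = 0 := by omega
      exact h.lvl
    · intro s hs
      omega
    · intro s hs
      omega
    · intro σ _ s hs
      omega
  | succ n ih =>
    intro e δ M g z β h
    have hpr : p.Prime := Fact.out
    obtain ⟨l, hl0, hlp, hβ, hvg, hvz, hz0⟩ := h.zero (Nat.succ_pos n)
    obtain ⟨g', z', c, hc, hzc, hTD⟩ := step V h
    obtain ⟨y, Ms, h1, h2, h3, h4, h5, h6, h7, h8, h9⟩ := ih hTD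
    have hmono : ∀ i j : ℕ, i + j ≤ n → Ms i ≤ Ms (i + j) := T9_mono h2
    refine ⟨fun s => Nat.casesOn s (z.coeff 0) y, fun s => Nat.casesOn s M Ms, rfl, ?_, ?_, ?_,
      ?_, ?_, ?_, ?_, ?_⟩
    · rintro (_ | s) hs
      · exact h1
      · exact h2 s (by omega)
    · rintro (_ | s) hs
      · change z.coeff 0 ^ p - z.coeff 0 ∈ M
        rw [hz0]
        exact h.gM 0 (by omega)
      · exact h3 s (by omega)
    · rintro (_ | s) hs
      · exact ⟨l, hl0, hlp, hvz⟩
      · obtain ⟨l', h10, h11, h12⟩ := h4 s (by omega)
        refine ⟨l', h10, h11, ?_⟩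
        have h13 : e + (s + 1) + 1 = e + 1 + s + 1 := by omega
        rw [h13]
        exact h12
    · rintro (_ | s) hs
      · change V.v (z.coeff 0) = _
        rw [hvz, Yb_zero, hβ]
        congr 1
        have hq : (p : ℚ) ≠ 0 := by exact_mod_cast hpr.ne_zero
        rw [pow_succ]
        field_simp
      · change V.v (y s) = _
        rw [h5 s (by omega), Yb_succ p hpr]
    · rintro (_ | s) hs
      · exact h.lvl
      · have h10 := h6 s (by omega)
        have h11 : e + (s + 1) = e + 1 + s := by omega
        rw [h11]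
        exact h10
    · rintro (_ | s) hs
      · change z.coeff 0 ∈ Ms 0
        rw [h1]
        exact T9_mem_adj _ _
      · change z.coeff (s + 1) ∈ Ms (s + 1)
        rw [← hzc s (by omega)]
        refine coeff_add_mem (Ms (s + 1)).toSubring (n := s + 1) ?_ ?_ s (Nat.lt_succ_self s)
        · intro i hi
          have h10 := h7 i (by omega)
          have h11 := hmono (i + 1) (s - i) (by omega)
          have h12 : i + 1 + (s - i) = s + 1 := by omega
          rw [h12] at h11
          exact h11 h10
        · intro i hi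
          have h10 := hc i (by omega)
          rw [← h1] at h10
          have h11 := hmono 0 (s + 1) (by omega)
          rw [zero_add] at h11
          exact h11 h10
    · rintro (_ | s) hs
      · exact Subfield.subset_closure (Or.inr ⟨0, le_refl _, rfl⟩)
      · change y s ∈ _
        have h10 := h8 s (by omega)
        set K := Subfield.closure ((M : Set L) ∪ {x | ∃ i ≤ s + 1, x = z.coeff i}) with hK
        have h11 : adj M (z.coeff 0) ≤ K := by
          rw [adj, Subfield.closure_le]
          rintro x (hx | hx)
          · exact Subfield.subset_closure (Or.inl hx)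
          · exact Subfield.subset_closure (Or.inr ⟨0, Nat.zero_le _, hx⟩)
        have h12 : Subfield.closure ((adj M (z.coeff 0) : Set L) ∪
            {x | ∃ i ≤ s, x = z'.coeff i}) ≤ K := by
          rw [Subfield.closure_le]
          rintro x (hx | ⟨i, hi, rfl⟩)
          · exact h11 hx
          · have h13 : z' = (z' + c) - c := by ring
            have h14 : z'.coeff i = ((z' + c) - c).coeff i := by rw [← h13]
            rw [SetLike.mem_coe, h14]
            refine coeff_sub_mem K.toSubring (n := s + 1) ?_ ?_ i (by omega)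
            · intro j hj
              rw [hzc j (by omega)]
              exact Subfield.subset_closure (Or.inr ⟨j + 1, by omega, rfl⟩)
            · intro j hj
              exact h11 (hc j (by omega))
        exact h12 h10
    · rintro σ hσ (_ | s) hs hi
      · change σ (z.coeff 0) = z.coeff 0 + 1
        rw [hi 0 (by omega), pow_zero, WittVector.add_coeff_zero, WittVector.one_coeff_zero]
      · change σ (y s) = y s + 1
        have hp0 : ((p : WittVector p L) ^ (s + 1)).coeff 0 = 0 := by
          rw [← verschiebung_p_pow, WittVector.verschiebung_coeff_zero]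
        have hσ0 : σ (z.coeff 0) = z.coeff 0 := by
          rw [hi 0 (by omega), WittVector.add_coeff_zero, hp0, add_zero]
        have hσM : ∀ x ∈ adj M (z.coeff 0), σ x = x := by
          have h10 : adj M (z.coeff 0) ≤ RingHom.eqLocusField σ (RingHom.id L) := by
            rw [adj, Subfield.closure_le]
            rintro x (hx | hx)
            · exact hσ x hx
            · rw [Set.mem_singleton_iff.1 hx]
              exact hσ0
          intro x hx
          exact h10 hx
        refine h9 σ hσM s (by omega) ?_
        -- the shift of `z`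
        set Z : WittVector p L := WittVector.mk p fun i => z.coeff (i + 1) with hZ
        have hzZ : z = WittVector.teichmuller p (z.coeff 0) + WittVector.verschiebung Z :=
          eq_teichmuller_add z
        have h10 : ∀ i, (z + (p : WittVector p L) ^ (s + 1)).coeff (i + 1) =
            (Z + (p : WittVector p L) ^ s).coeff i := by
          intro i
          have h11 : z + (p : WittVector p L) ^ (s + 1) =
              WittVector.teichmuller p (z.coeff 0) +
                WittVector.verschiebung (Z + (p : WittVector p L) ^ s) := by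
            rw [map_add, verschiebung_p_pow, ← add_assoc, ← hzZ]
          rw [h11, T9_coeff]
        have h11 : ∀ i < n, (WittVector.map σ (z' + c)).coeff i =
            (z' + c + (p : WittVector p L) ^ s).coeff i := by
          intro i hin
          rw [WittVector.map_coeff, hzc i hin, hi (i + 1) (by omega), h10 i]
          refine coeff_add_congr (n := n) ?_ (fun _ _ => rfl) i hin
          intro j hj
          rw [hzc j hj, hZ, WittVector.coeff_mk]
        have h12 : ∀ i < n, (WittVector.map σ c).coeff i = c.coeff i := by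
          intro i hin
          rw [WittVector.map_coeff]
          exact hσM _ (hc i hin)
        intro i hin
        have h13 : WittVector.map σ z' = WittVector.map σ (z' + c) - WittVector.map σ c := by
          rw [map_add, add_sub_cancel_right]
        have h14 : z' + (p : WittVector p L) ^ s = (z' + c + (p : WittVector p L) ^ s) - c := by
          ring
        rw [← WittVector.map_coeff, h13, h14]
        exact coeff_sub_congr h11 h12 i hin

end Pool.Agent.WC
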