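import Pool.Agent.WC.G2
import Pool.Agent.WC.N1
import Pool.Agent.WC.T9
import Pool.Agent.WC.T10

/-! # The Galois group and the adapted generators (piece WC-G3) -/

namespace Pool.Agent.WC

open Pool.Agent.WD

noncomputable section

universe u

variable {p : ℕ} [Fact p.Prime] {k : Type u} [Field k] [IsAlgClosed k] [CharP k p] {r : ℕ}

/-- the pole order of `f_s` -/
def pol (c : Par p r k) (s : ℕ) : ℕ :=
  (c.support.filter fun x => (x.1 : ℕ) = s).sup fun x => x.2.1

theorem pol_spec (c : Par p r k) (s : ℕ) : pol c s = 0 ∨ ¬ p ∣ pol c s := by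
  unfold pol
  by_cases h : (c.support.filter fun x => (x.1 : ℕ) = s).Nonempty
  · obtain ⟨x, -, e⟩ := Finset.exists_mem_eq_sup _ h (fun x => x.2.1)
    right
    rw [e]
    exact x.2.2
  · left
    rw [Finset.not_nonempty_iff_eq_empty] at h
    rw [h]
    rfl

private theorem polar_coeff (c : Par p r k) (s : Fin r) (z : ℤ) :
    (polar c s).coeff z = ∑ x ∈ c.support, if x.1 = s ∧ z = -(x.2.1 : ℤ) then c x else 0 := by
  unfold polar
  rw [Finsupp.sum, HahnSeries.coeff_sum]
  refine Finset.sum_congr rfl fun x _ => ?_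
  by_cases h1 : x.1 = s
  · rw [if_pos h1, HahnSeries.coeff_single]
    by_cases h2 : z = -(x.2.1 : ℤ)
    · rw [if_pos h2, if_pos ⟨h1, h2⟩]
    · rw [if_neg h2, if_neg (fun h => h2 h.2)]
  · rw [if_neg h1, if_neg (fun h => h1 h.1), HahnSeries.coeff_zero]

/-- the order of `f_s` -/
theorem orderTop_wf (c : Par p r k) (s : ℕ) (hs : s < r) :
    (pol c s = 0 ∧ (wf c).coeff s = 0) ∨
      (pol c s ≠ 0 ∧ ((wf c).coeff s).orderTop = ((-(pol c s : ℚ) : ℚ) : WithTop ℚ)) := by
  have e0 : (wf c).coeff s = toOm k (polar c ⟨s, hs⟩) := by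
    unfold wf
    rw [WittVector.coeff_mk, dif_pos hs]
  have hle : ∀ x ∈ c.support, (x.1 : ℕ) = s → x.2.1 ≤ pol c s := by
    intro x hx hxs
    exact Finset.le_sup (f := fun x : Fin r × Jp p => x.2.1) (Finset.mem_filter.2 ⟨hx, hxs⟩)
  rw [e0]
  by_cases h : (c.support.filter fun x => (x.1 : ℕ) = s).Nonempty
  · obtain ⟨x, hx, e⟩ := Finset.exists_mem_eq_sup _ h (fun x => x.2.1)
    have ep : pol c s = x.2.1 := e
    rw [Finset.mem_filter] at hx
    right
    have hp0 : pol c s ≠ 0 := by
      rw [ep]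
      intro h0
      exact x.2.2 (by rw [h0]; exact dvd_zero p)
    refine ⟨hp0, ?_⟩
    have hc : (polar c ⟨s, hs⟩).coeff (-(pol c s : ℤ)) = c x := by
      rw [polar_coeff, Finset.sum_eq_single x]
      · rw [if_pos]
        exact ⟨Fin.ext hx.2, by rw [ep]⟩
      · intro y hy hyx
        rw [if_neg]
        rintro ⟨h1, h2⟩
        apply hyx
        have h3 : y.2.1 = x.2.1 := by
          rw [← ep]
          have := neg_injective h2
          exact_mod_cast this.symm
        have h4 : y.1 = x.1 := by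
          rw [h1]
          exact (Fin.ext hx.2).symm
        exact Prod.ext h4 (Subtype.ext h3)
      · intro hx'
        exact absurd hx.1 hx'
    have hlt : ∀ z : ℤ, z < -(pol c s : ℤ) → (polar c ⟨s, hs⟩).coeff z = 0 := by
      intro z hz
      rw [polar_coeff]
      refine Finset.sum_eq_zero fun y hy => ?_
      rw [if_neg]
      rintro ⟨h1, h2⟩
      have := hle y hy (by rw [h1])
      omega
    have e1 : ((-(pol c s : ℚ) : ℚ)) = (((-(pol c s : ℤ)) : ℤ) : ℚ) := by push_cast; rfl
    rw [e1]
    refine HahnSeries.orderTop_eq_of_le (g := (((-(pol c s : ℤ)) : ℤ) : ℚ)) ?_ ?_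
    · rw [HahnSeries.mem_support, toOm_coeff_int, hc]
      exact Finsupp.mem_support_iff.1 hx.1
    · intro q hq
      by_contra hcon
      rw [not_le] at hcon
      rw [HahnSeries.mem_support] at hq
      apply hq
      by_cases hq' : ∃ j : ℤ, q = j
      · obtain ⟨j, rfl⟩ := hq'
        rw [toOm_coeff_int]
        exact hlt j (by exact_mod_cast hcon)
      · push Not at hq'
        exact toOm_coeff_not _ _ hq'
  · left
    rw [Finset.not_nonempty_iff_eq_empty] at h
    refine ⟨by unfold pol; rw [h]; rfl, ?_⟩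
    have : polar c ⟨s, hs⟩ = 0 := by
      ext z
      rw [polar_coeff, HahnSeries.coeff_zero]
      refine Finset.sum_eq_zero fun y hy => ?_
      rw [if_neg]
      rintro ⟨h1, -⟩
      have : y ∈ (c.support.filter fun x => (x.1 : ℕ) = s) :=
        Finset.mem_filter.2 ⟨hy, by rw [h1]⟩
      rw [h] at this
      exact absurd this (Finset.notMem_empty y)
    rw [this, map_zero]

/-! Jumps -/

private theorem up_max (p : ℕ) (j : ℕ → ℕ) (s : ℕ) :
    (∀ i ≤ s, p ^ (s - i) * j i ≤ up p j s) ∧ ∃ i ≤ s, up p j s = p ^ (s - i) * j i := by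
  induction s with
  | zero =>
    refine ⟨fun i hi => ?_, 0, le_rfl, ?_⟩
    · have : i = 0 := by omega
      subst this
      simp [up]
    · simp [up]
  | succ s ih =>
    obtain ⟨h1, i0, hi0, e0⟩ := ih
    refine ⟨fun i hi => ?_, ?_⟩
    · rcases Nat.lt_or_ge i (s + 1) with h | h
      · have h2 := h1 i (by omega)
        have h3 : s + 1 - i = (s - i) + 1 := by omega
        have h4 : p ^ (s + 1 - i) * j i = p * (p ^ (s - i) * j i) := by
          rw [h3, pow_succ]
          ring
        rw [h4]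
        exact (Nat.mul_le_mul_left p h2).trans (le_max_left _ _)
      · have : i = s + 1 := by omega
        subst this
        rw [Nat.sub_self, pow_zero, one_mul]
        exact le_max_right _ _
    · rcases le_total (p * up p j s) (j (s + 1)) with h | h
      · refine ⟨s + 1, le_rfl, ?_⟩
        rw [Nat.sub_self, pow_zero, one_mul]
        exact max_eq_right h
      · refine ⟨i0, by omega, ?_⟩
        have h3 : s + 1 - i0 = (s - i0) + 1 := by omega
        have h4 : up p j (s + 1) = p * up p j s := max_eq_left h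
        rw [h4, e0, h3, pow_succ]
        ring

private theorem up_zero {p : ℕ} {j : ℕ → ℕ} {a : ℕ} (h : ∀ s < a, j s = 0) (s : ℕ) (hs : s < a) :
    up p j s = 0 := by
  obtain ⟨i, hi, e⟩ := (up_max p j s).2
  rw [e, h i (by omega), mul_zero]

private theorem Yb_eq_Yq (p : ℕ) (u : ℕ → ℕ) (a : ℕ) (h : ∀ s < a, u s = 0) (s : ℕ) :
    Yb p (fun s => (u (a + s) : ℚ)) s = Yq p (fun s => (u s : ℚ)) (a + s) := by
  unfold Yb Yq
  congr 1
  rw [Finset.sum_range_add]
  have e1 : ∑ x ∈ Finset.range a, ((p : ℚ) - 1) * (u x : ℚ) / (p : ℚ) ^ (a + s - x + 1) = 0 := by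
    refine Finset.sum_eq_zero fun x hx => ?_
    rw [h x (Finset.mem_range.1 hx)]
    simp
  rw [e1, zero_add]
  refine Finset.sum_congr rfl fun i hi => ?_
  have : a + s - (a + i) = s - i := by omega
  rw [this]

/-! Witt vectors over `L_c` -/

section Witt

variable {A : Type*} [Field A] [CharP A p]

omit [CharP A p] in
private theorem nat_map {B : Type*} [Field B] (f : A →+* B) (g i : ℕ) :
    f ((g : WittVector p A).coeff i) = (g : WittVector p B).coeff i := by
  rw [← WittVector.map_coeff, map_natCast]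

private theorem nat_mem (S : Subring A) (g i : ℕ) : (g : WittVector p A).coeff i ∈ S := by
  induction g generalizing i with
  | zero =>
    rw [Nat.cast_zero, WittVector.zero_coeff]
    exact S.zero_mem
  | succ g ih =>
    rw [Nat.cast_succ]
    refine coeff_add_mem S (n := i + 1) (fun j _ => ih j) (fun j _ => ?_) i (Nat.lt_succ_self i)
    rcases Nat.eq_zero_or_pos j with h | h
    · rw [h, WittVector.one_coeff_zero]
      exact S.one_mem
    · rw [WittVector.one_coeff_eq_of_pos p A j h]
      exact S.zero_mem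

private theorem frob_V (a : ℕ) (x : WittVector p A) :
    WittVector.frobenius ((WittVector.verschiebung)^[a] x) =
      (WittVector.verschiebung)^[a] (WittVector.frobenius x) :=
  ((WittVector.verschiebung_frobenius_comm (p := p) (R := A)).iterate_left a x).symm

private theorem V_sub (a : ℕ) (x y : WittVector p A) :
    (WittVector.verschiebung)^[a] (x - y) =
      (WittVector.verschiebung)^[a] x - (WittVector.verschiebung)^[a] y :=
  iterate_map_sub WittVector.verschiebung a x y

private theorem V_add (a : ℕ) (x y : WittVector p A) :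
    (WittVector.verschiebung)^[a] (x + y) =
      (WittVector.verschiebung)^[a] x + (WittVector.verschiebung)^[a] y :=
  iterate_map_add WittVector.verschiebung a x y

private theorem map_V {B : Type*} [Field B] (f : A →+* B) (a : ℕ) (x : WittVector p A) :
    WittVector.map f ((WittVector.verschiebung)^[a] x) =
      (WittVector.verschiebung)^[a] (WittVector.map f x) := by
  induction a with
  | zero => rfl
  | succ a ih => rw [Function.iterate_succ_apply', Function.iterate_succ_apply',
      WittVector.map_verschiebung, ih]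

private theorem natCast_mod (n : ℕ) (i : ℕ) (hi : i < r) :
    (((n : ZMod (p ^ r)).val : ℕ) : WittVector p A).coeff i = (n : WittVector p A).coeff i := by
  refine coeff_nat_congr (r := r) ?_ i hi
  rw [ZMod.val_natCast]
  exact Nat.mod_modEq n _

end Witt

private def zt (c : Par p r k) : WittVector p (Lw c) :=
  WittVector.mk p fun s => if h : s < r then zL c ⟨s, h⟩ else 0

private def ft (c : Par p r k) : WittVector p (Lw c) :=
  WittVector.mk p fun s =>
    if h : s < r then algebraMap (LaurentSeries k) (Lw c) (polar c ⟨s, h⟩) else 0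

private def io (c : Par p r k) : Lw c →+* Om k := (Lw c).val.toRingHom

private theorem io_inj (c : Par p r k) : Function.Injective (io c) := (io c).injective

private theorem io_zt (c : Par p r k) (i : ℕ) (hi : i < r) :
    (WittVector.map (io c) (zt c)).coeff i = (wz c).coeff i := by
  rw [WittVector.map_coeff]
  unfold zt
  rw [WittVector.coeff_mk, dif_pos hi]
  rfl

private theorem io_ft (c : Par p r k) (i : ℕ) (hi : i < r) :
    io c ((ft c).coeff i) = (wf c).coeff i := by
  unfold ft wf
  rw [WittVector.coeff_mk, WittVector.coeff_mk, dif_pos hi, dif_pos hi]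
  rfl

private theorem zt_eq (c : Par p r k) (i : ℕ) (hi : i < r) :
    (WittVector.frobenius (zt c) - zt c).coeff i = (ft c).coeff i := by
  apply io_inj c
  rw [io_ft c i hi, ← wz_spec c, ← WittVector.map_coeff, map_sub]
  refine coeff_sub_congr (n := r) (fun j hj => ?_) (fun j hj => io_zt c j hj) i hi
  rw [WittVector.map_coeff, WittVector.coeff_frobenius_charP, WittVector.coeff_frobenius_charP,
    map_pow, ← WittVector.map_coeff, io_zt c j hj]

private theorem corr_zt (c : Par p r k) {σ : Lw c ≃ₐ[LaurentSeries k] Lw c} {g : ZMod (p ^ r)}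
    (h : CorrW c σ g) (i : ℕ) (hi : i < r) :
    σ ((zt c).coeff i) = (zt c + ((g.val : ℕ) : WittVector p (Lw c))).coeff i := by
  apply io_inj c
  have h1 := h ⟨i, hi⟩
  have h2 : (zt c).coeff i = zL c ⟨i, hi⟩ := by
    unfold zt
    rw [WittVector.coeff_mk, dif_pos hi]
  rw [h2]
  refine h1.trans ?_
  rw [← WittVector.map_coeff, map_add, map_natCast]
  exact coeff_add_congr (n := r) (fun j hj => (io_zt c j hj).symm) (fun j _ => rfl) i hi

private theorem corr_pow (c : Par p r k) {τ : Lw c ≃ₐ[LaurentSeries k] Lw c} {g : ZMod (p ^ r)}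
    (h : CorrW c τ g) (n : ℕ) : CorrW c (τ ^ n) (n * g) := by
  induction n with
  | zero =>
    rw [pow_zero, Nat.cast_zero, zero_mul]
    exact corrW_one c
  | succ n ih =>
    rw [pow_succ, Nat.cast_succ, add_mul, one_mul]
    exact corrW_mul c ih h

private theorem v_ft (c : Par p r k) (V : VF k (Lw c)) (hV : ∀ x, V.phi x = (x : Om k)) (i : ℕ)
    (hi : i < r) : V.v ((ft c).coeff i) = ((wf c).coeff i).orderTop := by
  unfold VF.v
  rw [hV, ← io_ft c i hi]
  rfl

private theorem ft_zero (c : Par p r k) (i : ℕ) (hi : i < r) (h : pol c i = 0) :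
    (ft c).coeff i = 0 := by
  apply io_inj c
  rw [io_ft c i hi, map_zero]
  rcases orderTop_wf c i hi with h1 | h1
  · exact h1.2
  · exact absurd h h1.1

private theorem v_ft_cases (c : Par p r k) (V : VF k (Lw c)) (hV : ∀ x, V.phi x = (x : Om k))
    (i : ℕ) (hi : i < r) : (pol c i = 0 ∧ V.v ((ft c).coeff i) = ⊤) ∨
      (pol c i ≠ 0 ∧ V.v ((ft c).coeff i) = qv (-(pol c i : ℚ))) := by
  rw [v_ft c V hV i hi]
  rcases orderTop_wf c i hi with h1 | h1
  · left
    refine ⟨h1.1, ?_⟩
    rw [h1.2, HahnSeries.orderTop_zero]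
  · right
    exact h1

/-- The tower over `K`. -/
private theorem core_TD (c : Par p r k) (V : VF k (Lw c)) (hV : ∀ x, V.phi x = (x : Om k))
    (hl : Lvl p V (KL c) 0) (hd : Dv p V (KL c) 0 1) (a : ℕ) (ha : a < r)
    (h0 : ∀ s < a, pol c s = 0) (h1 : pol c a ≠ 0) :
    ∃ (w : ℕ) (z' : WittVector p (Lw c)),
      zt c = (w : WittVector p (Lw c)) + (WittVector.verschiebung)^[a] z' ∧
      TD p V (r - a) 0 1 (KL c) ((ft c).shift a) z' (fun s => (up p (pol c) (a + s) : ℚ)) := by
  have hp : p.Prime := Fact.out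
  obtain ⟨g, hg⟩ := exists_nat_of_frobenius a (zt c) (fun i hi => by
    rw [zt_eq c i (hi.trans ha), ft_zero c i (hi.trans ha) (h0 i hi)])
  have hx0 : ∀ i < a, (zt c - ((g.val : ℕ) : WittVector p (Lw c))).coeff i = 0 := by
    intro i hi
    have := coeff_sub_congr (a := zt c) (a' := ((g.val : ℕ) : WittVector p (Lw c)))
      (b := ((g.val : ℕ) : WittVector p (Lw c))) (b' := ((g.val : ℕ) : WittVector p (Lw c)))
      hg (fun _ _ => rfl) i hi
    rw [this, sub_self, WittVector.zero_coeff]
  have hx : zt c - ((g.val : ℕ) : WittVector p (Lw c)) = (WittVector.verschiebung)^[a]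
      ((zt c - ((g.val : ℕ) : WittVector p (Lw c))).shift a) :=
    WittVector.eq_iterate_verschiebung hx0
  set z' := (zt c - ((g.val : ℕ) : WittVector p (Lw c))).shift a with hz'
  refine ⟨g.val, z', by rw [← hx]; ring, ?_⟩
  have hpow : ∀ s : ℕ, (0 : ℚ) < (p : ℚ) ^ s := fun s => pow_pos (by exact_mod_cast hp.pos) s
  refine ⟨hl, hd, fun i hi => ?_, fun i hi => ?_, fun i hi => ?_, fun s hs => ?_, fun _ => ?_⟩
  · have e1 : (WittVector.verschiebung)^[a] (WittVector.frobenius z' - z') =
        WittVector.frobenius (zt c) - zt c := by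
      rw [V_sub, ← frob_V, ← hx, map_sub, map_natCast]
      ring
    rw [← WittVector.iterate_verschiebung_coeff _ a i, e1, zt_eq c (i + a) (by omega),
      WittVector.shift_coeff, add_comm]
  · rw [WittVector.shift_coeff]
    unfold ft
    rw [WittVector.coeff_mk, dif_pos (by omega : a + i < r)]
    exact ⟨_, rfl⟩
  · rw [WittVector.shift_coeff]
    rcases v_ft_cases c V hV (a + i) (by omega) with h | h
    · left
      rw [h.2]
      exact le_top
    · right
      refine ⟨-(pol c (a + i) : ℤ), ?_, ?_⟩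
      · rw [dvd_neg]
        intro h2
        rcases pol_spec c (a + i) with h3 | h3
        · exact h.1 h3
        · exact h3 (by exact_mod_cast h2)
      · rw [h.2]
        refine congrArg qv ?_
        push_cast
        rw [pow_zero, div_one]
  · obtain ⟨m1, i0, hi0, m2⟩ := up_max p (pol c) (a + s)
    have hpa : 0 < p ^ (a + s - a) * pol c a :=
      Nat.mul_pos (pow_pos hp.pos _) (Nat.pos_of_ne_zero h1)
    have hup : 0 < up p (pol c) (a + s) := hpa.trans_le (m1 a (by omega))
    refine ⟨fun i hi => ?_, ?_⟩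
    · rw [WittVector.shift_coeff]
      rcases v_ft_cases c V hV (a + i) (by omega) with h | h
      · rw [h.2]
        exact le_top
      · rw [h.2]
        refine WithTop.coe_le_coe.2 ?_
        have h2 := m1 (a + i) (by omega)
        have h3 : a + s - (a + i) = s - i := by omega
        rw [h3] at h2
        have h4 : (p : ℚ) ^ (s - i) * pol c (a + i) ≤ up p (pol c) (a + s) := by exact_mod_cast h2
        have h5 : (p : ℚ) ^ s = (p : ℚ) ^ (s - i) * (p : ℚ) ^ i := by
          rw [← pow_add]
          congr 1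
          omega
        rw [h5, neg_mul, neg_div, neg_le_neg_iff, mul_div_mul_right _ _ (hpow i).ne',
          le_div_iff₀ (hpow (s - i)), mul_comm]
        exact h4
    · have hi0p : pol c i0 ≠ 0 := by
        intro h
        rw [h, mul_zero] at m2
        omega
      have hi0a : a ≤ i0 := by
        by_contra hcon
        exact hi0p (h0 i0 (by omega))
      refine ⟨i0 - a, by omega, ?_⟩
      rw [WittVector.shift_coeff]
      have e2 : a + (i0 - a) = i0 := by omega
      rw [e2]
      rcases v_ft_cases c V hV i0 (by omega) with h | h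
      · exact absurd h.1 hi0p
      · rw [h.2]
        refine congrArg qv ?_
        have h4 : (up p (pol c) (a + s) : ℚ) = (p : ℚ) ^ (a + s - i0) * pol c i0 := by
          exact_mod_cast m2
        have h5 : (p : ℚ) ^ s = (p : ℚ) ^ (a + s - i0) * (p : ℚ) ^ (i0 - a) := by
          rw [← pow_add]
          congr 1
          omega
        rw [h4, h5, neg_mul, neg_div, mul_div_mul_right _ _ (hpow (i0 - a)).ne',
          mul_div_cancel_left₀ _ (hpow (a + s - i0)).ne']
  · obtain ⟨m1, -⟩ := up_max p (pol c) a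
    have h2 := m1 a le_rfl
    rw [Nat.sub_self, pow_zero, one_mul] at h2
    have h3 : 0 < up p (pol c) (a + 0) := by
      rw [add_zero]
      exact (Nat.pos_of_ne_zero h1).trans_le h2
    exact_mod_cast h3

private theorem corr_dvd (c : Par p r k) (a n : ℕ) (hn : n ≤ r) {σ : Lw c ≃ₐ[LaurentSeries k] Lw c}
    {g : ZMod (p ^ r)} (h : CorrW c σ g) (hfix : ∀ i < n, σ ((zt c).coeff i) = (zt c).coeff i) :
    p ^ n ∣ g.val := by
  have h1 : ∀ i < n, ((g.val : ℕ) : WittVector p (Lw c)).coeff i =
      ((0 : ℕ) : WittVector p (Lw c)).coeff i := by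
    intro i hi
    have h2 : ∀ j < n, (zt c + ((g.val : ℕ) : WittVector p (Lw c))).coeff j = (zt c).coeff j :=
      fun j hj => by rw [← corr_zt c h j (by omega), hfix j hj]
    have h3 := coeff_sub_congr h2 (fun j (_ : j < n) => (rfl : (zt c).coeff j = (zt c).coeff j)) i hi
    rw [add_sub_cancel_left, sub_self] at h3
    rw [h3, Nat.cast_zero]
  have h4 := nat_congr_of_coeff h1
  exact (Nat.modEq_zero_iff_dvd).1 h4

private theorem corr_fix (c : Par p r k) (n : ℕ) (hn : n ≤ r) {σ : Lw c ≃ₐ[LaurentSeries k] Lw c}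
    {g : ZMod (p ^ r)} (h : CorrW c σ g) (hg : p ^ n ∣ g.val) :
    ∀ i < n, σ ((zt c).coeff i) = (zt c).coeff i := by
  intro i hi
  rw [corr_zt c h i (by omega)]
  have h1 : ∀ j < n, ((g.val : ℕ) : WittVector p (Lw c)).coeff j =
      (0 : WittVector p (Lw c)).coeff j := by
    intro j hj
    have := coeff_nat_congr (p := p) (A := Lw c) ((Nat.modEq_zero_iff_dvd).2 hg) j hj
    rw [this, Nat.cast_zero]
  have h2 := coeff_add_congr (fun j (_ : j < n) => (rfl : (zt c).coeff j = (zt c).coeff j)) h1 i hi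
  rw [h2, add_zero]

private theorem mem_KL (c : Par p r k) (x : Lw c)
    (h : ∀ σ : Lw c ≃ₐ[LaurentSeries k] Lw c, σ x = x) :
    x ∈ Set.range (algebraMap (LaurentSeries k) (Lw c)) := by
  have := isGalois_Lw c
  have := finiteDim_Lw c
  exact IntermediateField.mem_bot.1 ((IsGalois.mem_bot_iff_fixed x).2 h)

private theorem adj_le {L : Type*} [Field L] {M : Subfield L} {y : L} : M ≤ adj M y :=
  fun _ hx => Subfield.subset_closure (Or.inl hx)

theorem core (c : Par p r k) (hc : c ≠ 0) :
    ∃ (a : ℕ) (_ : a < r) (τ : Lw c ≃ₐ[LaurentSeries k] Lw c) (y : ℕ → Lw c),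
      (∀ s < a, pol c s = 0) ∧ pol c a ≠ 0 ∧
      CorrW c τ ((p ^ a : ℕ) : ZMod (p ^ r)) ∧
      (∀ σ g, CorrW c σ g → ∃ i : ℕ, σ = τ ^ i ∧ g = ((p ^ a * i : ℕ) : ZMod (p ^ r))) ∧
      (∀ x : Lw c, τ x = x → x ∈ Set.range (algebraMap (LaurentSeries k) (Lw c))) ∧
      (∀ x : Lw c, ((τ x : Lw c) : Om k).orderTop = (x : Om k).orderTop) ∧
      (∀ s < r - a, (τ ^ (p ^ s)) (y s) = y s + 1) ∧
      (∀ s < r - a, ((y s : Lw c) : Om k).orderTop =
        ((-Yq p (fun s => (up p (pol c) s : ℚ)) (a + s) : ℚ) : WithTop ℚ)) := by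
  classical
  have hp : p.Prime := Fact.out
  have : NeZero (p ^ r) := ⟨pow_ne_zero _ hp.ne_zero⟩
  have hex : ∃ s, s < r ∧ pol c s ≠ 0 := by
    obtain ⟨x, hx⟩ := Finsupp.support_nonempty_iff.2 hc
    refine ⟨x.1, x.1.2, ?_⟩
    have h1 : x.2.1 ≤ pol c x.1 :=
      Finset.le_sup (f := fun x : Fin r × Jp p => x.2.1) (Finset.mem_filter.2 ⟨hx, rfl⟩)
    have h2 : x.2.1 ≠ 0 := fun h0 => x.2.2 (by rw [h0]; exact dvd_zero p)
    omega
  obtain ⟨ha, hpa⟩ := Nat.find_spec hex
  have h0 : ∀ s < Nat.find hex, pol c s = 0 := by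
    intro s hs
    by_contra hcon
    exact Nat.find_min hex hs ⟨hs.trans ha, hcon⟩
  generalize Nat.find hex = a at ha hpa h0
  obtain ⟨V, hV, -, hl, hd⟩ := exists_VF c
  obtain ⟨w, z', hzt, hTD⟩ := core_TD c V hV hl hd a ha h0 hpa
  obtain ⟨y, Ms, hM0, hM1, hy1, hy2, hy3, hM2, hz1, hz2, hσ⟩ := tower V (r - a) hTD
  have hv : ∀ x : Lw c, V.v x = (x : Om k).orderTop := by
    intro x
    unfold VF.v
    rw [hV]
  have hcz : ∀ i < a, (zt c).coeff i = (w : WittVector p (Lw c)).coeff i := by
    intro i hi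
    have h1 : ∀ j < a, ((WittVector.verschiebung)^[a] z').coeff j =
        (0 : WittVector p (Lw c)).coeff j := by
      intro j hj
      rw [WittVector.iterate_verschiebung_coeff_eq_zero _ hj, WittVector.zero_coeff]
    have h2 := coeff_add_congr (a := (w : WittVector p (Lw c))) (fun j (_ : j < a) => rfl) h1 i hi
    rw [← hzt, add_zero] at h2
    exact h2
  have hσw : ∀ (σ : Lw c →+* Lw c) (n i : ℕ), σ ((n : WittVector p (Lw c)).coeff i) =
      (n : WittVector p (Lw c)).coeff i := fun σ n i => nat_map σ n i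
  -- all elements of the image are divisible by `p^a`
  have hdvd : ∀ σ g, CorrW c σ g → p ^ a ∣ g.val := by
    intro σ g h
    refine corr_dvd c a a ha.le h fun i hi => ?_
    rw [hcz i hi]
    exact hσw (σ : Lw c →+* Lw c) w i
  -- one of them is not divisible by `p^(a+1)`
  obtain ⟨σ₀, g₀, hσ₀, hg₀⟩ : ∃ σ g, CorrW c σ g ∧ ¬ p ^ (a + 1) ∣ g.val := by
    by_contra hcon
    push Not at hcon
    have hK : ∀ i < a + 1, (zt c).coeff i ∈ (KL c).toSubring := by
      intro i hi
      obtain ⟨x, hx⟩ := mem_KL c ((zt c).coeff i) fun σ => by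
        obtain ⟨g, hg⟩ := corrW_exists c σ
        exact corr_fix c (a + 1) (by omega) hg (hcon σ g hg) i hi
      exact ⟨x, hx⟩
    have hz0 : z'.coeff 0 ∈ KL c := by
      have h1 : zt c - (w : WittVector p (Lw c)) = (WittVector.verschiebung)^[a] z' := by
        rw [hzt]
        ring
      have h2 := coeff_sub_mem (KL c).toSubring hK
        (fun i (_ : i < a + 1) => nat_mem (KL c).toSubring w i) a (Nat.lt_succ_self a)
      rw [h1] at h2
      have h3 := WittVector.iterate_verschiebung_coeff z' a 0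
      rw [zero_add] at h3
      rw [h3] at h2
      exact h2
    have hy0 : y 0 ∈ KL c := by
      refine (Subfield.closure_le (t := KL c)).2 ?_ (hz2 0 (by omega))
      rintro x (hx | ⟨i, hi, rfl⟩)
      · exact hx
      · have : i = 0 := by omega
        rw [this]
        exact hz0
    obtain ⟨l, -, hl1, hl2⟩ := hy2 0 (by omega)
    have hne : y 0 ≠ 0 := by
      intro h
      rw [h, hv] at hl2
      change (HahnSeries.orderTop (0 : Om k)) = _ at hl2
      rw [HahnSeries.orderTop_zero] at hl2
      exact WithTop.top_ne_coe hl2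
    obtain ⟨z, hz⟩ := hl.2.1 (y 0) hy0 hne
    rw [hl2] at hz
    have h4 := WithTop.coe_injective hz
    rw [pow_zero, div_one, zero_add, zero_add, pow_one,
      div_eq_iff (by exact_mod_cast hp.ne_zero)] at h4
    apply hl1
    exact ⟨z, by rw [mul_comm]; exact_mod_cast h4⟩
  obtain ⟨u, hu⟩ := hdvd σ₀ g₀ hσ₀
  have hpu : ¬ p ∣ u := by
    rintro ⟨u', hu'⟩
    apply hg₀
    exact ⟨u', by rw [hu, hu', pow_succ]; ring⟩
  have hra : p ^ a * p ^ (r - a) = p ^ r := by
    rw [← pow_add]
    congr 1
    omega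
  obtain ⟨m, hm⟩ : ∃ m : ℕ, m * u ≡ 1 [MOD p ^ (r - a)] := by
    have hco : Nat.Coprime u (p ^ (r - a)) :=
      (Nat.Coprime.pow_right _ ((Nat.Prime.coprime_iff_not_dvd hp).2 hpu).symm)
    rcases Nat.lt_or_ge 1 (p ^ (r - a)) with h | h
    · obtain ⟨m, -, hm⟩ := Nat.exists_mul_mod_eq_one_of_coprime hco h
      refine ⟨m, ?_⟩
      rw [mul_comm]
      unfold Nat.ModEq
      rw [hm, Nat.mod_eq_of_lt h]
    · have : p ^ (r - a) = 1 := le_antisymm h (Nat.one_le_iff_ne_zero.2 (pow_ne_zero _ hp.ne_zero))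
      rw [this]
      exact ⟨0, Nat.modEq_one⟩
  set τ := σ₀ ^ m with hτ
  have hcτ : CorrW c τ ((p ^ a : ℕ) : ZMod (p ^ r)) := by
    have h1 := corr_pow c hσ₀ m
    have h2 : ((m : ZMod (p ^ r)) * g₀) = ((p ^ a : ℕ) : ZMod (p ^ r)) := by
      have h3 : g₀ = ((p ^ a * u : ℕ) : ZMod (p ^ r)) := by rw [← hu, ZMod.natCast_zmod_val]
      rw [h3, ← Nat.cast_mul, ZMod.natCast_eq_natCast_iff]
      have h4 := Nat.ModEq.mul_left' (p ^ a) hm
      rw [hra, mul_one] at h4
      refine Nat.ModEq.trans ?_ h4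
      rw [show m * (p ^ a * u) = p ^ a * (m * u) by ring]
    rw [h2] at h1
    exact h1
  have hall : ∀ σ g, CorrW c σ g → ∃ i : ℕ, σ = τ ^ i ∧ g = ((p ^ a * i : ℕ) : ZMod (p ^ r)) := by
    intro σ g h
    obtain ⟨i, hi⟩ := hdvd σ g h
    have h3 : g = ((p ^ a * i : ℕ) : ZMod (p ^ r)) := by rw [← hi, ZMod.natCast_zmod_val]
    refine ⟨i, ?_, h3⟩
    have h4 := corr_pow c hcτ i
    rw [← Nat.cast_mul, mul_comm, ← h3] at h4
    exact eq_of_corrW c h h4
  refine ⟨a, ha, τ, y, h0, hpa, hcτ, hall, ?_, ?_, ?_, ?_⟩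
  · intro x hx
    refine mem_KL c x fun σ => ?_
    obtain ⟨g, hg⟩ := corrW_exists c σ
    obtain ⟨i, hi, -⟩ := hall σ g hg
    rw [hi]
    clear hi
    induction i with
    | zero => rfl
    | succ i ih =>
      rw [pow_succ, AlgEquiv.mul_apply, hx, ih]
  · -- the valuation is invariant
    have hle : ∀ s t, s ≤ t → t ≤ r - a → Ms s ≤ Ms t := by
      intro s t hst ht
      induction t, hst using Nat.le_induction with
      | base => exact le_rfl
      | succ t hst ih =>
        refine (ih (by omega)).trans ?_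
        rw [hM1 t (by omega)]
        exact adj_le
    have hz'M : ∀ i < r - a, z'.coeff i ∈ (Ms (r - a)).toSubring := fun i hi =>
      hle (i + 1) (r - a) (by omega) le_rfl (hz1 i hi)
    have hztM : ∀ i < r, (zt c).coeff i ∈ (Ms (r - a)).toSubring := by
      intro i hi
      rw [hzt]
      refine coeff_add_mem (Ms (r - a)).toSubring (n := r) (fun j _ => nat_mem _ w j)
        (fun j hj => ?_) i hi
      rcases Nat.lt_or_ge j a with h | h
      · rw [WittVector.iterate_verschiebung_coeff_eq_zero _ h]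
        exact Subring.zero_mem _
      · obtain ⟨j', rfl⟩ := Nat.exists_eq_add_of_le h
        rw [add_comm, WittVector.iterate_verschiebung_coeff]
        exact hz'M j' (by omega)
    have htop : ∀ x : Lw c, x ∈ Ms (r - a) := by
      let N : IntermediateField (LaurentSeries k) (Lw c) :=
        { Ms (r - a) with
          algebraMap_mem' := fun x => hle 0 (r - a) (Nat.zero_le _) le_rfl (by
            rw [hM0]
            exact ⟨x, rfl⟩) }
      have hN : (N.map (Lw c).val : IntermediateField (LaurentSeries k) (Om k)) = Lw c := by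
        refine le_antisymm ?_ ?_
        · intro x hx
          obtain ⟨x', -, rfl⟩ := hx
          exact x'.2
        · unfold Lw
          rw [IntermediateField.adjoin_le_iff]
          rintro x ⟨s, rfl⟩
          refine ⟨(zt c).coeff s, hztM s s.2, ?_⟩
          exact io_zt c s s.2
      intro x
      have hx : (x : Om k) ∈ N.map (Lw c).val := by
        rw [hN]
        exact x.2
      obtain ⟨x', hx', e⟩ := hx
      have : x' = x := Subtype.ext e
      rw [← this]
      exact hx'
    intro x
    have := inv_tower V (r - a) y Ms hM1 hy1 (fun s hs => by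
        obtain ⟨l, hl1, hl2, hl3⟩ := hy2 s hs
        exact ⟨l, hl1, hl2, by rw [hl3, zero_add]⟩) (fun s hs => by
        have := hM2 s hs
        rwa [zero_add] at this) (τ : Lw c →+* Lw c) (fun x hx => by
        rw [hM0] at hx
        obtain ⟨x', rfl⟩ := hx
        exact congrArg V.v (τ.commutes x')) (r - a) le_rfl x (htop x)
    rw [hv, hv] at this
    exact this
  · intro s hs
    refine hσ ((τ ^ (p ^ s) : Lw c ≃ₐ[LaurentSeries k] Lw c) : Lw c →+* Lw c) ?_ s hs ?_
    · rintro x ⟨x', rfl⟩
      exact (τ ^ (p ^ s)).commutes x'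
    · intro i hi
      have h1 := corr_pow c hcτ (p ^ s)
      rw [← Nat.cast_mul] at h1
      have h2 : ∀ j < r, (τ ^ (p ^ s)) ((zt c).coeff j) =
          (zt c + ((p ^ s * p ^ a : ℕ) : WittVector p (Lw c))).coeff j := by
        intro j hj
        rw [corr_zt c h1 j hj]
        exact coeff_add_congr (n := r) (fun _ _ => rfl) (natCast_mod (p ^ s * p ^ a)) j hj
      set f : Lw c →+* Lw c := ((τ ^ (p ^ s) : Lw c ≃ₐ[LaurentSeries k] Lw c) : Lw c →+* Lw c)
        with hf
      have h3 : ∀ j < r, (WittVector.map f (zt c) - (w : WittVector p (Lw c))).coeff j =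
          (zt c + ((p ^ s * p ^ a : ℕ) : WittVector p (Lw c)) - (w : WittVector p (Lw c))).coeff j :=
        coeff_sub_congr (n := r) (fun j hj => by rw [WittVector.map_coeff]; exact h2 j hj)
          (fun _ _ => rfl)
      have h4 : WittVector.map f (zt c) - (w : WittVector p (Lw c)) =
          (WittVector.verschiebung)^[a] (WittVector.map f z') := by
        rw [hzt, map_add, map_natCast, map_V]
        ring
      have h5 : zt c + ((p ^ s * p ^ a : ℕ) : WittVector p (Lw c)) - (w : WittVector p (Lw c)) =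
          (WittVector.verschiebung)^[a] (z' + (p : WittVector p (Lw c)) ^ s) := by
        have h6 := verschiebung_iterate_nat (p := p) (L := Lw c) a (p ^ s)
        rw [Nat.cast_pow] at h6
        rw [V_add, h6, hzt, mul_comm (p ^ s) (p ^ a)]
        ring
      have h7 := h3 (i + a) (by omega)
      rw [h4, h5, WittVector.iterate_verschiebung_coeff, WittVector.iterate_verschiebung_coeff,
        WittVector.map_coeff] at h7
      exact h7
  · intro s hs
    rw [← hv, hy3 s hs, Yb_eq_Yq p (up p (pol c)) a (fun s hs => up_zero h0 s hs)]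

/-- for `c = 0` everything is trivial: `L_0 = K`  -/
theorem core_zero (σ : Lw (0 : Par p r k) ≃ₐ[LaurentSeries k] Lw (0 : Par p r k)) :
    σ = 1 ∧ CorrW (0 : Par p r k) σ 0 ∧
      ∀ x : Lw (0 : Par p r k), x ∈ Set.range (algebraMap (LaurentSeries k) (Lw (0 : Par p r k))) := by
  have hpol : ∀ s, pol (0 : Par p r k) s = 0 := by
    intro s
    unfold pol
    rw [Finsupp.support_zero, Finset.filter_empty]
    rfl
  have hfix : ∀ (τ : Lw (0 : Par p r k) ≃ₐ[LaurentSeries k] Lw (0 : Par p r k)),
      CorrW (0 : Par p r k) τ 0 ∧ τ = 1 := by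
    intro τ
    obtain ⟨g, hg⟩ := corrW_exists (0 : Par p r k) τ
    obtain ⟨g', hg'⟩ := exists_nat_of_frobenius r (zt (0 : Par p r k)) (fun i hi => by
      rw [zt_eq _ i hi, ft_zero _ i hi (hpol i)])
    have h1 : p ^ r ∣ g.val := by
      refine corr_dvd (0 : Par p r k) r r le_rfl hg fun i hi => ?_
      rw [hg' i hi]
      exact nat_map (τ : Lw (0 : Par p r k) →+* Lw (0 : Par p r k)) _ i
    have : NeZero (p ^ r) := ⟨pow_ne_zero _ (Fact.out : p.Prime).ne_zero⟩
    have h2 : g = 0 := by
      rw [← ZMod.natCast_zmod_val g]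
      exact (ZMod.natCast_eq_zero_iff _ _).2 h1
    rw [h2] at hg
    exact ⟨hg, eq_of_corrW _ hg (corrW_one _)⟩
  refine ⟨(hfix σ).2, (hfix σ).1, fun x => mem_KL _ x fun τ => ?_⟩
  rw [(hfix τ).2]
  rfl

end

end Pool.Agent.WC
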