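import Pool.Agent.WC.N1

/-! # Numbers: the exponents (piece WC-N2) -/

namespace Pool.Agent.WC

open Pool.Agent.WD

private theorem N2_ue_step {p : ℕ} (e : ℕ → ℕ) (s : ℕ) : p * ue p e s ≤ ue p e (s + 1) := by
  rw [ue]
  exact Nat.le_add_right _ _

private theorem N2_ue_add {p : ℕ} (e e' : ℕ → ℕ) (s : ℕ) :
    ue p (fun t => e t + e' t) s = ue p e s + ue p e' s := by
  induction s with
  | zero => rfl
  | succ s ih =>
    rw [ue, ue, ue, ih]
    ring

private theorem N2_ue_mul {p : ℕ} (c : ℕ) (e : ℕ → ℕ) (s : ℕ) :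
    ue p (fun t => c * e t) s = c * ue p e s := by
  induction s with
  | zero => rfl
  | succ s ih =>
    rw [ue, ue, ih]
    ring

private theorem N2_ue_zero {p : ℕ} (e : ℕ → ℕ) (a : ℕ) (h : ∀ s, s < a → e s = 0) (s : ℕ)
    (hs : s < a) : ue p e s = 0 := by
  induction s with
  | zero => exact h 0 hs
  | succ s ih => rw [ue, ih (by omega), h _ hs, mul_zero, add_zero]

private theorem N2_ue_first {p : ℕ} (e : ℕ → ℕ) (a : ℕ) (h : ∀ s, s < a → e s = 0) :
    ue p e a = e a := by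
  cases a with
  | zero => rfl
  | succ a => rw [ue, N2_ue_zero e (a + 1) h a (Nat.lt_succ_self a), mul_zero, zero_add]

private theorem N2_jN_add {r : ℕ} (e e' : Fin r → ℕ) :
    jN (fun t => e t + e' t) = fun s => jN e s + jN e' s := by
  funext s
  by_cases h : s < r <;> simp [jN, h]

private theorem N2_jN_mul {r : ℕ} (c : ℕ) (e : Fin r → ℕ) :
    jN (fun t => c * e t) = fun s => c * jN e s := by
  funext s
  by_cases h : s < r <;> simp [jN, h]

private theorem N2_Yq_add {p : ℕ} (u v : ℕ → ℚ) (s : ℕ) :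
    Yq p (fun t => u t + v t) s = Yq p u s + Yq p v s := by
  have h1 : ∑ i ∈ Finset.range s, ((p : ℚ) - 1) * (u i + v i) / (p : ℚ) ^ (s - i + 1) =
      ∑ i ∈ Finset.range s, ((p : ℚ) - 1) * u i / (p : ℚ) ^ (s - i + 1) +
      ∑ i ∈ Finset.range s, ((p : ℚ) - 1) * v i / (p : ℚ) ^ (s - i + 1) := by
    rw [← Finset.sum_add_distrib]
    refine Finset.sum_congr rfl fun i _ => ?_
    ring
  rw [Yq, Yq, Yq, h1]
  ring

private theorem N2_Yq_mul {p : ℕ} (c : ℚ) (u : ℕ → ℚ) (s : ℕ) :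
    Yq p (fun t => c * u t) s = c * Yq p u s := by
  have h1 : ∑ i ∈ Finset.range s, ((p : ℚ) - 1) * (c * u i) / (p : ℚ) ^ (s - i + 1) =
      c * ∑ i ∈ Finset.range s, ((p : ℚ) - 1) * u i / (p : ℚ) ^ (s - i + 1) := by
    rw [Finset.mul_sum]
    refine Finset.sum_congr rfl fun i _ => ?_
    ring
  rw [Yq, Yq, h1]
  ring

/-- additivity of `X_i` in the exponents -/
private theorem N2_Xq_add {p r : ℕ} (e e' : Fin r → ℕ) (i : ℕ) :
    Xq p r (ue p (jN (fun t => e t + e' t))) i =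
      Xq p r (ue p (jN e)) i + Xq p r (ue p (jN e')) i := by
  rw [Xq, Xq, Xq, ← Finset.sum_add_distrib]
  refine Finset.sum_congr rfl fun s _ => ?_
  rw [← mul_add, ← N2_Yq_add]
  congr 2
  funext t
  rw [N2_jN_add, N2_ue_add]
  push_cast
  ring

private theorem N2_Xq_mul {p r : ℕ} (c : ℕ) (e : Fin r → ℕ) (i : ℕ) :
    Xq p r (ue p (jN (fun t => c * e t))) i = (c : ℚ) * Xq p r (ue p (jN e)) i := by
  rw [Xq, Xq, Finset.mul_sum]
  refine Finset.sum_congr rfl fun s _ => ?_
  rw [mul_left_comm, ← N2_Yq_mul (c : ℚ)]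
  congr 2
  funext t
  rw [N2_jN_mul, N2_ue_mul]
  push_cast
  ring

private theorem N2_rec {p : ℕ} (hp : 0 < p) (u : ℕ → ℚ) (s : ℕ) :
    Yq p u (s + 1) = (u (s + 1) - u s + Yq p u s) / p := by
  have hp' : (p : ℚ) ≠ 0 := by exact_mod_cast hp.ne'
  rw [Yq, Yq, Finset.sum_range_succ]
  have h1 : ∑ i ∈ Finset.range s, ((p : ℚ) - 1) * u i / (p : ℚ) ^ (s + 1 - i + 1) =
      (∑ i ∈ Finset.range s, ((p : ℚ) - 1) * u i / (p : ℚ) ^ (s - i + 1)) / p := by
    rw [Finset.sum_div]
    refine Finset.sum_congr rfl fun i hi => ?_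
    have h2 : s + 1 - i + 1 = (s - i + 1) + 1 := by
      have := Finset.mem_range.mp hi
      omega
    rw [h2, pow_succ (p : ℚ) (s - i + 1), div_div]
  have h3 : s + 1 - s + 1 = 2 := by omega
  rw [h1, h3]
  field_simp
  ring

/-- the denominator of `Y_s` divides `p^(s+1)` -/
private theorem N2_Yq_nat {p : ℕ} (hp : p.Prime) (u : ℕ → ℕ)
    (hu : ∀ s, p * u s ≤ u (s + 1)) (s : ℕ) :
    ∃ l : ℕ, Yq p (fun s => (u s : ℚ)) s = (l : ℚ) / (p : ℚ) ^ (s + 1) := by
  have hp' : (p : ℚ) ≠ 0 := by exact_mod_cast hp.ne_zero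
  induction s with
  | zero => exact ⟨u 0, by simp [Yq]⟩
  | succ s ih =>
    obtain ⟨l, hl⟩ := ih
    have hle : u s ≤ u (s + 1) := le_trans (Nat.le_mul_of_pos_left _ hp.pos) (hu s)
    refine ⟨(u (s + 1) - u s) * p ^ (s + 1) + l, ?_⟩
    rw [N2_rec hp.pos, hl]
    push_cast [Nat.cast_sub hle]
    field_simp
    ring

/-- after multiplication by `p^r` the `X_i` are natural numbers -/
private theorem N2_Xq_nat {p r : ℕ} (hp : p.Prime) (e : Fin r → ℕ) (i : ℕ) :
    ∃ k : ℕ, Xq p r (ue p (jN (fun t => p ^ r * e t))) i = k := by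
  have hp' : (p : ℚ) ≠ 0 := by exact_mod_cast hp.ne_zero
  rw [N2_Xq_mul, Xq, Finset.mul_sum]
  have h : ∀ s ∈ Finset.range r, ∃ k : ℕ, ((p ^ r : ℕ) : ℚ) *
      ((((i / p ^ s) % p : ℕ) : ℚ) * Yq p (fun s => ((ue p (jN e)) s : ℚ)) s) = k := by
    intro s hs
    rw [Finset.mem_range] at hs
    obtain ⟨l, hl⟩ := N2_Yq_nat hp (ue p (jN e)) (N2_ue_step (jN e)) s
    refine ⟨p ^ (r - (s + 1)) * (((i / p ^ s) % p) * l), ?_⟩
    have e1 : r = (s + 1) + (r - (s + 1)) := by omega
    rw [hl]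
    push_cast
    rw [show (p : ℚ) ^ r = (p : ℚ) ^ (s + 1) * (p : ℚ) ^ (r - (s + 1)) from by
      rw [← pow_add, ← e1]]
    field_simp
  choose! k hk using h
  refine ⟨∑ s ∈ Finset.range r, k s, ?_⟩
  rw [Finset.sum_congr rfl hk]
  push_cast
  rfl

private theorem N2_Xq_nonneg {p r : ℕ} (hp : p.Prime) (u : ℕ → ℕ)
    (hu : ∀ s, p * u s ≤ u (s + 1)) (i : ℕ) : 0 ≤ Xq p r u i := by
  rw [Xq]
  refine Finset.sum_nonneg fun s _ => ?_
  exact mul_nonneg (by positivity) (le_trans (by positivity) (Yq_ge hp u hu s))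

private theorem N2_Xq_nonneg' {p r : ℕ} (hp : p.Prime) (e : Fin r → ℕ) (i : ℕ) :
    0 ≤ Xq p r (ue p (jN e)) i :=
  N2_Xq_nonneg hp _ (N2_ue_step (jN e)) i

/-- zero or first nonzero coordinate -/
private theorem N2_first {r : ℕ} (e : Fin r → ℕ) (h : ∃ s, e s ≠ 0) :
    ∃ a : Fin r, e a ≠ 0 ∧ ∀ s : ℕ, s < a → jN e s = 0 := by
  classical
  obtain ⟨s0, hs0⟩ := h
  have hne : (Finset.univ.filter fun s => e s ≠ 0).Nonempty := ⟨s0, by simp [hs0]⟩
  refine ⟨(Finset.univ.filter fun s => e s ≠ 0).min' hne, ?_, ?_⟩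
  · have := Finset.min'_mem _ hne
    exact (Finset.mem_filter.mp this).2
  · intro s hs
    by_cases hr : s < r
    · by_contra hc
      have hc' : e ⟨s, hr⟩ ≠ 0 := by
        intro h0
        apply hc
        simp [jN, hr, h0]
      have := Finset.min'_le (Finset.univ.filter fun s => e s ≠ 0) ⟨s, hr⟩ (by simp [hc'])
      have h2 : (((Finset.univ.filter fun s => e s ≠ 0).min' hne : Fin r) : ℕ) ≤ s := this
      omega
    · simp [jN, hr]

private theorem N2_jN_zero {r : ℕ} (e : Fin r → ℕ) (h : ∀ s, e s = 0) (s : ℕ) : jN e s = 0 := by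
  by_cases hr : s < r
  · simp [jN, hr, h]
  · simp [jN, hr]

private theorem N2_Xq_zero {p r : ℕ} (e : Fin r → ℕ) (h : ∀ s, e s = 0) (i : ℕ) :
    Xq p r (ue p (jN e)) i = 0 := by
  rw [Xq]
  refine Finset.sum_eq_zero fun s _ => ?_
  rw [Yq_eq_zero (ue p (jN e)) (s + 1)
    (fun t ht => N2_ue_zero (jN e) (s + 1) (fun q _ => N2_jN_zero e h q) t ht) s
    (Nat.lt_succ_self s), mul_zero]

/-- the two cases for `X_i` -/
private theorem N2_dich {p r : ℕ} (hp : p.Prime) (e : Fin r → ℕ)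
    (he : ∀ s, e s = 0 ∨ ¬ p ∣ e s) (a : Fin r) (h1 : e a ≠ 0)
    (h2 : ∀ s : ℕ, s < a → jN e s = 0) (i : ℕ) (hi : i < p ^ r) :
    (Xq p r (ue p (jN e)) i = 0 ↔ i < p ^ (a : ℕ)) ∧
      (p ^ (a : ℕ) ≤ i → ∀ z : ℤ, Xq p r (ue p (jN e)) i ≠ z) := by
  have h3 : ¬ p ∣ ue p (jN e) a := by
    rw [N2_ue_first (jN e) a h2]
    have : jN e a = e a := by simp [jN]
    rw [this]
    exact (he a).resolve_left h1
  exact ⟨Xq_eq_zero_iff hp _ (N2_ue_step _) a a.2
    (fun s hs => N2_ue_zero (jN e) a h2 s hs) h3 i hi,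
    fun h4 z => Xq_not_int hp _ (N2_ue_step _) a a.2
    (fun s hs => N2_ue_zero (jN e) a h2 s hs) h3 i hi h4 z⟩

/-- the codimension depends only on the first nonzero coordinate -/
theorem cN_congr {p r n : ℕ} (hp : p.Prime) (m : Fin n → ℕ) (hm : ∀ B, m B ≤ p ^ r)
    (e e' : Fin r → ℕ) (he : ∀ s, e s = 0 ∨ ¬ p ∣ e s) (he' : ∀ s, e' s = 0 ∨ ¬ p ∣ e' s)
    (h : ∀ s, e s = 0 ↔ e' s = 0) :
    cN p r m (ue p (jN e)) = cN p r m (ue p (jN e')) := by
  classical
  have key : ∀ i, i < p ^ r → (Xq p r (ue p (jN e)) i ≠ 0 ↔ Xq p r (ue p (jN e')) i ≠ 0) := by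
    intro i hi
    by_cases hz : ∃ s, e s ≠ 0
    · obtain ⟨a, h1, h2⟩ := N2_first e hz
      have h1' : e' a ≠ 0 := fun h0 => h1 ((h a).mpr h0)
      have h2' : ∀ s : ℕ, s < a → jN e' s = 0 := by
        intro s hs
        have h3 := h2 s hs
        by_cases hr : s < r
        · simp only [jN, hr, dite_true] at h3 ⊢
          exact (h _).mp h3
        · simp [jN, hr]
      rw [not_iff_not, (N2_dich hp e he a h1 h2 i hi).1, (N2_dich hp e' he' a h1' h2' i hi).1]
    · push Not at hz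
      rw [N2_Xq_zero e hz, N2_Xq_zero e' (fun s => (h s).mp (hz s))]
  unfold cN
  congr 1
  refine Finset.filter_congr fun x _ => ?_
  exact key _ (lt_of_lt_of_le x.2.2 (hm x.1))

private theorem N2_vN_add {p r n : ℕ} (hp : p.Prime) (m : Fin n → ℕ) (e e' : Fin r → ℕ) :
    vN p r m (ue p (jN (fun t => e t + p ^ r * e' t))) =
      vN p r m (ue p (jN e)) + vN p r m (ue p (jN (fun t => p ^ r * e' t))) := by
  unfold vN
  rw [← Finset.sum_add_distrib]
  refine Finset.sum_congr rfl fun a _ => ?_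
  obtain ⟨k, hk⟩ := N2_Xq_nat hp e' (a.2 : ℕ)
  rw [N2_Xq_add, hk, Nat.ceil_add_natCast (N2_Xq_nonneg' hp e _), Nat.ceil_natCast]

private theorem N2_floor {p r : ℕ} (hp : p.Prime) (hr : 0 < r) (x y : ℕ) :
    (x + p ^ r * y) - (x + p ^ r * y) / p = (x - x / p) + (p ^ r * y - (p ^ r * y) / p) := by
  have h1 : p ^ r * y = p * (p ^ (r - 1) * y) := by
    rw [← mul_assoc, ← pow_succ']
    congr 2
    omega
  rw [h1, Nat.add_mul_div_left _ _ hp.pos, Nat.mul_div_cancel_left _ hp.pos]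
  have h2 : x / p ≤ x := Nat.div_le_self _ _
  have h3 : p ^ (r - 1) * y ≤ p * (p ^ (r - 1) * y) := Nat.le_mul_of_pos_left _ hp.pos
  omega

private theorem N2_wN_add {p r : ℕ} (hp : p.Prime) (e e' : Fin r → ℕ) :
    wN p (fun t => e t + p ^ r * e' t) = wN p e + wN p (fun t => p ^ r * e' t) := by
  unfold wN
  have h1 : ∑ s ∈ Finset.range (r - 1), ue p (jN (fun t => e t + p ^ r * e' t)) s =
      ∑ s ∈ Finset.range (r - 1), ue p (jN e) s +
      ∑ s ∈ Finset.range (r - 1), ue p (jN (fun t => p ^ r * e' t)) s := by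
    rw [← Finset.sum_add_distrib]
    refine Finset.sum_congr rfl fun s _ => ?_
    rw [N2_jN_add, N2_ue_add]
  have h2 : ∑ s : Fin r, ((e s + p ^ r * e' s) - (e s + p ^ r * e' s) / p) =
      ∑ s : Fin r, (e s - e s / p) + ∑ s : Fin r, (p ^ r * e' s - (p ^ r * e' s) / p) := by
    rw [← Finset.sum_add_distrib]
    refine Finset.sum_congr rfl fun s _ => ?_
    exact N2_floor hp (lt_of_le_of_lt (Nat.zero_le _) s.2) _ _
  rw [h1, h2]
  ring

private theorem N2_AN_add {p r n : ℕ} (hp : p.Prime) (m : Fin n → ℕ) (e e' : Fin r → ℕ) :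
    AN p m (fun t => e t + p ^ r * e' t) = AN p m e + AN p m (fun t => p ^ r * e' t) := by
  unfold AN
  rw [N2_vN_add hp, N2_wN_add hp]
  push_cast
  ring

/-- adding `p^r` to a nonzero coordinate -/
theorem AN_add {p r n : ℕ} (hp : p.Prime) (m : Fin n → ℕ) (hm : ∀ B, m B ≤ p ^ r)
    (e : Fin r → ℕ) (s : Fin r) :
    AN p m (fun t => if t = s then e t + p ^ r else e t) = AN p m e - dec p m s := by
  have h1 : (fun t => if t = s then e t + p ^ r else e t) =
      fun t => e t + p ^ r * (if t = s then 1 else 0) := by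
    funext t
    by_cases h : t = s <;> simp [h]
  have h2 : (fun t => if t = s then p ^ r else 0) =
      fun t : Fin r => p ^ r * (if t = s then 1 else 0) := by
    funext t
    by_cases h : t = s <;> simp [h]
  rw [h1, N2_AN_add hp, dec, h2]
  ring

private theorem N2_AN_zero {p r n : ℕ} (m : Fin n → ℕ) : AN p m (fun _ : Fin r => 0) = 0 := by
  have h1 : vN p r m (ue p (jN (fun _ : Fin r => 0))) = 0 := by
    unfold vN
    refine Finset.sum_eq_zero fun a _ => ?_
    rw [N2_Xq_zero _ (fun _ => rfl), Nat.ceil_zero]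
  have h2 : wN p (fun _ : Fin r => 0) = 0 := by
    unfold wN
    have h3 : ∑ s ∈ Finset.range (r - 1), ue p (jN (fun _ : Fin r => 0)) s = 0 :=
      Finset.sum_eq_zero fun s _ => N2_ue_zero _ (s + 1) (fun q _ => N2_jN_zero _ (fun _ => rfl) q)
        s (Nat.lt_succ_self s)
    rw [h3]
    simp
  rw [AN, h1, h2]
  simp

private theorem N2_AN_ind {p r n : ℕ} (hp : p.Prime) (m : Fin n → ℕ) (hm : ∀ B, m B ≤ p ^ r)
    (S : Finset (Fin r)) :
    AN p m (fun t => p ^ r * (if t ∈ S then 1 else 0)) = - ∑ s ∈ S, dec p m s := by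
  classical
  induction S using Finset.induction_on with
  | empty =>
    simp only [Finset.notMem_empty, if_false, mul_zero, Finset.sum_empty, neg_zero]
    exact N2_AN_zero m
  | insert s S hs ih =>
    have h1 : (fun t => p ^ r * (if t ∈ insert s S then 1 else 0)) =
        fun t => if t = s then (p ^ r * (if t ∈ S then 1 else 0)) + p ^ r
          else p ^ r * (if t ∈ S then 1 else 0) := by
      funext t
      by_cases h : t = s
      · subst h
        simp [hs]
      · simp [h]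
    rw [h1, AN_add hp m hm (fun t => p ^ r * (if t ∈ S then 1 else 0)) s, ih,
      Finset.sum_insert hs]
    ring

private theorem N2_ceil {x y : ℚ} {k : ℕ} (hx : 0 ≤ x) (hy : 0 ≤ y) (hk : x + y = k)
    (hn : ∀ z : ℤ, x ≠ z) : (⌈y⌉₊ : ℤ) + ⌈x⌉₊ = k + 1 := by
  have h1 : (⌈x⌉₊ : ℤ) = ⌈x⌉ := Int.natCast_ceil_eq_ceil hx
  have h2 : (⌈y⌉₊ : ℤ) = ⌈y⌉ := Int.natCast_ceil_eq_ceil hy
  rw [h1, h2]
  have h3 : y = (k : ℤ) - x := by
    push_cast
    linarith
  have h4 : ⌈y⌉ = (k : ℤ) - ⌊x⌋ := by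
    rw [h3, sub_eq_add_neg, add_comm, Int.ceil_add_intCast, Int.ceil_neg]
    ring
  have h5 : ⌈x⌉ = ⌊x⌋ + 1 := by
    rw [Int.ceil_eq_iff]
    push_cast
    refine ⟨?_, (Int.lt_floor_add_one x).le⟩
    have := lt_of_le_of_ne (Int.floor_le x) (fun h => hn _ h.symm)
    linarith
  rw [h4, h5]
  ring

private theorem N2_floor' {p r : ℕ} (hp : p.Prime) (hr : 0 < r) (x : ℕ) (hx : ¬ p ∣ x)
    (hb : x < p ^ r) :
    (p ^ r - x - (p ^ r - x) / p) + (x - x / p) = (p ^ r - p ^ r / p) + 1 := by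
  have h1 : p ^ r = p * p ^ (r - 1) := by
    rw [← pow_succ']
    congr 1
    omega
  have hdm := Nat.div_add_mod x p
  have hmod : 0 < x % p := Nat.pos_of_ne_zero fun h => hx (Nat.dvd_of_mod_eq_zero h)
  have hmod' : x % p < p := Nat.mod_lt _ hp.pos
  have hq : x / p < p ^ (r - 1) := by
    rw [Nat.div_lt_iff_lt_mul hp.pos, mul_comm, ← h1]
    exact hb
  have h2 : (p ^ r - x) / p = p ^ (r - 1) - x / p - 1 := by
    have h3 : p ^ r - x = p * (p ^ (r - 1) - x / p - 1) + (p - x % p) := by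
      obtain ⟨c, hc⟩ := Nat.exists_eq_add_of_lt hq
      have h5 : p ^ (r - 1) - x / p - 1 = c := by omega
      rw [h5, h1, hc]
      have h6 : p * (x / p + c + 1) = p * (x / p) + p * c + p := by ring
      rw [h6]
      omega
    rw [h3, Nat.mul_add_div hp.pos, Nat.div_eq_of_lt (a := p - x % p) (by omega), add_zero]
  have h7 : p ^ r / p = p ^ (r - 1) := by
    rw [h1, Nat.mul_div_cancel_left _ hp.pos]
  rw [h2, h7]
  have h8 : p ^ (r - 1) ≤ p ^ r := Nat.pow_le_pow_right hp.pos (by omega)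
  have h9 : x / p ≤ x := Nat.div_le_self _ _
  have h10 : p ^ (r - 1) - x / p - 1 ≤ p ^ r - x := by
    rw [← h2]
    exact Nat.div_le_self _ _
  omega

/-- the reflection `ρ ↦ p^r 1_S - ρ` -/
theorem AN_refl {p r n : ℕ} (hp : p.Prime) (m : Fin n → ℕ) (hm : ∀ B, m B ≤ p ^ r)
    (e : Fin r → ℕ) (he : ∀ s, e s = 0 ∨ ¬ p ∣ e s) (hb : ∀ s, e s < p ^ r) :
    AN p m (fun t => if e t = 0 then 0 else p ^ r - e t) +
      cN p r m (ue p (jN e)) =
      (nS e : ℤ) - (∑ s ∈ Finset.univ.filter (fun s => e s ≠ 0), dec p m s) - AN p m e := by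
  classical
  set e' : Fin r → ℕ := fun t => if e t = 0 then 0 else p ^ r - e t with he'
  set g : Fin r → ℕ := fun t => p ^ r *
    (if t ∈ Finset.univ.filter (fun s => e s ≠ 0) then 1 else 0) with hg
  have hsum : (fun t => e t + e' t) = g := by
    funext t
    by_cases h : e t = 0
    · simp [he', hg, h]
    · have := hb t
      simp only [he', hg, h, if_false, Finset.mem_filter, Finset.mem_univ, true_and,
        ne_eq, not_false_eq_true, if_true, mul_one]
      omega
  have hA : AN p m g = - ∑ s ∈ Finset.univ.filter (fun s => e s ≠ 0), dec p m s :=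
    N2_AN_ind hp m hm _
  -- the first number
  have hw : wN p e' + wN p e = wN p g + nS e := by
    unfold wN
    have h1 : ∑ s ∈ Finset.range (r - 1), ue p (jN g) s =
        ∑ s ∈ Finset.range (r - 1), ue p (jN e) s +
        ∑ s ∈ Finset.range (r - 1), ue p (jN e') s := by
      rw [← Finset.sum_add_distrib]
      refine Finset.sum_congr rfl fun s _ => ?_
      rw [← hsum, N2_jN_add, N2_ue_add]
    have h2 : ∑ s, (e' s - e' s / p) + ∑ s, (e s - e s / p) =
        ∑ s, (g s - g s / p) + nS e := by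
      rw [nS, Finset.card_filter, ← Finset.sum_add_distrib, ← Finset.sum_add_distrib]
      refine Finset.sum_congr rfl fun s _ => ?_
      by_cases h : e s = 0
      · simp [he', hg, h]
      · simp only [he', hg, h, if_false, Finset.mem_filter, Finset.mem_univ, true_and,
          ne_eq, not_false_eq_true, if_true, mul_one]
        exact N2_floor' hp (lt_of_le_of_lt (Nat.zero_le _) s.2) _ ((he s).resolve_left h) (hb s)
    rw [h1]
    calc (p - 1) * ∑ s ∈ Finset.range (r - 1), ue p (jN e') s + ∑ s, (e' s - e' s / p) +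
          ((p - 1) * ∑ s ∈ Finset.range (r - 1), ue p (jN e) s + ∑ s, (e s - e s / p)) =
          (p - 1) * (∑ s ∈ Finset.range (r - 1), ue p (jN e) s +
            ∑ s ∈ Finset.range (r - 1), ue p (jN e') s) +
          (∑ s, (e' s - e' s / p) + ∑ s, (e s - e s / p)) := by ring
      _ = _ := by
          rw [h2]
          ring
  -- the second number
  have hv : (vN p r m (ue p (jN e')) : ℤ) + vN p r m (ue p (jN e)) =
      vN p r m (ue p (jN g)) + cN p r m (ue p (jN e)) := by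
    unfold vN cN
    rw [Finset.card_filter]
    push_cast
    rw [← Finset.sum_add_distrib, ← Finset.sum_add_distrib]
    refine Finset.sum_congr rfl fun x _ => ?_
    have hi : (x.2 : ℕ) < p ^ r := lt_of_lt_of_le x.2.2 (hm x.1)
    have hadd : Xq p r (ue p (jN e)) x.2 + Xq p r (ue p (jN e')) x.2 =
        Xq p r (ue p (jN g)) x.2 := by
      rw [← hsum, N2_Xq_add]
    obtain ⟨k, hk⟩ := N2_Xq_nat hp
      (fun t => if t ∈ Finset.univ.filter (fun s => e s ≠ 0) then 1 else 0) (x.2 : ℕ)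
    have hk' : Xq p r (ue p (jN g)) x.2 = k := hk
    by_cases hz : ∃ s, e s ≠ 0
    · obtain ⟨a, h1, h2⟩ := N2_first e hz
      have hd := N2_dich hp e he a h1 h2 x.2 hi
      have he'p : ∀ s, e' s = 0 ∨ ¬ p ∣ e' s := by
        intro s
        by_cases h : e s = 0
        · left
          simp [he', h]
        · right
          simp only [he', h, if_false]
          intro hdv
          apply (he s).resolve_left h
          have h3 : p ∣ p ^ r := dvd_pow_self p (by
            have := s.2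
            omega)
          have h4 : e s = p ^ r - (p ^ r - e s) := by
            have := hb s
            omega
          rw [h4]
          exact Nat.dvd_sub h3 hdv
      have h1' : e' a ≠ 0 := by
        simp only [he', h1, if_false]
        have := hb a
        omega
      have h2' : ∀ s : ℕ, s < a → jN e' s = 0 := by
        intro s hs
        have h3 := h2 s hs
        by_cases hr : s < r
        · simp only [jN, hr, dite_true] at h3 ⊢
          simp [he', h3]
        · simp [jN, hr]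
      have hd' := N2_dich hp e' he'p a h1' h2' x.2 hi
      by_cases hlt : (x.2 : ℕ) < p ^ (a : ℕ)
      · have hX := hd.1.mpr hlt
        have hX' := hd'.1.mpr hlt
        rw [hX, hX'] at hadd
        rw [hX, hX', ← hadd]
        simp
      · have hge : p ^ (a : ℕ) ≤ (x.2 : ℕ) := by omega
        have hX : Xq p r (ue p (jN e)) x.2 ≠ 0 := fun h0 => hlt (hd.1.mp h0)
        rw [if_pos hX, hk', Nat.ceil_natCast]
        exact N2_ceil (N2_Xq_nonneg' hp e _) (N2_Xq_nonneg' hp e' _) (hadd.trans hk')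
          (hd.2 hge)
    · push Not at hz
      have hz' : ∀ s, e' s = 0 := fun s => by simp [he', hz s]
      have hX := N2_Xq_zero (p := p) e hz (x.2 : ℕ)
      have hX' := N2_Xq_zero (p := p) e' hz' (x.2 : ℕ)
      rw [hX, hX'] at hadd
      rw [hX, hX', ← hadd]
      simp
  have hw' : (wN p e' : ℤ) + wN p e = wN p g + nS e := by exact_mod_cast hw
  have h9 : AN p m g = (wN p g : ℤ) - vN p r m (ue p (jN g)) := rfl
  have h10 : AN p m e' = (wN p e' : ℤ) - vN p r m (ue p (jN e')) := rfl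
  have h11 : AN p m e = (wN p e : ℤ) - vN p r m (ue p (jN e)) := rfl
  rw [h9] at hA
  rw [h10, h11]
  linarith

end Pool.Agent.WC
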