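import Pool.Agent.WD.Defs
import Pool.Agent.WD.Comb

/-!
# MP_827cb6_ag : numerical functions for cyclic `p`-groups
-/

namespace Pool.Agent.WC

open Polynomial Pool.Agent.WD

noncomputable section

universe u

/-- upper ramification jumps from the pole orders of the coordinates of a reduced Witt vector -/
def up (p : ℕ) (j : ℕ → ℕ) : ℕ → ℕ
  | 0 => j 0
  | s + 1 => max (p * up p j s) (j (s + 1))

/-- `Y_s = u_s / p - ∑_{i < s} (p - 1) u_i / p^(s - i + 1)` -/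
def Yq (p : ℕ) (u : ℕ → ℚ) (s : ℕ) : ℚ :=
  u s / p - ∑ i ∈ Finset.range s, ((p : ℚ) - 1) * u i / (p : ℚ) ^ (s - i + 1)

/-- `X_i = ∑_s i_s Y_s`, where the `i_s` are the `p`-adic digits of `i` -/
def Xq (p r : ℕ) (u : ℕ → ℕ) (i : ℕ) : ℚ :=
  ∑ s ∈ Finset.range r, (((i / p ^ s) % p : ℕ) : ℚ) * Yq p (fun s => (u s : ℚ)) s

/-- the value of `v`  -/
def vN (p r : ℕ) {n : ℕ} (m : Fin n → ℕ) (u : ℕ → ℕ) : ℕ :=
  ∑ a : Ix n m, ⌈Xq p r u a.2⌉₊

open Classical in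
/-- the codimension of the fixed space -/
def cN (p r : ℕ) {n : ℕ} (m : Fin n → ℕ) (u : ℕ → ℕ) : ℕ :=
  (Finset.univ.filter fun a : Ix n m => Xq p r u a.2 ≠ 0).card

/-- extension by zero -/
def jN {r : ℕ} (J : Fin r → ℕ) : ℕ → ℕ := fun s => if h : s < r then J ⟨s, h⟩ else 0

/-- class of the set of all `f` with pole order `j`: `(q - 1) q^(j - 1 - ⌊j/p⌋)`, `q = X^2` -/
def mcls (p j : ℕ) : ℤ[X] := if j = 0 then 1 else (X ^ 2 - 1) * X ^ (2 * (j - 1 - j / p))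

/-- the admissible pole orders `≤ N`  -/
def box (p r N : ℕ) : Finset (Fin r → ℕ) :=
  Fintype.piFinset fun _ => (Finset.range (N + 1)).filter fun j => j = 0 ∨ ¬ p ∣ j

/-- the class of the level set `{v = a}` -/
def PW (p r : ℕ) {n : ℕ} (m : Fin n → ℕ) (a : ℕ) : ℤ[X] :=
  ∑ J ∈ (box p r ((p + 1) * a)).filter (fun J => vN p r m (up p (jN J)) = a), ∏ s, mcls p (J s)

/-- the class of the level set `{w = b}` -/
def QW (p r : ℕ) {n : ℕ} (m : Fin n → ℕ) (b : ℤ) : ℤ[X] :=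
  ∑ J ∈ (box p r ((p + 1) * (dimV m + (-b).toNat))).filter
    (fun J => (cN p r m (up p (jN J)) : ℤ) - (vN p r m (up p (jN J)) : ℤ) = b),
    ∏ s, mcls p (J s)

/-- one of the Jordan blocks has size `> p^(r-1)`, or the group is trivial -/
def FaithN (p r : ℕ) {n : ℕ} (m : Fin n → ℕ) : Prop := r = 0 ∨ ∃ B, p ^ (r - 1) < m B

/-- the exponents: `0` or prime to `p` -/
abbrev Ep (p : ℕ) : Type := {j : ℕ // j = 0 ∨ ¬ p ∣ j}

/-- the jumps `u_s = ∑_{i ≤ s} p^(s - i) e_i`, i.e. `u_s = p u_{s-1} + e_s` -/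
def ue (p : ℕ) (e : ℕ → ℕ) : ℕ → ℕ
  | 0 => e 0
  | s + 1 => p * ue p e s + e (s + 1)

/-- number of the nonzero coordinates -/
def nS {r : ℕ} (e : Fin r → ℕ) : ℕ := (Finset.univ.filter fun s => e s ≠ 0).card

/-- `(p - 1) ∑_{1 ≤ s < r} u_{s-1} + ∑_s (e_s - ⌊e_s / p⌋)` -/
def wN (p : ℕ) {r : ℕ} (e : Fin r → ℕ) : ℕ :=
  (p - 1) * ∑ s ∈ Finset.range (r - 1), ue p (jN e) s + ∑ s, (e s - e s / p)

/-- the exponent `A(e) = wN(e) - v(e)` -/
def AN (p : ℕ) {r n : ℕ} (m : Fin n → ℕ) (e : Fin r → ℕ) : ℤ :=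
  (wN p e : ℤ) - vN p r m (ue p (jN e))

/-- the decrement `c_s = -(linear part of A)(p^r 1_s)` -/
def dec (p : ℕ) {r n : ℕ} (m : Fin n → ℕ) (s : Fin r) : ℤ :=
  -AN p m (fun t => if t = s then p ^ r else 0)

end

end Pool.Agent.WC
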