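import Pool.Agent.WC.Final
import Pool.Agent.WD.St

/-!
# MP_827cb6_ag : the statement for the cyclic `p`-groups

The same notions as in `Defs`, with the field `L_c` as a type of its own.
-/

namespace Pool.Agent.WC

open Polynomial Filter Pool.Agent.WD

noncomputable section

universe u

variable {p : ℕ} [Fact p.Prime] {k : Type u} [Field k] [IsAlgClosed k] [CharP k p] {r n : ℕ}

/-- The field `L_c = K(z_0, ..., z_{r-1})`, `K = k((t))`, where `F(z) - z = (f_0, ..., f_{r-1})` in
the Witt vectors. -/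
def LTw (c : Par p r k) : Type u := Lw c

instance instFieldLTw (c : Par p r k) : Field (LTw c) := (Lw c).toField

instance instAlgKLTw (c : Par p r k) : Algebra (LaurentSeries k) (LTw c) := (Lw c).algebra'

instance instAlgOLTw (c : Par p r k) : Algebra (PowerSeries k) (LTw c) := (Lw c).algebra'

/-- the Galois group of `L_c / K` -/
abbrev GalTw (c : Par p r k) : Type u := LTw c ≃ₐ[LaurentSeries k] LTw c

/-- the inclusion of `L_c` into `k((t^ℚ))` -/
def incTw (c : Par p r k) (x : LTw c) : Om k := Subtype.val (p := fun x => x ∈ Lw c) x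

/-- `z_s` as an element of `L_c` -/
def zTw (c : Par p r k) (s : Fin r) : LTw c := zL c s

/-- constants `k → L_c` -/
def cTw (c : Par p r k) : k →+* LTw c :=
  (algebraMap (LaurentSeries k) (LTw c)).comp HahnSeries.C

/-- the relation between `σ ∈ Gal(L_c / K)` and `g ∈ ℤ/p^r` : `σ(z) = z + g` for Witt vectors of
length `r` -/
def CorrTw (c : Par p r k) (σ : GalTw c) (g : ZMod (p ^ r)) : Prop :=
  ∀ s : Fin r, incTw c (σ (zTw c s)) = (wz c + ((g.val : ℕ) : WittVector p (Om k))).coeff s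

/-- `x ∈ L_c^V` is in the tuning module `Ξ_c`: it is integral and `σ(x) = ρ(g) x` whenever `g`
corresponds to `σ`. -/
def TunedW (m : Fin n → ℕ) (c : Par p r k) (x : Ix n m → LTw c) : Prop :=
  (∀ a, IsIntegral (PowerSeries k) (x a)) ∧
    ∀ (σ : GalTw c) (g : ZMod (p ^ r)), CorrTw c σ g →
      ∀ a, σ (x a) = ∑ b, cTw c (rhoW k p r m g a b) * x b

/-- the family `b` is a `k[[t]]`-basis of the tuning module -/
def TBasisW (m : Fin n → ℕ) (c : Par p r k) (b : Ix n m → Ix n m → LTw c) : Prop :=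
  (∀ i, TunedW m c (b i)) ∧ ∀ x : Ix n m → LTw c, TunedW m c x →
    ∃! u : Ix n m → PowerSeries k, ∀ a, x a = ∑ i, algebraMap (PowerSeries k) (LTw c) (u i) * b i a

/-- `v(c) = a`: the determinant of a `k[[t]]`-basis of `Ξ_c` is `t^a` times a unit of `k[[t]]`. -/
def VTw (m : Fin n → ℕ) (c : Par p r k) (a : ℕ) : Prop :=
  ∃ (b : Ix n m → Ix n m → LTw c) (v : (PowerSeries k)ˣ), TBasisW m c b ∧
    Matrix.det b = algebraMap (PowerSeries k) (LTw c) ((v : PowerSeries k) * PowerSeries.X ^ a)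

/-- `V^H`, where `H ⊆ ℤ/p^r` is the image of the Galois group of `L_c / K` -/
def FixTw (m : Fin n → ℕ) (c : Par p r k) : Submodule k (Ix n m → k) :=
  Submodule.span k {x | ∀ (σ : GalTw c) (g : ZMod (p ^ r)), CorrTw c σ g →
    (rhoW k p r m g).mulVec x = x}

/-- `w(c) = b`, where `w(c) = codim V^H - v(c)` -/
def WTw (m : Fin n → ℕ) (c : Par p r k) (b : ℤ) : Prop :=
  ∃ a : ℕ, VTw m c a ∧ b = (dimV m : ℤ) - Module.finrank k (FixTw m c) - a

end

end Pool.Agent.WC
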