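import Pool.Agent.WC.St

/-! # The statement of `St` follows from `finalW` -/

namespace Pool.Agent.WC

open Polynomial Filter Pool.Agent.WD

universe u

section

variable {p : ℕ} [Fact p.Prime] {k : Type u} [Field k] [IsAlgClosed k] [CharP k p] {r n : ℕ}

theorem tunedW_iff (m : Fin n → ℕ) (c : Par p r k) (x : Ix n m → LTw c) :
    TunedW m c x ↔ (x : Ix n m → Lw c) ∈ TuningW m c := Iff.rfl

theorem vTw_iff (m : Fin n → ℕ) (c : Par p r k) (a : ℕ) :
    VTw m c a ↔ IsVW m c a := by
  classical
  constructor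
  · rintro ⟨b, v, ⟨hb1, hb2⟩, hdet⟩
    let b' : Ix n m → TuningW m c := fun i => ⟨b i, hb1 i⟩
    have hcoe : ∀ (u : Ix n m → PowerSeries k) (a : Ix n m),
        ((∑ i, u i • b' i : TuningW m c) : Ix n m → Lw c) a =
          ∑ i, algebraMap (PowerSeries k) (Lw c) (u i) * (b' i : Ix n m → Lw c) a := by
      intro u a
      rw [Submodule.coe_sum, Finset.sum_apply]
      refine Finset.sum_congr rfl fun i _ => ?_
      rw [Submodule.coe_smul, Pi.smul_apply, Algebra.smul_def]
    have hli : LinearIndependent (PowerSeries k) b' := by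
      rw [Fintype.linearIndependent_iff]
      intro g hg i
      obtain ⟨u, hu, huu⟩ := hb2 (fun _ => 0) (TuningW m c).zero_mem
      have h1 : g = u := by
        apply huu
        intro a
        have h2 := hcoe g a
        rw [hg] at h2
        exact h2
      have h3 : (fun _ => 0 : Ix n m → PowerSeries k) = u := by
        apply huu
        intro a
        simp
      rw [h1, ← h3]
    have hsp : ⊤ ≤ Submodule.span (PowerSeries k) (Set.range b') := by
      rintro ⟨x, hx⟩ _
      obtain ⟨u, hu, -⟩ := hb2 x hx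
      have h1 : (⟨x, hx⟩ : TuningW m c) = ∑ i, u i • b' i := by
        apply Subtype.ext
        funext a
        rw [hcoe u a]
        exact hu a
      rw [h1]
      exact Submodule.sum_mem _ fun i _ =>
        Submodule.smul_mem _ _ (Submodule.subset_span ⟨i, rfl⟩)
    refine ⟨Module.Basis.mk hli hsp, v, ?_⟩
    have h2 : (fun i a => ((Module.Basis.mk hli hsp i : TuningW m c) : Ix n m → Lw c) a) = b := by
      funext i a
      rw [Module.Basis.mk_apply]
    rw [h2]
    exact hdet
  · rintro ⟨b, v, hdet⟩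
    refine ⟨fun i => (b i : Ix n m → Lw c), v, ⟨fun i => (b i).2, ?_⟩, hdet⟩
    intro x hx
    have hcoe : ∀ (u : Ix n m → PowerSeries k) (a : Ix n m),
        ((∑ i, u i • b i : TuningW m c) : Ix n m → Lw c) a =
          ∑ i, algebraMap (PowerSeries k) (Lw c) (u i) * (b i : Ix n m → Lw c) a := by
      intro u a
      rw [Submodule.coe_sum, Finset.sum_apply]
      refine Finset.sum_congr rfl fun i _ => ?_
      rw [Submodule.coe_smul, Pi.smul_apply, Algebra.smul_def]
    refine ⟨fun i => b.repr ⟨x, hx⟩ i, fun a => ?_, fun u hu => ?_⟩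
    · have h1 := hcoe (fun i => b.repr ⟨x, hx⟩ i) a
      rw [b.sum_repr] at h1
      exact h1
    · have h1 : (⟨x, hx⟩ : TuningW m c) = ∑ i, u i • b i := by
        apply Subtype.ext
        funext a
        rw [hcoe u a]
        exact hu a
      funext i
      rw [h1, b.repr_sum_self]

theorem fixTw_eq (m : Fin n → ℕ) (c : Par p r k) : FixTw m c = fixedW m c := by
  have h : {x : Ix n m → k | ∀ (σ : GalTw c) (g : ZMod (p ^ r)), CorrTw c σ g →
      (rhoW k p r m g).mulVec x = x} = (fixedW m c : Set (Ix n m → k)) := by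
    ext x
    constructor
    · rintro h g ⟨σ, hσ⟩
      exact h σ g hσ
    · intro h σ g hσ
      exact h g ⟨σ, hσ⟩
  rw [FixTw, h, Submodule.span_eq]

end

theorem finalW' (p : ℕ) [Fact p.Prime] (k : Type u) [Field k] [IsAlgClosed k] [CharP k p]
    {r n : ℕ} (m : Fin n → ℕ) (hm : ∀ B, m B ≤ p ^ r) (hf : FaithfulW k p r m)
    (e : Realization k) :
    (∀ c : Par p r k, ∃! a, VTw m c a) ∧
    ∃ (P : ℕ → ℤ[X]) (Q : ℤ → ℤ[X]),
      (∀ a, HasClass e {c : Par p r k | VTw m c a} (P a)) ∧
      (∀ b, HasClass e {c : Par p r k | WTw m c b} (Q b)) ∧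
      (Converges P → DualSums (dimV m) P Q) := by
  obtain ⟨h1, P, Q, hP, hQ, h⟩ := finalW p k m hm hf e
  have h0 : ∀ (c : Par p r k) (a : ℕ), VTw m c a ↔ vW m c = a := by
    intro c a
    rw [vTw_iff, isVW_iff m hm c a, vW_eq m hm c]
    exact eq_comm
  refine ⟨fun c => ?_, P, Q, fun a => ?_, fun b => ?_, h⟩
  · obtain ⟨a, ha, hu⟩ := h1 c
    exact ⟨a, (vTw_iff m c a).mpr ha, fun y hy => hu y ((vTw_iff m c y).mp hy)⟩
  · have h2 : {c : Par p r k | VTw m c a} = {c : Par p r k | vW m c = a} := by
      ext c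
      exact h0 c a
    rw [h2]
    exact hP a
  · have h2 : {c : Par p r k | WTw m c b} = {c : Par p r k | wW m c = b} := by
      ext c
      constructor
      · rintro ⟨a, ha, hb⟩
        change wW m c = b
        rw [wW, hb, fixTw_eq, (h0 c a).mp ha]
      · intro hb
        refine ⟨vW m c, (h0 c _).mpr rfl, ?_⟩
        rw [fixTw_eq]
        exact hb.symm
    rw [h2]
    exact hQ b

end Pool.Agent.WC
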