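import Pool.Agent.WC.T1

/-! # The filtration of the Witt vectors (piece WC-T2) -/

namespace Pool.Agent.WC

open Pool.Agent.WD

universe u w

variable {p : ℕ} [Fact p.Prime] {k : Type u} [Field k] [CharP k p] {L : Type w} [Field L]
  [CharP L p]

omit [Fact p.Prime] in
private theorem T2_charP (p : ℕ) (k : Type u) [Field k] [CharP k p] : CharP (Om k) p := by
  have h : Function.Injective (HahnSeries.C : k →+* Om k) := HahnSeries.C_injective
  exact charP_of_injective_ringHom h p

/-- the valuation ring -/
private noncomputable def T2_S (k : Type u) [Field k] : Subring (Om k) where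
  carrier := {x | 0 ≤ x.orderTop}
  mul_mem' := by
    intro a b ha hb
    have ha' : (0 : WithTop ℚ) ≤ a.orderTop := ha
    have hb' : (0 : WithTop ℚ) ≤ b.orderTop := hb
    have h : a.orderTop + b.orderTop ≤ (a * b).orderTop := HahnSeries.orderTop_add_le_mul
    exact le_trans (add_nonneg ha' hb') h
  one_mem' := by
    change (0 : WithTop ℚ) ≤ (1 : Om k).orderTop
    rw [HahnSeries.orderTop_one]
  add_mem' := by
    intro a b ha hb
    have ha' : (0 : WithTop ℚ) ≤ a.orderTop := ha
    have hb' : (0 : WithTop ℚ) ≤ b.orderTop := hb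
    have h : min a.orderTop b.orderTop ≤ (a + b).orderTop :=
      HahnSeries.min_orderTop_le_orderTop_add
    exact le_trans (le_min ha' hb') h
  zero_mem' := by
    change (0 : WithTop ℚ) ≤ (0 : Om k).orderTop
    rw [HahnSeries.orderTop_zero]
    exact le_top
  neg_mem' := by
    intro a ha
    change (0 : WithTop ℚ) ≤ (-a).orderTop
    rw [HahnSeries.orderTop_neg]
    exact ha

private theorem T2_mem {y : Om k} : y ∈ T2_S k ↔ 0 ≤ y.orderTop := Iff.rfl

private theorem T2_order (x : ℚ) (i : ℕ) (y : Om k) :
    (HahnSeries.single x (1 : k)) ^ (p ^ i) * y ∈ T2_S k ↔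
      qv (-x * (p : ℚ) ^ i) ≤ y.orderTop := by
  rw [T2_mem, HahnSeries.single_pow, one_pow, HahnSeries.orderTop_mul,
    HahnSeries.orderTop_single one_ne_zero]
  have h : ((p ^ i) • x : ℚ) = x * (p : ℚ) ^ i := by
    rw [nsmul_eq_mul]
    push_cast
    ring
  rw [h]
  cases hy : y.orderTop with
  | top => simp
  | coe q =>
    rw [← WithTop.coe_add, ← WithTop.coe_zero, WithTop.coe_le_coe, WithTop.coe_le_coe]
    constructor <;> intro h <;> linarith

private theorem T2_iff {V : VF k L} {x : ℚ} {n : ℕ} {a : WittVector p L} :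
    Fl p V x n a ↔ ∀ i < n, (WittVector.teichmuller p (HahnSeries.single x (1 : k)) *
      WittVector.map V.phi a).coeff i ∈ T2_S k := by
  haveI : CharP (Om k) p := T2_charP p k
  refine forall_congr' fun i => forall_congr' fun _ => ?_
  rw [coeff_teichmuller_mul, T2_order, WittVector.map_coeff]
  exact Iff.rfl

/-- In `k((t^ℚ))` multiply by the Teichmueller representative of `t^x`: then all the first `n`
coordinates are in the valuation ring `{order ≥ 0}`, which is a subring. -/
theorem Fl.add {V : VF k L} {x : ℚ} {n : ℕ} {a b : WittVector p L} (ha : Fl p V x n a)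
    (hb : Fl p V x n b) : Fl p V x n (a + b) := by
  haveI : CharP (Om k) p := T2_charP p k
  rw [T2_iff] at ha hb ⊢
  rw [map_add, mul_add]
  exact coeff_add_mem (T2_S k) ha hb

theorem Fl.sub {V : VF k L} {x : ℚ} {n : ℕ} {a b : WittVector p L} (ha : Fl p V x n a)
    (hb : Fl p V x n b) : Fl p V x n (a - b) := by
  haveI : CharP (Om k) p := T2_charP p k
  rw [T2_iff] at ha hb ⊢
  rw [map_sub, mul_sub]
  exact coeff_sub_mem (T2_S k) ha hb

theorem Fl.mono {V : VF k L} {x y : ℚ} {n : ℕ} {a : WittVector p L} (ha : Fl p V x n a)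
    (h : x ≤ y) : Fl p V y n a := by
  intro i hi
  refine le_trans (WithTop.coe_le_coe.2 ?_) (ha i hi)
  have h1 : (0 : ℚ) ≤ (p : ℚ) ^ i := by positivity
  nlinarith

theorem Fl.frobenius {V : VF k L} {x : ℚ} {n : ℕ} {a : WittVector p L} (ha : Fl p V x n a) :
    Fl p V (p * x) n (WittVector.frobenius a) := by
  intro i hi
  rw [WittVector.coeff_frobenius_charP, VF.v, map_pow]
  refine le_trans ?_ HahnSeries.orderTop_nsmul_le_orderTop_pow
  refine le_trans ?_ (nsmul_le_nsmul_right (ha i hi) p)
  rw [← WithTop.coe_nsmul, WithTop.coe_le_coe, nsmul_eq_mul]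
  apply le_of_eq
  ring

private theorem T2_iter (m : ℕ) : ∀ (a : WittVector p L) (i : ℕ),
    ((WittVector.verschiebung)^[m] a).coeff i = if i < m then 0 else a.coeff (i - m) := by
  induction m with
  | zero =>
    intro a i
    rw [Function.iterate_zero, id, if_neg (by omega), Nat.sub_zero]
  | succ m ih =>
    intro a i
    rw [Function.iterate_succ', Function.comp_apply]
    cases i with
    | zero => rw [WittVector.verschiebung_coeff_zero, if_pos (by omega)]
    | succ i =>
      rw [WittVector.verschiebung_coeff_succ, ih]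
      by_cases h : i < m
      · rw [if_pos h, if_pos (by omega)]
      · rw [if_neg h, if_neg (by omega), Nat.succ_sub_succ]

private theorem T2_v_zero (V : VF k L) : V.v 0 = ⊤ := by
  rw [VF.v, map_zero, HahnSeries.orderTop_zero]

/-- `[u]` and `V^m [u]` -/
theorem Fl.iterate {V : VF k L} {x : ℚ} (hx : 0 ≤ x) {n m : ℕ} {y : L}
    (h : qv (-x * (p : ℚ) ^ m) ≤ V.v y) :
    Fl p V x n ((WittVector.verschiebung)^[m] (WittVector.teichmuller p y)) := by
  intro i _
  rw [T2_iter]
  rcases lt_trichotomy i m with h1 | h1 | h1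
  · rw [if_pos h1, T2_v_zero]
    exact le_top
  · rw [if_neg (by omega), h1, Nat.sub_self, WittVector.teichmuller_coeff_zero]
    exact h
  · rw [if_neg (by omega), WittVector.teichmuller_coeff_pos p y _ (by omega), T2_v_zero]
    exact le_top

theorem Fl_verschiebung {V : VF k L} {x : ℚ} (hx : 0 ≤ x) {n : ℕ} {a : WittVector p L} :
    Fl p V x (n + 1) (WittVector.verschiebung a) ↔ Fl p V (p * x) n a := by
  have h0 : ∀ i : ℕ, qv (-x * (p : ℚ) ^ (i + 1)) = qv (-(p * x) * (p : ℚ) ^ i) := by
    intro i
    congr 1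
    ring
  constructor
  · intro h i hi
    have h1 := h (i + 1) (by omega)
    rw [WittVector.verschiebung_coeff_succ, h0] at h1
    exact h1
  · intro h i hi
    cases i with
    | zero =>
      rw [WittVector.verschiebung_coeff_zero, T2_v_zero]
      exact le_top
    | succ i =>
      rw [WittVector.verschiebung_coeff_succ, h0]
      exact h i (by omega)

end Pool.Agent.WC
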