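import Pool.Agent.WC.T1

/-! # The operators `F^s d` (piece WC-T3) -/

namespace Pool.Agent.WC

open Pool.Agent.WD

universe u w

section T3aux

open MvPolynomial

/-- The polynomial ring in two sequences of variables. -/
private abbrev T3R : Type := MvPolynomial (Fin 2 × ℕ) ℤ

/-- The universal derivation. -/
private noncomputable def T3D : Derivation ℤ T3R ((Fin 2 × ℕ) →₀ T3R) :=
  mkDerivation ℤ fun j => Finsupp.single j 1

/-- `∑_{i ≤ s} z_i^(p^(s-i) - 1) d z_i` -/
private noncomputable def T3S (p s : ℕ) (z : ℕ → T3R) : (Fin 2 × ℕ) →₀ T3R :=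
  ∑ i ∈ Finset.range (s + 1), z i ^ (p ^ (s - i) - 1) • T3D (z i)

private theorem T3_ghost (p s : ℕ) (z : ℕ → T3R) :
    T3D (∑ i ∈ Finset.range (s + 1), C ((p : ℤ) ^ i) * z i ^ p ^ (s - i)) =
      ((p : ℤ) ^ s) • T3S p s z := by
  rw [map_sum, T3S, Finset.smul_sum]
  refine Finset.sum_congr rfl fun i hi => ?_
  have hi' : i ≤ s := Nat.lt_succ_iff.1 (Finset.mem_range.1 hi)
  have h1 : (p : ℤ) ^ s = (p : ℤ) ^ i * ((p ^ (s - i) : ℕ) : ℤ) := by
    rw [Nat.cast_pow, ← pow_add, Nat.add_sub_cancel' hi']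
  rw [C_mul', Derivation.map_smul, Derivation.leibniz_pow, h1, mul_smul, natCast_zsmul]

private theorem T3_add (p : ℕ) [Fact p.Prime] (s : ℕ) :
    T3S p s (WittVector.wittAdd p) = T3S p s (fun i => X (0, i)) + T3S p s (fun i => X (1, i)) := by
  have h1 := wittStructureInt_prop p (X 0 + X 1 : MvPolynomial (Fin 2) ℤ) s
  have h2 : ∑ i ∈ Finset.range (s + 1),
      (C ((p : ℤ) ^ i) * (WittVector.wittAdd p i) ^ p ^ (s - i) : T3R) =
      ∑ i ∈ Finset.range (s + 1), (C ((p : ℤ) ^ i) * (X (0, i)) ^ p ^ (s - i) : T3R) +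
      ∑ i ∈ Finset.range (s + 1), (C ((p : ℤ) ^ i) * (X (1, i)) ^ p ^ (s - i) : T3R) := by
    rw [wittPolynomial_eq_sum_C_mul_X_pow] at h1
    simp only [map_sum, map_mul, map_pow, map_add, bind₁_X_right, rename_X, algHom_C,
      algebraMap_eq] at h1
    simp only [C_pow]
    exact h1
  have h3 := congrArg T3D h2
  rw [map_add, T3_ghost, T3_ghost, T3_ghost, ← smul_add] at h3
  have hp : (p : ℤ) ^ s ≠ 0 := pow_ne_zero _ (by exact_mod_cast (Fact.out : p.Prime).ne_zero)
  exact smul_right_injective _ hp h3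

variable {L : Type w} [Field L]

/-- Specialisation of the differentials. -/
private noncomputable def T3P (d : Derivation ℤ L L) (f : Fin 2 × ℕ → L) :
    ((Fin 2 × ℕ) →₀ T3R) →+ L :=
  Finsupp.liftAddHom fun j =>
    (AddMonoidHom.mulRight (d (f j))).comp (aeval f : T3R →ₐ[ℤ] L).toRingHom.toAddMonoidHom

private theorem T3P_single (d : Derivation ℤ L L) (f : Fin 2 × ℕ → L) (j : Fin 2 × ℕ) (P : T3R) :
    T3P d f (Finsupp.single j P) = aeval f P * d (f j) := by
  rw [T3P, Finsupp.liftAddHom_apply_single]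
  rfl

private theorem T3P_smul (d : Derivation ℤ L L) (f : Fin 2 × ℕ → L) (P : T3R)
    (m : (Fin 2 × ℕ) →₀ T3R) : T3P d f (P • m) = aeval f P * T3P d f m := by
  induction m using Finsupp.induction_linear with
  | zero => rw [smul_zero, map_zero, mul_zero]
  | add a b ha hb => rw [smul_add, map_add, map_add, ha, hb, mul_add]
  | single j Q =>
    rw [Finsupp.smul_single, smul_eq_mul, T3P_single, T3P_single, map_mul, mul_assoc]

private theorem T3P_D (d : Derivation ℤ L L) (f : Fin 2 × ℕ → L) (P : T3R) :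
    T3P d f (T3D P) = d (aeval f P) := by
  induction P using MvPolynomial.induction_on with
  | C a =>
    rw [derivation_C, map_zero, algHom_C, algebraMap_int_eq, eq_intCast, ← zsmul_one, map_zsmul,
      Derivation.map_one_eq_zero, smul_zero]
  | add a b ha hb => rw [map_add, map_add, map_add, map_add, ha, hb]
  | mul_X a j ha =>
    rw [Derivation.leibniz, map_add, T3P_smul, T3P_smul, ha, map_mul, Derivation.leibniz, aeval_X,
      smul_eq_mul, smul_eq_mul, T3D, mkDerivation_X, T3P_single, map_one, one_mul]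

private theorem T3P_S (d : Derivation ℤ L L) (f : Fin 2 × ℕ → L) (p s : ℕ) (z : ℕ → T3R) :
    T3P d f (T3S p s z) =
      ∑ i ∈ Finset.range (s + 1), aeval f (z i) ^ (p ^ (s - i) - 1) * d (aeval f (z i)) := by
  rw [T3S, map_sum]
  refine Finset.sum_congr rfl fun i _ => ?_
  rw [T3P_smul, T3P_D, map_pow]

end T3aux

variable {p : ℕ} [Fact p.Prime] {k : Type u} [Field k] {L : Type w} [Field L] [CharP L p]

/-- `F^s d` is additive: apply `∂/∂X_j` to the identity `w_s(S) = w_s(X) + w_s(Y)` of the ghost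
components in `ℤ[X, Y]` and divide by `p^s`; then specialise (chain rule). -/
theorem Ds_add (V : VF k L) (s : ℕ) (a b : WittVector p L) :
    Ds p V s (a + b) = Ds p V s a + Ds p V s b := by
  have h1 := congrArg (T3P V.dd (Function.uncurry ![a.coeff, b.coeff])) (T3_add p s)
  rw [map_add, T3P_S, T3P_S, T3P_S] at h1
  simp only [MvPolynomial.aeval_X] at h1
  have h2 : ∀ i, MvPolynomial.aeval (Function.uncurry ![a.coeff, b.coeff])
      (WittVector.wittAdd p i) = (a + b).coeff i := by
    intro i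
    rw [WittVector.add_coeff]
    rfl
  simp only [h2] at h1
  exact h1

theorem Ds_sub (V : VF k L) (s : ℕ) (a b : WittVector p L) :
    Ds p V s (a - b) = Ds p V s a - Ds p V s b := by
  have h1 := Ds_add V s (a - b) b
  rw [sub_add_cancel] at h1
  rw [h1, add_sub_cancel_right]

theorem Ds_frobenius (V : VF k L) (s : ℕ) (a : WittVector p L) :
    Ds p V s (WittVector.frobenius a) = 0 := by
  rw [Ds]
  refine Finset.sum_eq_zero fun i _ => ?_
  have h1 : V.dd (a.coeff i ^ p) = 0 := by
    rw [Derivation.leibniz_pow, ← Nat.cast_smul_eq_nsmul L, CharP.cast_eq_zero, zero_smul]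
  rw [WittVector.coeff_frobenius_charP, h1, mul_zero]

theorem Ds_verschiebung (V : VF k L) (s : ℕ) (a : WittVector p L) :
    Ds p V (s + 1) (WittVector.verschiebung a) = Ds p V s a := by
  rw [Ds, Finset.sum_range_succ', Ds, WittVector.verschiebung_coeff_zero, map_zero, mul_zero,
    add_zero]
  refine Finset.sum_congr rfl fun i _ => ?_
  rw [WittVector.verschiebung_coeff_add_one, Nat.add_sub_add_right]

theorem Ds_teichmuller (V : VF k L) (s : ℕ) (y : L) :
    Ds p V s (WittVector.teichmuller p y) = y ^ (p ^ s - 1) * V.dd y := by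
  rw [Ds, Finset.sum_range_succ', WittVector.teichmuller_coeff_zero, Nat.sub_zero,
    Finset.sum_eq_zero, zero_add]
  intro i _
  rw [WittVector.teichmuller_coeff_pos p y (i + 1) (Nat.succ_pos i), map_zero, mul_zero]

end Pool.Agent.WC
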