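import Pool.Agent.WC.Abs

/-! # One Artin-Schreier step: elements and values (piece WC-T4) -/

namespace Pool.Agent.WC

open Pool.Agent.WD

universe u w

section

variable {p : ℕ} [Fact p.Prime] {k : Type u} [Field k] {L : Type w} [Field L]

theorem VF.v_zero (V : VF k L) : V.v 0 = ⊤ := by
  rw [VF.v, map_zero, HahnSeries.orderTop_zero]

theorem VF.v_eq_top_iff (V : VF k L) (x : L) : V.v x = ⊤ ↔ x = 0 := by
  rw [VF.v, HahnSeries.orderTop_eq_top, map_eq_zero]

theorem VF.v_mul (V : VF k L) (x y : L) : V.v (x * y) = V.v x + V.v y := by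
  rw [VF.v, map_mul, HahnSeries.orderTop_mul]
  rfl

theorem VF.v_pow (V : VF k L) (x : L) (n : ℕ) : V.v (x ^ n) = n • V.v x := by
  induction n with
  | zero =>
    rw [pow_zero, zero_smul, VF.v, map_one, HahnSeries.orderTop_one]
  | succ n ih => rw [pow_succ, VF.v_mul, ih, succ_nsmul]

theorem VF.v_add (V : VF k L) (x y : L) : min (V.v x) (V.v y) ≤ V.v (x + y) := by
  rw [VF.v, VF.v, VF.v, map_add]
  exact HahnSeries.min_orderTop_le_orderTop_add

theorem VF.v_add_of_lt (V : VF k L) {x y : L} (h : V.v x < V.v y) : V.v (x + y) = V.v x := by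
  rw [VF.v, VF.v, map_add]
  exact HahnSeries.orderTop_add_eq_left h

theorem VF.v_neg (V : VF k L) (x : L) : V.v (-x) = V.v x := by
  rw [VF.v, map_neg, HahnSeries.orderTop_neg]
  rfl

theorem VF.v_cc (V : VF k L) {a : k} (ha : a ≠ 0) : V.v (V.cc a) = 0 := by
  rw [VF.v, V.hcc, HahnSeries.C_apply, HahnSeries.orderTop_single ha]
  rfl

private theorem T4_cc_ne (V : VF k L) {a : k} (ha : a ≠ 0) : V.cc a ≠ 0 := by
  rw [Ne, map_eq_zero]
  exact ha

/-- the residue field is `k`  -/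
theorem VF.res (V : VF k L) {x y : L} (hx : x ≠ 0) (h : V.v x = V.v y) :
    ∃ a : k, a ≠ 0 ∧ V.v x < V.v (x - V.cc a * y) := by
  have hy : y ≠ 0 := by
    rintro rfl
    rw [V.v_zero, V.v_eq_top_iff] at h
    exact hx h
  have hX : V.phi x ≠ 0 := by rwa [Ne, map_eq_zero]
  have hY : V.phi y ≠ 0 := by rwa [Ne, map_eq_zero]
  have h1 : (V.phi x).leadingCoeff ≠ 0 := HahnSeries.leadingCoeff_ne_zero.2 hX
  have h2 : (V.phi y).leadingCoeff ≠ 0 := HahnSeries.leadingCoeff_ne_zero.2 hY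
  have ha : (V.phi x).leadingCoeff / (V.phi y).leadingCoeff ≠ 0 := div_ne_zero h1 h2
  refine ⟨(V.phi x).leadingCoeff / (V.phi y).leadingCoeff, ha, ?_⟩
  set a := (V.phi x).leadingCoeff / (V.phi y).leadingCoeff with hadef
  have h3 : V.v (V.cc a * y) = V.v x := by
    rw [V.v_mul, V.v_cc ha, zero_add, h]
  have h4 : (V.phi (V.cc a * y)).leadingCoeff = (V.phi x).leadingCoeff := by
    rw [map_mul, HahnSeries.leadingCoeff_mul, V.hcc, HahnSeries.C_apply,
      HahnSeries.leadingCoeff_of_single, hadef, div_mul_cancel₀ _ h2]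
  obtain ⟨g, hg⟩ : ∃ g : ℚ, V.v x = (g : WithTop ℚ) := by
    have h5 : V.v x ≠ ⊤ := by
      rw [Ne, V.v_eq_top_iff]
      exact hx
    exact ⟨(V.v x).untop h5, (WithTop.coe_untop _ h5).symm⟩
  have h6 : (V.phi x).orderTop = (g : WithTop ℚ) := hg
  have h7 : (V.phi (V.cc a * y)).orderTop = (g : WithTop ℚ) := by
    rw [← hg]
    exact h3
  have h8 := HahnSeries.orderTop_sub_ne h6 h7 h4.symm
  have h9 : min (V.phi x).orderTop (V.phi (V.cc a * y)).orderTop ≤
      (V.phi x - V.phi (V.cc a * y)).orderTop := HahnSeries.min_orderTop_le_orderTop_sub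
  rw [h6, h7, min_self] at h9
  have h10 : V.v (x - V.cc a * y) = (V.phi x - V.phi (V.cc a * y)).orderTop := by
    rw [VF.v, map_sub]
  rw [h10, hg]
  exact lt_of_le_of_ne h9 (Ne.symm h8)

private theorem T4_lt_sum (V : VF k L) {ι : Type*} (s : Finset ι) (f : ι → L) {c : WithTop ℚ}
    (hc : c < ⊤) (h : ∀ i ∈ s, c < V.v (f i)) : c < V.v (∑ j ∈ s, f j) := by
  classical
  induction s using Finset.induction_on with
  | empty =>
    rw [Finset.sum_empty, V.v_zero]
    exact hc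
  | insert a s ha ih =>
    rw [Finset.sum_insert ha]
    refine lt_of_lt_of_le ?_ (V.v_add _ _)
    rw [lt_min_iff]
    exact ⟨h a (Finset.mem_insert_self _ _), ih fun i hi => h i (Finset.mem_insert_of_mem hi)⟩

/-- several terms with pairwise different values -/
theorem VF.v_sum (V : VF k L) {ι : Type*} (s : Finset ι) (f : ι → L)
    (h : ∀ i ∈ s, ∀ j ∈ s, i ≠ j → V.v (f i) = V.v (f j) → V.v (f i) = ⊤) :
    (∀ i ∈ s, V.v (∑ j ∈ s, f j) ≤ V.v (f i)) ∧
      (s.Nonempty → ∃ i ∈ s, V.v (∑ j ∈ s, f j) = V.v (f i)) := by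
  classical
  rcases s.eq_empty_or_nonempty with rfl | hs
  · exact ⟨fun i hi => absurd hi (Finset.notMem_empty i), fun hs => absurd hs (by simp)⟩
  obtain ⟨i0, hi0, hmin⟩ := Finset.exists_min_image s (fun i => V.v (f i)) hs
  have key : V.v (∑ j ∈ s, f j) = V.v (f i0) := by
    by_cases ht : V.v (f i0) = ⊤
    · have h1 : ∀ j ∈ s, f j = 0 := by
        intro j hj
        rw [← V.v_eq_top_iff, ← top_le_iff, ← ht]
        exact hmin j hj
      rw [Finset.sum_eq_zero h1, V.v_zero, ht]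
    · rw [← Finset.add_sum_erase s f hi0]
      apply V.v_add_of_lt
      apply T4_lt_sum V _ _ (lt_top_iff_ne_top.2 ht)
      intro j hj
      rw [Finset.mem_erase] at hj
      refine lt_of_le_of_ne (hmin j hj.2) fun he => ht ?_
      exact h i0 hi0 j hj.2 (Ne.symm hj.1) he
  rw [key]
  exact ⟨hmin, fun _ => ⟨i0, hi0, rfl⟩⟩

end

section

variable {p : ℕ} [Fact p.Prime] {k : Type u} [Field k] {L : Type w} [Field L] [CharP L p]

/-- The elements of `M(y)` if `y^p - y ∈ M`: these sums are a ring (reduce the powers of `y`),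
finite over the field `M`, so a field. -/
theorem adj_repr (M : Subfield L) {y : L} (hy : y ^ p - y ∈ M) (x : L) (hx : x ∈ adj M y) :
    ∃ a : Fin p → L, (∀ i, a i ∈ M) ∧ x = ∑ i, a i * y ^ (i : ℕ) := by
  classical
  have hp : p.Prime := Fact.out
  let w : M := ⟨y ^ p - y, hy⟩
  let q : Polynomial M := Polynomial.X ^ p - (Polynomial.X + Polynomial.C w)
  have hdeg : (Polynomial.X + Polynomial.C w : Polynomial M).degree < (p : ℕ) := by
    rw [Polynomial.degree_X_add_C]
    exact_mod_cast hp.one_lt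
  have hq : q.Monic := Polynomial.monic_X_pow_sub hdeg
  have hqy : Polynomial.aeval y q = 0 := by
    change Polynomial.aeval y (Polynomial.X ^ p - (Polynomial.X + Polynomial.C w)) = 0
    rw [map_sub, map_add, map_pow, Polynomial.aeval_X, Polynomial.aeval_C]
    change y ^ p - (y + (y ^ p - y)) = 0
    ring
  have halg : IsAlgebraic M y := ⟨q, hq.ne_zero, hqy⟩
  have h1 : x ∈ IntermediateField.adjoin M {y} := by
    have h2 : adj M y ≤ (IntermediateField.adjoin M {y}).toSubfield := by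
      rw [adj, Subfield.closure_le]
      rintro z (hz | hz)
      · exact (IntermediateField.adjoin M {y}).algebraMap_mem ⟨z, hz⟩
      · rw [Set.mem_singleton_iff] at hz
        rw [hz]
        exact IntermediateField.mem_adjoin_simple_self M y
    exact h2 hx
  have h2 : x ∈ (IntermediateField.adjoin M {y}).toSubalgebra := h1
  rw [IntermediateField.adjoin_simple_toSubalgebra_of_isAlgebraic halg,
    Algebra.adjoin_singleton_eq_range_aeval] at h2
  obtain ⟨f, hf⟩ := h2
  have h3 : Polynomial.aeval y (f %ₘ q) = x := by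
    rw [Polynomial.aeval_modByMonic_eq_self_of_root hqy]
    exact hf
  have hqd : q.natDegree = p := by
    have h4 : q.degree = (p : ℕ) := by
      change (Polynomial.X ^ p - (Polynomial.X + Polynomial.C w)).degree = _
      rw [Polynomial.degree_sub_eq_left_of_degree_lt]
      · exact Polynomial.degree_X_pow p
      · rwa [Polynomial.degree_X_pow]
    exact Polynomial.natDegree_eq_of_degree_eq_some h4
  have h5 : (f %ₘ q).natDegree < p := by
    have h6 := Polynomial.natDegree_modByMonic_lt f hq (by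
      intro h1
      rw [h1, Polynomial.natDegree_one] at hqd
      exact hp.ne_zero hqd.symm)
    rwa [hqd] at h6
  refine ⟨fun i => ((f %ₘ q).coeff i : M), fun i => ((f %ₘ q).coeff i).2, ?_⟩
  rw [← h3, Polynomial.aeval_eq_sum_range' h5, Finset.sum_range]
  refine Finset.sum_congr rfl fun i _ => ?_
  rfl

/-- `v(y) = v(w)/p` -/
theorem v_of_root (V : VF k L) {y : L} {x : ℚ} (hx : x < 0) (h : V.v (y ^ p - y) = qv x) :
    V.v y = qv (x / p) := by
  have hp : p.Prime := Fact.out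
  have hp2 : (2 : ℚ) ≤ p := by exact_mod_cast hp.two_le
  have hy : V.v y ≠ ⊤ := by
    intro h1
    rw [V.v_eq_top_iff] at h1
    rw [h1, zero_pow hp.ne_zero, sub_zero, V.v_zero] at h
    exact WithTop.top_ne_coe h
  obtain ⟨c, hc⟩ : ∃ c : ℚ, V.v y = (c : WithTop ℚ) :=
    ⟨(V.v y).untop hy, (WithTop.coe_untop _ hy).symm⟩
  have h1 : V.v (y ^ p) = ((p * c : ℚ) : WithTop ℚ) := by
    rw [V.v_pow, hc, ← WithTop.coe_nsmul, nsmul_eq_mul]
  have h2 : V.v (-y) = (c : WithTop ℚ) := by rw [V.v_neg, hc]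
  rcases lt_or_ge c 0 with hc0 | hc0
  · have h3 : V.v (y ^ p) < V.v (-y) := by
      rw [h1, h2, WithTop.coe_lt_coe]
      nlinarith
    have h4 := V.v_add_of_lt h3
    rw [← sub_eq_add_neg, h, h1] at h4
    have h5 : x = p * c := WithTop.coe_injective h4
    rw [hc, h5]
    congr 1
    field_simp
  · exfalso
    have h3 := V.v_add (y ^ p) (-y)
    rw [← sub_eq_add_neg, h, h1, h2, min_le_iff] at h3
    rcases h3 with h3 | h3
    · have h4 : p * c ≤ x := WithTop.coe_le_coe.1 h3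
      nlinarith
    · have h4 : c ≤ x := WithTop.coe_le_coe.1 h3
      linarith

private theorem T4_val (V : VF k L) (M : Subfield L) {e : ℕ} (hM : Lvl p V M e) {y : L} {l : ℤ}
    (hy : V.v y = qv ((l : ℚ) / (p : ℚ) ^ (e + 1))) {a : L} (ha : a ∈ M) (ha0 : a ≠ 0) (i : ℕ) :
    ∃ z : ℤ, V.v (a * y ^ i) = qv (((p * z + i * l : ℤ) : ℚ) / (p : ℚ) ^ (e + 1)) := by
  have hp : p.Prime := Fact.out
  have hp0 : (p : ℚ) ≠ 0 := by exact_mod_cast hp.ne_zero
  obtain ⟨z, hz⟩ := hM.2.1 a ha ha0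
  refine ⟨z, ?_⟩
  rw [V.v_mul, V.v_pow, hz, hy, qv, qv, qv, ← WithTop.coe_nsmul, ← WithTop.coe_add, nsmul_eq_mul]
  congr 1
  push_cast
  field_simp
  ring

/-- the values of the terms `a_i y^i` are pairwise different -/
theorem v_sum_adj (V : VF k L) (M : Subfield L) {e : ℕ} (hM : Lvl p V M e) {y : L} {l : ℤ}
    (hl : ¬ (p : ℤ) ∣ l) (hy : V.v y = qv ((l : ℚ) / (p : ℚ) ^ (e + 1))) (a : Fin p → L)
    (ha : ∀ i, a i ∈ M) :
    (∀ i, V.v (∑ j, a j * y ^ (j : ℕ)) ≤ V.v (a i * y ^ (i : ℕ))) ∧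
      ∃ i, V.v (∑ j, a j * y ^ (j : ℕ)) = V.v (a i * y ^ (i : ℕ)) := by
  have hp : p.Prime := Fact.out
  have hp0 : (p : ℚ) ≠ 0 := by exact_mod_cast hp.ne_zero
  obtain ⟨h1, h2⟩ := V.v_sum Finset.univ (fun i : Fin p => a i * y ^ (i : ℕ)) (by
    intro i _ j _ hij heq
    by_contra hne
    have hi0 : a i ≠ 0 := by
      intro h0
      apply hne
      rw [h0, zero_mul, V.v_zero]
    have hj0 : a j ≠ 0 := by
      intro h0
      rw [heq] at hne
      apply hne
      rw [h0, zero_mul, V.v_zero]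
    obtain ⟨z, hz⟩ := T4_val V M hM hy (ha i) hi0 i
    obtain ⟨z', hz'⟩ := T4_val V M hM hy (ha j) hj0 j
    rw [hz, hz'] at heq
    have h3 := WithTop.coe_injective heq
    rw [div_left_inj' (pow_ne_zero _ hp0)] at h3
    have h4 : (p : ℤ) * z + (i : ℕ) * l = p * z' + (j : ℕ) * l := by exact_mod_cast h3
    have h5 : (p : ℤ) ∣ (((i : ℕ) : ℤ) - ((j : ℕ) : ℤ)) * l := ⟨z' - z, by linarith⟩
    have hpi : Prime (p : ℤ) := Nat.prime_iff_prime_int.1 hp
    rcases hpi.dvd_or_dvd h5 with h6 | h6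
    · have h7 : (((i : ℕ) : ℤ) - ((j : ℕ) : ℤ)) = 0 := by
        apply Int.eq_zero_of_abs_lt_dvd h6
        rw [abs_lt]
        have hi3 := i.2
        have hj3 := j.2
        constructor <;> omega
      exact hij (Fin.ext (by omega))
    · exact hl h6)
  refine ⟨fun i => h1 i (Finset.mem_univ i), ?_⟩
  obtain ⟨i, -, hi⟩ := h2 ⟨⟨0, hp.pos⟩, Finset.mem_univ _⟩
  exact ⟨i, hi⟩

theorem lvl_adj (V : VF k L) (M : Subfield L) {e : ℕ} (hM : Lvl p V M e) {y : L} {l : ℤ}
    (hw : y ^ p - y ∈ M) (hl : ¬ (p : ℤ) ∣ l)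
    (hy : V.v y = qv ((l : ℚ) / (p : ℚ) ^ (e + 1))) : Lvl p V (adj M y) (e + 1) := by
  have hp : p.Prime := Fact.out
  have hp0 : (p : ℚ) ≠ 0 := by exact_mod_cast hp.ne_zero
  have hMadj : ∀ z ∈ M, z ∈ adj M y := fun z hz => Subfield.subset_closure (Or.inl hz)
  have hyadj : y ∈ adj M y := Subfield.subset_closure (Or.inr rfl)
  refine ⟨fun a => hMadj _ (hM.1 a), ?_, ?_⟩
  · intro x hx hx0
    obtain ⟨a, ha, rfl⟩ := adj_repr M hw x hx
    obtain ⟨-, i, hi⟩ := v_sum_adj V M hM hl hy a ha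
    have hi0 : a i ≠ 0 := by
      intro h0
      rw [h0, zero_mul, V.v_zero, V.v_eq_top_iff] at hi
      exact hx0 hi
    obtain ⟨z, hz⟩ := T4_val V M hM hy (ha i) hi0 i
    exact ⟨_, hi.trans hz⟩
  · intro z
    have hcop : IsCoprime (p : ℤ) l := by
      have hpi : Prime (p : ℤ) := Nat.prime_iff_prime_int.1 hp
      exact (Prime.coprime_iff_not_dvd hpi).2 hl
    obtain ⟨s, t, hst⟩ := hcop
    -- `s p + t l = 1`
    obtain ⟨i, hi⟩ : ∃ i : ℕ, (i : ℤ) = (z * t) % p :=
      ⟨((z * t) % p).toNat, Int.toNat_of_nonneg (Int.emod_nonneg _ (by exact_mod_cast hp.ne_zero))⟩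
    obtain ⟨m, hm⟩ : ∃ m : ℤ, z = p * m + i * l := by
      have h1 : z * t = p * ((z * t) / p) + i := by
        rw [hi]
        exact (Int.mul_ediv_add_emod (z * t) p).symm
      refine ⟨z * s + ((z * t) / p) * l, ?_⟩
      have h2 : z = z * (s * p + t * l) := by rw [hst, mul_one]
      calc z = z * (s * p + t * l) := h2
        _ = z * s * p + (z * t) * l := by ring
        _ = z * s * p + (p * ((z * t) / p) + i) * l := by rw [← h1]
        _ = _ := by ring
    obtain ⟨x, hx, hvx⟩ := hM.2.2 m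
    refine ⟨x * y ^ i, (adj M y).mul_mem (hMadj x hx) ((adj M y).pow_mem hyadj i), ?_⟩
    rw [V.v_mul, V.v_pow, hvx, hy, qv, qv, qv, ← WithTop.coe_nsmul, ← WithTop.coe_add,
      nsmul_eq_mul]
    congr 1
    rw [hm]
    push_cast
    field_simp
    ring

end

end Pool.Agent.WC
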