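import Pool.Agent.WC.T4

/-! # One Artin-Schreier step: the derivation (piece WC-T5) -/

namespace Pool.Agent.WC

open Pool.Agent.WD

universe u w

variable {p : ℕ} [Fact p.Prime] {k : Type u} [Field k] {L : Type w} [Field L] [CharP L p]

omit [CharP L p] in
private theorem T5_le_sum (V : VF k L) {ι : Type*} (s : Finset ι) (f : ι → L) {c : ℚ}
    (h : ∀ i ∈ s, qv c ≤ V.v (f i)) : qv c ≤ V.v (∑ i ∈ s, f i) := by
  classical
  induction s using Finset.induction_on with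
  | empty =>
    rw [Finset.sum_empty, V.v_zero]
    exact le_top
  | insert a s ha ih =>
    rw [Finset.sum_insert ha]
    exact (le_min (h a (Finset.mem_insert_self _ _))
      (ih fun i hi => h i (Finset.mem_insert_of_mem hi))).trans (V.v_add _ _)

omit [CharP L p] in
private theorem T5_lt_sum (V : VF k L) {ι : Type*} (s : Finset ι) (f : ι → L) {c : ℚ}
    (h : ∀ i ∈ s, qv c < V.v (f i)) : qv c < V.v (∑ i ∈ s, f i) := by
  classical
  induction s using Finset.induction_on with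
  | empty =>
    rw [Finset.sum_empty, V.v_zero]
    exact WithTop.coe_lt_top _
  | insert a s ha ih =>
    rw [Finset.sum_insert ha]
    exact lt_of_lt_of_le (lt_min (h a (Finset.mem_insert_self _ _))
      (ih fun i hi => h i (Finset.mem_insert_of_mem hi))) (V.v_add _ _)

omit [Fact p.Prime] in
private theorem T5_nat (V : VF k L) {i : ℕ} (h0 : i ≠ 0) (hi : i < p) :
    V.v ((i : ℕ) : L) = 0 := by
  have h1 : ((i : ℕ) : L) ≠ 0 := by
    rw [Ne, CharP.cast_eq_zero_iff L p]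
    intro h
    exact absurd (Nat.le_of_dvd (Nat.pos_of_ne_zero h0) h) (not_le.2 hi)
  have h2 : ((i : ℕ) : L) = V.cc ((i : ℕ) : k) := by rw [map_natCast]
  rw [h2]
  apply V.v_cc
  intro h
  rw [h2, h, map_zero] at h1
  exact h1 rfl

/-- `d y = -d w` for `w = y^p - y`; for `x = ∑ a_i y^i`,
`d x = ∑ (d a_i y^i + i a_i y^(i-1) d y)`; the value of `i a_i y^(i-1) d y` (`0 < i < p`) is
`v(a_i y^i) - δ'`, with `δ' = δ + (p-1) (-l) / p^(e+1)`, and `v(d a_i y^i) ≥ v(a_i y^i) - δ` is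
bigger, because `l < 0`. -/
theorem dv_adj (V : VF k L) (M : Subfield L) {e : ℕ} (hM : Lvl p V M e) {δ : ℚ}
    (hd : Dv p V M e δ) {y : L} {l : ℤ} (hw : y ^ p - y ∈ M) (hl : ¬ (p : ℤ) ∣ l) (hl0 : l < 0)
    (hy : V.v y = qv ((l : ℚ) / (p : ℚ) ^ (e + 1))) :
    Dv p V (adj M y) (e + 1) (δ + ((p : ℚ) - 1) * (-l) / (p : ℚ) ^ (e + 1)) := by
  classical
  have hp : p.Prime := Fact.out
  have hp1 : (1 : ℚ) < p := by exact_mod_cast hp.one_lt
  have hp0 : (0 : ℚ) < p := by linarith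
  have hpe : (0 : ℚ) < (p : ℚ) ^ (e + 1) := by positivity
  have hpe0 : (0 : ℚ) < (p : ℚ) ^ e := by positivity
  have hlq : (l : ℚ) < 0 := by exact_mod_cast hl0
  set δ' : ℚ := δ + ((p : ℚ) - 1) * (-l) / (p : ℚ) ^ (e + 1) with hδ'
  have hδ : δ < δ' := by
    have : 0 < ((p : ℚ) - 1) * (-l) / (p : ℚ) ^ (e + 1) := by
      apply div_pos _ hpe
      exact mul_pos (by linarith) (by linarith)
    linarith
  have hyv : ∀ n : ℕ, V.v (y ^ n) = qv ((n : ℚ) * ((l : ℚ) / (p : ℚ) ^ (e + 1))) := by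
    intro n
    rw [V.v_pow, hy, ← WithTop.coe_nsmul, nsmul_eq_mul]
  -- the value of `w`
  have hwv : V.v (y ^ p - y) = qv ((l : ℚ) / (p : ℚ) ^ e) := by
    have h1 : V.v (y ^ p) = qv ((l : ℚ) / (p : ℚ) ^ e) := by
      rw [hyv]
      congr 1
      rw [pow_succ]
      field_simp
    rw [sub_eq_add_neg, V.v_add_of_lt, h1]
    rw [h1, V.v_neg, hy, WithTop.coe_lt_coe, div_lt_div_iff₀ hpe0 hpe, pow_succ]
    have h2 : (0 : ℚ) < (-l) * (p : ℚ) ^ e * ((p : ℚ) - 1) :=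
      mul_pos (mul_pos (by linarith) hpe0) (by linarith)
    nlinarith
  have hdw : V.dd (y ^ p - y) = -V.dd y := by
    rw [map_sub, V.dd.leibniz_pow, nsmul_eq_mul, CharP.cast_eq_zero, zero_mul, zero_sub]
  have hdy : V.v (V.dd y) = qv ((l : ℚ) / (p : ℚ) ^ e - δ) := by
    have h1 := (hd _ hw l hwv).2 hl
    rwa [hdw, V.v_neg] at h1
  intro x hx z hxv
  obtain ⟨a, ha, rfl⟩ := adj_repr M hw x hx
  obtain ⟨hs1, i₀, hs2⟩ := v_sum_adj V M hM hl hy a ha
  have key : ∀ i : Fin p, a i ≠ 0 → ∃ zi : ℤ,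
      V.v (a i * y ^ (i : ℕ)) =
        qv (((((p : ℤ) * zi + (i : ℕ) * l : ℤ)) : ℚ) / (p : ℚ) ^ (e + 1)) ∧
      (((i : ℕ) = 0 → qv (((((p : ℤ) * zi + (i : ℕ) * l : ℤ)) : ℚ) / (p : ℚ) ^ (e + 1) - δ') <
        V.v (V.dd (a i * y ^ (i : ℕ)))) ∧
      ((i : ℕ) ≠ 0 → V.v (V.dd (a i * y ^ (i : ℕ))) =
        qv (((((p : ℤ) * zi + (i : ℕ) * l : ℤ)) : ℚ) / (p : ℚ) ^ (e + 1) - δ'))) := by
    intro i hi
    obtain ⟨zi, hzi⟩ := hM.2.1 (a i) (ha i) hi
    have hda := (hd (a i) (ha i) zi hzi).1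
    have hq : ((((p : ℤ) * zi + (i : ℕ) * l : ℤ)) : ℚ) / (p : ℚ) ^ (e + 1) =
        (zi : ℚ) / (p : ℚ) ^ e + ((i : ℕ) : ℚ) * ((l : ℚ) / (p : ℚ) ^ (e + 1)) := by
      push_cast
      rw [pow_succ]
      field_simp
    have hv : V.v (a i * y ^ (i : ℕ)) =
        qv (((((p : ℤ) * zi + (i : ℕ) * l : ℤ)) : ℚ) / (p : ℚ) ^ (e + 1)) := by
      rw [V.v_mul, hzi, hyv, hq, ← WithTop.coe_add]
    refine ⟨zi, hv, ?_, ?_⟩
    · intro h0
      rw [hq, h0, pow_zero, mul_one]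
      refine lt_of_lt_of_le ?_ hda
      rw [WithTop.coe_lt_coe, Nat.cast_zero, zero_mul, add_zero]
      linarith
    · intro h0
      have h1 : V.dd (a i * y ^ (i : ℕ)) =
          ((i : ℕ) : L) * (a i * y ^ ((i : ℕ) - 1) * V.dd y) + y ^ (i : ℕ) * V.dd (a i) := by
        rw [V.dd.leibniz, V.dd.leibniz_pow]
        simp only [smul_eq_mul, nsmul_eq_mul]
        ring
      have h2 : V.v (((i : ℕ) : L) * (a i * y ^ ((i : ℕ) - 1) * V.dd y)) =
          qv (((((p : ℤ) * zi + (i : ℕ) * l : ℤ)) : ℚ) / (p : ℚ) ^ (e + 1) - δ') := by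
        rw [V.v_mul, T5_nat V h0 i.2, zero_add, V.v_mul, V.v_mul, hzi, hyv, hdy,
          ← WithTop.coe_add, ← WithTop.coe_add, hq]
        congr 1
        have h3 : (((i : ℕ) - 1 : ℕ) : ℚ) = ((i : ℕ) : ℚ) - 1 := by
          rw [Nat.cast_sub (Nat.pos_of_ne_zero h0), Nat.cast_one]
        rw [h3, hδ', pow_succ]
        field_simp
        ring
      rw [h1, V.v_add_of_lt, h2]
      rw [h2, V.v_mul, hyv]
      have h4 : qv ((((i : ℕ) : ℚ) * ((l : ℚ) / (p : ℚ) ^ (e + 1))) +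
          ((zi : ℚ) / (p : ℚ) ^ e - δ)) ≤
          qv (((i : ℕ) : ℚ) * ((l : ℚ) / (p : ℚ) ^ (e + 1))) + V.v (V.dd (a i)) := by
        have h5 := add_le_add (le_refl (qv (((i : ℕ) : ℚ) * ((l : ℚ) / (p : ℚ) ^ (e + 1))))) hda
        rwa [← WithTop.coe_add] at h5
      refine lt_of_lt_of_le ?_ h4
      rw [WithTop.coe_lt_coe, hq]
      linarith
  have hdx : V.dd (∑ j, a j * y ^ (j : ℕ)) = ∑ j, V.dd (a j * y ^ (j : ℕ)) := map_sum _ _ _
  have hge : ∀ i : Fin p, ∀ zi : ℤ, V.v (a i * y ^ (i : ℕ)) =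
      qv (((((p : ℤ) * zi + (i : ℕ) * l : ℤ)) : ℚ) / (p : ℚ) ^ (e + 1)) →
      z ≤ (p : ℤ) * zi + (i : ℕ) * l := by
    intro i zi hzi
    have h1 := hs1 i
    rw [hxv, hzi, WithTop.coe_le_coe, div_le_div_iff_of_pos_right hpe] at h1
    exact_mod_cast h1
  refine ⟨?_, ?_⟩
  · rw [hdx]
    apply T5_le_sum
    intro i _
    by_cases hi : a i = 0
    · rw [hi, zero_mul, map_zero, V.v_zero]
      exact le_top
    · obtain ⟨zi, h1, h2, h3⟩ := key i hi
      have h4 := hge i zi h1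
      have h5 : qv ((z : ℚ) / (p : ℚ) ^ (e + 1) - δ') ≤
          qv (((((p : ℤ) * zi + (i : ℕ) * l : ℤ)) : ℚ) / (p : ℚ) ^ (e + 1) - δ') := by
        rw [WithTop.coe_le_coe]
        have h6 : (z : ℚ) ≤ (((p : ℤ) * zi + (i : ℕ) * l : ℤ) : ℚ) := by exact_mod_cast h4
        have h7 := div_le_div_of_nonneg_right h6 hpe.le
        linarith
      by_cases h0 : (i : ℕ) = 0
      · exact h5.trans (h2 h0).le
      · rw [h3 h0]
        exact h5
  · intro hz
    have hi₀ : a i₀ ≠ 0 := by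
      intro h
      rw [hxv, h, zero_mul, V.v_zero] at hs2
      exact WithTop.coe_ne_top hs2
    obtain ⟨z₀, h1, -, h3⟩ := key i₀ hi₀
    have hz0 : z = (p : ℤ) * z₀ + (i₀ : ℕ) * l := by
      rw [hxv, h1, WithTop.coe_eq_coe, div_left_inj' hpe.ne'] at hs2
      exact_mod_cast hs2
    have hi0 : (i₀ : ℕ) ≠ 0 := by
      intro h
      apply hz
      rw [hz0, h]
      simp
    have h4 := h3 hi0
    rw [← hz0] at h4
    rw [hdx, ← Finset.add_sum_erase Finset.univ _ (Finset.mem_univ i₀), V.v_add_of_lt, h4]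
    rw [h4]
    apply T5_lt_sum
    intro i hi
    have hne : i ≠ i₀ := Finset.ne_of_mem_erase hi
    by_cases hai : a i = 0
    · rw [hai, zero_mul, map_zero, V.v_zero]
      exact WithTop.coe_lt_top _
    · obtain ⟨zi, g1, g2, g3⟩ := key i hai
      have h5 := hge i zi g1
      by_cases h0 : (i : ℕ) = 0
      · refine lt_of_le_of_lt ?_ (g2 h0)
        rw [WithTop.coe_le_coe]
        have h6 : (z : ℚ) ≤ (((p : ℤ) * zi + (i : ℕ) * l : ℤ) : ℚ) := by exact_mod_cast h5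
        have h7 := div_le_div_of_nonneg_right h6 hpe.le
        linarith
      · rw [g3 h0, WithTop.coe_lt_coe]
        have h6 : z ≠ (p : ℤ) * zi + (i : ℕ) * l := by
          intro h7
          rw [hz0] at h7
          have h8 : (p : ℤ) ∣ (((i : ℕ) : ℤ) - (i₀ : ℕ)) * l := ⟨z₀ - zi, by linarith⟩
          have hpz : Prime (p : ℤ) := Nat.prime_iff_prime_int.1 hp
          rcases hpz.dvd_or_dvd h8 with h9 | h9
          · apply hne
            apply Fin.ext
            have h10 := Int.eq_zero_of_abs_lt_dvd h9 (by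
              have := i.2
              have := i₀.2
              rw [abs_lt]
              constructor <;> omega)
            omega
          · exact hl h9
        have h7 : z < (p : ℤ) * zi + (i : ℕ) * l := lt_of_le_of_ne h5 h6
        have h8 : (z : ℚ) < (((p : ℤ) * zi + (i : ℕ) * l : ℤ) : ℚ) := by exact_mod_cast h7
        have h9 := div_lt_div_of_pos_right h8 hpe
        linarith

end Pool.Agent.WC
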