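import Pool.Agent.WC.T2
import Pool.Agent.WC.T4

/-! # Reduction of Witt vectors (piece WC-T6) -/

namespace Pool.Agent.WC

open Pool.Agent.WD

universe u w

variable {p : ℕ} [Fact p.Prime] {k : Type u} [Field k] [CharP k p] [PerfectRing k p]
  {L : Type w} [Field L] [CharP L p]

/-- one step for elements: if `v(x) = p z / p^e < 0` then some `y ∈ M` has
`v(y) = z / p^e` and `v(x - y^p + y) > v(x)`. -/
theorem reduce_one (V : VF k L) (M : Subfield L) {e : ℕ} (hM : Lvl p V M e) {x : L} (hx : x ∈ M)
    {z : ℤ} (hz : z < 0) (h : V.v x = qv ((p * z : ℚ) / (p : ℚ) ^ e)) :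
    ∃ y ∈ M, V.v y = qv ((z : ℚ) / (p : ℚ) ^ e) ∧ V.v x < V.v (x - y ^ p + y) := by
  have hp : p.Prime := Fact.out
  have hp2 : (2 : ℚ) ≤ p := by exact_mod_cast hp.two_le
  have hpe : (0 : ℚ) < (p : ℚ) ^ e := by positivity
  obtain ⟨y0, hy0, hv0⟩ := hM.2.2 z
  have hx0 : x ≠ 0 := by
    rintro rfl
    rw [V.v_zero] at h
    exact WithTop.top_ne_coe h
  have h1 : V.v (y0 ^ p) = V.v x := by
    rw [V.v_pow, hv0, h, qv, qv, ← WithTop.coe_nsmul, nsmul_eq_mul]
    congr 1
    ring
  obtain ⟨a, ha, hlt⟩ := V.res hx0 h1.symm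
  obtain ⟨b, hb⟩ : ∃ b : k, b ^ p = a := surjective_frobenius k p a
  have hb0 : b ≠ 0 := by
    rintro rfl
    rw [zero_pow hp.ne_zero] at hb
    exact ha hb.symm
  refine ⟨V.cc b * y0, M.mul_mem (hM.1 b) hy0, ?_, ?_⟩
  · rw [V.v_mul, V.v_cc hb0, zero_add, hv0]
  · have h2 : (V.cc b * y0) ^ p = V.cc a * y0 ^ p := by
      rw [mul_pow, ← map_pow, hb]
    rw [h2]
    refine lt_of_lt_of_le (lt_min hlt ?_) (V.v_add _ _)
    rw [V.v_mul, V.v_cc hb0, zero_add, hv0, h, qv, qv, WithTop.coe_lt_coe]
    have hz' : (z : ℚ) < 0 := by exact_mod_cast hz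
    refine (div_lt_div_iff_of_pos_right hpe).2 ?_
    nlinarith

omit [CharP L p] in
private theorem T6_iter (m : ℕ) : ∀ (a : WittVector p L) (i : ℕ),
    ((WittVector.verschiebung)^[m] a).coeff i = if i < m then 0 else a.coeff (i - m) := by
  induction m with
  | zero =>
    intro a i
    rw [Function.iterate_zero, id, if_neg (by omega), Nat.sub_zero]
  | succ m ih =>
    intro a i
    rw [Function.iterate_succ', Function.comp_apply]
    cases i with
    | zero => rw [WittVector.verschiebung_coeff_zero, if_pos (by omega)]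
    | succ i =>
      rw [WittVector.verschiebung_coeff_succ, ih]
      by_cases h : i < m
      · rw [if_pos h, if_pos (by omega)]
      · rw [if_neg h, if_neg (by omega), Nat.succ_sub_succ]

omit [CharP L p] in
private theorem T6_coeff (m : ℕ) (y : L) (i : ℕ) :
    ((WittVector.verschiebung)^[m] (WittVector.teichmuller p y)).coeff i =
      if i = m then y else 0 := by
  rw [T6_iter]
  rcases lt_trichotomy i m with h1 | h1 | h1
  · rw [if_pos h1, if_neg (by omega)]
  · rw [if_neg (by omega), if_pos h1, h1, Nat.sub_self, WittVector.teichmuller_coeff_zero]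
  · rw [if_neg (by omega), if_neg (by omega), WittVector.teichmuller_coeff_pos p y _ (by omega)]

private theorem T6_frob (m : ℕ) (y : L) :
    WittVector.frobenius ((WittVector.verschiebung)^[m] (WittVector.teichmuller p y)) =
      (WittVector.verschiebung)^[m] (WittVector.teichmuller p (y ^ p)) := by
  ext i
  rw [WittVector.coeff_frobenius_charP, T6_coeff, T6_coeff]
  by_cases h : i = m
  · rw [if_pos h, if_pos h]
  · rw [if_neg h, if_neg h, zero_pow (Fact.out : p.Prime).ne_zero]

/-- the invariants -/
private def T6Inv (V : VF k L) (M : Subfield L) (n : ℕ) (b : ℕ → ℚ) (a c : WittVector p L) :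
    Prop :=
  InM p M n c ∧ (∀ i < n, Fl p V (b i / p) (i + 1) c) ∧
    InM p M n (a - (WittVector.frobenius c - c)) ∧
    (∀ i < n, Fl p V (b i) (i + 1) (a - (WittVector.frobenius c - c)))

/-- the coordinate `i` is reduced -/
private def T6Red (V : VF k L) (e i : ℕ) (g : WittVector p L) : Prop :=
  0 ≤ V.v (g.coeff i) ∨
    ∃ l : ℤ, ¬ (p : ℤ) ∣ l ∧ V.v (g.coeff i) = qv ((l : ℚ) / (p : ℚ) ^ e)

private theorem T6_step (V : VF k L) (M : Subfield L) {e : ℕ} (hM : Lvl p V M e) (n : ℕ)
    (b : ℕ → ℚ) (hb0 : ∀ i, 0 ≤ b i) (a : WittVector p L) (m : ℕ) (hm : m < n) (N : ℕ) :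
    ∀ c, T6Inv V M n b a c → (∀ i < m, T6Red V e i (a - (WittVector.frobenius c - c))) →
      (∀ w : ℤ, V.v ((a - (WittVector.frobenius c - c)).coeff m) = qv ((w : ℚ) / (p : ℚ) ^ e) →
        -w ≤ N) →
      ∃ c', T6Inv V M n b a c' ∧
        ∀ i < m + 1, T6Red V e i (a - (WittVector.frobenius c' - c')) := by
  have hp : p.Prime := Fact.out
  have hp2 : (2 : ℚ) ≤ p := by exact_mod_cast hp.two_le
  have hpe : (0 : ℚ) < (p : ℚ) ^ e := by positivity
  induction N with
  | zero =>
    intro c hc hr hN
    refine ⟨c, hc, fun i hi => ?_⟩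
    rcases Nat.lt_succ_iff_lt_or_eq.1 hi with hi | rfl
    · exact hr i hi
    · left
      by_cases h0 : (a - (WittVector.frobenius c - c)).coeff i = 0
      · rw [h0, V.v_zero]
        exact le_top
      · obtain ⟨w, hw⟩ := hM.2.1 _ (hc.2.2.1 i hm) h0
        have h1 := hN w hw
        rw [hw, ← WithTop.coe_zero, qv, WithTop.coe_le_coe]
        have h2 : (0 : ℤ) ≤ w := by push_cast at h1; omega
        have h3 : (0 : ℚ) ≤ w := by exact_mod_cast h2
        positivity
  | succ N ih =>
    intro c hc hr hN
    by_cases hred : T6Red V e m (a - (WittVector.frobenius c - c))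
    · refine ⟨c, hc, fun i hi => ?_⟩
      rcases Nat.lt_succ_iff_lt_or_eq.1 hi with hi | rfl
      · exact hr i hi
      · exact hred
    · have h0 : (a - (WittVector.frobenius c - c)).coeff m ≠ 0 := by
        intro h0
        apply hred
        left
        rw [h0, V.v_zero]
        exact le_top
      obtain ⟨w, hw⟩ := hM.2.1 _ (hc.2.2.1 m hm) h0
      have hdvd : (p : ℤ) ∣ w := by
        by_contra hd
        exact hred (Or.inr ⟨w, hd, hw⟩)
      obtain ⟨z, rfl⟩ := hdvd
      have hz : z < 0 := by
        by_contra hz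
        rw [not_lt] at hz
        apply hred
        left
        rw [hw, ← WithTop.coe_zero, qv, WithTop.coe_le_coe]
        have h3 : (0 : ℚ) ≤ ((p * z : ℤ) : ℚ) := by
          have : (0 : ℤ) ≤ p * z := by positivity
          exact_mod_cast this
        positivity
      have hw' : V.v ((a - (WittVector.frobenius c - c)).coeff m) =
          qv ((p * z : ℚ) / (p : ℚ) ^ e) := by
        rw [hw]
        push_cast
        rfl
      obtain ⟨y, hyM, hvy, hlt⟩ := reduce_one V M hM (hc.2.2.1 m hm) hz hw'
      set u : WittVector p L := (WittVector.verschiebung)^[m] (WittVector.teichmuller p y) with hu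
      have hFu : WittVector.frobenius u =
          (WittVector.verschiebung)^[m] (WittVector.teichmuller p (y ^ p)) := T6_frob m y
      -- the new Witt vector
      have hnew : a - (WittVector.frobenius (c + u) - (c + u)) =
          a - (WittVector.frobenius c - c) - WittVector.frobenius u + u := by
        rw [map_add]
        ring
      have hco : (∀ i < m, (a - (WittVector.frobenius (c + u) - (c + u))).coeff i =
          (a - (WittVector.frobenius c - c)).coeff i) ∧
          (a - (WittVector.frobenius (c + u) - (c + u))).coeff m =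
          (a - (WittVector.frobenius c - c)).coeff m - y ^ p + y := by
        rw [hnew, hFu, hu]
        obtain ⟨h1, h2⟩ := coeff_sub_iterate (a - (WittVector.frobenius c - c)) m (y ^ p)
        obtain ⟨h3, h4⟩ := coeff_add_iterate (a - (WittVector.frobenius c - c) -
          (WittVector.verschiebung)^[m] (WittVector.teichmuller p (y ^ p))) m y
        refine ⟨fun i hi => ?_, ?_⟩
        · rw [h3 i hi, h1 i hi]
        · rw [h4, h2]
      -- bounds
      have hFlu : ∀ i < n, Fl p V (b i / p) (i + 1) u := by
        intro i hi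
        by_cases him : i < m
        · intro j hj
          rw [hu, T6_coeff, if_neg (by omega), V.v_zero]
          exact le_top
        · refine Fl.iterate (div_nonneg (hb0 i) (by positivity)) ?_
          have h1 := hc.2.2.2 i hi m (by omega)
          rw [hw', qv, qv, WithTop.coe_le_coe] at h1
          rw [hvy, qv, qv, WithTop.coe_le_coe]
          have hp0 : (0 : ℚ) < p := by positivity
          have h2 : -(b i / p) * (p : ℚ) ^ m = (-b i * (p : ℚ) ^ m) / p := by ring
          have h3 : (z : ℚ) / (p : ℚ) ^ e = ((p * z : ℚ) / (p : ℚ) ^ e) / p := by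
            field_simp
          rw [h2, h3]
          exact (div_le_div_iff_of_pos_right hp0).2 h1
      have hFlFu : ∀ i < n, Fl p V (b i) (i + 1) (WittVector.frobenius u) := by
        intro i hi
        have h1 := (hFlu i hi).frobenius
        have h2 : (p : ℚ) * (b i / p) = b i := by
          field_simp
        rwa [h2] at h1
      have hFlu' : ∀ i < n, Fl p V (b i) (i + 1) u := by
        intro i hi
        refine (hFlu i hi).mono ?_
        exact div_le_self (hb0 i) (by linarith)
      -- membership
      have huM : InM p M n u := by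
        intro i _
        rw [hu, T6_coeff]
        split_ifs
        · exact hyM
        · exact M.zero_mem
      have hFuM : InM p M n (WittVector.frobenius u) := by
        intro i hi
        rw [WittVector.coeff_frobenius_charP]
        exact M.pow_mem (huM i hi) p
      have hinv : T6Inv V M n b a (c + u) := by
        refine ⟨coeff_add_mem M.toSubring hc.1 huM, fun i hi => (hc.2.1 i hi).add (hFlu i hi),
          ?_, fun i hi => ?_⟩
        · rw [hnew]
          exact coeff_add_mem M.toSubring (coeff_sub_mem M.toSubring hc.2.2.1 hFuM) huM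
        · rw [hnew]
          exact ((hc.2.2.2 i hi).sub (hFlFu i hi)).add (hFlu' i hi)
      refine ih (c + u) hinv (fun i hi => ?_) (fun w' hw2 => ?_)
      · have h1 := hr i hi
        unfold T6Red at h1 ⊢
        rw [hco.1 i hi]
        exact h1
      · rw [hco.2] at hw2
        rw [hw2, hw', qv, qv, WithTop.coe_lt_coe, div_lt_div_iff_of_pos_right hpe] at hlt
        have h1 : (p : ℤ) * z < w' := by exact_mod_cast hlt
        have h2 := hN (p * z) hw
        push_cast at h2
        omega

/-- Reduce the coordinates `0, 1, 2, ...` one after the other, each in finitely many steps: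
replace `a` by `a - (F - 1)(V^i [y])`. The bounds `b` are preserved by `Fl.sub` (for all
truncations; `b` is monotone). -/
theorem reduce (V : VF k L) (M : Subfield L) {e : ℕ} (hM : Lvl p V M e) (n : ℕ) (b : ℕ → ℚ)
    (hb0 : ∀ i, 0 ≤ b i) (hb : Monotone b) (a : WittVector p L) (ha : InM p M n a)
    (hab : ∀ i < n, Fl p V (b i) (i + 1) a) :
    ∃ c : WittVector p L, InM p M n c ∧ (∀ i < n, Fl p V (b i / p) (i + 1) c) ∧
      InM p M n (a - (WittVector.frobenius c - c)) ∧
      (∀ i < n, Fl p V (b i) (i + 1) (a - (WittVector.frobenius c - c))) ∧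
      Red p V e n (a - (WittVector.frobenius c - c)) := by
  have key : ∀ m ≤ n, ∃ c, T6Inv V M n b a c ∧
      ∀ i < m, T6Red V e i (a - (WittVector.frobenius c - c)) := by
    intro m
    induction m with
    | zero =>
      intro _
      refine ⟨0, ⟨fun i _ => ?_, fun i _ j _ => ?_, ?_, ?_⟩, fun i hi => absurd hi (by omega)⟩
      · rw [WittVector.zero_coeff]
        exact M.zero_mem
      · rw [WittVector.zero_coeff, V.v_zero]
        exact le_top
      · rw [map_zero, sub_zero, sub_zero]
        exact ha
      · rw [map_zero, sub_zero, sub_zero]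
        exact hab
    | succ m ih =>
      intro hmn
      obtain ⟨c, hc, hr⟩ := ih (by omega)
      by_cases h0 : (a - (WittVector.frobenius c - c)).coeff m = 0
      · refine ⟨c, hc, fun i hi => ?_⟩
        rcases Nat.lt_succ_iff_lt_or_eq.1 hi with hi | rfl
        · exact hr i hi
        · left
          rw [h0, V.v_zero]
          exact le_top
      · obtain ⟨w, hw⟩ := hM.2.1 _ (hc.2.2.1 m (by omega)) h0
        refine T6_step V M hM n b hb0 a m (by omega) (-w).toNat c hc hr fun w' hw' => ?_
        rw [hw'] at hw
        have h1 := WithTop.coe_injective hw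
        have hpe : ((p : ℚ) ^ e) ≠ 0 := by
          have : (p : ℚ) ≠ 0 := by exact_mod_cast (Fact.out : p.Prime).ne_zero
          positivity
        rw [div_left_inj' hpe] at h1
        have h2 : w' = w := by exact_mod_cast h1
        rw [h2]
        exact Int.self_le_toNat _
  obtain ⟨c, ⟨h1, h2, h3, h4⟩, h5⟩ := key n le_rfl
  exact ⟨c, h1, h2, h3, h4, h5⟩

end Pool.Agent.WC
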