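import Pool.Agent.WC.T4

/-! # The value of `F^s d` of a reduced Witt vector (piece WC-T7) -/

namespace Pool.Agent.WC

open Pool.Agent.WD

universe u w

variable {p : ℕ} [Fact p.Prime] {k : Type u} [Field k] {L : Type w} [Field L] [CharP L p]

private theorem T7_le_sum (V : VF k L) {ι : Type*} (s : Finset ι) (f : ι → L) (c : ℚ)
    (h : ∀ i ∈ s, qv c ≤ V.v (f i)) : qv c ≤ V.v (∑ i ∈ s, f i) := by
  classical
  induction s using Finset.induction_on with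
  | empty =>
    rw [Finset.sum_empty, V.v_zero]
    exact le_top
  | insert a s ha ih =>
    rw [Finset.sum_insert ha]
    refine le_trans (le_min ?_ ?_) (V.v_add _ _)
    · exact h a (Finset.mem_insert_self a s)
    · exact ih fun i hi => h i (Finset.mem_insert_of_mem hi)

private theorem T7_lt_sum (V : VF k L) {ι : Type*} (s : Finset ι) (f : ι → L) (c : ℚ)
    (h : ∀ i ∈ s, qv c < V.v (f i)) : qv c < V.v (∑ i ∈ s, f i) := by
  classical
  induction s using Finset.induction_on with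
  | empty =>
    rw [Finset.sum_empty, V.v_zero]
    exact WithTop.coe_lt_top c
  | insert a s ha ih =>
    rw [Finset.sum_insert ha]
    refine lt_of_lt_of_le (lt_min ?_ ?_) (V.v_add _ _)
    · exact h a (Finset.mem_insert_self a s)
    · exact ih fun i hi => h i (Finset.mem_insert_of_mem hi)

private theorem T7_nsmul (m : ℕ) (x : ℚ) : m • qv x = qv (m * x) := by
  show m • ((x : ℚ) : WithTop ℚ) = _
  rw [← WithTop.coe_nsmul, nsmul_eq_mul]

private theorem T7_term (V : VF k L) (M : Subfield L) {e : ℕ} {δ : ℚ} (hd : Dv p V M e δ)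
    {a : L} (ha : a ∈ M) {z : ℤ} (hz : V.v a = qv ((z : ℚ) / (p : ℚ) ^ e)) (t : ℕ) :
    qv ((p : ℚ) ^ t * ((z : ℚ) / (p : ℚ) ^ e) - δ) ≤ V.v (a ^ (p ^ t - 1) * V.dd a) ∧
      (¬ (p : ℤ) ∣ z →
        V.v (a ^ (p ^ t - 1) * V.dd a) = qv ((p : ℚ) ^ t * ((z : ℚ) / (p : ℚ) ^ e) - δ)) := by
  obtain ⟨h1, h2⟩ := hd a ha z hz
  have hp1 : 1 ≤ p ^ t := Nat.one_le_pow _ _ (Fact.out : p.Prime).pos
  have hc : ((p ^ t - 1 : ℕ) : ℚ) = (p : ℚ) ^ t - 1 := by
    rw [Nat.cast_sub hp1]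
    push_cast
    ring
  have hv : V.v (a ^ (p ^ t - 1) * V.dd a)
      = qv (((p : ℚ) ^ t - 1) * ((z : ℚ) / (p : ℚ) ^ e)) + V.v (V.dd a) := by
    rw [V.v_mul, V.v_pow, hz, T7_nsmul, hc]
  have hs : qv ((p : ℚ) ^ t * ((z : ℚ) / (p : ℚ) ^ e) - δ)
      = qv (((p : ℚ) ^ t - 1) * ((z : ℚ) / (p : ℚ) ^ e)) + qv ((z : ℚ) / (p : ℚ) ^ e - δ) := by
    show _ = ((_ : ℚ) : WithTop ℚ) + ((_ : ℚ) : WithTop ℚ)
    rw [← WithTop.coe_add]
    congr 1
    ring
  constructor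
  · rw [hv, hs]
    exact add_le_add le_rfl h1
  · intro hz'
    rw [hv, hs, h2 hz']

private theorem T7_zero (V : VF k L) (a : L) (ha : a = 0) (m : ℕ) :
    V.v (a ^ m * V.dd a) = ⊤ := by
  rw [ha, map_zero, mul_zero, V.v_zero]

/-- a term with nonnegative value of the coordinate -/
private theorem T7_nonneg (V : VF k L) (M : Subfield L) {e : ℕ} {δ : ℚ} (hM : Lvl p V M e)
    (hd : Dv p V M e δ) {a : L} (ha : a ∈ M) (h0 : 0 ≤ V.v a) (t : ℕ) :
    qv (-δ) ≤ V.v (a ^ (p ^ t - 1) * V.dd a) := by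
  by_cases ha0 : a = 0
  · rw [T7_zero V a ha0]
    exact le_top
  · obtain ⟨z, hz⟩ := hM.2.1 a ha ha0
    refine le_trans ?_ (T7_term V M hd ha hz t).1
    rw [hz] at h0
    have h1 : (0 : ℚ) ≤ (z : ℚ) / (p : ℚ) ^ e := by
      have : ((0 : ℚ) : WithTop ℚ) ≤ (((z : ℚ) / (p : ℚ) ^ e : ℚ) : WithTop ℚ) := h0
      exact WithTop.coe_le_coe.mp this
    apply WithTop.coe_le_coe.mpr
    have h2 : (0 : ℚ) ≤ (p : ℚ) ^ t := by positivity
    have h3 := mul_nonneg h2 h1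
    linarith

private theorem T7_ne {i j s : ℕ} (hi : i ≤ s) (hj : j ≤ s) (hij : i ≠ j) {l m : ℤ}
    (hl : ¬ (p : ℤ) ∣ l) (hm : ¬ (p : ℤ) ∣ m) :
    (p : ℤ) ^ (s - i) * l ≠ (p : ℤ) ^ (s - j) * m := by
  have key : ∀ {i j : ℕ}, i ≤ s → j ≤ s → i < j → ∀ {l m : ℤ}, ¬ (p : ℤ) ∣ m →
      (p : ℤ) ^ (s - i) * l ≠ (p : ℤ) ^ (s - j) * m := by
    intro i j hi hj hij l m hm h
    have hp0 : (p : ℤ) ≠ 0 := by
      have := (Fact.out : p.Prime).ne_zero
      exact_mod_cast this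
    have h1 : s - i = (s - j) + ((j - i - 1) + 1) := by omega
    rw [h1, pow_add, mul_assoc] at h
    have h2 := mul_left_cancel₀ (pow_ne_zero _ hp0) h
    apply hm
    rw [← h2, pow_succ]
    exact ⟨(p : ℤ) ^ (j - i - 1) * l, by ring⟩
  rcases Nat.lt_or_gt_of_ne hij with h | h
  · exact key hi hj h hm
  · exact fun h' => key hj hi h hl h'.symm

private theorem T7_ppos : (0 : ℚ) < (p : ℚ) := by
  have := (Fact.out : p.Prime).pos
  exact_mod_cast this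

private theorem T7_pow_sub {i s : ℕ} (hi : i ≤ s) :
    (p : ℚ) ^ (s - i) * ((p : ℚ) ^ i / (p : ℚ) ^ s) = 1 := by
  have hp : (p : ℚ) ≠ 0 := (T7_ppos (p := p)).ne'
  have h1 : (p : ℚ) ^ s = (p : ℚ) ^ (s - i) * (p : ℚ) ^ i := by
    rw [← pow_add]
    congr 1
    omega
  rw [h1]
  field_simp

/-- The terms with `v(g_i) < 0` have the pairwise different values `p^(s-i) v(g_i) - δ`; the other
terms have value `≥ -δ`. -/
theorem v_Ds_of_Bd (V : VF k L) (M : Subfield L) {e n s : ℕ} {δ : ℚ} (hM : Lvl p V M e)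
    (hd : Dv p V M e δ) {g : WittVector p L} (hg : InM p M n g) (hr : Red p V e n g)
    (hs : s < n) {B : ℚ} (hB : 0 < B) (h : Bd p V s B g) :
    V.v (Ds p V s g) = qv (-B - δ) := by
  obtain ⟨hle, i0, hi0, hi0v⟩ := h
  have hpq : (0 : ℚ) < (p : ℚ) := T7_ppos
  -- the value at i0 is negative
  have hneg : -B * (p : ℚ) ^ i0 / (p : ℚ) ^ s < 0 := by
    have h1 : 0 < B * (p : ℚ) ^ i0 / (p : ℚ) ^ s := by positivity
    have h2 : -B * (p : ℚ) ^ i0 / (p : ℚ) ^ s = -(B * (p : ℚ) ^ i0 / (p : ℚ) ^ s) := by ring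
    rw [h2]
    linarith
  have hl0 : ∃ l : ℤ, ¬ (p : ℤ) ∣ l ∧ V.v (g.coeff i0) = qv ((l : ℚ) / (p : ℚ) ^ e) := by
    rcases hr i0 (lt_of_le_of_lt hi0 hs) with h1 | h1
    · exfalso
      rw [hi0v] at h1
      have h2 : ((0 : ℚ) : WithTop ℚ) ≤ ((-B * (p : ℚ) ^ i0 / (p : ℚ) ^ s : ℚ) : WithTop ℚ) := h1
      have h3 := WithTop.coe_le_coe.mp h2
      linarith
    · exact h1
  obtain ⟨l0, hl0p, hl0v⟩ := hl0
  have hl0B : (p : ℚ) ^ (s - i0) * ((l0 : ℚ) / (p : ℚ) ^ e) = -B := by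
    have h1 : ((l0 : ℚ) / (p : ℚ) ^ e) = -B * (p : ℚ) ^ i0 / (p : ℚ) ^ s := by
      rw [hi0v] at hl0v
      exact (WithTop.coe_injective hl0v).symm
    rw [h1]
    have h2 := T7_pow_sub (p := p) hi0
    have h3 : (p : ℚ) ^ (s - i0) * (-B * (p : ℚ) ^ i0 / (p : ℚ) ^ s)
        = -B * ((p : ℚ) ^ (s - i0) * ((p : ℚ) ^ i0 / (p : ℚ) ^ s)) := by ring
    rw [h3, h2, mul_one]
  have hmem : i0 ∈ Finset.range (s + 1) := Finset.mem_range.mpr (Nat.lt_succ_of_le hi0)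
  have hterm0 : V.v (g.coeff i0 ^ (p ^ (s - i0) - 1) * V.dd (g.coeff i0)) = qv (-B - δ) := by
    rw [(T7_term V M hd (hg i0 (lt_of_le_of_lt hi0 hs)) hl0v (s - i0)).2 hl0p, hl0B]
  unfold Ds
  rw [← Finset.add_sum_erase _ _ hmem]
  rw [V.v_add_of_lt, hterm0]
  rw [hterm0]
  apply T7_lt_sum
  intro i hi
  rw [Finset.mem_erase, Finset.mem_range] at hi
  obtain ⟨hii0, his⟩ := hi
  have his' : i ≤ s := Nat.le_of_lt_succ his
  have hin : i < n := lt_of_le_of_lt his' hs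
  rcases hr i hin with h1 | ⟨l, hlp, hlv⟩
  · refine lt_of_lt_of_le ?_ (T7_nonneg V M hM hd (hg i hin) h1 (s - i))
    apply WithTop.coe_lt_coe.mpr
    linarith
  · rw [(T7_term V M hd (hg i hin) hlv (s - i)).2 hlp]
    apply WithTop.coe_lt_coe.mpr
    have h2 : -B ≤ (p : ℚ) ^ (s - i) * ((l : ℚ) / (p : ℚ) ^ e) := by
      have h3 := hle i his'
      rw [hlv] at h3
      have h4 : -B * (p : ℚ) ^ i / (p : ℚ) ^ s ≤ (l : ℚ) / (p : ℚ) ^ e :=
        WithTop.coe_le_coe.mp h3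
      have h5 : (0 : ℚ) < (p : ℚ) ^ (s - i) := by positivity
      have h6 := mul_le_mul_of_nonneg_left h4 h5.le
      have h7 : (p : ℚ) ^ (s - i) * (-B * (p : ℚ) ^ i / (p : ℚ) ^ s)
          = -B * ((p : ℚ) ^ (s - i) * ((p : ℚ) ^ i / (p : ℚ) ^ s)) := by ring
      rw [h7, T7_pow_sub (p := p) his', mul_one] at h6
      exact h6
    have h3 : (p : ℚ) ^ (s - i) * ((l : ℚ) / (p : ℚ) ^ e) ≠ -B := by
      rw [← hl0B]
      intro h4
      have h5 : (p : ℚ) ^ (s - i) * (l : ℚ) = (p : ℚ) ^ (s - i0) * (l0 : ℚ) := by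
        have h6 : (p : ℚ) ^ e ≠ 0 := pow_ne_zero _ hpq.ne'
        rw [← mul_div_assoc, ← mul_div_assoc, div_left_inj' h6] at h4
        exact h4
      have h7 : (p : ℤ) ^ (s - i) * l = (p : ℤ) ^ (s - i0) * l0 := by
        exact_mod_cast h5
      exact T7_ne his' hi0 hii0 hlp hl0p h7
    have h4 : -B < (p : ℚ) ^ (s - i) * ((l : ℚ) / (p : ℚ) ^ e) := lt_of_le_of_ne h2 (Ne.symm h3)
    linarith

/-- the converse -/
theorem Bd_of_v_Ds (V : VF k L) (M : Subfield L) {e n s : ℕ} {δ : ℚ} (hM : Lvl p V M e)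
    (hd : Dv p V M e δ) {g : WittVector p L} (hg : InM p M n g) (hr : Red p V e n g)
    (hs : s < n) {B : ℚ} (hB : 0 < B) (h : V.v (Ds p V s g) = qv (-B - δ)) :
    Bd p V s B g := by
  have hpq : (0 : ℚ) < (p : ℚ) := T7_ppos
  -- the numbers `p^(s-i) (-v(g_i))`, `0` if the coordinate vanishes
  have hval : ∀ i, ∃ b : ℚ, (g.coeff i = 0 → b = 0) ∧
      (i ≤ s → g.coeff i ≠ 0 → V.v (g.coeff i) = qv (-b * (p : ℚ) ^ i / (p : ℚ) ^ s)) := by
    intro i
    by_cases h0 : g.coeff i = 0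
    · exact ⟨0, fun _ => rfl, fun _ h1 => absurd h0 h1⟩
    · by_cases his : i ≤ s
      · obtain ⟨z, hz⟩ := hM.2.1 _ (hg i (lt_of_le_of_lt his hs)) h0
        refine ⟨-((z : ℚ) / (p : ℚ) ^ e) * (p : ℚ) ^ (s - i), fun h1 => absurd h1 h0, ?_⟩
        intro _ _
        rw [hz]
        congr 1
        have h2 := T7_pow_sub (p := p) his
        have h3 : -(-((z : ℚ) / (p : ℚ) ^ e) * (p : ℚ) ^ (s - i)) * (p : ℚ) ^ i / (p : ℚ) ^ s
            = ((z : ℚ) / (p : ℚ) ^ e) * ((p : ℚ) ^ (s - i) * ((p : ℚ) ^ i / (p : ℚ) ^ s)) := by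
          ring
        rw [h3, h2, mul_one]
      · exact ⟨0, fun _ => rfl, fun h1 => absurd h1 his⟩
  choose b hb0 hb1 using hval
  obtain ⟨i0, hi0, hmax⟩ := Finset.exists_max_image (Finset.range (s + 1)) b ⟨0, by simp⟩
  have hi0s : i0 ≤ s := Nat.le_of_lt_succ (Finset.mem_range.mp hi0)
  by_cases hpos : 0 < b i0
  · have hi00 : g.coeff i0 ≠ 0 := fun h1 => by
      have := hb0 i0 h1
      linarith
    have hBd : Bd p V s (b i0) g := by
      refine ⟨?_, i0, hi0s, hb1 i0 hi0s hi00⟩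
      intro i hi
      by_cases h0 : g.coeff i = 0
      · rw [h0, V.v_zero]
        exact le_top
      · rw [hb1 i hi h0]
        apply WithTop.coe_le_coe.mpr
        have h1 := hmax i (Finset.mem_range.mpr (Nat.lt_succ_of_le hi))
        have h2 : (0 : ℚ) ≤ (p : ℚ) ^ i / (p : ℚ) ^ s := by positivity
        have h3 := mul_le_mul_of_nonneg_right h1 h2
        have h4 : -(b i0) * (p : ℚ) ^ i / (p : ℚ) ^ s
            = -(b i0 * ((p : ℚ) ^ i / (p : ℚ) ^ s)) := by ring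
        have h5 : -(b i) * (p : ℚ) ^ i / (p : ℚ) ^ s
            = -(b i * ((p : ℚ) ^ i / (p : ℚ) ^ s)) := by ring
        rw [h4, h5]
        linarith
    have h1 := v_Ds_of_Bd V M hM hd hg hr hs hpos hBd
    rw [h] at h1
    have h2 : -B - δ = -(b i0) - δ := WithTop.coe_injective h1
    have h3 : B = b i0 := by linarith
    rw [h3]
    exact hBd
  · exfalso
    push Not at hpos
    have h1 : qv (-δ) ≤ V.v (Ds p V s g) := by
      unfold Ds
      apply T7_le_sum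
      intro i hi
      have his : i ≤ s := Nat.le_of_lt_succ (Finset.mem_range.mp hi)
      apply T7_nonneg V M hM hd (hg i (lt_of_le_of_lt his hs))
      by_cases h0 : g.coeff i = 0
      · rw [h0, V.v_zero]
        exact le_top
      · rw [hb1 i his h0]
        have h1 := hmax i hi
        have h2 : b i ≤ 0 := le_trans h1 hpos
        show ((0 : ℚ) : WithTop ℚ) ≤ ((-(b i) * (p : ℚ) ^ i / (p : ℚ) ^ s : ℚ) : WithTop ℚ)
        apply WithTop.coe_le_coe.mpr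
        have h3 : 0 ≤ -(b i) := by linarith
        positivity
    rw [h] at h1
    have h2 : -δ ≤ -B - δ := WithTop.coe_le_coe.mp h1
    linarith

/-- general lower bound: if `g_0, ..., g_s` satisfy the bounds of `Fl` for `x`, then
`v(Ds s g) ≥ -x p^s - δ` (`x ≥ 0`). -/
theorem le_v_Ds (V : VF k L) (M : Subfield L) {e s : ℕ} {δ : ℚ} (hM : Lvl p V M e)
    (hd : Dv p V M e δ) {g : WittVector p L} (hg : InM p M (s + 1) g) {x : ℚ} (hx : 0 ≤ x)
    (h : Fl p V x (s + 1) g) : qv (-x * (p : ℚ) ^ s - δ) ≤ V.v (Ds p V s g) := by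
  unfold Ds
  apply T7_le_sum
  intro i hi
  have his1 : i < s + 1 := Finset.mem_range.mp hi
  have his : i ≤ s := Nat.le_of_lt_succ his1
  by_cases h0 : g.coeff i = 0
  · rw [T7_zero V _ h0]
    exact le_top
  · obtain ⟨z, hz⟩ := hM.2.1 _ (hg i his1) h0
    refine le_trans ?_ (T7_term V M hd (hg i his1) hz (s - i)).1
    apply WithTop.coe_le_coe.mpr
    have h1 := h i his1
    rw [hz] at h1
    have h2 : -x * (p : ℚ) ^ i ≤ (z : ℚ) / (p : ℚ) ^ e := WithTop.coe_le_coe.mp h1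
    have hpq : (0 : ℚ) < (p : ℚ) := T7_ppos
    have h3 : (0 : ℚ) ≤ (p : ℚ) ^ (s - i) := by positivity
    have h4 := mul_le_mul_of_nonneg_left h2 h3
    have h5 : (p : ℚ) ^ (s - i) * (-x * (p : ℚ) ^ i) = -x * (p : ℚ) ^ s := by
      have h6 : (p : ℚ) ^ s = (p : ℚ) ^ (s - i) * (p : ℚ) ^ i := by
        rw [← pow_add]
        congr 1
        omega
      rw [h6]
      ring
    rw [h5] at h4
    linarith

end Pool.Agent.WC
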