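import Pool.Agent.WC.T3
import Pool.Agent.WC.T5
import Pool.Agent.WC.T6
import Pool.Agent.WC.T7

/-! # One step of the tower (piece WC-T8) -/

namespace Pool.Agent.WC

open Pool.Agent.WD

universe u w

variable {p : ℕ} [Fact p.Prime] {k : Type u} [Field k] [CharP k p] [PerfectRing k p]
  {L : Type w} [Field L] [CharP L p]

private theorem T8_ppos (p : ℕ) [Fact p.Prime] : (0 : ℚ) < (p : ℚ) := by
  exact_mod_cast (Fact.out : p.Prime).pos

private theorem T8_p2 (p : ℕ) [Fact p.Prime] : (2 : ℚ) ≤ (p : ℚ) := by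
  exact_mod_cast (Fact.out : p.Prime).two_le

private theorem T8_sub0 (a b : WittVector p L) : (a - b).coeff 0 = a.coeff 0 - b.coeff 0 :=
  map_sub (WittVector.constantCoeff : WittVector p L →+* L) a b

private theorem T8_frob (T : L) : WittVector.frobenius (WittVector.teichmuller p T) =
    WittVector.teichmuller p (T ^ p) := by
  ext i
  rw [WittVector.coeff_frobenius_charP]
  rcases Nat.eq_zero_or_pos i with rfl | hi
  · rw [WittVector.teichmuller_coeff_zero, WittVector.teichmuller_coeff_zero]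
  · rw [WittVector.teichmuller_coeff_pos p _ _ hi, WittVector.teichmuller_coeff_pos p _ _ hi,
      zero_pow (Fact.out : p.Prime).ne_zero]

private theorem T8_FV (a : WittVector p L) :
    WittVector.frobenius (WittVector.verschiebung a) =
      WittVector.verschiebung (WittVector.frobenius a) := by
  rw [WittVector.frobenius_verschiebung, WittVector.verschiebung_frobenius]

/-- `p β_s ≤ β_{s+1}` and the value of `g_0`  -/
theorem TD.mono {V : VF k L} {n e : ℕ} {δ : ℚ} {M : Subfield L} {g z : WittVector p L}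
    {β : ℕ → ℚ} (h : TD p V n e δ M g z β) {s : ℕ} (hs : s + 1 < n) :
    (p : ℚ) * β s ≤ β (s + 1) := by
  obtain ⟨-, i, hi, hv⟩ := h.bd s (by omega)
  have h1 := (h.bd (s + 1) hs).1 i (by omega)
  rw [hv] at h1
  have h2 : -β (s + 1) * (p : ℚ) ^ i / (p : ℚ) ^ (s + 1) ≤ -β s * (p : ℚ) ^ i / (p : ℚ) ^ s :=
    WithTop.coe_le_coe.1 h1
  have hp := T8_ppos p
  have h3 : (0 : ℚ) < (p : ℚ) ^ i / (p : ℚ) ^ (s + 1) := by positivity
  have h4 : -β (s + 1) * (p : ℚ) ^ i / (p : ℚ) ^ (s + 1) =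
      (-β (s + 1)) * ((p : ℚ) ^ i / (p : ℚ) ^ (s + 1)) := by ring
  have h5 : -β s * (p : ℚ) ^ i / (p : ℚ) ^ s =
      (-((p : ℚ) * β s)) * ((p : ℚ) ^ i / (p : ℚ) ^ (s + 1)) := by
    rw [pow_succ]
    field_simp
  rw [h4, h5] at h2
  have h6 := le_of_mul_le_mul_right h2 h3
  linarith

theorem TD.zero {V : VF k L} {n e : ℕ} {δ : ℚ} {M : Subfield L} {g z : WittVector p L}
    {β : ℕ → ℚ} (h : TD p V n e δ M g z β) (hn : 0 < n) :
    ∃ l : ℤ, l < 0 ∧ ¬ (p : ℤ) ∣ l ∧ β 0 = -(l : ℚ) / (p : ℚ) ^ e ∧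
      V.v (g.coeff 0) = qv ((l : ℚ) / (p : ℚ) ^ e) ∧
      V.v (z.coeff 0) = qv ((l : ℚ) / (p : ℚ) ^ (e + 1)) ∧
      z.coeff 0 ^ p - z.coeff 0 = g.coeff 0 := by
  have hp := T8_ppos p
  have hβ := h.pos hn
  have hv : V.v (g.coeff 0) = qv (-β 0) := by
    obtain ⟨-, i, hi, hv⟩ := h.bd 0 hn
    obtain rfl : i = 0 := by omega
    rw [hv]
    simp
  have hz : z.coeff 0 ^ p - z.coeff 0 = g.coeff 0 := by
    rw [← h.eq 0 hn, T8_sub0, WittVector.coeff_frobenius_charP]
  rcases h.red 0 hn with h0 | ⟨l, hl, hvl⟩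
  · exfalso
    rw [hv] at h0
    have : (0 : ℚ) ≤ -β 0 := WithTop.coe_le_coe.1 h0
    linarith
  · have h1 : -β 0 = (l : ℚ) / (p : ℚ) ^ e := by
      rw [hv] at hvl
      exact WithTop.coe_injective hvl
    have h2 : β 0 = -(l : ℚ) / (p : ℚ) ^ e := by
      rw [neg_div, ← h1, neg_neg]
    have hl0 : (l : ℚ) < 0 := by
      by_contra hge
      have : 0 ≤ (l : ℚ) / (p : ℚ) ^ e := div_nonneg (not_lt.1 hge) (by positivity)
      linarith
    refine ⟨l, by exact_mod_cast hl0, hl, h2, hvl, ?_, hz⟩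
    have h3 : V.v (z.coeff 0 ^ p - z.coeff 0) = qv ((l : ℚ) / (p : ℚ) ^ e) := by
      rw [hz, hvl]
    rw [v_of_root V (by rw [← h1]; linarith) h3]
    congr 1
    rw [pow_succ, div_div]

private theorem T8_ge {V : VF k L} {n e : ℕ} {δ : ℚ} {M : Subfield L} {g z : WittVector p L}
    {β : ℕ → ℚ} (h : TD p V n e δ M g z β) (s : ℕ) (hs : s < n) :
    (p : ℚ) ^ s * β 0 ≤ β s := by
  induction s with
  | zero => rw [pow_zero, one_mul]
  | succ s ih =>
    have h1 := ih (by omega)
    have h2 := h.mono hs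
    have hp := T8_ppos p
    calc (p : ℚ) ^ (s + 1) * β 0 = p * ((p : ℚ) ^ s * β 0) := by rw [pow_succ]; ring
      _ ≤ p * β s := mul_le_mul_of_nonneg_left h1 hp.le
      _ ≤ β (s + 1) := h2

private theorem T8_quot {V : VF k L} {n e : ℕ} {δ : ℚ} {M : Subfield L} {g z : WittVector p L}
    {β : ℕ → ℚ} (h : TD p V n e δ M g z β) (s t : ℕ) (hst : s ≤ t) (ht : t < n) :
    β s / (p : ℚ) ^ s ≤ β t / (p : ℚ) ^ t := by
  induction t, hst using Nat.le_induction with
  | base => exact le_rfl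
  | succ t hst ih =>
    refine (ih (by omega)).trans ?_
    have hp := T8_ppos p
    have h2 := h.mono ht
    rw [div_le_div_iff₀ (by positivity) (by positivity), pow_succ]
    calc β t * ((p : ℚ) ^ t * p) = (p * β t) * (p : ℚ) ^ t := by ring
      _ ≤ β (t + 1) * (p : ℚ) ^ t := mul_le_mul_of_nonneg_right h2 (by positivity)

private theorem T8_qv_add (x y : ℚ) : qv x + qv y = qv (x + y) := rfl

private theorem T8_nsmul (n : ℕ) (x : ℚ) : n • qv x = qv (n * x) := by
  rw [← WithTop.coe_nsmul, nsmul_eq_mul]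

/-- With `y = z_0`: `g - (F - 1)[y] = V(g')` over `M(y)`, and
`Ds (s-1) g' = Ds s g - y^(p^s - 1) d g_0` has value `-β_s - δ` for `s ≥ 1`. Reduce `g'` with the
bounds `b_i = p β_{i+1} / p^(i+1)`: `g'' = g' - (F - 1) c` and `Ds (s-1) c` has value
`≥ -β_s / p - δ' > -β_s - δ`, so `Ds (s-1) g''` has value `-β_s - δ = -β''_{s-1} - δ'`. -/
theorem step (V : VF k L) {n e : ℕ} {δ : ℚ} {M : Subfield L} {g z : WittVector p L}
    {β : ℕ → ℚ} (h : TD p V (n + 1) e δ M g z β) :
    ∃ g' z' c : WittVector p L, InM p (adj M (z.coeff 0)) n c ∧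
      (∀ i < n, (z' + c).coeff i = z.coeff (i + 1)) ∧
      TD p V n (e + 1) (δ + ((p : ℚ) - 1) / p * β 0) (adj M (z.coeff 0)) g' z'
        (fun s => β (s + 1) - ((p : ℚ) - 1) / p * β 0) := by
  have hp := T8_ppos p
  have hp2 := T8_p2 p
  have hpp : p.Prime := Fact.out
  obtain ⟨l, hl0, hlp, hβ, hvg, hvy, hw⟩ := h.zero (Nat.succ_pos n)
  have hβ0 := h.pos (Nat.succ_pos n)
  set y := z.coeff 0 with hy
  set M' := adj M y with hM'
  have hle : M ≤ M' := fun x hx => Subfield.subset_closure (Or.inl hx)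
  have hyM : y ∈ M' := Subfield.subset_closure (Or.inr rfl)
  have hg0 : g.coeff 0 ∈ M := h.gM 0 (Nat.succ_pos n)
  have hwM : y ^ p - y ∈ M := by rw [hw]; exact hg0
  have hlvl : Lvl p V M' (e + 1) := lvl_adj V M h.lvl hwM hlp hvy
  have hδ : δ + ((p : ℚ) - 1) / p * β 0 =
      δ + ((p : ℚ) - 1) * (-l) / (p : ℚ) ^ (e + 1) := by
    rw [hβ, pow_succ]
    field_simp
  have hdv : Dv p V M' (e + 1) (δ + ((p : ℚ) - 1) / p * β 0) := by
    rw [hδ]
    exact dv_adj V M h.lvl h.dv hwM hlp hl0 hvy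
  -- the vector `G`
  set Y : WittVector p L := WittVector.teichmuller p y with hY
  set G : WittVector p L := g - (WittVector.frobenius Y - Y) with hG
  have hG0 : G.coeff 0 = 0 := by
    rw [hG, T8_sub0, T8_sub0, hY, T8_frob, WittVector.teichmuller_coeff_zero,
      WittVector.teichmuller_coeff_zero, hw, sub_self]
  set g1 : WittVector p L := WittVector.mk p fun i => G.coeff (i + 1) with hg1
  have hGV : G = WittVector.verschiebung g1 := by
    have h0 := eq_teichmuller_add G
    rw [hG0, WittVector.teichmuller_zero, zero_add] at h0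
    exact h0
  have hg1c : ∀ i, g1.coeff i = G.coeff (i + 1) := fun i => by rw [hg1, WittVector.coeff_mk]
  -- the vector `Z`
  set Z : WittVector p L := WittVector.mk p fun i => z.coeff (i + 1) with hZ
  have hzV : z = Y + WittVector.verschiebung Z := eq_teichmuller_add z
  have hZc : ∀ i, Z.coeff i = z.coeff (i + 1) := fun i => by rw [hZ, WittVector.coeff_mk]
  have hVZ : WittVector.verschiebung (WittVector.frobenius Z - Z) =
      (WittVector.frobenius z - z) - (WittVector.frobenius Y - Y) := by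
    rw [map_sub, ← T8_FV]
    conv_rhs => rw [hzV]
    rw [map_add]
    ring
  have hZeq : ∀ i < n, (WittVector.frobenius Z - Z).coeff i = g1.coeff i := by
    intro i hi
    have h1 : ((WittVector.frobenius z - z) - (WittVector.frobenius Y - Y)).coeff (i + 1) =
        G.coeff (i + 1) :=
      coeff_sub_congr (n := n + 1) h.eq (fun _ _ => rfl) (i + 1) (by omega)
    rw [← hVZ, hGV, WittVector.verschiebung_coeff_succ, WittVector.verschiebung_coeff_succ] at h1
    exact h1
  -- coefficients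
  have hYM : ∀ i, Y.coeff i ∈ M' := by
    intro i
    rcases Nat.eq_zero_or_pos i with rfl | hi
    · rw [hY, WittVector.teichmuller_coeff_zero]; exact hyM
    · rw [hY, WittVector.teichmuller_coeff_pos p _ _ hi]; exact zero_mem _
  have hFYM : ∀ i, (WittVector.frobenius Y).coeff i ∈ M' := by
    intro i
    rw [WittVector.coeff_frobenius_charP]
    exact pow_mem (hYM i) p
  have hGM : ∀ i < n + 1, G.coeff i ∈ M' := by
    have h1 : ∀ i < n + 1, (WittVector.frobenius Y - Y).coeff i ∈ M'.toSubring :=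
      coeff_sub_mem M'.toSubring (fun i _ => hFYM i) (fun i _ => hYM i)
    exact coeff_sub_mem M'.toSubring (fun i hi => hle (h.gM i hi)) h1
  have hg1M : InM p M' n g1 := by
    intro i hi
    rw [hg1c]
    exact hGM (i + 1) (by omega)
  -- values of `y` and `d y`
  have hvy' : V.v y = qv (-β 0 / p) := by
    rw [hvy, hβ, pow_succ]
    congr 1
    field_simp
  have hvdy : V.v (V.dd y) = qv (-β 0 - δ) := by
    have h1 : V.dd (g.coeff 0) = - V.dd y := by
      rw [← hw, map_sub, Derivation.leibniz_pow, nsmul_eq_mul, CharP.cast_eq_zero L p, zero_mul,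
        zero_sub]
    have h2 := (h.dv (g.coeff 0) hg0 l hvg).2 hlp
    rw [h1, V.v_neg] at h2
    rw [h2]
    congr 1
    rw [hβ]
    ring
  -- the value of `Ds s g1`
  have hDs1 : ∀ s, Ds p V s g1 = Ds p V (s + 1) g + y ^ (p ^ (s + 1) - 1) * V.dd y := by
    intro s
    rw [← Ds_verschiebung, ← hGV, hG, Ds_sub, Ds_sub, Ds_frobenius, hY, Ds_teichmuller]
    ring
  have hβpos : ∀ s < n + 1, 0 < β s := by
    intro s hs
    have := T8_ge h s hs
    have h1 : 0 < (p : ℚ) ^ s * β 0 := by positivity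
    linarith
  have hps : ∀ s : ℕ, (2 : ℚ) * p ≤ (p : ℚ) ^ (s + 2) := by
    intro s
    have h1 : (1 : ℚ) ≤ (p : ℚ) ^ s := one_le_pow₀ (by linarith)
    have h2 : (p : ℚ) ^ (s + 2) = (p : ℚ) ^ s * (p * p) := by ring
    rw [h2]
    nlinarith
  have hv1 : ∀ s < n, V.v (Ds p V s g1) = qv (-β (s + 1) - δ) := by
    intro s hs
    have h1 : V.v (Ds p V (s + 1) g) = qv (-β (s + 1) - δ) :=
      v_Ds_of_Bd V M h.lvl h.dv h.gM h.red (by omega) (hβpos _ (by omega))
        (h.bd (s + 1) (by omega))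
    have h2 : V.v (y ^ (p ^ (s + 1) - 1) * V.dd y) =
        qv (((p : ℚ) ^ (s + 1) - 1) * (-β 0 / p) + (-β 0 - δ)) := by
      rw [V.v_mul, V.v_pow, hvy', hvdy, T8_nsmul, T8_qv_add]
      congr 2
      have : 1 ≤ p ^ (s + 1) := Nat.one_le_pow _ _ hpp.pos
      push_cast [Nat.cast_sub this]
      ring
    have h3 : V.v (Ds p V (s + 1) g) < V.v (y ^ (p ^ (s + 1) - 1) * V.dd y) := by
      rw [h1, h2]
      apply WithTop.coe_lt_coe.2
      have h4 := T8_ge h (s + 1) (by omega)
      have h5 : ((p : ℚ) ^ (s + 1) - 1) * (-β 0 / p) = -((p : ℚ) ^ s * β 0) + β 0 / p := by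
        rw [pow_succ]
        field_simp
        ring
      have h6 : (p : ℚ) ^ (s + 1) * β 0 = p * ((p : ℚ) ^ s * β 0) := by rw [pow_succ]; ring
      have h7 : β 0 ≤ (p : ℚ) ^ s * β 0 := by
        have : (1 : ℚ) ≤ (p : ℚ) ^ s := one_le_pow₀ (by linarith)
        nlinarith
      have h8 : 0 < β 0 / p := by positivity
      rw [h5]
      nlinarith
    rw [hDs1, V.v_add_of_lt h3, h1]
  -- the bounds
  set b : ℕ → ℚ := fun i => p * (β (min (i + 1) n) / (p : ℚ) ^ (min (i + 1) n)) with hb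
  have hb0 : ∀ i, 0 ≤ b i := by
    intro i
    have := hβpos (min (i + 1) n) (by omega)
    simp only [hb]
    positivity
  have hbm : Monotone b := by
    intro i j hij
    simp only [hb]
    exact mul_le_mul_of_nonneg_left (T8_quot h _ _ (by omega) (by omega)) hp.le
  have hbi : ∀ i < n, b i = p * (β (i + 1) / (p : ℚ) ^ (i + 1)) := by
    intro i hi
    simp only [hb]
    rw [min_eq_left (by omega)]
  have hab : ∀ i < n, Fl p V (b i) (i + 1) g1 := by
    intro i hi
    rw [hbi i hi]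
    have hx : 0 ≤ β (i + 1) / (p : ℚ) ^ (i + 1) := by
      have := hβpos (i + 1) (by omega)
      positivity
    rw [← Fl_verschiebung hx, ← hGV, hG]
    have hge := T8_quot h 0 (i + 1) (Nat.zero_le _) (by omega)
    rw [pow_zero, div_one] at hge
    have f1 : Fl p V (β (i + 1) / (p : ℚ) ^ (i + 1)) (i + 1 + 1) g := by
      intro j hj
      have := (h.bd (i + 1) (by omega)).1 j (by omega)
      refine le_trans (le_of_eq ?_) this
      congr 1
      ring
    have f2 : Fl p V (β (i + 1) / (p : ℚ) ^ (i + 1)) (i + 1 + 1) Y := by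
      have := Fl.iterate (V := V) (m := 0) (n := i + 1 + 1) (y := y) hx (by
        rw [hvy', pow_zero, mul_one]
        apply WithTop.coe_le_coe.2
        have h1 : β 0 / p ≤ β 0 := div_le_self hβ0.le (by linarith)
        have h2 : -β 0 / (p : ℚ) = -(β 0 / p) := by ring
        rw [h2]
        linarith)
      exact this
    have f3 : Fl p V (β (i + 1) / (p : ℚ) ^ (i + 1)) (i + 1 + 1) (WittVector.frobenius Y) := by
      have := Fl.iterate (V := V) (m := 0) (n := i + 1 + 1) (y := y ^ p) hx (by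
        rw [V.v_pow, hvy', pow_zero, mul_one, T8_nsmul]
        apply WithTop.coe_le_coe.2
        have h2 : (p : ℚ) * (-β 0 / (p : ℚ)) = -β 0 := by field_simp
        rw [h2]
        linarith)
      rw [hY, T8_frob]
      exact this
    exact f1.sub (f3.sub f2)
  obtain ⟨c, hc1, hc2, hc3, -, hc5⟩ := reduce V M' hlvl n b hb0 hbm g1 hg1M hab
  refine ⟨g1 - (WittVector.frobenius c - c), Z - c, c, hc1, ?_, ?_⟩
  · intro i _
    rw [sub_add_cancel, hZc]
  · have hβ' : ∀ s < n, 0 < β (s + 1) - ((p : ℚ) - 1) / p * β 0 := by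
      intro s hs
      have h1 := T8_ge h (s + 1) (by omega)
      have h2 : (1 : ℚ) ≤ (p : ℚ) ^ (s + 1) := one_le_pow₀ (by linarith)
      have h3 : ((p : ℚ) - 1) / p < 1 := by
        rw [div_lt_one hp]; linarith
      nlinarith
    refine ⟨hlvl, hdv, ?_, hc3, hc5, ?_, fun hn => hβ' 0 hn⟩
    · intro i hi
      have h1 : WittVector.frobenius (Z - c) - (Z - c) =
          (WittVector.frobenius Z - Z) - (WittVector.frobenius c - c) := by
        rw [map_sub]; ring
      rw [h1]
      exact coeff_sub_congr hZeq (fun _ _ => rfl) i hi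
    · intro s hs
      refine Bd_of_v_Ds V M' hlvl hdv hc3 hc5 hs (hβ' s hs) ?_
      have h1 : Ds p V s (g1 - (WittVector.frobenius c - c)) = Ds p V s g1 + Ds p V s c := by
        rw [Ds_sub, Ds_sub, Ds_frobenius]; ring
      have h2 : qv (-(b s / p) * (p : ℚ) ^ s - (δ + ((p : ℚ) - 1) / p * β 0)) ≤
          V.v (Ds p V s c) :=
        le_v_Ds V M' hlvl hdv (fun i hi => hc1 i (by omega)) (div_nonneg (hb0 s) hp.le)
          (hc2 s hs)
      have h3 : V.v (Ds p V s g1) < V.v (Ds p V s c) := by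
        rw [hv1 s hs]
        refine lt_of_lt_of_le (WithTop.coe_lt_coe.2 ?_) h2
        rw [hbi s hs]
        have h4 : -(p * (β (s + 1) / (p : ℚ) ^ (s + 1)) / p) * (p : ℚ) ^ s = -(β (s + 1) / p) := by
          rw [pow_succ]
          field_simp
        rw [h4]
        have h5 := T8_ge h (s + 1) (by omega)
        have h6 : β 0 < β (s + 1) := by
          have : (p : ℚ) ≤ (p : ℚ) ^ (s + 1) := by
            rw [pow_succ]
            have : (1 : ℚ) ≤ (p : ℚ) ^ s := one_le_pow₀ (by linarith)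
            nlinarith
          nlinarith
        have h7 : ((p : ℚ) - 1) / p * β 0 < ((p : ℚ) - 1) / p * β (s + 1) :=
          mul_lt_mul_of_pos_left h6 (div_pos (by linarith) hp)
        have h8 : ((p : ℚ) - 1) / p * β (s + 1) = β (s + 1) - β (s + 1) / p := by
          field_simp
        linarith
      rw [h1, V.v_add_of_lt h3, hv1 s hs]
      congr 1
      ring

end Pool.Agent.WC
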